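import Pool.Agent.Lib_helper38.Adj.Gen

/-!
# Drawings of graphs on closed surfaces
-/

namespace Pool.Agent.Lib_helper38.Adj

open Relation Function

variable {Φ : Type*}

namespace FMap

variable (M : FMap Φ)

theorem chi4_eq [Fintype Φ] : M.chi4 = 4 * M.chi := by
  have h := M.four_nE
  rw [Nat.card_eq_fintype_card] at h
  unfold chi4 chi
  have h' : (4 : ℤ) * M.nE = Fintype.card Φ := by exact_mod_cast h
  linarith

end FMap

namespace Drawing

variable {W : Type*} {G : SimpleGraph W} {M : FMap Φ} (D : Drawing G M)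

/-- the edges through a point -/
def through (p : M.Vert) : Set (Sym2 W) :=
  {e | ∃ (u w : W) (h : G.Adj u w), e = s(u, w) ∧ p ∈ (D.arc h).support}

theorem through_general {p : M.Vert} (hp : ∀ z, p ≠ D.pt z) {e f g : Sym2 W}
    (he : e ∈ D.through p) (hf : f ∈ D.through p) (hg : g ∈ D.through p) :
    e = f ∨ e = g ∨ f = g := by
  obtain ⟨u, w, h, rfl, h1⟩ := he
  obtain ⟨u', w', h', rfl, h1'⟩ := hf
  obtain ⟨u'', w'', h'', rfl, h1''⟩ := hg
  exact D.general p hp h h' h'' h1 h1' h1''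

theorem through_pt {w : W} {e : Sym2 W} (he : e ∈ D.through (D.pt w)) : w ∈ e := by
  obtain ⟨u, v, h, rfl, h1⟩ := he
  rw [Sym2.mem_iff]
  exact D.arc_pt h w h1

theorem indep_iff {p : M.Vert} : p ∈ D.indep ↔
    ∃ e ∈ D.through p, ∃ f ∈ D.through p, ∀ w, w ∈ e → w ∉ f := by
  constructor
  · rintro ⟨u, w, u', w', h, h', h1, h2, h3, h4, h5, h6⟩
    refine ⟨_, ⟨u, w, h, rfl, h1⟩, _, ⟨u', w', h', rfl, h2⟩, ?_⟩
    intro z hz hz'
    rw [Sym2.mem_iff] at hz hz'
    rcases hz with rfl | rfl <;> rcases hz' with rfl | rfl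
    · exact h3 rfl
    · exact h4 rfl
    · exact h5 rfl
    · exact h6 rfl
  · rintro ⟨e, ⟨u, w, h, rfl, h1⟩, f, ⟨u', w', h', rfl, h2⟩, h3⟩
    refine ⟨u, w, u', w', h, h', h1, h2, ?_, ?_, ?_, ?_⟩
    · rintro rfl; exact h3 u (Sym2.mem_mk_left _ _) (Sym2.mem_mk_left _ _)
    · rintro rfl; exact h3 u (Sym2.mem_mk_left _ _) (Sym2.mem_mk_right _ _)
    · rintro rfl; exact h3 w (Sym2.mem_mk_right _ _) (Sym2.mem_mk_left _ _)
    · rintro rfl; exact h3 w (Sym2.mem_mk_right _ _) (Sym2.mem_mk_right _ _)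

/-- paths in the 1-skeleton through vertices with good labels -/
theorem lk_of_walk (M : FMap Φ) (K : Φ → Prop) : ∀ {p q : M.Vert} (c : M.skel.Walk p q),
    (∀ r ∈ c.support, ∀ x, Quotient.mk M.rV x = r → K x) →
    ∀ x y, Quotient.mk M.rV x = p → Quotient.mk M.rV y = q → M.lk K x y := by
  intro p q c
  induction c with
  | nil =>
    intro _ x y hx hy
    exact M.lk_rV (Quotient.exact (hx.trans hy.symm))
  | @cons p r q hadj c ih =>
    intro hK x y hx hy
    obtain ⟨z, hz1, hz2⟩ := hadj.2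
    have h1 : M.rV x z := Quotient.exact (hx.trans hz1.symm)
    have h2 : K z := hK p (by simp) z hz1
    have h3 : K (M.a0 z) := hK r (by simp) (M.a0 z) hz2
    exact Setoid.trans' _ (M.lk_rV h1) (Setoid.trans' _ (M.lk_a0 h2 h3)
      (ih (fun r hr => hK r (by simp [hr])) (M.a0 z) y hz2 hy))

/-- From a drawing on a connected surface one gets a labelled map after deleting one edge for each
point at which independent edges meet. -/
theorem exists_lmap [Finite W] [Nonempty W] [Finite Φ] (hM : M.Conn) :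
    ∃ (G' : SimpleGraph W) (L : LMap G' Φ), L.toFMap = M ∧ G' ≤ G ∧
      Nat.card G.edgeSet ≤ Nat.card G'.edgeSet + D.indep.ncard := by
  classical
  have hind : ∀ p : D.indep, ∃ ef : Sym2 W × Sym2 W, ef.1 ∈ D.through p.1 ∧
      ef.2 ∈ D.through p.1 ∧ ∀ w, w ∈ ef.1 → w ∉ ef.2 := by
    rintro ⟨p, hp⟩
    obtain ⟨e, he, f, hf, h⟩ := D.indep_iff.1 hp
    exact ⟨(e, f), he, hf, h⟩
  choose ef hef1 hef2 hef3 using hind
  set del : Set (Sym2 W) := Set.range (fun p => (ef p).2) with hdel
  set G' := G.deleteEdges del with hG'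
  have hne : ∀ e : Sym2 W, ∃ w, w ∈ e := by
    intro e
    induction e using Sym2.ind with | _ a b => exact ⟨a, Sym2.mem_mk_left _ _⟩
  obtain ⟨w0⟩ := ‹Nonempty W›
  -- the labels
  have hlab : ∀ p : M.Vert, ∃ l : W, (∀ w, p = D.pt w → l = w) ∧
      ∀ e ∈ D.through p, e ∉ del → l ∈ e := by
    intro p
    by_cases hp : ∃ w, p = D.pt w
    · obtain ⟨w, rfl⟩ := hp
      exact ⟨w, fun w' h => D.pt_inj h, fun e he _ => D.through_pt he⟩
    · push Not at hp
      by_cases hi : p ∈ D.indep
      · obtain ⟨l, hl⟩ := hne (ef ⟨p, hi⟩).1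
        refine ⟨l, fun w h => absurd h (hp w), fun e he hed => ?_⟩
        rcases D.through_general hp (hef1 ⟨p, hi⟩) (hef2 ⟨p, hi⟩) he with h | h | h
        · exact absurd (h ▸ hl) (hef3 ⟨p, hi⟩ l hl)
        · rw [← h]; exact hl
        · exact absurd ⟨⟨p, hi⟩, h⟩ hed
      · have hi' : ∀ e ∈ D.through p, ∀ f ∈ D.through p, ∃ w, w ∈ e ∧ w ∈ f := by
          intro e he f hf
          by_contra h
          push Not at h
          exact hi (D.indep_iff.2 ⟨e, he, f, hf, h⟩)
        by_cases hemp : ∃ e, e ∈ D.through p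
        · obtain ⟨e, he⟩ := hemp
          by_cases hall : ∀ f ∈ D.through p, f = e
          · obtain ⟨l, hl⟩ := hne e
            exact ⟨l, fun w h => absurd h (hp w), fun f hf _ => by rw [hall f hf]; exact hl⟩
          · push Not at hall
            obtain ⟨f, hf, hfe⟩ := hall
            obtain ⟨l, hl1, hl2⟩ := hi' e he f hf
            refine ⟨l, fun w h => absurd h (hp w), fun g hg _ => ?_⟩
            rcases D.through_general hp he hf hg with h | h | h
            · exact absurd h.symm hfe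
            · rw [← h]; exact hl1
            · rw [← h]; exact hl2
        · exact ⟨w0, fun w h => absurd h (hp w), fun e he => absurd ⟨e, he⟩ hemp⟩
  choose l hl1 hl2 using hlab
  have hrV : ∀ x y, M.rV x y → l (Quotient.mk M.rV x) = l (Quotient.mk M.rV y) := by
    intro x y h
    rw [Quotient.sound h]
  let L : LMap G' Φ :=
    { toFMap := M
      lab := fun x => l (Quotient.mk M.rV x)
      lab1 := fun x => (hrV _ _ (M.rV_a1 x)).symm
      lab2 := fun x => (hrV _ _ (M.rV_a2 x)).symm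
      s := fun w => (D.pt w).out
      lab_s := fun w => hl1 _ w (Quotient.out_eq _)
      comp := fun x => ⟨w0, hM x _⟩
      link := by
        intro v w hvw
        rw [hG', SimpleGraph.deleteEdges_adj] at hvw
        refine lk_of_walk M _ (D.arc hvw.1) ?_ _ _ (Quotient.out_eq _) (Quotient.out_eq _)
        rintro r hr x rfl
        have h1 := hl2 (Quotient.mk M.rV x) s(v, w) ⟨v, w, hvw.1, rfl, hr⟩ hvw.2
        rwa [Sym2.mem_iff] at h1 }
  refine ⟨G', L, rfl, G.deleteEdges_le del, ?_⟩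
  have h1 : G'.edgeSet = G.edgeSet \ del := G.edgeSet_deleteEdges del
  have h2 : G.edgeSet ⊆ G'.edgeSet ∪ del := by
    rw [h1]; intro e he
    by_cases h : e ∈ del
    · exact Or.inr h
    · exact Or.inl ⟨he, h⟩
  have hfin : Finite M.Vert := inferInstance
  have h3 : del.ncard ≤ D.indep.ncard := by
    have : del = (fun p : D.indep => (ef p).2) '' Set.univ := by rw [Set.image_univ]
    rw [this]
    refine (Set.ncard_image_le (Set.toFinite _)).trans ?_
    rw [Set.ncard_univ]
    exact le_of_eq (Nat.card_coe_set_eq _)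
  have h4 := (Set.ncard_le_ncard h2 (Set.toFinite _)).trans (Set.ncard_union_le _ _)
  rw [Nat.card_coe_set_eq, Nat.card_coe_set_eq]
  omega

end Drawing

end Pool.Agent.Lib_helper38.Adj
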