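import Mathlib

/-!
# Closed surfaces as flag systems, and drawings of graphs on them
-/

namespace Pool.Agent.Lib_helper38.Adj

open Function

variable {Φ : Type*}

/-- The equivalence relation generated by `x ~ f x` for all `f` in `F`; its classes are the
orbits when `F` consists of involutions. -/
def gen (F : Set (Φ → Φ)) : Setoid Φ := Relation.EqvGen.setoid (fun x y => ∃ f ∈ F, y = f x)

/-- The number of classes of an equivalence relation. -/
noncomputable def nc (r : Setoid Φ) : ℕ := Nat.card (Quotient r)

/-- A map (cell decomposition) on a closed surface, orientable or not, given by its flags: `a0`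
changes the vertex, `a1` the edge and `a2` the face of a flag. -/
structure FMap (Φ : Type*) where
  a0 : Φ → Φ
  a1 : Φ → Φ
  a2 : Φ → Φ
  i0 : Involutive a0
  i1 : Involutive a1
  i2 : Involutive a2
  f0 : ∀ x, a0 x ≠ x
  f1 : ∀ x, a1 x ≠ x
  f2 : ∀ x, a2 x ≠ x
  comm : ∀ x, a0 (a2 x) = a2 (a0 x)
  f02 : ∀ x, a0 x ≠ a2 x

namespace FMap

variable (M : FMap Φ)

/-- same vertex -/
def rV : Setoid Φ := gen {M.a1, M.a2}
/-- same face -/
def rF : Setoid Φ := gen {M.a1, M.a0}
/-- same edge -/
def rE : Setoid Φ := gen {M.a0, M.a2}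
/-- same component -/
def rC : Setoid Φ := gen {M.a1, M.a0, M.a2}

/-- number of vertices -/
noncomputable def nV : ℕ := nc M.rV
/-- number of faces -/
noncomputable def nF : ℕ := nc M.rF
/-- number of edges -/
noncomputable def nE : ℕ := nc M.rE

/-- connected -/
def Conn : Prop := ∀ x y, M.rC x y

/-- The Euler characteristic: the numbers of vertices minus edges plus faces. -/
noncomputable def chi : ℤ := M.nV - M.nE + M.nF

/-- The vertices of a map: the orbits of flags under `a1` and `a2`. -/
abbrev Vert : Type _ := Quotient M.rV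

/-- The 1-skeleton of a map, as a simple graph on its vertices. -/
def skel : SimpleGraph M.Vert where
  Adj p q := p ≠ q ∧ ∃ x : Φ, Quotient.mk M.rV x = p ∧ Quotient.mk M.rV (M.a0 x) = q
  symm := ⟨by
    rintro p q ⟨h, x, h1, h2⟩
    exact ⟨h.symm, M.a0 x, h2, by rw [M.i0, h1]⟩⟩
  loopless := ⟨fun p h => h.1 rfl⟩

end FMap

/-- A drawing of the graph `G` on the surface of the map `M`: the vertices of `G` are distinct
vertices of `M`, each edge of `G` is a path in the 1-skeleton of `M` that avoids all other vertices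
of `G`, the paths of different edges have no edge of the 1-skeleton in common (so that they meet in
finitely many points), and at most two of them pass through a point that is not a vertex
of `G`. -/
structure Drawing {W : Type*} (G : SimpleGraph W) (M : FMap Φ) where
  pt : W → M.Vert
  pt_inj : Injective pt
  arc : ∀ {u w : W}, G.Adj u w → M.skel.Walk (pt u) (pt w)
  arc_symm : ∀ {u w : W} (h : G.Adj u w), arc h.symm = (arc h).reverse
  arc_path : ∀ {u w : W} (h : G.Adj u w), (arc h).IsPath
  arc_pt : ∀ {u w : W} (h : G.Adj u w) (z : W), pt z ∈ (arc h).support → z = u ∨ z = w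
  arc_edges : ∀ {u w u' w' : W} (h : G.Adj u w) (h' : G.Adj u' w'), s(u, w) ≠ s(u', w') →
    ∀ e ∈ (arc h).edges, e ∉ (arc h').edges
  general : ∀ p : M.Vert, (∀ z, p ≠ pt z) → ∀ {u w u' w' u'' w'' : W} (h : G.Adj u w)
    (h' : G.Adj u' w') (h'' : G.Adj u'' w''), p ∈ (arc h).support → p ∈ (arc h').support →
    p ∈ (arc h'').support →
    s(u, w) = s(u', w') ∨ s(u, w) = s(u'', w'') ∨ s(u', w') = s(u'', w'')

/-- The points at which two independent edges (edges without a common endpoint) meet. -/
def Drawing.indep {W : Type*} {G : SimpleGraph W} {M : FMap Φ} (D : Drawing G M) : Set M.Vert :=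
  {p | ∃ (u w u' w' : W) (h : G.Adj u w) (h' : G.Adj u' w'), p ∈ (D.arc h).support ∧
    p ∈ (D.arc h').support ∧ u ≠ u' ∧ u ≠ w' ∧ w ≠ u' ∧ w ≠ w'}

end Pool.Agent.Lib_helper38.Adj
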