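import Pool.Agent.Lib_helper38.Adj.Defs

/-!
# Orientability of a map
-/

namespace Pool.Agent.Lib_helper38.Adj

/-- The surface of a map is orientable if and only if its flags can be coloured with two colours
so that each of `a0`, `a1`, `a2` changes the colour of each flag. -/
def FMap.Orientable {Φ : Type*} (M : FMap Φ) : Prop :=
  ∃ o : Φ → Bool, ∀ x, o (M.a0 x) ≠ o x ∧ o (M.a1 x) ≠ o x ∧ o (M.a2 x) ≠ o x

end Pool.Agent.Lib_helper38.Adj
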