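import Pool.Agent.Lib_helper38.Adj.LMap

/-!
# Adding a chord to a face
-/

namespace Pool.Agent.Lib_helper38.Adj

open Relation Function

section sum

variable {Φ Ψ : Type*}

theorem gen_sum_inl {F : Set (Φ ⊕ Ψ → Φ ⊕ Ψ)} {F1 : Set (Φ → Φ)}
    (h1 : ∀ f ∈ F, ∃ f1 ∈ F1, (∀ x, f (Sum.inl x) = Sum.inl (f1 x)) ∧
      ∀ y, ∃ y', f (Sum.inr y) = Sum.inr y')
    (h2 : ∀ f1 ∈ F1, ∃ f ∈ F, ∀ x, f (Sum.inl x) = Sum.inl (f1 x)) (x y : Φ) :
    gen F (Sum.inl x) (Sum.inl y) ↔ gen F1 x y := by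
  constructor
  · intro h
    let r : Setoid (Φ ⊕ Ψ) :=
      { r := fun a b => match a, b with
          | Sum.inl x, Sum.inl y => gen F1 x y
          | Sum.inr _, Sum.inr _ => True
          | _, _ => False
        iseqv := by
          refine ⟨?_, ?_, ?_⟩
          · rintro (x | x)
            · exact Setoid.refl' _ _
            · trivial
          · rintro (x | x) (y | y) h
            · exact Setoid.symm' _ h
            · exact h
            · exact h
            · trivial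
          · rintro (x | x) (y | y) (z | z) h h'
            · exact Setoid.trans' _ h h'
            · exact h'
            · exact h.elim
            · exact h
            · exact h
            · trivial
            · exact h'
            · trivial }
    exact gen_le (r := r) (x := Sum.inl x) (y := Sum.inl y) (by
      rintro f hf (z | z)
      · obtain ⟨f1, hf1, h3, _⟩ := h1 f hf
        rw [h3]
        exact gen_step hf1 z
      · obtain ⟨f1, hf1, _, h4⟩ := h1 f hf
        obtain ⟨y', hy'⟩ := h4 z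
        rw [hy']; trivial) h
  · intro h
    refine gen_le (r := (gen F).comap Sum.inl) ?_ h
    intro f1 hf1 z
    obtain ⟨f, hf, h3⟩ := h2 f1 hf1
    change gen F (Sum.inl z) (Sum.inl (f1 z))
    rw [← h3]
    exact gen_step hf _

theorem nc_sum [Finite Φ] [Finite Ψ] (r : Setoid (Φ ⊕ Ψ)) (h : ∀ x y, ¬ r (Sum.inl x) (Sum.inr y)) :
    nc r = nc (r.comap Sum.inl) + nc (r.comap Sum.inr) := by
  unfold nc
  rw [← Nat.card_sum]
  apply Nat.card_congr
  refine Equiv.ofBijective (fun q : Quotient r => Quotient.lift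
    (fun x : Φ ⊕ Ψ => (match x with
      | Sum.inl x => Sum.inl (Quotient.mk (r.comap Sum.inl) x)
      | Sum.inr x => Sum.inr (Quotient.mk (r.comap Sum.inr) x) :
        Quotient (r.comap Sum.inl) ⊕ Quotient (r.comap Sum.inr))) ?_ q) ?_
  · rintro (x | x) (y | y) hxy
    · simp only; congr 1; exact Quotient.sound hxy
    · exact absurd hxy (h x y)
    · exact absurd (r.symm' hxy) (h y x)
    · simp only; congr 1; exact Quotient.sound hxy
  · constructor
    · intro a b hab
      induction a using Quotient.inductionOn with | _ x => ?_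
      induction b using Quotient.inductionOn with | _ y => ?_
      rcases x with x | x <;> rcases y with y | y
      · exact Quotient.sound (Quotient.exact (Sum.inl.inj hab) : (r.comap Sum.inl) x y)
      · exact absurd hab (by simp)
      · exact absurd hab (by simp)
      · exact Quotient.sound (Quotient.exact (Sum.inr.inj hab) : (r.comap Sum.inr) x y)
    · intro s
      rcases s with q | q
      · induction q using Quotient.inductionOn with | _ x => ?_
        exact ⟨Quotient.mk r (Sum.inl x), rfl⟩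
      · induction q using Quotient.inductionOn with | _ x => ?_
        exact ⟨Quotient.mk r (Sum.inr x), rfl⟩

end sum

namespace FMap

variable {Φ : Type*} (M : FMap Φ)

/-- `M` together with an isolated edge -/
def ext : FMap (Φ ⊕ Bool × Bool) where
  a0 := Sum.map M.a0 (fun c => (!c.1, c.2))
  a1 := Sum.map M.a1 (fun c => (c.1, !c.2))
  a2 := Sum.map M.a2 (fun c => (c.1, !c.2))
  i0 := by rintro (x | ⟨a, b⟩) <;> simp [M.i0 _]
  i1 := by rintro (x | ⟨a, b⟩) <;> simp [M.i1 _]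
  i2 := by rintro (x | ⟨a, b⟩) <;> simp [M.i2 _]
  f0 := by rintro (x | ⟨a, b⟩) <;> simp [M.f0 _]
  f1 := by rintro (x | ⟨a, b⟩) <;> simp [M.f1 _]
  f2 := by rintro (x | ⟨a, b⟩) <;> simp [M.f2 _]
  comm := by rintro (x | ⟨a, b⟩) <;> simp [M.comm _]
  f02 := by rintro (x | ⟨a, b⟩) <;> simp [M.f02 _]

theorem ext_rV_inl (x y : Φ) : M.ext.rV (Sum.inl x) (Sum.inl y) ↔ M.rV x y := by
  apply gen_sum_inl
  · rintro f (rfl | rfl)
    · exact ⟨M.a1, Or.inl rfl, fun x => rfl, fun y => ⟨_, rfl⟩⟩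
    · exact ⟨M.a2, Or.inr rfl, fun x => rfl, fun y => ⟨_, rfl⟩⟩
  · rintro f (rfl | rfl)
    · exact ⟨M.ext.a1, Or.inl rfl, fun x => rfl⟩
    · exact ⟨M.ext.a2, Or.inr rfl, fun x => rfl⟩

theorem ext_rF_inl (x y : Φ) : M.ext.rF (Sum.inl x) (Sum.inl y) ↔ M.rF x y := by
  apply gen_sum_inl
  · rintro f (rfl | rfl)
    · exact ⟨M.a1, Or.inl rfl, fun x => rfl, fun y => ⟨_, rfl⟩⟩
    · exact ⟨M.a0, Or.inr rfl, fun x => rfl, fun y => ⟨_, rfl⟩⟩
  · rintro f (rfl | rfl)
    · exact ⟨M.ext.a1, Or.inl rfl, fun x => rfl⟩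
    · exact ⟨M.ext.a0, Or.inr rfl, fun x => rfl⟩

theorem ext_isLeft_V {x y : Φ ⊕ Bool × Bool} (h : M.ext.rV x y) : x.isLeft = y.isLeft := by
  refine gen_eq ?_ h
  rintro f (rfl | rfl) (x | x) <;> rfl

theorem ext_isLeft_F {x y : Φ ⊕ Bool × Bool} (h : M.ext.rF x y) : x.isLeft = y.isLeft := by
  refine gen_eq ?_ h
  rintro f (rfl | rfl) (x | x) <;> rfl

variable [Finite Φ]

theorem ext_nV : M.ext.nV = M.nV + 2 := by
  unfold nV
  rw [nc_sum _ (fun x y h => by have := M.ext_isLeft_V h; simp at this)]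
  have h1 : M.ext.rV.comap Sum.inl = M.rV := by
    ext x y; exact M.ext_rV_inl x y
  have h2 := mul_nc_eq (M.ext.rV.comap (Sum.inr : Bool × Bool → Φ ⊕ Bool × Bool)) 2 (by
    intro c
    have : ∀ d, (M.ext.rV.comap (Sum.inr : Bool × Bool → Φ ⊕ Bool × Bool)) c d ↔ d.1 = c.1 := by
      intro d
      constructor
      · intro h
        have h' : M.ext.rV (Sum.inr c) (Sum.inr d) := h
        have := gen_eq (g := fun z : Φ ⊕ Bool × Bool => Sum.elim (fun _ => none)
          (fun c => some c.1) z) (by rintro f (rfl | rfl) (x | x) <;> rfl) h'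
        simpa using this.symm
      · intro h
        obtain ⟨c1, c2⟩ := c
        obtain ⟨d1, d2⟩ := d
        simp only at h
        subst h
        by_cases h : d2 = c2
        · subst h; exact Setoid.refl' _ _
        · have : d2 = !c2 := by cases d2 <;> cases c2 <;> simp_all
          subst this
          exact M.ext.rV_a1 (Sum.inr (d1, c2))
    rw [Nat.card_congr (Equiv.subtypeEquivRight this), Nat.card_eq_fintype_card]
    clear this; revert c; decide)
  rw [h1]
  rw [Nat.card_eq_fintype_card] at h2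
  simp only [Fintype.card_prod, Fintype.card_bool] at h2
  omega

theorem ext_nF : M.ext.nF = M.nF + 1 := by
  unfold nF
  rw [nc_sum _ (fun x y h => by have := M.ext_isLeft_F h; simp at this)]
  have h1 : M.ext.rF.comap Sum.inl = M.rF := by
    ext x y; exact M.ext_rF_inl x y
  have h2 := mul_nc_eq (M.ext.rF.comap (Sum.inr : Bool × Bool → Φ ⊕ Bool × Bool)) 4 (by
    intro c
    have : ∀ d, (M.ext.rF.comap (Sum.inr : Bool × Bool → Φ ⊕ Bool × Bool)) c d ↔ True := by
      intro d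
      refine ⟨fun _ => trivial, fun _ => ?_⟩
      change M.ext.rF (Sum.inr c) (Sum.inr d)
      have e0 : ∀ a b, M.ext.rF (Sum.inr (a, b)) (Sum.inr (!a, b)) := fun a b =>
        M.ext.rF_a0 (Sum.inr (a, b))
      have e1 : ∀ a b, M.ext.rF (Sum.inr (a, b)) (Sum.inr (a, !b)) := fun a b =>
        M.ext.rF_a1 (Sum.inr (a, b))
      obtain ⟨c1, c2⟩ := c
      obtain ⟨d1, d2⟩ := d
      have s1 : M.ext.rF (Sum.inr (c1, c2)) (Sum.inr (d1, c2)) := by
        by_cases h : d1 = c1
        · subst h; exact Setoid.refl' _ _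
        · have : d1 = !c1 := by cases d1 <;> cases c1 <;> simp_all
          subst this; exact e0 _ _
      have s2 : M.ext.rF (Sum.inr (d1, c2)) (Sum.inr (d1, d2)) := by
        by_cases h : d2 = c2
        · subst h; exact Setoid.refl' _ _
        · have : d2 = !c2 := by cases d2 <;> cases c2 <;> simp_all
          subst this; exact e1 _ _
      exact Setoid.trans' _ s1 s2
    rw [Nat.card_congr (Equiv.subtypeEquivRight this), Nat.card_eq_fintype_card]
    decide)
  rw [h1]
  rw [Nat.card_eq_fintype_card] at h2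
  simp only [Fintype.card_prod, Fintype.card_bool] at h2
  omega

variable [DecidableEq Φ]

/-- The map with a chord cutting off the corner of `x`. -/
def chord (x : Φ) : FMap (Φ ⊕ Bool × Bool) :=
  ((M.ext).repair (Sum.inl (M.a0 x)) (Sum.inr (false, true))).repair
    (Sum.inl (M.a0 (M.a1 x))) (Sum.inr (true, true))

section chord

variable {x : Φ} (hm : M.a1 (M.a0 x) ≠ x) (hb : M.a0 (M.a1 x) ≠ M.a1 (M.a0 x))

/-- first step -/
def chord1 (x : Φ) : FMap (Φ ⊕ Bool × Bool) :=
  (M.ext).repair (Sum.inl (M.a0 x)) (Sum.inr (false, true))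

omit [Finite Φ] [DecidableEq Φ] in
theorem hbx1 (x : Φ) : (Sum.inr (false, true) : Φ ⊕ Bool × Bool) ≠ M.ext.a1 (Sum.inl (M.a0 x)) := by
  intro h; exact absurd h (by simp [ext])

omit [Finite Φ] in
theorem chord1_p (x : Φ) : (M.chord1 x).a1 (Sum.inl (M.a0 x)) = Sum.inr (false, false) :=
  rp_left M.ext.i1 M.ext.f1 (M.hbx1 x)

omit [Finite Φ] in
theorem chord1_p' (x : Φ) : (M.chord1 x).a1 (Sum.inl (M.a1 (M.a0 x))) = Sum.inr (false, true) :=
  rp_b_left M.ext.i1 M.ext.f1 (M.hbx1 x)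

omit [Finite Φ] in
theorem chord1_ft (x : Φ) : (M.chord1 x).a1 (Sum.inr (false, true)) = Sum.inl (M.a1 (M.a0 x)) :=
  rp_right M.ext.f1 (M.hbx1 x)

omit [Finite Φ] in
theorem chord1_ff (x : Φ) : (M.chord1 x).a1 (Sum.inr (false, false)) = Sum.inl (M.a0 x) :=
  rp_b_right M.ext.i1 M.ext.f1 (M.hbx1 x)

omit [Finite Φ] in
theorem chord1_t (x : Φ) (j : Bool) :
    (M.chord1 x).a1 (Sum.inr (true, j)) = Sum.inr (true, !j) := by
  have := rp_other M.ext.i1 (x := Sum.inl (M.a0 x)) (y := Sum.inr (false, true))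
    (z := Sum.inr (true, j)) (by simp) (by simp) (by simp [ext]) (by simp [ext])
  exact this

omit [Finite Φ] in
theorem chord1_o (x z : Φ) (h1 : z ≠ M.a0 x) (h2 : z ≠ M.a1 (M.a0 x)) :
    (M.chord1 x).a1 (Sum.inl z) = Sum.inl (M.a1 z) := by
  have := rp_other M.ext.i1 (x := Sum.inl (M.a0 x)) (y := Sum.inr (false, true))
    (z := Sum.inl z) (by simpa using h1) (by simp) (by simpa [ext] using h2) (by simp [ext])
  exact this

include hb in
omit [Finite Φ] in
theorem chord1_q : (M.chord1 x).a1 (Sum.inl (M.a0 (M.a1 x))) = Sum.inl (M.a1 (M.a0 (M.a1 x))) :=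
  M.chord1_o x _ (fun h => M.f1 x (M.i0.injective h)) hb

omit [Finite Φ] in
include hb in
theorem hbx2 : (Sum.inr (true, true) : Φ ⊕ Bool × Bool) ≠
    (M.chord1 x).a1 (Sum.inl (M.a0 (M.a1 x))) := by
  rw [M.chord1_q hb]; simp

omit [Finite Φ] in
include hb in
theorem chord_q : (M.chord x).a1 (Sum.inl (M.a0 (M.a1 x))) = Sum.inr (true, false) :=
  (rp_left (M.chord1 x).i1 (M.chord1 x).f1 (M.hbx2 hb)).trans (M.chord1_t x true)

omit [Finite Φ] in
include hb in
theorem chord_q' : (M.chord x).a1 (Sum.inl (M.a1 (M.a0 (M.a1 x)))) = Sum.inr (true, true) := by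
  have := rp_b_left (M.chord1 x).i1 (M.chord1 x).f1 (M.hbx2 hb)
  rw [M.chord1_q hb] at this
  exact this

omit [Finite Φ] in
include hb in
theorem chord_tt : (M.chord x).a1 (Sum.inr (true, true)) = Sum.inl (M.a1 (M.a0 (M.a1 x))) :=
  (rp_right (M.chord1 x).f1 (M.hbx2 hb)).trans (M.chord1_q hb)

omit [Finite Φ] in
include hb in
theorem chord_tf : (M.chord x).a1 (Sum.inr (true, false)) = Sum.inl (M.a0 (M.a1 x)) := by
  have := rp_b_right (M.chord1 x).i1 (M.chord1 x).f1 (M.hbx2 hb)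
  rw [M.chord1_t] at this
  exact this

omit [Finite Φ] in
include hb in
/-- the second re-pairing at other flags -/
theorem chord_o {z : Φ ⊕ Bool × Bool} (h1 : z ≠ Sum.inl (M.a0 (M.a1 x)))
    (h2 : z ≠ Sum.inl (M.a1 (M.a0 (M.a1 x)))) (h3 : z ≠ Sum.inr (true, true))
    (h4 : z ≠ Sum.inr (true, false)) : (M.chord x).a1 z = (M.chord1 x).a1 z := by
  refine rp_other (M.chord1 x).i1 h1 h3 ?_ ?_
  · rw [M.chord1_q hb]; exact h2
  · rw [M.chord1_t]; exact h4

omit [Finite Φ] in
include hb in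
theorem chord_p : (M.chord x).a1 (Sum.inl (M.a0 x)) = Sum.inr (false, false) := by
  rw [M.chord_o hb, M.chord1_p]
  · intro h; exact M.f1 x (M.i0.injective (Sum.inl.inj h)).symm
  · intro h
    have h' := congrArg M.a1 (Sum.inl.inj h)
    rw [M.i1] at h'
    exact hb h'.symm
  · simp
  · simp

omit [Finite Φ] in
include hb in
theorem chord_p' : (M.chord x).a1 (Sum.inl (M.a1 (M.a0 x))) = Sum.inr (false, true) := by
  rw [M.chord_o hb, M.chord1_p']
  · intro h; exact hb (Sum.inl.inj h).symm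
  · intro h
    exact M.f1 x (M.i0.injective (M.i1.injective (Sum.inl.inj h))).symm
  · simp
  · simp

omit [Finite Φ] in
include hb in
theorem chord_ft : (M.chord x).a1 (Sum.inr (false, true)) = Sum.inl (M.a1 (M.a0 x)) := by
  rw [M.chord_o hb, M.chord1_ft] <;> simp

omit [Finite Φ] in
include hb in
theorem chord_ff : (M.chord x).a1 (Sum.inr (false, false)) = Sum.inl (M.a0 x) := by
  rw [M.chord_o hb, M.chord1_ff] <;> simp

omit [Finite Φ] in
include hb in
theorem chord_z {z : Φ} (h1 : z ≠ M.a0 x) (h2 : z ≠ M.a1 (M.a0 x)) (h3 : z ≠ M.a0 (M.a1 x))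
    (h4 : z ≠ M.a1 (M.a0 (M.a1 x))) : (M.chord x).a1 (Sum.inl z) = Sum.inl (M.a1 z) := by
  rw [M.chord_o hb, M.chord1_o x z h1 h2]
  · simpa using h3
  · simpa using h4
  · simp
  · simp

include hb in
theorem chord_nV : (M.chord x).nV = M.nV := by
  have h1 : ¬ M.ext.rV (Sum.inl (M.a0 x)) (Sum.inr (false, true)) := fun h => by
    have := M.ext_isLeft_V h; simp at this
  have h2 : (M.chord1 x).rV (Sum.inl (M.a0 x)) (Sum.inr (false, true)) :=
    rp_merge M.ext.i2 M.ext.f2 M.ext.i1 M.ext.f1 h1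
  have e1 : M.ext.nV = (M.chord1 x).nV + 1 := nc_rp_merge M.ext.i1 M.ext.f1 (M.hbx1 x) _ h1 h2
  have h3 : ¬ (M.chord1 x).rV (Sum.inl (M.a0 (M.a1 x))) (Sum.inr (true, true)) := by
    intro h
    have := (M.chord1 x).closedV (P := fun z => ∃ j, z = Sum.inr (true, j)) (by
      rintro z ⟨j, rfl⟩; exact ⟨!j, M.chord1_t x j⟩) (by
      rintro z ⟨j, rfl⟩; exact ⟨!j, rfl⟩) (Setoid.symm' _ h) ⟨true, rfl⟩
    obtain ⟨j, hj⟩ := this
    exact absurd hj (by simp)
  have h4 : (M.chord x).rV (Sum.inl (M.a0 (M.a1 x))) (Sum.inr (true, true)) :=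
    rp_merge (M.chord1 x).i2 (M.chord1 x).f2 (M.chord1 x).i1 (M.chord1 x).f1 h3
  have e2 : (M.chord1 x).nV = (M.chord x).nV + 1 :=
    nc_rp_merge (M.chord1 x).i1 (M.chord1 x).f1 (M.hbx2 hb) _ h3 h4
  have e3 := M.ext_nV
  omega

include hm hb in
theorem chord_nF : (M.chord x).nF = M.nF + 1 := by
  have h1 : ¬ M.ext.rF (Sum.inl (M.a0 x)) (Sum.inr (false, true)) := fun h => by
    have := M.ext_isLeft_F h; simp at this
  have h2 : (M.chord1 x).rF (Sum.inl (M.a0 x)) (Sum.inr (false, true)) :=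
    rp_merge M.ext.i0 M.ext.f0 M.ext.i1 M.ext.f1 h1
  have e1 : M.ext.nF = (M.chord1 x).nF + 1 := nc_rp_merge M.ext.i1 M.ext.f1 (M.hbx1 x) _ h1 h2
  have hx1 : x ≠ M.a0 x := (M.f0 x).symm
  have hx2 : x ≠ M.a1 (M.a0 x) := hm.symm
  have hx3 : x ≠ M.a0 (M.a1 x) := by
    intro h
    have h' := congrArg M.a0 h
    rw [M.i0] at h'
    have h'' := congrArg M.a1 h'
    rw [M.i1] at h''
    exact hm h''
  have hx4 : x ≠ M.a1 (M.a0 (M.a1 x)) := by
    intro h
    have h' := congrArg M.a1 h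
    rw [M.i1] at h'
    exact M.f0 _ h'.symm
  have h3 : (M.chord1 x).rF (Sum.inl (M.a0 (M.a1 x))) (Sum.inr (true, true)) := by
    have s1 : (M.chord1 x).rF (Sum.inl (M.a0 (M.a1 x))) (Sum.inl (M.a1 x)) := by
      have := (M.chord1 x).rF_a0 (Sum.inl (M.a0 (M.a1 x)))
      have e : (M.chord1 x).a0 (Sum.inl (M.a0 (M.a1 x))) = Sum.inl (M.a0 (M.a0 (M.a1 x))) := rfl
      rwa [e, M.i0] at this
    have s2 : (M.chord1 x).rF (Sum.inl x) (Sum.inl (M.a1 x)) := by
      have := (M.chord1 x).rF_a1 (Sum.inl x)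
      rwa [M.chord1_o x x hx1 hx2] at this
    have s3 : (M.chord1 x).rF (Sum.inl x) (Sum.inl (M.a0 x)) := (M.chord1 x).rF_a0 (Sum.inl x)
    have s4 : (M.chord1 x).rF (Sum.inl (M.a0 x)) (Sum.inr (false, false)) := by
      have := (M.chord1 x).rF_a1 (Sum.inl (M.a0 x))
      rwa [M.chord1_p] at this
    have s5 : (M.chord1 x).rF (Sum.inr (false, false)) (Sum.inr (true, false)) :=
      (M.chord1 x).rF_a0 (Sum.inr (false, false))
    have s6 : (M.chord1 x).rF (Sum.inr (true, false)) (Sum.inr (true, true)) := by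
      have := (M.chord1 x).rF_a1 (Sum.inr (true, false))
      rwa [M.chord1_t] at this
    exact Setoid.trans' _ s1 (Setoid.trans' _ (Setoid.symm' _ s2) (Setoid.trans' _ s3
      (Setoid.trans' _ s4 (Setoid.trans' _ s5 s6))))
  have hax : (M.chord x).a1 (Sum.inl x) = Sum.inl (M.a1 x) := M.chord_z hb hx1 hx2 hx3 hx4
  have hax' : (M.chord x).a1 (Sum.inl (M.a1 x)) = Sum.inl x := by rw [← hax, (M.chord x).i1]
  have h4 : ¬ (M.chord x).rF (Sum.inl (M.a0 (M.a1 x))) (Sum.inr (true, true)) := by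
    intro h
    have := (M.chord x).closedF (P := fun z => z = Sum.inl (M.a0 x) ∨ z = Sum.inl x ∨
      z = Sum.inl (M.a1 x) ∨ z = Sum.inl (M.a0 (M.a1 x)) ∨ z = Sum.inr (true, false) ∨
      z = Sum.inr (false, false)) ?_ ?_ h (Or.inr (Or.inr (Or.inr (Or.inl rfl))))
    · simp at this
    · rintro z (rfl | rfl | rfl | rfl | rfl | rfl)
      · rw [M.chord_p hb]; simp
      · rw [hax]; simp
      · rw [hax']; simp
      · rw [M.chord_q hb]; simp
      · rw [M.chord_tf hb]; simp
      · rw [M.chord_ff hb]; simp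
    · have e : ∀ z, (M.chord x).a0 (Sum.inl z) = Sum.inl (M.a0 z) := fun z => rfl
      have e' : ∀ c, (M.chord x).a0 (Sum.inr c) = Sum.inr (!c.1, c.2) := fun c => rfl
      rintro z (rfl | rfl | rfl | rfl | rfl | rfl)
      · rw [e, M.i0]; simp
      · rw [e]; simp
      · rw [e]; simp
      · rw [e, M.i0]; simp
      · rw [e']; simp
      · rw [e']; simp
  have e2 : (M.chord x).nF = (M.chord1 x).nF + 1 :=
    nc_rp_split (M.chord1 x).i1 (M.chord1 x).f1 (M.hbx2 hb) _ h3 h4
  have e3 := M.ext_nF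
  omega

omit [Finite Φ] in
include hb in
/-- paths persist -/
theorem chord_rV {z z' : Φ} (h : M.rV z z') : (M.chord x).rV (Sum.inl z) (Sum.inl z') := by
  refine gen_le (r := (M.chord x).rV.comap Sum.inl) ?_ h
  have hff : (M.chord x).rV (Sum.inr (false, false)) (Sum.inr (false, true)) :=
    (M.chord x).rV_a2 (Sum.inr (false, false))
  have htt : (M.chord x).rV (Sum.inr (true, false)) (Sum.inr (true, true)) :=
    (M.chord x).rV_a2 (Sum.inr (true, false))
  have hp : (M.chord x).rV (Sum.inl (M.a0 x)) (Sum.inl (M.a1 (M.a0 x))) := by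
    have s1 := (M.chord x).rV_a1 (Sum.inl (M.a0 x))
    rw [M.chord_p hb] at s1
    have s2 := (M.chord x).rV_a1 (Sum.inl (M.a1 (M.a0 x)))
    rw [M.chord_p' hb] at s2
    exact Setoid.trans' _ s1 (Setoid.trans' _ hff (Setoid.symm' _ s2))
  have hq : (M.chord x).rV (Sum.inl (M.a0 (M.a1 x))) (Sum.inl (M.a1 (M.a0 (M.a1 x)))) := by
    have s1 := (M.chord x).rV_a1 (Sum.inl (M.a0 (M.a1 x)))
    rw [M.chord_q hb] at s1
    have s2 := (M.chord x).rV_a1 (Sum.inl (M.a1 (M.a0 (M.a1 x))))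
    rw [M.chord_q' hb] at s2
    exact Setoid.trans' _ s1 (Setoid.trans' _ htt (Setoid.symm' _ s2))
  rintro f (rfl | rfl) z
  · change (M.chord x).rV (Sum.inl z) (Sum.inl (M.a1 z))
    by_cases h1 : z = M.a0 x
    · rw [h1]; exact hp
    by_cases h2 : z = M.a1 (M.a0 x)
    · rw [h2, M.i1]; exact Setoid.symm' _ hp
    by_cases h3 : z = M.a0 (M.a1 x)
    · rw [h3]; exact hq
    by_cases h4 : z = M.a1 (M.a0 (M.a1 x))
    · rw [h4, M.i1]; exact Setoid.symm' _ hq
    · have := (M.chord x).rV_a1 (Sum.inl z)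
      rwa [M.chord_z hb h1 h2 h3 h4] at this
  · exact (M.chord x).rV_a2 (Sum.inl z)

omit [Finite Φ] in
include hb in
theorem chord_rV_f (j : Bool) : (M.chord x).rV (Sum.inl (M.a0 x)) (Sum.inr (false, j)) := by
  have s1 := (M.chord x).rV_a1 (Sum.inl (M.a0 x))
  rw [M.chord_p hb] at s1
  cases j
  · exact s1
  · exact Setoid.trans' _ s1 ((M.chord x).rV_a2 (Sum.inr (false, false)))

omit [Finite Φ] in
include hb in
theorem chord_rV_t (j : Bool) : (M.chord x).rV (Sum.inl (M.a0 (M.a1 x))) (Sum.inr (true, j)) := by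
  have s1 := (M.chord x).rV_a1 (Sum.inl (M.a0 (M.a1 x)))
  rw [M.chord_q hb] at s1
  cases j
  · exact s1
  · exact Setoid.trans' _ s1 ((M.chord x).rV_a2 (Sum.inr (true, false)))

omit [Finite Φ] in
include hb in
theorem chord_rC {z z' : Φ} (h : M.rC z z') : (M.chord x).rC (Sum.inl z) (Sum.inl z') := by
  refine gen_le (r := ((M.chord x).rC).comap Sum.inl) ?_ h
  rintro f (rfl | rfl | rfl) z
  · exact (M.chord x).rV_rC (M.chord_rV hb (M.rV_a1 z))
  · exact (M.chord x).rC_a0 (Sum.inl z)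
  · exact (M.chord x).rC_a2 (Sum.inl z)

/-- the old flag at the vertex of a flag -/
def base (x : Φ) : Φ ⊕ Bool × Bool → Φ :=
  Sum.elim id (fun c => if c.1 then M.a0 (M.a1 x) else M.a0 x)

omit [Finite Φ] in
include hb in
theorem chord_rC_base (t : Φ ⊕ Bool × Bool) : (M.chord x).rC t (Sum.inl (M.base x t)) := by
  rcases t with z | ⟨c1, c2⟩
  · exact Setoid.refl' _ _
  · cases c1
    · exact Setoid.symm' _ ((M.chord x).rV_rC (M.chord_rV_f hb c2))
    · exact Setoid.symm' _ ((M.chord x).rV_rC (M.chord_rV_t hb c2))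

omit [Finite Φ] in
include hb in
theorem rC_base {t t' : Φ ⊕ Bool × Bool} (h : (M.chord x).rC t t') :
    M.rC (M.base x t) (M.base x t') := by
  have hl : ∀ z, M.base x (Sum.inl z) = z := fun z => rfl
  have hf : ∀ j, M.base x (Sum.inr (false, j)) = M.a0 x := fun j => rfl
  have ht : ∀ j, M.base x (Sum.inr (true, j)) = M.a0 (M.a1 x) := fun j => rfl
  refine gen_le (r := (M.rC).comap (M.base x)) ?_ h
  rintro f (rfl | rfl | rfl) t
  · change M.rC (M.base x t) (M.base x ((M.chord x).a1 t))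
    rcases t with z | ⟨c1, c2⟩
    · by_cases h1 : z = M.a0 x
      · rw [h1, M.chord_p hb, hl, hf]
      by_cases h2 : z = M.a1 (M.a0 x)
      · rw [h2, M.chord_p' hb, hl, hf]; exact Setoid.symm' _ (M.rC_a1 _)
      by_cases h3 : z = M.a0 (M.a1 x)
      · rw [h3, M.chord_q hb, hl, ht]
      by_cases h4 : z = M.a1 (M.a0 (M.a1 x))
      · rw [h4, M.chord_q' hb, hl, ht]; exact Setoid.symm' _ (M.rC_a1 _)
      rw [M.chord_z hb h1 h2 h3 h4, hl, hl]; exact M.rC_a1 z
    · cases c1 <;> cases c2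
      · rw [M.chord_ff hb, hl, hf]
      · rw [M.chord_ft hb, hl, hf]; exact M.rC_a1 _
      · rw [M.chord_tf hb, hl, ht]
      · rw [M.chord_tt hb, hl, ht]; exact M.rC_a1 _
  · change M.rC (M.base x t) (M.base x ((M.chord x).a0 t))
    rcases t with z | ⟨c1, c2⟩
    · exact M.rC_a0 z
    · have h0 : M.rC (M.a0 x) (M.a0 (M.a1 x)) :=
        Setoid.trans' _ (Setoid.symm' _ (M.rC_a0 x)) (Setoid.trans' _ (M.rC_a1 x) (M.rC_a0 _))
      cases c1
      · exact h0
      · exact Setoid.symm' _ h0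
  · change M.rC (M.base x t) (M.base x ((M.chord x).a2 t))
    rcases t with z | ⟨c1, c2⟩
    · exact M.rC_a2 z
    · exact Setoid.refl' _ _

include hb in
theorem chord_nC : (M.chord x).nC = M.nC := by
  apply le_antisymm
  · refine nc_le_of_reflect M.rC (M.chord x).rC (M.base x) ?_
    intro t t'
    constructor
    · exact M.rC_base hb
    · intro h
      exact Setoid.trans' _ (M.chord_rC_base hb t) (Setoid.trans' _ (M.chord_rC hb h)
        (Setoid.symm' _ (M.chord_rC_base hb t')))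
  · refine nc_le_of_reflect (M.chord x).rC M.rC Sum.inl ?_
    intro z z'
    constructor
    · exact M.chord_rC hb
    · intro h; exact M.rC_base hb h

end chord

end FMap

end Pool.Agent.Lib_helper38.Adj
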