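import Pool.Agent.Lib_helper38.Adj.Defs

/-!
# Counting classes of setoids
-/

namespace Pool.Agent.Lib_helper38.Adj

open Relation

variable {Φ : Type*}

/-- If `r'` is obtained from `r` by uniting the classes of `a` and `b`, and these are different,
the number of classes drops by one. -/
theorem nc_glue [Finite Φ] {r r' : Setoid Φ} {a b : Φ} (hab : ¬ r a b)
    (h : ∀ x y, r' x y ↔ r x y ∨ (r x a ∧ r y b) ∨ (r x b ∧ r y a)) :
    nc r = nc r' + 1 := by
  classical
  let f : Quotient r → Option (Quotient r') := fun q =>
    Quotient.lift (fun x => if r x b then none else some (Quotient.mk r' x)) (by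
      intro x y hxy
      have hxy' : r x y := hxy
      by_cases hx : r x b
      · have hy : r y b := r.trans' (r.symm' hxy') hx
        simp only [hx, hy, if_true]
      · have hy : ¬ r y b := fun hy => hx (r.trans' hxy' hy)
        simp only [hx, hy, if_false]
        congr 1
        exact Quotient.sound ((h x y).2 (Or.inl hxy'))) q
  have hf : Function.Bijective f := by
    constructor
    · intro p q hpq
      induction p using Quotient.inductionOn with | _ x => ?_
      induction q using Quotient.inductionOn with | _ y => ?_
      simp only [f, Quotient.lift_mk] at hpq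
      by_cases hx : r x b
      · by_cases hy : r y b
        · exact Quotient.sound (r.trans' hx (r.symm' hy))
        · rw [if_pos hx, if_neg hy] at hpq; exact absurd hpq (by simp)
      · by_cases hy : r y b
        · rw [if_neg hx, if_pos hy] at hpq; exact absurd hpq (by simp)
        · rw [if_neg hx, if_neg hy] at hpq
          have h1 : r' x y := Quotient.exact (Option.some.inj hpq)
          rcases (h x y).1 h1 with h2 | ⟨_, h3⟩ | ⟨h3, _⟩
          · exact Quotient.sound h2
          · exact absurd h3 hy
          · exact absurd h3 hx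
    · intro o
      cases o with
      | none =>
        refine ⟨Quotient.mk r b, ?_⟩
        simp only [f, Quotient.lift_mk]
        rw [if_pos (r.refl' b)]
      | some q =>
        induction q using Quotient.inductionOn with | _ z => ?_
        by_cases hz : r z b
        · refine ⟨Quotient.mk r a, ?_⟩
          simp only [f, Quotient.lift_mk]
          rw [if_neg hab]
          congr 1
          exact Quotient.sound ((h a z).2 (Or.inr (Or.inl ⟨r.refl' a, hz⟩)))
        · refine ⟨Quotient.mk r z, ?_⟩
          simp only [f, Quotient.lift_mk]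
          rw [if_neg hz]
  unfold nc
  rw [Nat.card_congr (Equiv.ofBijective f hf), Finite.card_option]

/-- explicit gluing of two classes -/
def glue (r : Setoid Φ) (a b : Φ) : Setoid Φ where
  r x y := r x y ∨ (r x a ∧ r y b) ∨ (r x b ∧ r y a)
  iseqv := by
    refine ⟨fun x => Or.inl (r.refl' x), ?_, ?_⟩
    · rintro x y (h | ⟨h1, h2⟩ | ⟨h1, h2⟩)
      · exact Or.inl (r.symm' h)
      · exact Or.inr (Or.inr ⟨h2, h1⟩)
      · exact Or.inr (Or.inl ⟨h2, h1⟩)
    · rintro x y z (h | ⟨h1, h2⟩ | ⟨h1, h2⟩) (h' | ⟨h1', h2'⟩ | ⟨h1', h2'⟩)
      · exact Or.inl (r.trans' h h')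
      · exact Or.inr (Or.inl ⟨r.trans' h h1', h2'⟩)
      · exact Or.inr (Or.inr ⟨r.trans' h h1', h2'⟩)
      · exact Or.inr (Or.inl ⟨h1, r.trans' (r.symm' h') h2⟩)
      · exact Or.inl (r.trans' h1 (r.trans' (r.symm' h1') (r.trans' h2 (r.symm' h2'))))
      · exact Or.inl (r.trans' h1 (r.symm' h2'))
      · exact Or.inr (Or.inr ⟨h1, r.trans' (r.symm' h') h2⟩)
      · exact Or.inl (r.trans' h1 (r.symm' h2'))
      · exact Or.inl (r.trans' h1 (r.trans' (r.symm' h1') (r.trans' h2 (r.symm' h2'))))

theorem glue_apply (r : Setoid Φ) (a b x y : Φ) :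
    glue r a b x y ↔ r x y ∨ (r x a ∧ r y b) ∨ (r x b ∧ r y a) := Iff.rfl

/-- lower bound for the number of classes from lower bounds for sizes is an upper bound:
if every class has at least `m` elements then `m * nc r ≤ card`. -/
theorem mul_nc_le [Fintype Φ] (r : Setoid Φ) (m : ℕ)
    (h : ∀ x, m ≤ Nat.card {y // r x y}) : m * nc r ≤ Fintype.card Φ := by
  classical
  have h1 : Nat.card Φ = ∑ q : Quotient r, Nat.card {x // Quotient.mk r x = q} := by
    rw [← Nat.card_congr (Equiv.sigmaFiberEquiv (Quotient.mk r)), Nat.card_sigma]
  rw [← Nat.card_eq_fintype_card, h1]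
  unfold nc
  rw [Nat.card_eq_fintype_card, mul_comm, ← smul_eq_mul, ← Finset.card_univ, ← Finset.sum_const]
  apply Finset.sum_le_sum
  intro q _
  induction q using Quotient.inductionOn with | _ x => ?_
  refine (h x).trans (le_of_eq ?_)
  apply Nat.card_congr
  refine Equiv.subtypeEquivRight fun y => ?_
  constructor
  · intro hxy; exact Quotient.sound (r.symm' hxy)
  · intro hxy; exact r.symm' (Quotient.exact hxy)

/-- the same with weights: total weight at least `m` on every class -/
theorem mul_nc_le_sum [Fintype Φ] (r : Setoid Φ) (m : ℕ) (w : Φ → ℕ)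
    (h : ∀ x, ∃ s : Finset Φ, (∀ y ∈ s, r x y) ∧ m ≤ ∑ y ∈ s, w y) : m * nc r ≤ ∑ x, w x := by
  classical
  have h1 : ∑ x, w x = ∑ q : Quotient r, ∑ x ∈ Finset.univ.filter (fun x => Quotient.mk r x = q), w x := by
    rw [Finset.sum_fiberwise]
  rw [h1]
  unfold nc
  rw [Nat.card_eq_fintype_card, mul_comm, ← smul_eq_mul, ← Finset.card_univ, ← Finset.sum_const]
  apply Finset.sum_le_sum
  intro q _
  induction q using Quotient.inductionOn with | _ x => ?_
  obtain ⟨s, hs, hm⟩ := h x
  refine hm.trans ?_
  apply Finset.sum_le_sum_of_subset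
  intro y hy
  simp only [Finset.mem_filter, Finset.mem_univ, true_and]
  exact Quotient.sound (r.symm' (hs y hy))

/-- if every class has exactly `m` elements then `m * nc r = card`. -/
theorem mul_nc_eq [Finite Φ] (r : Setoid Φ) (m : ℕ)
    (h : ∀ x, Nat.card {y // r x y} = m) : m * nc r = Nat.card Φ := by
  classical
  have := Fintype.ofFinite Φ
  have h1 : Nat.card Φ = ∑ q : Quotient r, Nat.card {x // Quotient.mk r x = q} := by
    rw [← Nat.card_congr (Equiv.sigmaFiberEquiv (Quotient.mk r)), Nat.card_sigma]
  rw [h1]
  unfold nc
  rw [Nat.card_eq_fintype_card, mul_comm, ← smul_eq_mul, ← Finset.card_univ, ← Finset.sum_const]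
  apply Finset.sum_congr rfl
  intro q _
  induction q using Quotient.inductionOn with | _ x => ?_
  rw [← h x]
  apply Nat.card_congr
  refine Equiv.subtypeEquivRight fun y => ?_
  constructor
  · intro hxy; exact Quotient.sound (r.symm' hxy)
  · intro hxy; exact r.symm' (Quotient.exact hxy)

/-- splitting of the number of classes along a saturated subset -/
theorem nc_split [Finite Φ] (r : Setoid Φ) (p : Φ → Prop) (hp : ∀ x y, r x y → (p x ↔ p y)) :
    nc r = nc (r.comap (Subtype.val : {x // p x} → Φ)) +
      nc (r.comap (Subtype.val : {x // ¬ p x} → Φ)) := by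
  classical
  unfold nc
  rw [← Nat.card_sum]
  apply Nat.card_congr
  refine Equiv.ofBijective (fun q : Quotient r => Quotient.lift
    (fun x => if hx : p x then Sum.inl (Quotient.mk _ (⟨x, hx⟩ : {x // p x}))
      else Sum.inr (Quotient.mk _ (⟨x, hx⟩ : {x // ¬ p x}))) ?_ q) ?_
  · intro x y hxy
    have hxy' : r x y := hxy
    have := hp x y hxy'
    by_cases hx : p x
    · have hy : p y := this.1 hx
      simp only [hx, hy, dif_pos]
      congr 1
      exact Quotient.sound hxy'
    · have hy : ¬ p y := fun hy => hx (this.2 hy)
      simp only [hx, hy, dif_neg, not_false_eq_true]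
      congr 1
      exact Quotient.sound hxy'
  · constructor
    · intro a b hab
      induction a using Quotient.inductionOn with | _ x => ?_
      induction b using Quotient.inductionOn with | _ y => ?_
      simp only [Quotient.lift_mk] at hab
      by_cases hx : p x <;> by_cases hy : p y
      · rw [dif_pos hx, dif_pos hy] at hab
        have := Quotient.exact (Sum.inl.inj hab)
        exact Quotient.sound this
      · rw [dif_pos hx, dif_neg hy] at hab; exact absurd hab (by simp)
      · rw [dif_neg hx, dif_pos hy] at hab; exact absurd hab (by simp)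
      · rw [dif_neg hx, dif_neg hy] at hab
        have := Quotient.exact (Sum.inr.inj hab)
        exact Quotient.sound this
    · intro s
      rcases s with q | q
      · induction q using Quotient.inductionOn with | _ x => ?_
        refine ⟨Quotient.mk r x.1, ?_⟩
        simp only [Quotient.lift_mk]
        rw [dif_pos x.2]
      · induction q using Quotient.inductionOn with | _ x => ?_
        refine ⟨Quotient.mk r x.1, ?_⟩
        simp only [Quotient.lift_mk]
        rw [dif_neg x.2]

/-- a map that reflects the relations bounds the number of classes -/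
theorem nc_le_of_reflect {Ψ : Type*} [Finite Φ] (r : Setoid Φ) (r' : Setoid Ψ) (f : Ψ → Φ)
    (h : ∀ x y, r' x y ↔ r (f x) (f y)) : nc r' ≤ nc r := by
  unfold nc
  have : Function.Injective (fun q : Quotient r' => Quotient.lift (fun x => Quotient.mk r (f x))
      (fun x y hxy => Quotient.sound ((h x y).1 hxy)) q) := by
    intro a b hab
    induction a using Quotient.inductionOn with | _ x => ?_
    induction b using Quotient.inductionOn with | _ y => ?_
    exact Quotient.sound ((h x y).2 (Quotient.exact hab))
  exact Nat.card_le_card_of_injective _ this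

end Pool.Agent.Lib_helper38.Adj
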