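import Pool.Agent.Lib_helper38.Adj.Rank

/-!
# The intersection form modulo two of a map
-/

namespace Pool.Agent.Lib_helper38.Adj

open Relation Function

theorem gen_single {Φ : Type*} {a : Φ → Φ} (ha : Involutive a) (x y : Φ) :
    gen {a} x y ↔ (y = x ∨ y = a x) := by
  constructor
  · intro h
    refine gen_closed (F := {a}) (P := fun y => y = x ∨ y = a x) ?_ ?_ h (Or.inl rfl)
    · rintro f rfl; exact ha
    · rintro f rfl z (rfl | rfl)
      · exact Or.inr rfl
      · exact Or.inl (ha _)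
  · rintro (rfl | rfl)
    · exact Setoid.refl' _ _
    · exact gen_step (Set.mem_singleton _) _

theorem two_nc {Φ : Type*} [Finite Φ] {a : Φ → Φ} (ha : Involutive a) (ha' : ∀ z, a z ≠ z) :
    2 * nc (gen {a}) = Nat.card Φ := by
  classical
  apply mul_nc_eq
  intro x
  have h1 : ∀ y, gen {a} x y ↔ y ∈ ({x, a x} : Finset Φ) := by
    intro y
    rw [gen_single ha]; simp
  rw [Nat.card_congr (Equiv.subtypeEquivRight h1), Nat.card_eq_fintype_card, Fintype.card_coe,
    Finset.card_pair (ha' x).symm]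

namespace FMap

variable {Φ : Type} (M : FMap Φ)

/-- cells of the flag graph -/
abbrev q0 : Setoid Φ := gen {M.a0}
abbrev q1 : Setoid Φ := gen {M.a1}
abbrev q2 : Setoid Φ := gen {M.a2}

/-- chains modulo two of the flag graph -/
abbrev Ch : Type :=
  (Quotient M.q0 → ZMod 2) × (Quotient M.q1 → ZMod 2) × (Quotient M.q2 → ZMod 2)

variable {M}

def k0 (c : M.Ch) (x : Φ) : ZMod 2 := c.1 (Quotient.mk _ x)
def k1 (c : M.Ch) (x : Φ) : ZMod 2 := c.2.1 (Quotient.mk _ x)
def k2 (c : M.Ch) (x : Φ) : ZMod 2 := c.2.2 (Quotient.mk _ x)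

theorem k0_a (c : M.Ch) (x : Φ) : k0 c (M.a0 x) = k0 c x := by
  unfold k0
  rw [Quotient.sound (gen_step (Set.mem_singleton M.a0) x : M.q0 x (M.a0 x))]
theorem k1_a (c : M.Ch) (x : Φ) : k1 c (M.a1 x) = k1 c x := by
  unfold k1
  rw [Quotient.sound (gen_step (Set.mem_singleton M.a1) x : M.q1 x (M.a1 x))]
theorem k2_a (c : M.Ch) (x : Φ) : k2 c (M.a2 x) = k2 c x := by
  unfold k2
  rw [Quotient.sound (gen_step (Set.mem_singleton M.a2) x : M.q2 x (M.a2 x))]

@[simp] theorem k0_add (c c' : M.Ch) (x : Φ) : k0 (c + c') x = k0 c x + k0 c' x := rfl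
@[simp] theorem k1_add (c c' : M.Ch) (x : Φ) : k1 (c + c') x = k1 c x + k1 c' x := rfl
@[simp] theorem k2_add (c c' : M.Ch) (x : Φ) : k2 (c + c') x = k2 c x + k2 c' x := rfl
@[simp] theorem k0_zero (x : Φ) : k0 (0 : M.Ch) x = 0 := rfl
@[simp] theorem k1_zero (x : Φ) : k1 (0 : M.Ch) x = 0 := rfl
@[simp] theorem k2_zero (x : Φ) : k2 (0 : M.Ch) x = 0 := rfl
@[simp] theorem k0_smul (t : ZMod 2) (c : M.Ch) (x : Φ) : k0 (t • c) x = t * k0 c x := rfl
@[simp] theorem k1_smul (t : ZMod 2) (c : M.Ch) (x : Φ) : k1 (t • c) x = t * k1 c x := rfl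
@[simp] theorem k2_smul (t : ZMod 2) (c : M.Ch) (x : Φ) : k2 (t • c) x = t * k2 c x := rfl

variable (M)

/-- boundary -/
def dd : M.Ch →ₗ[ZMod 2] (Φ → ZMod 2) where
  toFun c x := k0 c x + k1 c x + k2 c x
  map_add' c c' := by funext x; simp only [k0_add, k1_add, k2_add, Pi.add_apply]; ring
  map_smul' t c := by
    funext x; simp only [k0_smul, k1_smul, k2_smul, Pi.smul_apply, smul_eq_mul, RingHom.id_apply]
    ring

variable {M}

theorem dd_apply (c : M.Ch) (x : Φ) : M.dd c x = k0 c x + k1 c x + k2 c x := rfl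

theorem add_self2 (a : ZMod 2) : a + a = 0 := (by decide : ∀ a : ZMod 2, a + a = 0) a

theorem k1_eq (c : M.Ch) (x : Φ) : k1 c x = k0 c x + k2 c x + M.dd c x := by
  rw [dd_apply]
  have := add_self2 (k0 c x)
  have := add_self2 (k2 c x)
  linear_combination -(add_self2 (k0 c x)) - (add_self2 (k2 c x))

section fin

variable [Fintype Φ]

/-- the form -/
def bil (c c' : M.Ch) : ZMod 2 := ∑ x, k0 c x * k2 c' x

theorem bil_add_left (c c' d : M.Ch) : bil (c + c') d = bil c d + bil c' d := by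
  unfold bil
  rw [← Finset.sum_add_distrib]
  apply Finset.sum_congr rfl
  intro x _; rw [k0_add]; ring

theorem bil_add_right (c d d' : M.Ch) : bil c (d + d') = bil c d + bil c d' := by
  unfold bil
  rw [← Finset.sum_add_distrib]
  apply Finset.sum_congr rfl
  intro x _; rw [k2_add]; ring

theorem bil_smul_left (t : ZMod 2) (c d : M.Ch) : bil (t • c) d = t * bil c d := by
  unfold bil
  rw [Finset.mul_sum]
  apply Finset.sum_congr rfl
  intro x _; rw [k0_smul]; ring

theorem bil_smul_right (t : ZMod 2) (c d : M.Ch) : bil c (t • d) = t * bil c d := by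
  unfold bil
  rw [Finset.mul_sum]
  apply Finset.sum_congr rfl
  intro x _; rw [k2_smul]; ring

theorem bil_zero_left (d : M.Ch) : bil (0 : M.Ch) d = 0 := by
  unfold bil; simp

/-- The failure of symmetry on chains. -/
theorem bil_antisymm (c c' : M.Ch) : bil c c' + bil c' c =
    ∑ x, (k1 c x * M.dd c' x + M.dd c x * k1 c' x + M.dd c x * M.dd c' x) := by
  have h0 : ∑ x, k0 c x * k0 c' x = 0 :=
    sum_invol _ M.a0 M.i0 M.f0 (fun z => by rw [k0_a, k0_a])
  have h1 : ∑ x, k1 c x * k1 c' x = 0 :=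
    sum_invol _ M.a1 M.i1 M.f1 (fun z => by rw [k1_a, k1_a])
  have h2 : ∑ x, k2 c x * k2 c' x = 0 :=
    sum_invol _ M.a2 M.i2 M.f2 (fun z => by rw [k2_a, k2_a])
  have e : ∀ x, k1 c x * k1 c' x + (k0 c x * k0 c' x + k2 c x * k2 c' x) +
      (k0 c x * k2 c' x + k0 c' x * k2 c x) =
      k1 c x * M.dd c' x + M.dd c x * k1 c' x + M.dd c x * M.dd c' x := by
    intro x
    rw [dd_apply, dd_apply]
    generalize k0 c x = a
    generalize k0 c' x = a'
    generalize k1 c x = b
    generalize k1 c' x = b'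
    generalize k2 c x = d
    generalize k2 c' x = d'
    revert a a' b b' d d'
    decide
  rw [← Finset.sum_congr rfl (fun x _ => e x), Finset.sum_add_distrib, Finset.sum_add_distrib,
    Finset.sum_add_distrib, Finset.sum_add_distrib, h0, h1, h2]
  unfold bil
  ring

theorem bil_symm {c c' : M.Ch} (h : M.dd c = 0) (h' : M.dd c' = 0) : bil c c' = bil c' c := by
  have := bil_antisymm c c'
  rw [h, h'] at this
  simp only [Pi.zero_apply, mul_zero, zero_mul, add_zero, Finset.sum_const_zero] at this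
  generalize bil c c' = a at *
  generalize bil c' c = b at *
  revert a b; decide

end fin

end FMap

end Pool.Agent.Lib_helper38.Adj
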