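import Pool.Agent.Lib_helper38.Adj.Form

/-!
# Dimension counts for the intersection form
-/

namespace Pool.Agent.Lib_helper38.Adj

open Relation Function

namespace FMap

variable {Φ : Type} (M : FMap Φ) [DecidableEq Φ]

section cells

open Classical in
/-- single cells -/
noncomputable def cell0 (x : Φ) : M.Ch := (Pi.single (Quotient.mk _ x) 1, 0, 0)
open Classical in
noncomputable def cell1 (x : Φ) : M.Ch := (0, Pi.single (Quotient.mk _ x) 1, 0)
open Classical in
noncomputable def cell2 (x : Φ) : M.Ch := (0, 0, Pi.single (Quotient.mk _ x) 1)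

theorem single_quot {a : Φ → Φ} (ha : Involutive a) (ha' : ∀ z, a z ≠ z) (x y : Φ)
    [DecidableEq (Quotient (gen {a}))] :
    (Pi.single (Quotient.mk (gen {a}) x) (1 : ZMod 2) : Quotient (gen {a}) → ZMod 2)
      (Quotient.mk (gen {a}) y) =
    (Pi.single x 1 : Φ → ZMod 2) y + (Pi.single (a x) 1 : Φ → ZMod 2) y := by
  have h1 : (Quotient.mk (gen {a}) y = Quotient.mk (gen {a}) x) ↔ (y = x ∨ y = a x) := by
    rw [Quotient.eq, Setoid.comm', gen_single ha]
  by_cases hx : y = x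
  · subst hx
    rw [Pi.single_eq_same, Pi.single_eq_same, Pi.single_eq_of_ne (ha' y).symm, add_zero]
  · by_cases hx' : y = a x
    · rw [h1.2 (Or.inr hx'), Pi.single_eq_same, Pi.single_eq_of_ne hx, hx', Pi.single_eq_same,
        zero_add]
    · rw [Pi.single_eq_of_ne (fun h => (h1.1 h).elim hx hx'), Pi.single_eq_of_ne hx,
        Pi.single_eq_of_ne hx', add_zero]

variable {M}

theorem k0_cell0 (x y : Φ) : k0 (M.cell0 x) y =
    (Pi.single x 1 : Φ → ZMod 2) y + (Pi.single (M.a0 x) 1 : Φ → ZMod 2) y := by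
  classical exact single_quot M.i0 M.f0 x y
omit [DecidableEq Φ] in
theorem k1_cell0 (x y : Φ) : k1 (M.cell0 x) y = 0 := rfl
omit [DecidableEq Φ] in
theorem k2_cell0 (x y : Φ) : k2 (M.cell0 x) y = 0 := rfl
omit [DecidableEq Φ] in
theorem k0_cell1 (x y : Φ) : k0 (M.cell1 x) y = 0 := rfl
theorem k1_cell1 (x y : Φ) : k1 (M.cell1 x) y =
    (Pi.single x 1 : Φ → ZMod 2) y + (Pi.single (M.a1 x) 1 : Φ → ZMod 2) y := by
  classical exact single_quot M.i1 M.f1 x y
omit [DecidableEq Φ] in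
theorem k2_cell1 (x y : Φ) : k2 (M.cell1 x) y = 0 := rfl
omit [DecidableEq Φ] in
theorem k0_cell2 (x y : Φ) : k0 (M.cell2 x) y = 0 := rfl
omit [DecidableEq Φ] in
theorem k1_cell2 (x y : Φ) : k1 (M.cell2 x) y = 0 := rfl
theorem k2_cell2 (x y : Φ) : k2 (M.cell2 x) y =
    (Pi.single x 1 : Φ → ZMod 2) y + (Pi.single (M.a2 x) 1 : Φ → ZMod 2) y := by
  classical exact single_quot M.i2 M.f2 x y

theorem dd_cell0 (x : Φ) : M.dd (M.cell0 x) = Pi.single x 1 + Pi.single (M.a0 x) 1 := by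
  funext y
  rw [dd_apply, k0_cell0, k1_cell0, k2_cell0, add_zero, add_zero, Pi.add_apply]
theorem dd_cell1 (x : Φ) : M.dd (M.cell1 x) = Pi.single x 1 + Pi.single (M.a1 x) 1 := by
  funext y
  rw [dd_apply, k0_cell1, k1_cell1, k2_cell1, zero_add, add_zero, Pi.add_apply]
theorem dd_cell2 (x : Φ) : M.dd (M.cell2 x) = Pi.single x 1 + Pi.single (M.a2 x) 1 := by
  funext y
  rw [dd_apply, k0_cell2, k1_cell2, k2_cell2, zero_add, zero_add, Pi.add_apply]

end cells

section dim

theorem fun_add_self {α : Type*} (f : α → ZMod 2) : f + f = 0 := by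
  funext x; exact add_self2 _

variable {M}

theorem pair_mem (h : M.Conn) (x y : Φ) :
    (Pi.single x 1 + Pi.single y 1 : Φ → ZMod 2) ∈ LinearMap.range M.dd := by
  have step : ∀ z z' : Φ, (Pi.single z 1 + Pi.single z' 1 : Φ → ZMod 2) ∈ LinearMap.range M.dd →
      (Pi.single x 1 + Pi.single z 1 : Φ → ZMod 2) ∈ LinearMap.range M.dd →
      (Pi.single x 1 + Pi.single z' 1 : Φ → ZMod 2) ∈ LinearMap.range M.dd := by
    intro z z' h1 h2
    have h3 := Submodule.add_mem _ h2 h1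
    have e : (Pi.single x 1 + Pi.single z 1 : Φ → ZMod 2) + (Pi.single z 1 + Pi.single z' 1) =
        Pi.single x 1 + Pi.single z' 1 + (Pi.single z 1 + Pi.single z 1) := by ring
    rwa [e, fun_add_self, add_zero] at h3
  refine M.closedC (P := fun z => (Pi.single x 1 + Pi.single z 1 : Φ → ZMod 2) ∈
    LinearMap.range M.dd) ?_ ?_ ?_ (h x y) ?_
  · intro z hz; exact step z _ ⟨_, dd_cell0 z⟩ hz
  · intro z hz; exact step z _ ⟨_, dd_cell1 z⟩ hz
  · intro z hz; exact step z _ ⟨_, dd_cell2 z⟩ hz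
  · rw [fun_add_self]; exact Submodule.zero_mem _

variable [Fintype Φ]

theorem finrank_range_dd (h : M.Conn) [Nonempty Φ] :
    Fintype.card Φ ≤ Module.finrank (ZMod 2) (LinearMap.range M.dd) + 1 := by
  obtain ⟨x0⟩ := ‹Nonempty Φ›
  set W := LinearMap.range M.dd with hW
  have htop : W ⊔ Submodule.span (ZMod 2) {(Pi.single x0 1 : Φ → ZMod 2)} = ⊤ := by
    rw [Submodule.eq_top_iff']
    intro f
    have hs : ∀ x, (Pi.single x 1 : Φ → ZMod 2) ∈
        W ⊔ Submodule.span (ZMod 2) {(Pi.single x0 1 : Φ → ZMod 2)} := by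
      intro x
      have h1 : (Pi.single x0 1 + Pi.single x 1 : Φ → ZMod 2) ∈
        W ⊔ Submodule.span (ZMod 2) {(Pi.single x0 1 : Φ → ZMod 2)} :=
        Submodule.mem_sup_left (pair_mem h x0 x)
      have h2 : (Pi.single x0 1 : Φ → ZMod 2) ∈
        W ⊔ Submodule.span (ZMod 2) {(Pi.single x0 1 : Φ → ZMod 2)} :=
        Submodule.mem_sup_right (Submodule.mem_span_singleton_self _)
      exact (Submodule.add_mem_iff_right _ h2).1 h1
    have : f = ∑ x, f x • (Pi.single x 1 : Φ → ZMod 2) := by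
      funext y
      rw [Finset.sum_apply]
      simp only [Pi.smul_apply, smul_eq_mul, Pi.single_apply, mul_ite, mul_one, mul_zero]
      rw [Finset.sum_ite_eq]
      simp
    rw [this]
    exact Submodule.sum_mem _ (fun x _ => Submodule.smul_mem _ _ (hs x))
  have h1 := Submodule.finrank_add_le_finrank_add_finrank W
    (Submodule.span (ZMod 2) {(Pi.single x0 1 : Φ → ZMod 2)})
  rw [htop, finrank_top, Module.finrank_fintype_fun_eq_card] at h1
  have h2 := finrank_span_singleton (K := ZMod 2) (v := (Pi.single x0 1 : Φ → ZMod 2)) (by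
    intro h0
    have := congrFun h0 x0
    rw [Pi.single_eq_same] at this
    exact one_ne_zero this)
  omega

omit [DecidableEq Φ] in
theorem finrank_quot (r : Setoid Φ) : Module.finrank (ZMod 2) (Quotient r → ZMod 2) = nc r := by
  classical
  rw [Module.finrank_fintype_fun_eq_card]
  unfold nc
  rw [Nat.card_eq_fintype_card]

omit [DecidableEq Φ] in
theorem finrank_three (r s t : Setoid Φ) : Module.finrank (ZMod 2)
    ((Quotient r → ZMod 2) × (Quotient s → ZMod 2) × (Quotient t → ZMod 2)) =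
      nc r + nc s + nc t := by
  rw [Module.finrank_prod, Module.finrank_prod, finrank_quot, finrank_quot, finrank_quot, add_assoc]

omit [DecidableEq Φ] in
theorem finrank_Ch : 2 * Module.finrank (ZMod 2) M.Ch = 3 * Fintype.card Φ := by
  have e0 := two_nc M.i0 M.f0
  have e1 := two_nc M.i1 M.f1
  have e2 := two_nc M.i2 M.f2
  have h := finrank_three M.q0 M.q1 M.q2
  rw [Nat.card_eq_fintype_card] at e0 e1 e2
  change Module.finrank (ZMod 2) M.Ch = nc (gen {M.a0}) + nc (gen {M.a1}) + nc (gen {M.a2}) at h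
  omega

theorem finrank_K (h : M.Conn) [Nonempty Φ] :
    2 * Module.finrank (ZMod 2) (LinearMap.ker M.dd) ≤ Fintype.card Φ + 2 := by
  have h1 := LinearMap.finrank_range_add_finrank_ker M.dd
  have h2 := finrank_Ch (M := M)
  have h3 := finrank_range_dd h
  omega

end dim

section boundary

omit [DecidableEq Φ]

/-- canonical projection between quotients -/
def fac {r s : Setoid Φ} (h : ∀ x y, r x y → s x y) : Quotient r → Quotient s :=
  Quotient.lift (fun x => Quotient.mk s x) (fun _ _ hab => Quotient.sound (h _ _ hab))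

theorem q0E (x y : Φ) : M.q0 x y → M.rE x y :=
  gen_mono (by rintro f rfl; exact Or.inl rfl)
theorem q0F (x y : Φ) : M.q0 x y → M.rF x y :=
  gen_mono (by rintro f rfl; exact Or.inr rfl)
theorem q1V (x y : Φ) : M.q1 x y → M.rV x y :=
  gen_mono (by rintro f rfl; exact Or.inl rfl)
theorem q1F (x y : Φ) : M.q1 x y → M.rF x y :=
  gen_mono (by rintro f rfl; exact Or.inl rfl)
theorem q2V (x y : Φ) : M.q2 x y → M.rV x y :=
  gen_mono (by rintro f rfl; exact Or.inr rfl)
theorem q2E (x y : Φ) : M.q2 x y → M.rE x y :=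
  gen_mono (by rintro f rfl; exact Or.inr rfl)

/-- 2-chains of the barycentric subdivision -/
abbrev Ch2 : Type :=
  (Quotient M.rV → ZMod 2) × (Quotient M.rE → ZMod 2) × (Quotient M.rF → ZMod 2)

/-- boundary of 2-chains -/
def bdm : M.Ch2 →ₗ[ZMod 2] M.Ch where
  toFun f := (fun q => f.2.1 (fac M.q0E q) + f.2.2 (fac M.q0F q),
    fun q => f.1 (fac M.q1V q) + f.2.2 (fac M.q1F q),
    fun q => f.1 (fac M.q2V q) + f.2.1 (fac M.q2E q))
  map_add' f g := by
    refine Prod.ext (funext fun q => ?_) (Prod.ext (funext fun q => ?_) (funext fun q => ?_))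
    · change (f.2.1 (fac M.q0E q) + g.2.1 (fac M.q0E q)) +
        (f.2.2 (fac M.q0F q) + g.2.2 (fac M.q0F q)) =
        (f.2.1 (fac M.q0E q) + f.2.2 (fac M.q0F q)) + (g.2.1 (fac M.q0E q) + g.2.2 (fac M.q0F q))
      ring
    · change (f.1 (fac M.q1V q) + g.1 (fac M.q1V q)) +
        (f.2.2 (fac M.q1F q) + g.2.2 (fac M.q1F q)) =
        (f.1 (fac M.q1V q) + f.2.2 (fac M.q1F q)) + (g.1 (fac M.q1V q) + g.2.2 (fac M.q1F q))
      ring
    · change (f.1 (fac M.q2V q) + g.1 (fac M.q2V q)) +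
        (f.2.1 (fac M.q2E q) + g.2.1 (fac M.q2E q)) =
        (f.1 (fac M.q2V q) + f.2.1 (fac M.q2E q)) + (g.1 (fac M.q2V q) + g.2.1 (fac M.q2E q))
      ring
  map_smul' t f := by
    refine Prod.ext (funext fun q => ?_) (Prod.ext (funext fun q => ?_) (funext fun q => ?_))
    · change t * f.2.1 (fac M.q0E q) + t * f.2.2 (fac M.q0F q) =
        t * (f.2.1 (fac M.q0E q) + f.2.2 (fac M.q0F q))
      ring
    · change t * f.1 (fac M.q1V q) + t * f.2.2 (fac M.q1F q) =
        t * (f.1 (fac M.q1V q) + f.2.2 (fac M.q1F q))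
      ring
    · change t * f.1 (fac M.q2V q) + t * f.2.1 (fac M.q2E q) =
        t * (f.1 (fac M.q2V q) + f.2.1 (fac M.q2E q))
      ring

variable {M}

theorem k0_bdm (f : M.Ch2) (x : Φ) :
    k0 (M.bdm f) x = f.2.1 (Quotient.mk _ x) + f.2.2 (Quotient.mk _ x) := rfl
theorem k1_bdm (f : M.Ch2) (x : Φ) :
    k1 (M.bdm f) x = f.1 (Quotient.mk _ x) + f.2.2 (Quotient.mk _ x) := rfl
theorem k2_bdm (f : M.Ch2) (x : Φ) :
    k2 (M.bdm f) x = f.1 (Quotient.mk _ x) + f.2.1 (Quotient.mk _ x) := rfl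

theorem dd_bdm (f : M.Ch2) : M.dd (M.bdm f) = 0 := by
  funext x
  rw [dd_apply, k0_bdm, k1_bdm, k2_bdm, Pi.zero_apply]
  generalize f.1 (Quotient.mk _ x) = a
  generalize f.2.1 (Quotient.mk _ x) = b
  generalize f.2.2 (Quotient.mk _ x) = c
  revert a b c; decide

theorem bil_bdm [Fintype Φ] (f : M.Ch2) {c : M.Ch} (hc : M.dd c = 0) : bil (M.bdm f) c = 0 := by
  have e : ∀ x, k0 (M.bdm f) x * k2 c x = f.2.1 (Quotient.mk _ x) * k2 c x +
      (f.2.2 (Quotient.mk _ x) * k0 c x + f.2.2 (Quotient.mk _ x) * k1 c x) := by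
    intro x
    have h := congrFun hc x
    rw [dd_apply, Pi.zero_apply] at h
    rw [k0_bdm]
    revert h
    generalize f.2.1 (Quotient.mk _ x) = a
    generalize f.2.2 (Quotient.mk _ x) = b
    generalize k0 c x = c0
    generalize k1 c x = c1
    generalize k2 c x = c2
    revert a b c0 c1 c2; decide
  unfold bil
  rw [Finset.sum_congr rfl (fun x _ => e x), Finset.sum_add_distrib, Finset.sum_add_distrib,
    sum_invol _ M.a2 M.i2 M.f2, sum_invol _ M.a0 M.i0 M.f0, sum_invol _ M.a1 M.i1 M.f1]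
  · simp
  · intro z
    rw [k1_a, Quotient.sound (Setoid.symm' _ (M.rF_a1 z) : M.rF (M.a1 z) z)]
  · intro z
    rw [k0_a, Quotient.sound (Setoid.symm' _ (M.rF_a0 z) : M.rF (M.a0 z) z)]
  · intro z
    rw [k2_a, Quotient.sound (Setoid.symm' _ (M.rE_a2 z) : M.rE (M.a2 z) z)]

theorem finrank_ker_bdm (h : M.Conn) [Nonempty Φ] [Finite Φ] :
    Module.finrank (ZMod 2) (LinearMap.ker M.bdm) ≤ 1 := by
  have h1 : ((fun _ => 1, fun _ => 1, fun _ => 1) : M.Ch2) ∈ LinearMap.ker M.bdm := by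
    rw [LinearMap.mem_ker]
    rfl
  refine finrank_le_one (⟨_, h1⟩ : LinearMap.ker M.bdm) ?_
  rintro ⟨f, hf⟩
  rw [LinearMap.mem_ker] at hf
  have e0 : ∀ x, f.2.1 (Quotient.mk _ x) + f.2.2 (Quotient.mk _ x) = 0 := fun x => by
    rw [← k0_bdm, hf]; rfl
  have e2 : ∀ x, f.1 (Quotient.mk _ x) + f.2.1 (Quotient.mk _ x) = 0 := fun x => by
    rw [← k2_bdm, hf]; rfl
  have eq_of : ∀ a b : ZMod 2, a + b = 0 → a = b := by decide
  have e0' : ∀ x : Φ, f.2.1 (Quotient.mk _ x) = f.2.2 (Quotient.mk _ x) := fun x =>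
    eq_of _ _ (e0 x)
  have e2' : ∀ x : Φ, f.1 (Quotient.mk _ x) = f.2.1 (Quotient.mk _ x) := fun x =>
    eq_of _ _ (e2 x)
  obtain ⟨x0⟩ := ‹Nonempty Φ›
  have hconst : ∀ x, f.1 (Quotient.mk _ x) = f.1 (Quotient.mk _ x0) := by
    intro x
    refine gen_eq (g := fun x : Φ => f.1 (Quotient.mk _ x)) ?_ (h x x0)
    rintro g (rfl | rfl | rfl) z
    · change f.1 (Quotient.mk _ (M.a1 z)) = f.1 (Quotient.mk _ z)
      rw [Quotient.sound (Setoid.symm' _ (M.rV_a1 z) : M.rV (M.a1 z) z)]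
    · change f.1 (Quotient.mk _ (M.a0 z)) = f.1 (Quotient.mk _ z)
      rw [e2', e2', Quotient.sound (Setoid.symm' _ (M.rE_a0 z) : M.rE (M.a0 z) z)]
    · change f.1 (Quotient.mk _ (M.a2 z)) = f.1 (Quotient.mk _ z)
      rw [Quotient.sound (Setoid.symm' _ (M.rV_a2 z) : M.rV (M.a2 z) z)]
  refine ⟨f.1 (Quotient.mk _ x0), Subtype.ext ?_⟩
  refine Prod.ext (funext fun q => ?_) (Prod.ext (funext fun q => ?_) (funext fun q => ?_))
  · induction q using Quotient.inductionOn with | _ x => ?_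
    change f.1 (Quotient.mk _ x0) * 1 = f.1 (Quotient.mk _ x)
    rw [mul_one, hconst x]
  · induction q using Quotient.inductionOn with | _ x => ?_
    change f.1 (Quotient.mk _ x0) * 1 = f.2.1 (Quotient.mk _ x)
    rw [mul_one, ← e2', hconst x]
  · induction q using Quotient.inductionOn with | _ x => ?_
    change f.1 (Quotient.mk _ x0) * 1 = f.2.2 (Quotient.mk _ x)
    rw [mul_one, ← e0', ← e2', hconst x]

theorem finrank_R (h : M.Conn) [Nonempty Φ] [Fintype Φ] :
    M.nV + M.nE + M.nF ≤ Module.finrank (ZMod 2) (LinearMap.range M.bdm) + 1 := by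
  have h1 := LinearMap.finrank_range_add_finrank_ker M.bdm
  have h2 := finrank_ker_bdm h
  have h3 := finrank_three M.rV M.rE M.rF
  change Module.finrank (ZMod 2) M.Ch2 = M.nV + M.nE + M.nF at h3
  omega

/-- The first homology group has dimension at most `2 - χ`. -/
theorem finrank_K_le (h : M.Conn) [Nonempty Φ] [Fintype Φ] :
    (Module.finrank (ZMod 2) (LinearMap.ker M.dd) : ℤ) ≤
      Module.finrank (ZMod 2) (LinearMap.range M.bdm) + (2 - M.chi) := by
  classical
  have h1 := finrank_K h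
  have h2 := finrank_R h
  have h3 := M.four_nE
  rw [Nat.card_eq_fintype_card] at h3
  unfold chi
  omega

theorem R_le_K : LinearMap.range M.bdm ≤ LinearMap.ker M.dd := by
  rintro _ ⟨f, rfl⟩
  exact dd_bdm f

end boundary

end FMap

end Pool.Agent.Lib_helper38.Adj
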