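import Pool.Agent.Lib_helper38.Adj.Form2
import Pool.Agent.Lib_helper38.Adj.DefsO

/-!
# Consequences of the dimension count
-/

namespace Pool.Agent.Lib_helper38.Adj

open Relation Function

namespace FMap

variable {Φ : Type} {M : FMap Φ} [Fintype Φ]

theorem bil_R {r k : M.Ch} (hr : r ∈ LinearMap.range M.bdm) (hk : M.dd k = 0) :
    bil r k = 0 ∧ bil k r = 0 := by
  obtain ⟨f, rfl⟩ := hr
  refine ⟨bil_bdm f hk, ?_⟩
  rw [bil_symm hk (dd_bdm f)]
  exact bil_bdm f hk

/-- In dimension at most two a form that is not alternating is a sum of two squares. -/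
theorem exists_diag (h : M.Conn) [Nonempty Φ] (hχ : 0 ≤ M.chi) {p : M.Ch} (hp : M.dd p = 0)
    (hpp : bil p p = 1) : ∃ q : M.Ch, M.dd q = 0 ∧ ∀ k k' : M.Ch, M.dd k = 0 → M.dd k' = 0 →
      bil k k' = bil p k * bil p k' + bil q k * bil q k' := by
  set R := LinearMap.range M.bdm with hR
  set K := LinearMap.ker M.dd with hK
  by_cases hcase : ∀ k : M.Ch, M.dd k = 0 → bil p k = 0 → k ∈ R
  · refine ⟨0, map_zero _, ?_⟩
    have hdec : ∀ k : M.Ch, M.dd k = 0 → ∃ r ∈ R, ∃ t : ZMod 2, k = r + t • p := by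
      intro k hk
      refine ⟨k + bil p k • p, ?_, bil p k, ?_⟩
      · apply hcase
        · rw [map_add, map_smul, hk, hp, smul_zero, add_zero]
        · rw [bil_add_right, bil_smul_right, hpp, mul_one, add_self2]
      · rw [add_assoc, ← add_smul, add_self2, zero_smul, add_zero]
    intro k k' hk hk'
    obtain ⟨r, hr, t, rfl⟩ := hdec k hk
    obtain ⟨r', hr', t', rfl⟩ := hdec k' hk'
    have ds : ∀ t : ZMod 2, M.dd (t • p) = 0 := fun t => by rw [map_smul, hp, smul_zero]
    have dr' : M.dd r' = 0 := R_le_K hr'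
    rw [bil_zero_left, zero_mul, add_zero]
    simp only [bil_add_left, bil_add_right, (bil_R hr dr').1, (bil_R hr hp).1,
      (bil_R hr hp).2, (bil_R hr' hp).2, bil_smul_left, bil_smul_right, hpp]
    clear hk hk'
    revert t t'
    decide
  · push Not at hcase
    obtain ⟨q, hq, hpq, hqR⟩ := hcase
    refine ⟨q, hq, ?_⟩
    have hpR : p ∉ R := by
      intro hpR
      rw [(bil_R hpR hp).1] at hpp
      exact zero_ne_one hpp
    set S1 := R ⊔ Submodule.span (ZMod 2) {p} with hS1
    set S2 := S1 ⊔ Submodule.span (ZMod 2) {q} with hS2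
    have hqS1 : q ∉ S1 := by
      intro hmem
      rw [hS1, Submodule.mem_sup] at hmem
      obtain ⟨r, hr, s, hs, hrs⟩ := hmem
      rw [Submodule.mem_span_singleton] at hs
      obtain ⟨t, rfl⟩ := hs
      have ht : t = 0 := by
        rw [← hrs, bil_add_right, bil_smul_right, hpp, mul_one, (bil_R hr hp).2, zero_add] at hpq
        exact hpq
      rw [ht, zero_smul, add_zero] at hrs
      exact hqR (hrs ▸ hr)
    have hRK : R ≤ K := R_le_K
    have hS2K : S2 ≤ K := by
      refine sup_le (sup_le hRK ?_) ?_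
      · rw [Submodule.span_singleton_le_iff_mem]; exact hp
      · rw [Submodule.span_singleton_le_iff_mem]; exact hq
    have l1 : R < S1 := by
      refine lt_of_le_of_ne le_sup_left ?_
      intro he
      apply hpR
      rw [he]
      exact Submodule.mem_sup_right (Submodule.mem_span_singleton_self p)
    have l2 : S1 < S2 := by
      refine lt_of_le_of_ne le_sup_left ?_
      intro he
      apply hqS1
      rw [he]
      exact Submodule.mem_sup_right (Submodule.mem_span_singleton_self q)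
    have f1 := Submodule.finrank_lt_finrank_of_lt l1
    have f2 := Submodule.finrank_lt_finrank_of_lt l2
    have f3 := finrank_K_le h
    have f4 : S2 = K := by
      apply Submodule.eq_of_le_of_finrank_le hS2K
      have : (Module.finrank (ZMod 2) K : ℤ) ≤ Module.finrank (ZMod 2) R + 2 := by
        refine f3.trans ?_
        linarith
      omega
    have hdec : ∀ k : M.Ch, M.dd k = 0 → ∃ r ∈ R, ∃ s t : ZMod 2, k = r + s • p + t • q := by
      intro k hk
      have hk' : k ∈ S2 := by rw [f4]; exact hk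
      rw [hS2, Submodule.mem_sup] at hk'
      obtain ⟨y, hy, z, hz, rfl⟩ := hk'
      rw [hS1, Submodule.mem_sup] at hy
      obtain ⟨r, hr, w, hw, rfl⟩ := hy
      rw [Submodule.mem_span_singleton] at hz hw
      obtain ⟨s, rfl⟩ := hw
      obtain ⟨t, rfl⟩ := hz
      exact ⟨r, hr, s, t, rfl⟩
    intro k k' hk hk'
    obtain ⟨r, hr, s, t, rfl⟩ := hdec k hk
    obtain ⟨r', hr', s', t', rfl⟩ := hdec k' hk'
    have hqp : bil q p = 0 := by rw [bil_symm hq hp]; exact hpq
    have ds : ∀ t : ZMod 2, M.dd (t • p) = 0 := fun t => by rw [map_smul, hp, smul_zero]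
    have dt : ∀ t : ZMod 2, M.dd (t • q) = 0 := fun t => by rw [map_smul, hq, smul_zero]
    have dr : M.dd r = 0 := hRK hr
    have dr' : M.dd r' = 0 := hRK hr'
    simp only [bil_add_left, bil_add_right, (bil_R hr dr').1, (bil_R hr hp).1, (bil_R hr hq).1,
      (bil_R hr hp).2, (bil_R hr hq).2, (bil_R hr' hp).2, (bil_R hr' hq).2, bil_smul_left,
      bil_smul_right, hpp, hpq, hqp]
    clear hk hk'
    generalize bil q q = b
    revert s t s' t' b
    decide

/-- number of cells of a chain, modulo two -/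
noncomputable def len (c : M.Ch) : ZMod 2 := by
  classical
  exact ∑ q, c.1 q + ∑ q, c.2.1 q + ∑ q, c.2.2 q

theorem len_add (c c' : M.Ch) : len (c + c') = len c + len c' := by
  classical
  unfold len
  have e1 : ∀ q, (c + c').1 q = c.1 q + c'.1 q := fun q => rfl
  have e2 : ∀ q, (c + c').2.1 q = c.2.1 q + c'.2.1 q := fun q => rfl
  have e3 : ∀ q, (c + c').2.2 q = c.2.2 q + c'.2.2 q := fun q => rfl
  simp only [e1, e2, e3, Finset.sum_add_distrib]
  ring

/-- sums over the orbits of an involution -/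
theorem sum_orbit {a : Φ → Φ} (ha : Involutive a) (ha' : ∀ z, a z ≠ z)
    [Fintype (Quotient (gen {a}))] (f : Quotient (gen {a}) → ℕ) :
    ∑ x, f (Quotient.mk _ x) = 2 * ∑ q, f q := by
  classical
  rw [← Finset.sum_fiberwise (s := Finset.univ) (g := fun x => Quotient.mk (gen {a}) x)
    (f := fun x => f (Quotient.mk _ x)), Finset.mul_sum]
  apply Finset.sum_congr rfl
  intro q _
  induction q using Quotient.inductionOn with | _ x => ?_
  have h1 : Finset.univ.filter (fun y => Quotient.mk (gen {a}) y = Quotient.mk (gen {a}) x) =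
      {x, a x} := by
    ext y
    simp only [Finset.mem_filter, Finset.mem_univ, true_and, Finset.mem_insert,
      Finset.mem_singleton]
    rw [Quotient.eq, Setoid.comm', gen_single ha]
  rw [h1, Finset.sum_pair (ha' x).symm,
    Quotient.sound (Setoid.symm' _ (gen_step (Set.mem_singleton a) x) : gen {a} (a x) x)]
  ring

/-- For cycles the number of cells is the self-intersection number. -/
theorem len_eq {c : M.Ch} (hc : M.dd c = 0) : len c = bil c c := by
  classical
  have s0 := sum_orbit M.i0 M.f0 (fun q => (c.1 q).val)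
  have s1 := sum_orbit M.i1 M.f1 (fun q => (c.2.1 q).val)
  have s2 := sum_orbit M.i2 M.f2 (fun q => (c.2.2 q).val)
  have e : ∀ x : Φ, (c.1 (Quotient.mk _ x)).val + (c.2.1 (Quotient.mk _ x)).val +
      (c.2.2 (Quotient.mk _ x)).val =
      2 * ((k0 c x * k1 c x).val + (k0 c x * k2 c x).val + (k1 c x * k2 c x).val) := by
    intro x
    have h := congrFun hc x
    rw [dd_apply, Pi.zero_apply] at h
    change (k0 c x).val + (k1 c x).val + (k2 c x).val = _
    revert h
    generalize k0 c x = a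
    generalize k1 c x = b
    generalize k2 c x = d
    revert a b d
    decide
  have hsum := Finset.sum_congr (rfl : (Finset.univ : Finset Φ) = Finset.univ) (fun x _ => e x)
  rw [Finset.sum_add_distrib, Finset.sum_add_distrib, s0, s1, s2, ← Finset.mul_sum] at hsum
  have hsum' : ∑ q, (c.1 q).val + ∑ q, (c.2.1 q).val + ∑ q, (c.2.2 q).val =
      ∑ x, ((k0 c x * k1 c x).val + (k0 c x * k2 c x).val + (k1 c x * k2 c x).val) := by
    refine Nat.eq_of_mul_eq_mul_left (show 0 < 2 by norm_num) ?_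
    rw [mul_add, mul_add]
    exact hsum
  have hcast := congrArg (fun n : ℕ => (n : ZMod 2)) hsum'
  simp only [Nat.cast_add, Nat.cast_sum, ZMod.natCast_val, ZMod.cast_id', id_eq,
    Finset.sum_add_distrib] at hcast
  have hl : len c = ∑ q, c.1 q + ∑ q, c.2.1 q + ∑ q, c.2.2 q := rfl
  rw [hl, hcast]
  have t0 : ∑ x, k0 c x = 0 := sum_invol _ M.a0 M.i0 M.f0 (fun z => k0_a c z)
  have t2 : ∑ x, k2 c x = 0 := sum_invol _ M.a2 M.i2 M.f2 (fun z => k2_a c z)
  have e01 : ∑ x, k0 c x * k1 c x = ∑ x, k0 c x + ∑ x, k0 c x * k2 c x := by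
    rw [← Finset.sum_add_distrib]
    apply Finset.sum_congr rfl
    intro x _
    have h := congrFun hc x
    rw [dd_apply, Pi.zero_apply] at h
    revert h
    generalize k0 c x = a
    generalize k1 c x = b
    generalize k2 c x = d
    revert a b d
    decide
  have e12 : ∑ x, k1 c x * k2 c x = ∑ x, k2 c x + ∑ x, k0 c x * k2 c x := by
    rw [← Finset.sum_add_distrib]
    apply Finset.sum_congr rfl
    intro x _
    have h := congrFun hc x
    rw [dd_apply, Pi.zero_apply] at h
    revert h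
    generalize k0 c x = a
    generalize k1 c x = b
    generalize k2 c x = d
    revert a b d
    decide
  rw [e01, e12, t0, t2, zero_add]
  change _ = ∑ x, k0 c x * k2 c x
  generalize ∑ x, k0 c x * k2 c x = s
  revert s; decide

theorem sum_single_quot (r : Setoid Φ) [Fintype (Quotient r)] [DecidableEq (Quotient r)]
    (q0 : Quotient r) : ∑ q, (Pi.single q0 (1 : ZMod 2) : Quotient r → ZMod 2) q = 1 := by
  rw [Finset.sum_eq_single q0]
  · exact Pi.single_eq_same _ _
  · intro q _ hq; exact Pi.single_eq_of_ne hq _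
  · intro h; exact absurd (Finset.mem_univ _) h

theorem len_cell0 (x : Φ) : len (M.cell0 x) = 1 := by
  classical
  unfold len cell0
  simp only [Pi.zero_apply, Finset.sum_const_zero, add_zero]
  exact sum_single_quot _ _

theorem len_cell1 (x : Φ) : len (M.cell1 x) = 1 := by
  classical
  unfold len cell1
  simp only [Pi.zero_apply, Finset.sum_const_zero, add_zero, zero_add]
  exact sum_single_quot _ _

theorem len_cell2 (x : Φ) : len (M.cell2 x) = 1 := by
  classical
  unfold len cell2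
  simp only [Pi.zero_apply, Finset.sum_const_zero, zero_add]
  exact sum_single_quot _ _

/-- If all cycles have self-intersection number zero, the surface is orientable. -/
theorem orientable_of_alt [DecidableEq Φ] (h : M.Conn) [Nonempty Φ]
    (halt : ∀ k : M.Ch, M.dd k = 0 → bil k k = 0) : M.Orientable := by
  obtain ⟨x0⟩ := ‹Nonempty Φ›
  have hadd : ∀ (x y z : Φ), (Pi.single x 1 + Pi.single y 1 : Φ → ZMod 2) +
      (Pi.single y 1 + Pi.single z 1) = Pi.single x 1 + Pi.single z 1 := by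
    intro x y z
    have e : (Pi.single x 1 + Pi.single y 1 : Φ → ZMod 2) + (Pi.single y 1 + Pi.single z 1) =
        Pi.single x 1 + Pi.single z 1 + (Pi.single y 1 + Pi.single y 1) := by ring
    rw [e, fun_add_self, add_zero]
  have hex : ∀ y, ∃ (t : ZMod 2) (c : M.Ch), M.dd c = Pi.single x0 1 + Pi.single y 1 ∧
      len c = t := by
    intro y
    refine M.closedC (P := fun y => ∃ (t : ZMod 2) (c : M.Ch),
      M.dd c = Pi.single x0 1 + Pi.single y 1 ∧ len c = t) ?_ ?_ ?_ (h x0 y) ?_
    · rintro z ⟨t, c, hc, hl⟩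
      exact ⟨_, c + M.cell0 z, by rw [map_add, hc, dd_cell0, hadd], rfl⟩
    · rintro z ⟨t, c, hc, hl⟩
      exact ⟨_, c + M.cell1 z, by rw [map_add, hc, dd_cell1, hadd], rfl⟩
    · rintro z ⟨t, c, hc, hl⟩
      exact ⟨_, c + M.cell2 z, by rw [map_add, hc, dd_cell2, hadd], rfl⟩
    · exact ⟨_, 0, by rw [map_zero, fun_add_self], rfl⟩
  have huniq : ∀ (y : Φ) (c c' : M.Ch), M.dd c = Pi.single x0 1 + Pi.single y 1 →
      M.dd c' = Pi.single x0 1 + Pi.single y 1 → len c = len c' := by
    intro y c c' hc hc'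
    have h1 : M.dd (c + c') = 0 := by rw [map_add, hc, hc', fun_add_self]
    have h2 := halt _ h1
    rw [← len_eq h1, len_add] at h2
    revert h2
    generalize len c = a
    generalize len c' = b
    revert a b; decide
  choose t c hc hl using hex
  have hne : ∀ a : ZMod 2, decide (a + 1 = 1) ≠ decide (a = 1) := by decide
  have key : ∀ y z (e : M.Ch), M.dd e = Pi.single y 1 + Pi.single z 1 → len e = 1 →
      decide (t z = 1) ≠ decide (t y = 1) := by
    intro y z e he hle
    have h1 : M.dd (c y + e) = Pi.single x0 1 + Pi.single z 1 := by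
      rw [map_add, hc, he, hadd]
    have h2 := huniq z _ _ (hc z) h1
    rw [hl, len_add, hl, hle] at h2
    rw [h2]
    exact hne _
  refine ⟨fun y => decide (t y = 1), fun y => ⟨?_, ?_, ?_⟩⟩
  · exact key y _ (M.cell0 y) (dd_cell0 y) (len_cell0 y)
  · exact key y _ (M.cell1 y) (dd_cell1 y) (len_cell1 y)
  · exact key y _ (M.cell2 y) (dd_cell2 y) (len_cell2 y)

/-- chains along paths -/
theorem exists_chain [DecidableEq Φ] (S : Set M.Vert) {x y : Φ}
    (hx : (Quotient.mk M.rV x : M.Vert) ∈ S)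
    (hxy : M.lk (fun z => (Quotient.mk M.rV z : M.Vert) ∈ S) x y) :
    ∃ c : M.Ch, M.dd c = Pi.single x 1 + Pi.single y 1 ∧
      ∀ z, (Quotient.mk M.rV z : M.Vert) ∉ S → k0 c z = 0 ∧ k1 c z = 0 ∧ k2 c z = 0 := by
  have hadd : ∀ (x y z : Φ), (Pi.single x 1 + Pi.single y 1 : Φ → ZMod 2) +
      (Pi.single y 1 + Pi.single z 1) = Pi.single x 1 + Pi.single z 1 := by
    intro x y z
    have e : (Pi.single x 1 + Pi.single y 1 : Φ → ZMod 2) + (Pi.single y 1 + Pi.single z 1) =
        Pi.single x 1 + Pi.single z 1 + (Pi.single y 1 + Pi.single y 1) := by ring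
    rw [e, fun_add_self, add_zero]
  have hv1 : ∀ z, (Quotient.mk M.rV (M.a1 z) : M.Vert) = Quotient.mk M.rV z := fun z =>
    Quotient.sound (Setoid.symm' _ (M.rV_a1 z))
  have hv2 : ∀ z, (Quotient.mk M.rV (M.a2 z) : M.Vert) = Quotient.mk M.rV z := fun z =>
    Quotient.sound (Setoid.symm' _ (M.rV_a2 z))
  have hsing : ∀ (u z : Φ), (Quotient.mk M.rV u : M.Vert) ∈ S →
      (Quotient.mk M.rV z : M.Vert) ∉ S → (Pi.single u 1 : Φ → ZMod 2) z = 0 := by
    intro u z hu hz
    apply Pi.single_eq_of_ne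
    rintro rfl
    exact hz hu
  -- steps
  have st : ∀ (u w : Φ) (e : M.Ch), M.dd e = Pi.single u 1 + Pi.single w 1 →
      (∀ z, (Quotient.mk M.rV z : M.Vert) ∉ S → k0 e z = 0 ∧ k1 e z = 0 ∧ k2 e z = 0) →
      (∃ c : M.Ch, M.dd c = Pi.single x 1 + Pi.single u 1 ∧
      ∀ z, (Quotient.mk M.rV z : M.Vert) ∉ S → k0 c z = 0 ∧ k1 c z = 0 ∧ k2 c z = 0) →
      (∃ c : M.Ch, M.dd c = Pi.single x 1 + Pi.single w 1 ∧
      ∀ z, (Quotient.mk M.rV z : M.Vert) ∉ S → k0 c z = 0 ∧ k1 c z = 0 ∧ k2 c z = 0) := by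
    rintro u w e he he' ⟨c, hc, hc'⟩
    refine ⟨c + e, by rw [map_add, hc, he, hadd], ?_⟩
    intro z hz
    obtain ⟨h1, h2, h3⟩ := hc' z hz
    obtain ⟨g1, g2, g3⟩ := he' z hz
    rw [k0_add, k1_add, k2_add, h1, h2, h3, g1, g2, g3]
    simp
  have h := gen_closed (F := {M.a1, M.a2, M.cr (fun z => (Quotient.mk M.rV z : M.Vert) ∈ S)})
    (P := fun y => (Quotient.mk M.rV y : M.Vert) ∈ S ∧ ∃ c : M.Ch,
      M.dd c = Pi.single x 1 + Pi.single y 1 ∧
      ∀ z, (Quotient.mk M.rV z : M.Vert) ∉ S → k0 c z = 0 ∧ k1 c z = 0 ∧ k2 c z = 0) ?_ ?_ hxy ?_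
  · exact h.2
  · rintro f (rfl | rfl | rfl)
    · exact M.i1
    · exact M.i2
    · exact M.cr_inv _
  · rintro f (rfl | rfl | rfl) u ⟨hu, hc⟩
    · refine ⟨by rw [hv1]; exact hu, st u _ (M.cell1 u) (dd_cell1 u) ?_ hc⟩
      intro z hz
      refine ⟨k0_cell1 _ _, ?_, k2_cell1 _ _⟩
      rw [k1_cell1, hsing u z hu hz, hsing _ z (by rw [hv1]; exact hu) hz, add_zero]
    · refine ⟨by rw [hv2]; exact hu, st u _ (M.cell2 u) (dd_cell2 u) ?_ hc⟩
      intro z hz
      refine ⟨k0_cell2 _ _, k1_cell2 _ _, ?_⟩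
      rw [k2_cell2, hsing u z hu hz, hsing _ z (by rw [hv2]; exact hu) hz, add_zero]
    · rcases M.cr_cases (fun z => (Quotient.mk M.rV z : M.Vert) ∈ S) u with ⟨h1, h2, e⟩ | e
      · rw [e]
        refine ⟨h2, st u _ (M.cell0 u) (dd_cell0 u) ?_ hc⟩
        intro z hz
        refine ⟨?_, k1_cell0 _ _, k2_cell0 _ _⟩
        rw [k0_cell0, hsing u z hu hz, hsing _ z h2 hz, add_zero]
      · rw [e]; exact ⟨hu, hc⟩
  · refine ⟨hx, 0, by rw [map_zero, fun_add_self], fun z _ => ⟨rfl, rfl, rfl⟩⟩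

end FMap

end Pool.Agent.Lib_helper38.Adj
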