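import Pool.Agent.Lib_helper38.Adj.Rank

/-!
# The bound for all graphs
-/

namespace Pool.Agent.Lib_helper38.Adj

open Relation Function

/-- number of edges by lower neighbours -/
theorem sum_lower {W : Type*} [Fintype W] (G : SimpleGraph W) (ord : W → ℕ)
    (hord : Function.Injective ord) :
    ∑ v : W, Nat.card {q // G.Adj v q ∧ ord q < ord v} = Nat.card G.edgeSet := by
  classical
  have e1 : ∀ v : W, Nat.card {q // G.Adj v q ∧ ord q < ord v} =
      ∑ q : W, if G.Adj v q ∧ ord q < ord v then 1 else 0 := by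
    intro v
    rw [Nat.card_eq_fintype_card, Fintype.card_subtype, Finset.card_filter]
  have e2 : ∑ v : W, ∑ q : W, (if G.Adj v q ∧ ord q < ord v then 1 else 0) =
      ∑ v : W, ∑ q : W, (if G.Adj v q ∧ ord v < ord q then 1 else 0) := by
    rw [Finset.sum_comm]
    apply Finset.sum_congr rfl; intro v _
    apply Finset.sum_congr rfl; intro q _
    rw [G.adj_comm]
  have e3 : ∑ v : W, ∑ q : W, (if G.Adj v q ∧ ord q < ord v then 1 else 0) +
      ∑ v : W, ∑ q : W, (if G.Adj v q ∧ ord v < ord q then 1 else 0) = ∑ v : W, G.degree v := by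
    rw [← Finset.sum_add_distrib]
    apply Finset.sum_congr rfl; intro v _
    rw [← Finset.sum_add_distrib, ← SimpleGraph.card_neighborFinset_eq_degree,
      Finset.card_eq_sum_ones, SimpleGraph.neighborFinset_eq_filter, Finset.sum_filter]
    apply Finset.sum_congr rfl; intro q _
    by_cases h : G.Adj v q
    · have hne : ord v ≠ ord q := fun h' => h.ne (hord h')
      rcases lt_or_gt_of_ne hne with h1 | h1
      · rw [if_neg (fun h2 => absurd h2.2 (not_lt.2 h1.le)), if_pos ⟨h, h1⟩, if_pos h]
      · rw [if_pos ⟨h, h1⟩, if_neg (fun h2 => absurd h2.2 (not_lt.2 h1.le)), if_pos h]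
    · rw [if_neg (fun h2 => h h2.1), if_neg (fun h2 => h h2.1), if_neg h, add_zero]
  have e4 := G.sum_degrees_eq_twice_card_edges
  rw [Finset.sum_congr rfl (fun v _ => e1 v), Nat.card_eq_fintype_card,
    ← SimpleGraph.edgeFinset_card]
  omega

namespace LMap

variable {W : Type*} {G : SimpleGraph W} {Φ : Type} [DecidableEq Φ] [Fintype Φ]
  {M : LMap G Φ} {X : ℤ}

/-- vertices of type `S` -/
def SV (M : LMap G Φ) (c : M.VT) : Prop := ∃ x, M.mV x = c ∧ M.IsS x

omit [DecidableEq Φ] [Fintype Φ] in
theorem IsS.rV {x y : Φ} (h : M.IsS x) (hxy : M.rV x y) : M.IsS y := by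
  obtain ⟨h1, h2⟩ := h
  refine ⟨?_, fun z hz => h2 z (Setoid.trans' _ hxy hz)⟩
  intro h
  rw [← M.lab_rV hxy] at h
  exact h1 (Setoid.trans' _ hxy h)

theorem IsMax.index_count (hM : IsMax X M) [Fintype W] (ord : W → ℕ)
    (hord : Function.Injective ord) :
    Nat.card G.edgeSet + 3 * M.nV ≤ Nat.card {i // M.PI ord i} + Nat.card {c // M.DV c} +
      Nat.card {c // M.SV c} + 3 * Fintype.card W := by
  classical
  let S : Finset M.VT := Finset.univ.image (fun w => M.mV (M.s w))
  have hinj : Function.Injective (fun w => M.mV (M.s w)) := by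
    intro v w h
    have h2 := M.lab_rV (Quotient.exact h)
    rwa [M.lab_s, M.lab_s] at h2
  have hS : S.card = Fintype.card W := by
    rw [Finset.card_image_of_injective _ hinj, Finset.card_univ]
  set d : M.VT → ℕ := fun y => Nat.card {q // M.PI ord (y, q)} with hd
  have e1 : Nat.card {i // M.PI ord i} = ∑ y, d y := by
    rw [Nat.card_congr (Equiv.subtypeProdEquivSigmaSubtype (fun y q => M.PI ord (y, q))),
      Nat.card_sigma]
  have e2 : Nat.card {c // M.DV c} = ∑ y, if M.DV y then 1 else 0 := by
    rw [Nat.card_eq_fintype_card, Fintype.card_subtype, Finset.card_filter]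
  have e3 : Nat.card {c // M.SV c} = ∑ y, if M.SV y then 1 else 0 := by
    rw [Nat.card_eq_fintype_card, Fintype.card_subtype, Finset.card_filter]
  have e4 : Nat.card {i // M.PI ord i} + Nat.card {c // M.DV c} + Nat.card {c // M.SV c} =
      ∑ y, (d y + (if M.DV y then 1 else 0) + (if M.SV y then 1 else 0)) := by
    rw [e1, e2, e3, Finset.sum_add_distrib, Finset.sum_add_distrib]
  rw [e4, ← Finset.sum_add_sum_compl S]
  have h1 : Nat.card G.edgeSet ≤
      ∑ y ∈ S, (d y + (if M.DV y then 1 else 0) + (if M.SV y then 1 else 0)) := by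
    rw [← sum_lower G ord hord, Finset.sum_image (fun v _ w _ h => hinj h)]
    apply Finset.sum_le_sum
    intro v _
    refine le_trans ?_ (Nat.le_add_right _ _)
    refine le_trans ?_ (Nat.le_add_right _ _)
    have hPI : ∀ q : {q // G.Adj v q ∧ ord q < ord v}, M.PI ord (M.mV (M.s v), q.1) := by
      rintro ⟨q, hq1, hq2⟩
      obtain ⟨x, hx1, hx2⟩ := hM.1.main_nbr hq1
      refine ⟨⟨x, mV_eq.2 (Setoid.symm' _ hx1), hx2⟩, ?_⟩
      rintro ⟨v', hv', hv''⟩
      have : v = v' := hinj hv'
      subst this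
      exact absurd hv'' (not_lt.2 hq2.le)
    exact Nat.card_le_card_of_injective (fun q => (⟨q.1, hPI q⟩ : {q // M.PI ord (M.mV (M.s v), q)}))
      (fun a b h => Subtype.ext (congrArg (fun z => z.1) h))
  have h2 : 3 * Sᶜ.card ≤
      ∑ y ∈ Sᶜ, (d y + (if M.DV y then 1 else 0) + (if M.SV y then 1 else 0)) := by
    rw [mul_comm, ← smul_eq_mul, ← Finset.sum_const]
    apply Finset.sum_le_sum
    intro y hy
    induction y using Quotient.inductionOn with | _ x => ?_
    have hns : ∀ v, ¬ M.mV x = M.mV (M.s v) := by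
      intro v hv
      rw [Finset.mem_compl] at hy
      exact hy (Finset.mem_image.2 ⟨v, Finset.mem_univ _, hv.symm⟩)
    have hx : ¬ M.rV x (M.s (M.lab x)) := fun h => hns _ (mV_eq.2 h)
    have hPI : ∀ z, M.rV x z → M.PI ord (M.mV x, M.lab (M.a0 z)) := by
      intro z hz
      refine ⟨⟨z, mV_eq.2 (Setoid.symm' _ hz), rfl⟩, ?_⟩
      rintro ⟨v, hv, _⟩
      exact hns v hv
    have hd2 : 2 ≤ d (M.mV x) := by
      obtain ⟨w, u, hwu, hw, hu, hw', hu'⟩ := hM.1.two_sep hx
      obtain ⟨y1, -, h1, -, h3, -, -⟩ := hM.1.sep_nbrs hx hw hw'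
      obtain ⟨y3, -, h6, -, h8, -, -⟩ := hM.1.sep_nbrs hx hu hu'
      have := Nat.card_le_card_of_injective (fun i : Fin 2 => (if i = 0 then
        ⟨M.lab (M.a0 y1), hPI y1 h1⟩ else ⟨M.lab (M.a0 y3), hPI y3 h6⟩ :
          {q // M.PI ord (M.mV x, q)})) (by
        intro i j hij
        have hne : M.lab (M.a0 y1) ≠ M.lab (M.a0 y3) := by rw [h3, h8]; exact hwu
        fin_cases i <;> fin_cases j
        · rfl
        · exact absurd (congrArg Subtype.val hij) hne
        · exact absurd (congrArg Subtype.val hij) hne.symm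
        · rfl)
      rwa [Nat.card_eq_fintype_card, Fintype.card_fin] at this
    change 3 ≤ d (M.mV x) + (if M.DV (M.mV x) then 1 else 0) + (if M.SV (M.mV x) then 1 else 0)
    rcases hM.types hx with h3 | h3 | h3
    · obtain ⟨z1, z2, z3, g1, g2, g3, n1, n2, n3⟩ := h3
      have := Nat.card_le_card_of_injective (fun i : Fin 3 => (if i = 0 then
        ⟨M.lab (M.a0 z1), hPI z1 g1⟩ else if i = 1 then ⟨M.lab (M.a0 z2), hPI z2 g2⟩ else
          ⟨M.lab (M.a0 z3), hPI z3 g3⟩ : {q // M.PI ord (M.mV x, q)})) (by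
        intro i j hij
        fin_cases i <;> fin_cases j
        · rfl
        · exact absurd (congrArg Subtype.val hij) n1
        · exact absurd (congrArg Subtype.val hij) n2
        · exact absurd (congrArg Subtype.val hij) n1.symm
        · rfl
        · exact absurd (congrArg Subtype.val hij) n3
        · exact absurd (congrArg Subtype.val hij) n2.symm
        · exact absurd (congrArg Subtype.val hij) n3.symm
        · rfl)
      rw [Nat.card_eq_fintype_card, Fintype.card_fin] at this
      have h4 : 3 ≤ d (M.mV x) := this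
      omega
    · have : M.DV (M.mV x) := ⟨x, rfl, h3⟩
      rw [if_pos this]
      omega
    · have : M.SV (M.mV x) := ⟨x, rfl, h3⟩
      rw [if_pos this]
      omega
  have h5 : M.nV = S.card + Sᶜ.card := by
    rw [Finset.card_add_card_compl]
    unfold FMap.nV nc
    rw [Nat.card_eq_fintype_card]
  omega

theorem IsMax.face_count (hM : IsMax X M) :
    24 * M.nF + 8 * Nat.card {c // M.SV c} ≤ 4 * Fintype.card Φ := by
  classical
  have hU := hM.2.1
  have hB := hM.2.2.1
  have h1 : 24 * M.nF ≤ ∑ x, (if M.Tri x then 4 else 3) := by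
    apply mul_nc_le_sum
    intro x
    refine ⟨Finset.univ.filter (fun y => M.rF x y), fun y hy => (Finset.mem_filter.1 hy).2, ?_⟩
    have hcard : (Finset.univ.filter (fun y => M.rF x y)).card = Nat.card {y // M.rF x y} := by
      rw [Nat.card_eq_fintype_card, Fintype.card_subtype]
    by_cases ht : M.Tri x
    · rw [Finset.sum_congr rfl (fun y hy => if_pos ((FMap.tri_rF (Finset.mem_filter.1 hy).2).1 ht)),
        Finset.sum_const, hcard, smul_eq_mul]
      have := size_face M.toFMap x 3 (by
        intro j hj0 hj3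
        have : j = 1 ∨ j = 2 := by omega
        rcases this with rfl | rfl
        · exact hU.mono x
        · exact hB x)
      omega
    · rw [Finset.sum_congr rfl (fun y hy => if_neg (fun h =>
        ht ((FMap.tri_rF (Finset.mem_filter.1 hy).2).2 h))), Finset.sum_const, hcard, smul_eq_mul]
      have := size_face M.toFMap x 4 (by
        intro j hj0 hj3
        have : j = 1 ∨ j = 2 ∨ j = 3 := by omega
        rcases this with rfl | rfl | rfl
        · exact hU.mono x
        · exact hB x
        · exact ht)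
      omega
  have h2 : ∑ x, (if M.Tri x then 4 else 3) + (Finset.univ.filter (fun x => ¬ M.Tri x)).card =
      4 * Fintype.card Φ := by
    rw [Finset.card_filter, ← Finset.sum_add_distrib]
    rw [Finset.sum_congr rfl (g := fun _ => 4) (fun x _ => ?_)]
    · rw [Finset.sum_const, Finset.card_univ, smul_eq_mul, mul_comm]
    · by_cases h : M.Tri x
      · rw [if_pos h, if_neg (not_not.2 h)]
      · rw [if_neg h, if_pos h]
  have h3 : 8 * Nat.card {c // M.SV c} ≤ (Finset.univ.filter (fun x => ¬ M.Tri x)).card := by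
    have e1 : (Finset.univ.filter (fun x => ¬ M.Tri x)).card =
        ∑ c : M.VT, ((Finset.univ.filter (fun x => ¬ M.Tri x)).filter (fun x => M.mV x = c)).card :=
      Finset.card_eq_sum_card_fiberwise (fun x _ => Finset.mem_univ _)
    have e2 : Nat.card {c // M.SV c} = ∑ y : M.VT, if M.SV y then 1 else 0 := by
      rw [Nat.card_eq_fintype_card, Fintype.card_subtype, Finset.card_filter]
    rw [e1, e2, Finset.mul_sum]
    apply Finset.sum_le_sum
    intro c _
    by_cases hc : M.SV c
    · rw [if_pos hc, mul_one]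
      obtain ⟨x, rfl, hx⟩ := hc
      refine (hM.1.extra_size hx.1).trans (le_of_eq ?_)
      rw [Nat.card_eq_fintype_card, Fintype.card_subtype]
      congr 1
      ext y
      simp only [Finset.mem_filter, Finset.mem_univ, true_and]
      constructor
      · intro h; exact ⟨hx.2 y h, mV_eq.2 (Setoid.symm' _ h)⟩
      · rintro ⟨-, h⟩; exact Setoid.symm' _ (mV_eq.1 h)
    · rw [if_neg hc, mul_zero]; exact Nat.zero_le _
  omega

omit [DecidableEq Φ] in
/-- The bound for all graphs without isolated vertices and isolated edges: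
`4 |E| ≤ 12 |V| - 12 χ`. -/
theorem full (M : LMap G Φ) [Fintype W] [Nonempty W] (hG : ∀ w, ∃ u, G.Adj w u)
    (hK : ∀ w u, G.Adj w u → ∃ z, z ≠ w ∧ z ≠ u ∧ (G.Adj w z ∨ G.Adj u z)) :
    4 * (Nat.card G.edgeSet : ℤ) ≤ 12 * Fintype.card W - 3 * M.chiE := by
  classical
  obtain ⟨Ψ, i, i', N, hN⟩ := M.exists_max hG hK
  set ord : W → ℕ := fun w => (Fintype.equivFin W w).val with ho
  have hord : Function.Injective ord := fun a b h =>
    (Fintype.equivFin W).injective (Fin.ext h)
  have h1 := hN.index_count ord hord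
  have h2 := hN.face_count
  have h4 := hN.rank_count ord hord
  have h5 := N.toFMap.four_nE
  rw [Nat.card_eq_fintype_card (α := Ψ)] at h5
  have h6 := hN.1.1.trans N.chiE_le_chi4
  unfold FMap.chi4 at h6
  omega

end LMap

end Pool.Agent.Lib_helper38.Adj
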