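import Pool.Agent.Lib_helper38.Adj.Full

/-!
# The bounds for all graphs on connected surfaces
-/

namespace Pool.Agent.Lib_helper38.Adj

open Relation Function

/-- Euler's inequality `χ ≤ 2`. -/
theorem FMap.chi4_le {Φ : Type*} [DecidableEq Φ] [Fintype Φ] (M : FMap Φ) : M.chiE ≤ 8 := by
  obtain ⟨N, -, -, -, h⟩ := M.exists_sub (fun _ => False) (fun _ h => h) (fun _ h => h)
  have : IsEmpty (Subtype (fun _ : Φ => False)) := ⟨fun x => x.2⟩
  have hV : N.nV = 0 := by
    unfold FMap.nV nc
    have : IsEmpty (Quotient N.rV) := ⟨fun q => by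
      induction q using Quotient.inductionOn with | _ x => exact x.2⟩
    exact Nat.card_of_isEmpty
  have hF : N.nF = 0 := by
    unfold FMap.nF nc
    have : IsEmpty (Quotient N.rF) := ⟨fun q => by
      induction q using Quotient.inductionOn with | _ x => exact x.2⟩
    exact Nat.card_of_isEmpty
  rw [hV, hF] at h
  have h1 : (0 : ℤ) ≤ N.nC := Int.natCast_nonneg _
  have h2 : (0 : ℤ) ≤ Nat.card (Subtype fun _ : Φ => False) := Int.natCast_nonneg _
  push_cast at h
  linarith

/-- vertices in components with at least three vertices -/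
def bigV {W : Type*} (G : SimpleGraph W) : Set W :=
  {w | ∃ u z, G.Adj w u ∧ z ≠ w ∧ z ≠ u ∧ (G.Adj w z ∨ G.Adj u z)}

section big

variable {W : Type*} {G : SimpleGraph W}

theorem bigV_nbr {w : W} (hw : w ∈ bigV G) {u : W} (hu : G.Adj w u) :
    ∃ z, z ≠ w ∧ z ≠ u ∧ (G.Adj w z ∨ G.Adj u z) := by
  obtain ⟨u', z', h1, h2, h3, h4⟩ := hw
  by_cases h : u' = u
  · subst h; exact ⟨z', h2, h3, h4⟩
  · exact ⟨u', h1.ne', h, Or.inl h1⟩

theorem bigV_adj {w : W} (hw : w ∈ bigV G) {u : W} (hu : G.Adj w u) : u ∈ bigV G := by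
  obtain ⟨z, h1, h2, h3⟩ := bigV_nbr hw hu
  exact ⟨w, z, hu.symm, h2, h1, h3.symm⟩

theorem bigV_third {w u z : W} (hu : G.Adj w u) (h1 : z ≠ w) (h2 : z ≠ u)
    (h3 : G.Adj w z ∨ G.Adj u z) : z ∈ bigV G := by
  rcases h3 with h3 | h3
  · exact ⟨w, u, h3.symm, h2.symm, hu.ne', Or.inr hu⟩
  · exact ⟨u, w, h3.symm, h1.symm, hu.ne, Or.inr hu.symm⟩

theorem deg_small [Fintype W] [DecidableRel G.Adj] {w : W} (hw : w ∉ bigV G) :
    G.degree w ≤ 1 := by
  by_contra h
  push Not at h
  rw [← SimpleGraph.card_neighborFinset_eq_degree, Finset.one_lt_card] at h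
  obtain ⟨a, ha, b, hb, hab⟩ := h
  rw [SimpleGraph.mem_neighborFinset] at ha hb
  exact hw ⟨a, b, ha, hb.ne', hab.symm, Or.inl hb⟩

/-- The edge count splits. -/
theorem card_edge_le [Fintype W] [Fintype (bigV G)] :
    2 * Nat.card G.edgeSet + Fintype.card (bigV G) ≤
      2 * Nat.card (G.induce (bigV G)).edgeSet + Fintype.card W := by
  classical
  have h1 := G.sum_degrees_eq_twice_card_edges
  have h2 := (G.induce (bigV G)).sum_degrees_eq_twice_card_edges
  rw [Nat.card_eq_fintype_card, Nat.card_eq_fintype_card, ← SimpleGraph.edgeFinset_card,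
    ← SimpleGraph.edgeFinset_card]
  have h3 : ∑ w : bigV G, (G.induce (bigV G)).degree w = ∑ w ∈ (bigV G).toFinset, G.degree w := by
    have h7 : ∀ w : bigV G, (G.induce (bigV G)).degree w = G.degree w.1 := by
      intro w
      rw [← SimpleGraph.card_neighborFinset_eq_degree, ← SimpleGraph.card_neighborFinset_eq_degree]
      refine Finset.card_bij (fun u _ => u.1) ?_ ?_ ?_
      · intro u hu
        rw [SimpleGraph.mem_neighborFinset] at hu ⊢
        exact hu
      · intro u _ u' _ h; exact Subtype.ext h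
      · intro u hu
        rw [SimpleGraph.mem_neighborFinset] at hu
        refine ⟨⟨u, bigV_adj w.2 hu⟩, ?_, rfl⟩
        rw [SimpleGraph.mem_neighborFinset]
        exact hu
    rw [Finset.sum_congr rfl (fun w _ => h7 w)]
    exact (Finset.sum_subtype (bigV G).toFinset (fun w => Set.mem_toFinset) (fun w => G.degree w)).symm
  have h4 : ∑ w : W, G.degree w = ∑ w ∈ (bigV G).toFinset, G.degree w +
      ∑ w ∈ ((bigV G).toFinset)ᶜ, G.degree w := (Finset.sum_add_sum_compl _ _).symm
  have h5 : ∑ w ∈ ((bigV G).toFinset)ᶜ, G.degree w ≤ ((bigV G).toFinset)ᶜ.card := by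
    rw [Finset.card_eq_sum_ones]
    apply Finset.sum_le_sum
    intro w hw
    rw [Finset.mem_compl, Set.mem_toFinset] at hw
    exact deg_small hw
  have h6 := Finset.card_add_card_compl (bigV G).toFinset
  rw [Set.toFinset_card] at h6
  omega

end big

namespace LMap

variable {W : Type*} {G : SimpleGraph W} {Φ : Type}

/-- passing to an induced subgraph -/
theorem exists_induce (M : LMap G Φ) (hc : M.Conn) (S : Set W) (hS : S.Nonempty) :
    ∃ N : LMap (G.induce S) Φ, N.toFMap = M.toFMap := by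
  classical
  obtain ⟨w0, hw0⟩ := hS
  have hl : ∀ x y, M.lab x = M.lab y →
      (if h : M.lab x ∈ S then (⟨M.lab x, h⟩ : S) else ⟨w0, hw0⟩) =
      (if h : M.lab y ∈ S then (⟨M.lab y, h⟩ : S) else ⟨w0, hw0⟩) := by
    intro x y h; rw [h]
  refine ⟨{ toFMap := M.toFMap
            lab := fun x => if h : M.lab x ∈ S then ⟨M.lab x, h⟩ else ⟨w0, hw0⟩
            lab1 := fun x => hl _ _ (M.lab1 x)
            lab2 := fun x => hl _ _ (M.lab2 x)
            s := fun w => M.s w.1
            lab_s := ?_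
            comp := fun x => ⟨⟨w0, hw0⟩, hc x _⟩
            link := ?_ }, rfl⟩
  · intro w
    have h : M.lab (M.s w.1) ∈ S := by rw [M.lab_s]; exact w.2
    rw [dif_pos h]
    exact Subtype.ext (M.lab_s w.1)
  · intro v w hvw
    refine M.lk_mono ?_ (M.link v.1 w.1 hvw)
    rintro x (hx | hx)
    · left
      have h : M.lab x ∈ S := by rw [hx]; exact v.2
      rw [dif_pos h]; exact Subtype.ext hx
    · right
      have h : M.lab x ∈ S := by rw [hx]; exact w.2
      rw [dif_pos h]; exact Subtype.ext hx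

theorem chiE_eq [Fintype Φ] (M : LMap G Φ) (hc : M.Conn) [Nonempty W] : M.chiE = M.chi4 := by
  obtain ⟨w⟩ := ‹Nonempty W›
  have : Nonempty Φ := ⟨M.s w⟩
  have h := M.nC_eq_one hc
  unfold FMap.chiE
  rw [h]; ring

theorem big_hyp1 {S : Set W} (hS : S = bigV G) : ∀ w : S, ∃ u, (G.induce S).Adj w u := by
  subst hS
  rintro ⟨w, hw⟩
  obtain ⟨u, z, h1, -, -, -⟩ := id hw
  exact ⟨⟨u, bigV_adj hw h1⟩, h1⟩

theorem big_hyp2 {S : Set W} (hS : S = bigV G) : ∀ w u : S, (G.induce S).Adj w u →
    ∃ z, z ≠ w ∧ z ≠ u ∧ ((G.induce S).Adj w z ∨ (G.induce S).Adj u z) := by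
  subst hS
  rintro ⟨w, hw⟩ ⟨u, hu⟩ h
  have h' : G.Adj w u := h
  obtain ⟨z, h1, h2, h3⟩ := bigV_nbr hw h'
  exact ⟨⟨z, bigV_third h' h1 h2 h3⟩, fun h => h1 (congrArg Subtype.val h),
    fun h => h2 (congrArg Subtype.val h), h3⟩

/-- The bound `|E| ≤ 3 |V| - 3 χ` for all graphs with at least three vertices. -/
theorem full_conn [Fintype Φ] (M : LMap G Φ) (hc : M.Conn) [Fintype W]
    (h3 : 3 ≤ Fintype.card W) :
    4 * (Nat.card G.edgeSet : ℤ) ≤ 12 * Fintype.card W - 3 * M.chi4 := by
  classical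
  have hW : Nonempty W := Fintype.card_pos_iff.1 (by omega)
  have hE := card_edge_le (G := G)
  have hchi := M.toFMap.chi4_le
  rw [M.chiE_eq hc] at hchi
  by_cases hne : (bigV G).Nonempty
  · obtain ⟨N, hN⟩ := M.exists_induce hc (bigV G) hne
    have : Nonempty (bigV G) := hne.to_subtype
    have h1 := N.full (big_hyp1 rfl) (big_hyp2 rfl)
    have hc' : N.Conn := by rw [hN]; exact hc
    rw [N.chiE_eq hc', hN] at h1
    have h4 : Fintype.card (bigV G) ≤ Fintype.card W := set_fintype_card_le_univ _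
    omega
  · rw [Set.not_nonempty_iff_eq_empty] at hne
    have h1 : Fintype.card (bigV G) = 0 := by
      rw [Fintype.card_eq_zero_iff, hne]; infer_instance
    have h2 : Nat.card (G.induce (bigV G)).edgeSet = 0 := by
      have : IsEmpty (bigV G) := by rw [hne]; infer_instance
      have : IsEmpty (G.induce (bigV G)).edgeSet := ⟨fun e => by
        obtain ⟨e, he⟩ := e
        induction e using Sym2.ind with | _ a b => exact this.elim a⟩
      exact Nat.card_of_isEmpty
    omega

/-- The bound `|E| ≤ 2 |V| - 2 χ` for all triangle-free graphs with at least three vertices. -/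
theorem triFree_conn [Fintype Φ] (M : LMap G Φ) (hc : M.Conn) [Fintype W]
    (h3 : 3 ≤ Fintype.card W) (hT : G.CliqueFree 3) :
    4 * (Nat.card G.edgeSet : ℤ) ≤ 8 * Fintype.card W - 2 * M.chi4 := by
  classical
  have hW : Nonempty W := Fintype.card_pos_iff.1 (by omega)
  have hE := card_edge_le (G := G)
  have hchi := M.toFMap.chi4_le
  rw [M.chiE_eq hc] at hchi
  by_cases hne : (bigV G).Nonempty
  · obtain ⟨N, hN⟩ := M.exists_induce hc (bigV G) hne
    have : Nonempty (bigV G) := hne.to_subtype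
    have hT' : (G.induce (bigV G)).CliqueFree 3 :=
      hT.comap ⟨(SimpleGraph.Embedding.induce (bigV G)).toCopy⟩
    have h1 := N.triFree (big_hyp1 rfl) (big_hyp2 rfl) hT'
    have hc' : N.Conn := by rw [hN]; exact hc
    rw [N.chiE_eq hc', hN] at h1
    have h4 : Fintype.card (bigV G) ≤ Fintype.card W := set_fintype_card_le_univ _
    omega
  · rw [Set.not_nonempty_iff_eq_empty] at hne
    have h1 : Fintype.card (bigV G) = 0 := by
      rw [Fintype.card_eq_zero_iff, hne]; infer_instance
    have h2 : Nat.card (G.induce (bigV G)).edgeSet = 0 := by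
      have : IsEmpty (bigV G) := by rw [hne]; infer_instance
      have : IsEmpty (G.induce (bigV G)).edgeSet := ⟨fun e => by
        obtain ⟨e, he⟩ := e
        induction e using Sym2.ind with | _ a b => exact this.elim a⟩
      exact Nat.card_of_isEmpty
    omega

end LMap

end Pool.Agent.Lib_helper38.Adj
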