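import Pool.Agent.Lib_helper38.Adj.Gen

/-!
# The bound for graphs of given girth
-/

namespace Pool.Agent.Lib_helper38.Adj

open Relation Function

/-- all cycles have length at least `g` -/
def GirthGe {W : Type*} (G : SimpleGraph W) (g : ℕ) : Prop :=
  ∀ (v : W) (c : G.Walk v v), c.IsCycle → g ≤ c.length

/-- the edges of the component of `w` -/
def compE {W : Type*} (G : SimpleGraph W) (w : W) : Set (Sym2 W) :=
  {e | e ∈ G.edgeSet ∧ ∃ v ∈ e, G.Reachable w v}

namespace LMap

variable {W : Type*} {G : SimpleGraph W} {Φ : Type} [DecidableEq Φ] [Fintype Φ]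
  {M : LMap G Φ} {X : ℤ}

/-- The face of `x` is long, or the edge of `x` has the same face on both sides. -/
theorem IsMin2.face_big (hM : IsMin2 X M) (hG : ∀ w, ∃ u, G.Adj w u) {g : ℕ}
    (hg : GirthGe G g) {x : Φ} (hx : Nat.card {y // M.rF x y} < 2 * g) : M.rF x (M.a2 x) := by
  classical
  by_contra hno
  set b : Φ → Φ := M.a1 ∘ M.a0 with hb
  have hinj : Injective b := M.i1.injective.comp M.i0.injective
  have hper : x ∈ periodicPts b := hinj.mem_periodicPts x
  set k := minimalPeriod b x with hk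
  have hk0 : 0 < k := minimalPeriod_pos_of_mem_periodicPts hper
  have hk1 : ∀ j, 0 < j → j < k → b^[j] x ≠ x := by
    intro j hj hjk h
    exact absurd (IsPeriodicPt.minimalPeriod_le hj h) (not_le.2 hjk)
  have hkg : k < g := by
    have := size_face M.toFMap x k hk1
    omega
  have hR : ∀ j, M.rF x (b^[j] x) := by
    intro j
    induction j with
    | zero => exact Setoid.refl' _ _
    | succ j ih =>
      rw [Function.iterate_succ_apply']
      exact Setoid.trans' _ ih (Setoid.trans' _ (M.rF_a0 _) (M.rF_a1 _))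
  have hadj : G.Adj (M.lab x) (M.lab (M.a0 x)) := (hM.useful hG x).1
  -- edges of the walk along the face
  have hstep : ∀ j, 0 < j → j < k →
      s(M.lab (b^[j] x), M.lab (M.a0 (b^[j] x))) ≠ s(M.lab x, M.lab (M.a0 x)) := by
    intro j hj hjk h
    set y := b^[j] x with hy
    have hyx : y ≠ x := hk1 j hj hjk
    have hyF : M.rF x y := hR j
    have hyx' : y ≠ M.a0 x := iterate_ne' M.i0 M.f0 M.i1 M.f1 j 0 x
    have hF2 : M.rF (M.a0 x) (M.a0 y) := Setoid.trans' _ (Setoid.symm' _ (M.rF_a0 x))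
      (Setoid.trans' _ hyF (M.rF_a0 y))
    have n2 : ∀ z, M.rF x z → z ≠ M.a2 x := fun z hz h => hno (h ▸ hz)
    rw [Sym2.eq_iff] at h
    rcases h with ⟨h1, h2⟩ | ⟨h1, h2⟩
    · have hV1 : M.rV x y := hM.1.face hyF h1.symm
      have hV2 : M.rV (M.a0 x) (M.a0 y) := hM.1.face hF2 h2.symm
      rcases hM.no_par hG hV1 hV2 with h | h | h | h
      · exact hyx h
      · exact n2 y hyF h
      · exact hyx' h
      · exact n2 (M.a0 y) (Setoid.trans' _ hyF (M.rF_a0 y)) (by rw [h, M.i0])
    · have hV1 : M.rV x (M.a0 y) := hM.1.face (Setoid.trans' _ hyF (M.rF_a0 y)) h2.symm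
      have hV2 : M.rV (M.a0 x) (M.a0 (M.a0 y)) := by
        rw [M.i0]
        exact hM.1.face (Setoid.trans' _ (Setoid.symm' _ (M.rF_a0 x)) hyF) h1.symm
      rcases hM.no_par hG hV1 hV2 with h | h | h | h
      · exact hyx' (by rw [← h, M.i0])
      · exact n2 (M.a0 y) (Setoid.trans' _ hyF (M.rF_a0 y)) h
      · exact hyx (M.i0.injective h)
      · exact n2 y hyF (M.i0.injective h)
  -- the walk along the face
  have hwalk : ∀ j, j < k → ∃ c : G.Walk (M.lab (M.a0 x)) (M.lab (b^[j + 1] x)),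
      c.length = j ∧ s(M.lab x, M.lab (M.a0 x)) ∉ c.edges := by
    intro j
    induction j with
    | zero =>
      intro _
      have e : M.lab (b^[0 + 1] x) = M.lab (M.a0 x) := M.lab1 _
      rw [e]
      exact ⟨SimpleGraph.Walk.nil, rfl, by simp⟩
    | succ j ih =>
      intro hj
      obtain ⟨c, hc1, hc2⟩ := ih (by omega)
      have hadj' := (hM.useful hG (b^[j + 1] x)).1
      have e : M.lab (b^[j + 1 + 1] x) = M.lab (M.a0 (b^[j + 1] x)) := by
        rw [Function.iterate_succ_apply']
        exact M.lab1 _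
      rw [e]
      refine ⟨c.concat hadj', ?_, ?_⟩
      · rw [SimpleGraph.Walk.length_concat, hc1]
      · rw [SimpleGraph.Walk.edges_concat, List.concat_eq_append, List.mem_append,
          List.mem_singleton]
        rintro (h | h)
        · exact hc2 h
        · exact hstep (j + 1) (by omega) hj h.symm
  obtain ⟨c, hc1, hc2⟩ := hwalk (k - 1) (by omega)
  have e : b^[k - 1 + 1] x = x := by
    rw [show k - 1 + 1 = k by omega]
    exact iterate_minimalPeriod
  have hlen : (c.copy rfl (congrArg M.lab e)).length = k - 1 := by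
    rw [SimpleGraph.Walk.length_copy, hc1]
  have hedg : s(M.lab x, M.lab (M.a0 x)) ∉ (c.copy rfl (congrArg M.lab e)).edges := by
    rw [SimpleGraph.Walk.edges_copy]; exact hc2
  set c' := c.copy rfl (congrArg M.lab e) with hc'
  have hcyc : (SimpleGraph.Walk.cons hadj c'.bypass).IsCycle := by
    rw [SimpleGraph.Walk.cons_isCycle_iff]
    exact ⟨c'.bypass_isPath, fun h => hedg (c'.edges_bypass_subset_edges h)⟩
  have h1 := hg _ _ hcyc
  have h2 := c'.length_bypass_le_length
  rw [SimpleGraph.Walk.length_cons] at h1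
  omega

/-- In a doubly minimal labelled map of a graph without small components all faces are long. -/
theorem IsMin2.face_full (hM : IsMin2 X M) [Finite W] (hG : ∀ w, ∃ u, G.Adj w u) {g : ℕ}
    (hg : GirthGe G g) (hbig : ∀ w, g ≤ 2 * (compE G w).ncard) (x : Φ) :
    2 * g ≤ Nat.card {y // M.rF x y} := by
  classical
  by_contra hx
  push Not at hx
  have hcomp : ∀ z, M.rC x z → M.rF x z := by
    intro z hz
    refine M.closedC (P := fun z => M.rF x z) ?_ ?_ ?_ hz (Setoid.refl' _ _)
    · intro y hy; exact Setoid.trans' _ hy (M.rF_a0 y)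
    · intro y hy; exact Setoid.trans' _ hy (M.rF_a1 y)
    · intro y hy
      refine Setoid.trans' _ hy (hM.face_big hG hg ?_)
      have : Nat.card {z // M.rF y z} = Nat.card {z // M.rF x z} :=
        Nat.card_congr (Equiv.subtypeEquivRight fun z =>
          ⟨fun h => Setoid.trans' _ hy h, fun h => Setoid.trans' _ (Setoid.symm' _ hy) h⟩)
      omega
  obtain ⟨w, hw⟩ := M.comp x
  have hreach : ∀ v, G.Reachable w v → M.rC x (M.s v) := by
    intro v hv
    obtain ⟨c⟩ := hv
    induction c with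
    | nil => exact hw
    | @cons a b d h c ih => exact ih (Setoid.trans' _ hw (M.link_rC h))
  have hz : ∀ e : compE G w, ∃ z, M.rF x z ∧ s(M.lab z, M.lab (M.a0 z)) = e.1 := by
    rintro ⟨e, he, v, hve, hv⟩
    obtain ⟨u, rfl⟩ := Sym2.mem_iff_exists.1 hve
    obtain ⟨y, hy1, hy2⟩ := hM.1.main_nbr (v := v) (w := u) he
    refine ⟨y, hcomp y (Setoid.trans' _ (hreach v hv) (M.rV_rC hy1)), ?_⟩
    rw [← M.lab_rV hy1, M.lab_s, hy2]
  choose z hz1 hz2 using hz
  have hlabs : ∀ y, s(M.lab (M.a2 y), M.lab (M.a0 (M.a2 y))) = s(M.lab y, M.lab (M.a0 y)) := by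
    intro y
    rw [M.lab2, M.lab_rV (M.rV_a0a2 y)]
  have hlabs0 : ∀ y, s(M.lab (M.a0 y), M.lab (M.a0 (M.a0 y))) = s(M.lab y, M.lab (M.a0 y)) := by
    intro y
    rw [M.i0, Sym2.eq_swap]
  have ha2 : ∀ y, M.rF x y → M.rF x (M.a2 y) := by
    intro y hy
    exact hcomp _ (Setoid.trans' _ (M.rF_rC hy) (M.rC_a2 y))
  let f : (compE G w) × (Bool × Bool) → {y // M.rF x y} := fun p =>
    if p.2.1 then
      (if p.2.2 then ⟨M.a0 (M.a2 (z p.1)), Setoid.trans' _ (ha2 _ (hz1 p.1)) (M.rF_a0 _)⟩
      else ⟨M.a0 (z p.1), Setoid.trans' _ (hz1 p.1) (M.rF_a0 _)⟩)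
    else
      (if p.2.2 then ⟨M.a2 (z p.1), ha2 _ (hz1 p.1)⟩ else ⟨z p.1, hz1 p.1⟩)
  have hflab : ∀ p, s(M.lab (f p).1, M.lab (M.a0 (f p).1)) = p.1.1 := by
    rintro ⟨e, b, c⟩
    rw [← hz2 e]
    cases b <;> cases c
    · rfl
    · exact hlabs _
    · exact hlabs0 _
    · exact (hlabs0 _).trans (hlabs _)
  have hf : Injective f := by
    rintro ⟨e, b, c⟩ ⟨e', b', c'⟩ h
    have he : e = e' := by
      apply Subtype.ext
      have h1 := hflab (e, b, c)
      have h2 := hflab (e', b', c')
      rw [h] at h1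
      exact h1.symm.trans h2
    subst he
    have h' := congrArg Subtype.val h
    have n1 := M.f0 (z e)
    have n2 := M.f2 (z e)
    have n3 := M.f02 (z e)
    have n4 := M.f0 (M.a2 (z e))
    have n5 : M.a0 (M.a2 (z e)) ≠ z e := fun h => n3 (by rw [← h, M.i0]; rw [h])
    have n6 : M.a0 (M.a2 (z e)) ≠ M.a0 (z e) := fun h => n2 (M.i0.injective h)
    cases b <;> cases c <;> cases b' <;> cases c' <;>
      simp only [f, if_true, if_false, Bool.false_eq_true] at h' <;> first
      | rfl
      | exact absurd h' n1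
      | exact absurd h'.symm n1
      | exact absurd h' n2
      | exact absurd h'.symm n2
      | exact absurd h' n3
      | exact absurd h'.symm n3
      | exact absurd h' n4
      | exact absurd h'.symm n4
      | exact absurd h' n5
      | exact absurd h'.symm n5
      | exact absurd h' n6
      | exact absurd h'.symm n6
  have h1 := Nat.card_le_card_of_injective f hf
  rw [Nat.card_prod, Nat.card_eq_fintype_card (α := Bool × Bool), Fintype.card_prod,
    Fintype.card_bool, Nat.card_coe_set_eq] at h1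
  have h2 := hbig w
  omega

omit [DecidableEq Φ] in
/-- The bound for graphs of girth at least `g ≥ 4` without small components. -/
theorem girth_bound (M : LMap G Φ) [Fintype W] [Nonempty W] (hG : ∀ w, ∃ u, G.Adj w u) {g : ℕ}
    (hg4 : 4 ≤ g) (hg : GirthGe G g) (hbig : ∀ w, g ≤ 2 * (compE G w).ncard) :
    4 * ((g : ℤ) - 2) * Nat.card G.edgeSet ≤ 4 * g * Fintype.card W - g * M.chiE := by
  classical
  obtain ⟨Ψ, i, i', N, hN⟩ := M.exists_min2
  have h1 := hN.1.degree_count
  have h2 : 2 * g * N.nF ≤ Fintype.card Ψ := by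
    apply mul_nc_le
    intro x
    exact hN.face_full hG hg hbig x
  have h4 := hN.1.1.trans N.chiE_le_chi4
  have h5 : Fintype.card W ≤ N.nV := by
    have hinj : Function.Injective (fun w => (Quotient.mk N.rV (N.s w) : Quotient N.rV)) := by
      intro v w h
      have h2 := N.lab_rV (Quotient.exact h)
      rwa [N.lab_s, N.lab_s] at h2
    have := Nat.card_le_card_of_injective _ hinj
    rwa [Nat.card_eq_fintype_card] at this
  unfold FMap.chi4 at h4
  have h1' : (8 : ℤ) * N.nV + 4 * Nat.card G.edgeSet ≤ Fintype.card Ψ + 8 * Fintype.card W := by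
    exact_mod_cast h1
  have h2' : (2 : ℤ) * g * N.nF ≤ Fintype.card Ψ := by exact_mod_cast h2
  have h5' : (Fintype.card W : ℤ) ≤ N.nV := by exact_mod_cast h5
  have hg4' : (4 : ℤ) ≤ g := by exact_mod_cast hg4
  have k1 : (g : ℤ) * M.chiE ≤ g * (4 * N.nV + 4 * N.nF - Fintype.card Ψ) :=
    mul_le_mul_of_nonneg_left h4 (by linarith)
  have k2 : ((g : ℤ) - 2) * (8 * N.nV + 4 * Nat.card G.edgeSet) ≤
      (g - 2) * (Fintype.card Ψ + 8 * Fintype.card W) :=
    mul_le_mul_of_nonneg_left h1' (by linarith)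
  have k3 : (0 : ℤ) ≤ (g - 4) * (N.nV - Fintype.card W) :=
    mul_nonneg (by linarith) (by linarith)
  nlinarith [k1, k2, k3, h2']

end LMap

end Pool.Agent.Lib_helper38.Adj
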