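import Pool.Agent.Lib_helper38.Adj.Girth

/-!
# The bound for all graphs of given girth
-/

namespace Pool.Agent.Lib_helper38.Adj

open Relation Function

theorem acyclic_card {T : Type*} [Finite T] [Nonempty T] {H : SimpleGraph T} (hH : H.IsAcyclic) :
    Nat.card H.edgeSet + 1 ≤ Nat.card T := by
  have hc : (⊤ : SimpleGraph T).Connected := SimpleGraph.connected_top
  obtain ⟨F, hF1, -, hF2⟩ := hc.exists_isTree_le_of_le_of_isAcyclic le_top hH
  rw [SimpleGraph.isTree_iff_connected_and_card] at hF2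
  rw [← hF2.2, Nat.card_coe_set_eq, Nat.card_coe_set_eq]
  exact Nat.add_le_add_right (Set.ncard_le_ncard (SimpleGraph.edgeSet_mono hF1)
    (Set.toFinite _)) 1

section comp

variable {W : Type*} {G : SimpleGraph W}

theorem compE_eq {a b : W} (h : G.Reachable a b) : compE G a = compE G b := by
  ext e
  constructor
  · rintro ⟨h1, v, h2, h3⟩; exact ⟨h1, v, h2, h.symm.trans h3⟩
  · rintro ⟨h1, v, h2, h3⟩; exact ⟨h1, v, h2, h.trans h3⟩

/-- vertices in large components -/
def bigC (G : SimpleGraph W) (g : ℕ) : Set W := {w | g ≤ 2 * (compE G w).ncard}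

theorem bigC_reach {g : ℕ} {a b : W} (h : G.Reachable a b) (ha : a ∈ bigC G g) :
    b ∈ bigC G g := by
  unfold bigC at ha ⊢
  rw [Set.mem_ofPred_eq] at ha ⊢
  rwa [← compE_eq h]

theorem girth_induce {g : ℕ} (hg : GirthGe G g) (S : Set W) : GirthGe (G.induce S) g := by
  intro v c hc
  have hinj : Injective (SimpleGraph.Embedding.induce (G := G) S).toHom :=
    (SimpleGraph.Embedding.induce (G := G) S).injective
  have h1 := hg _ (c.map (SimpleGraph.Embedding.induce (G := G) S).toHom) (hc.map hinj)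
  rwa [SimpleGraph.Walk.length_map] at h1

theorem acyclic_induce [Finite W] {g : ℕ} (hg : GirthGe G g) :
    (G.induce (bigC G g)ᶜ).IsAcyclic := by
  classical
  rintro v c hc
  have hinj : Injective (SimpleGraph.Embedding.induce (G := G) (bigC G g)ᶜ).toHom :=
    (SimpleGraph.Embedding.induce (G := G) (bigC G g)ᶜ).injective
  have hc' := hc.map hinj
  set c' := c.map (SimpleGraph.Embedding.induce (G := G) (bigC G g)ᶜ).toHom with hc'def
  have h1 := hg _ c' hc'
  apply v.2
  change g ≤ 2 * (compE G v.1).ncard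
  have h2 : (c'.edges.toFinset : Set (Sym2 W)) ⊆ compE G v.1 := by
    intro e he
    rw [Finset.mem_coe, List.mem_toFinset] at he
    refine ⟨c'.edges_subset_edgeSet he, ?_⟩
    induction e using Sym2.ind with | _ a b => ?_
    refine ⟨a, Sym2.mem_mk_left _ _, ?_⟩
    have ha := c'.fst_mem_support_of_mem_edges he
    exact ⟨c'.takeUntil a ha⟩
  have h3 := Set.ncard_le_ncard h2 (Set.toFinite _)
  rw [Set.ncard_coe_finset, List.toFinset_card_of_nodup hc'.isTrail.edges_nodup,
    SimpleGraph.Walk.length_edges] at h3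
  omega

theorem big_induce [Finite W] {g : ℕ} (w : bigC G g) :
    g ≤ 2 * (compE (G.induce (bigC G g)) w).ncard := by
  refine le_trans w.2 (Nat.mul_le_mul_left 2 ?_)
  have h : compE G w.1 ⊆ Sym2.map Subtype.val '' (compE (G.induce (bigC G g)) w) := by
    rintro e ⟨he, v, hve, ⟨p⟩⟩
    obtain ⟨u, rfl⟩ := Sym2.mem_iff_exists.1 hve
    have hp : ∀ x ∈ p.support, x ∈ bigC G g := by
      classical
      intro x hx
      exact bigC_reach ⟨p.takeUntil x hx⟩ w.2
    have hv : v ∈ bigC G g := hp v p.end_mem_support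
    have hu : u ∈ bigC G g := bigC_reach (SimpleGraph.Adj.reachable he) hv
    refine ⟨s(⟨v, hv⟩, ⟨u, hu⟩), ⟨he, ⟨v, hv⟩, Sym2.mem_mk_left _ _, ⟨p.induce _ hp⟩⟩, rfl⟩
  exact (Set.ncard_le_ncard h (Set.toFinite _)).trans (Set.ncard_image_le (Set.toFinite _))

theorem edges_split [Finite W] (S : Set W) (hS : ∀ a b, G.Adj a b → a ∈ S → b ∈ S) :
    Nat.card G.edgeSet ≤ Nat.card (G.induce S).edgeSet + Nat.card (G.induce Sᶜ).edgeSet := by
  have h : G.edgeSet ⊆ Sym2.map Subtype.val '' (G.induce S).edgeSet ∪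
      Sym2.map Subtype.val '' (G.induce Sᶜ).edgeSet := by
    intro e he
    induction e using Sym2.ind with | _ a b => ?_
    have he' : G.Adj a b := he
    by_cases ha : a ∈ S
    · left
      exact ⟨s(⟨a, ha⟩, ⟨b, hS a b he' ha⟩), he', rfl⟩
    · right
      exact ⟨s(⟨a, ha⟩, ⟨b, fun hb => ha (hS b a he'.symm hb)⟩), he', rfl⟩
  rw [Nat.card_coe_set_eq, Nat.card_coe_set_eq, Nat.card_coe_set_eq]
  refine (Set.ncard_le_ncard h (Set.toFinite _)).trans ((Set.ncard_union_le _ _).trans ?_)
  exact Nat.add_le_add (Set.ncard_image_le (Set.toFinite _)) (Set.ncard_image_le (Set.toFinite _))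

end comp

namespace LMap

variable {W : Type*} {G : SimpleGraph W} {Φ : Type}

/-- The Euler bound for graphs of girth at least `g ≥ 4`. -/
theorem girth_conn4 [Fintype Φ] (M : LMap G Φ) (hc : M.Conn) [Finite W] {g : ℕ} (hg4 : 4 ≤ g)
    (hg : GirthGe G g) (hn : g + 2 ≤ 2 * Nat.card W) :
    4 * ((g : ℤ) - 2) * Nat.card G.edgeSet ≤ 4 * g * Nat.card W - g * M.chi4 := by
  classical
  have := Fintype.ofFinite W
  have hW : Nonempty W := by
    by_contra h
    rw [not_nonempty_iff] at h
    rw [Nat.card_of_isEmpty] at hn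
    omega
  have hchi := M.toFMap.chi4_le
  rw [M.chiE_eq hc] at hchi
  have hg4' : (4 : ℤ) ≤ g := by exact_mod_cast hg4
  have hE := edges_split (G := G) (bigC G g)
    (fun a b h ha => bigC_reach (SimpleGraph.Adj.reachable h) ha)
  have hE' : (Nat.card G.edgeSet : ℤ) ≤ Nat.card (G.induce (bigC G g)).edgeSet +
      Nat.card (G.induce (bigC G g)ᶜ).edgeSet := by exact_mod_cast hE
  have hac := acyclic_induce hg
  by_cases hne : (bigC G g).Nonempty
  · obtain ⟨N, hN⟩ := M.exists_induce hc (bigC G g) hne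
    have : Nonempty (bigC G g) := hne.to_subtype
    have hG' : ∀ w : bigC G g, ∃ u, (G.induce (bigC G g)).Adj w u := by
      intro w
      have h1 := big_induce w
      have h2 : (compE (G.induce (bigC G g)) w).Nonempty := by
        by_contra h
        rw [Set.not_nonempty_iff_eq_empty] at h
        rw [h, Set.ncard_empty] at h1
        omega
      obtain ⟨e, he, v, hve, ⟨p⟩⟩ := h2
      cases p with
      | nil =>
        obtain ⟨u, rfl⟩ := Sym2.mem_iff_exists.1 hve
        exact ⟨u, he⟩
      | cons h _ => exact ⟨_, h⟩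
    have h1 := N.girth_bound hG' hg4 (girth_induce hg _) big_induce
    have hc' : N.Conn := by rw [hN]; exact hc
    rw [N.chiE_eq hc', hN, ← Nat.card_eq_fintype_card] at h1
    have h2 : Nat.card (G.induce (bigC G g)ᶜ).edgeSet ≤ Nat.card ((bigC G g)ᶜ : Set W) := by
      by_cases hemp : Nonempty ((bigC G g)ᶜ : Set W)
      · have := acyclic_card hac
        omega
      · rw [not_nonempty_iff] at hemp
        have : IsEmpty (G.induce (bigC G g)ᶜ).edgeSet := ⟨fun e => by
          obtain ⟨e, he⟩ := e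
          induction e using Sym2.ind with | _ a b => exact hemp.elim a⟩
        rw [Nat.card_of_isEmpty]
        exact Nat.zero_le _
    have h3 : Nat.card (bigC G g) + Nat.card ((bigC G g)ᶜ : Set W) = Nat.card W := by
      rw [Nat.card_coe_set_eq, Nat.card_coe_set_eq]
      exact Set.ncard_add_ncard_compl _
    have h2' : (Nat.card (G.induce (bigC G g)ᶜ).edgeSet : ℤ) ≤
        Nat.card ((bigC G g)ᶜ : Set W) := by exact_mod_cast h2
    have h3' : (Nat.card (bigC G g) : ℤ) + Nat.card ((bigC G g)ᶜ : Set W) = Nat.card W := by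
      exact_mod_cast h3
    have h0 : (0 : ℤ) ≤ Nat.card ((bigC G g)ᶜ : Set W) := Int.natCast_nonneg _
    have k1 : 4 * ((g : ℤ) - 2) * Nat.card G.edgeSet ≤ 4 * (g - 2) *
        (Nat.card (G.induce (bigC G g)).edgeSet + Nat.card (G.induce (bigC G g)ᶜ).edgeSet) :=
      mul_le_mul_of_nonneg_left hE' (by linarith)
    have k2 : 4 * ((g : ℤ) - 2) * Nat.card (G.induce (bigC G g)ᶜ).edgeSet ≤
        4 * (g - 2) * Nat.card ((bigC G g)ᶜ : Set W) :=
      mul_le_mul_of_nonneg_left h2' (by linarith)
    rw [← h3']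
    nlinarith [k1, k2, h1, h0]
  · rw [Set.not_nonempty_iff_eq_empty] at hne
    have h1 : Nat.card (G.induce (bigC G g)).edgeSet = 0 := by
      have : IsEmpty (bigC G g) := by rw [hne]; infer_instance
      have : IsEmpty (G.induce (bigC G g)).edgeSet := ⟨fun e => by
        obtain ⟨e, he⟩ := e
        induction e using Sym2.ind with | _ a b => exact this.elim a⟩
      exact Nat.card_of_isEmpty
    have hne' : Nonempty ((bigC G g)ᶜ : Set W) := by
      rw [hne, Set.compl_empty]
      obtain ⟨w⟩ := hW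
      exact ⟨w, trivial⟩
    have h2 := acyclic_card hac
    have h3 : Nat.card ((bigC G g)ᶜ : Set W) = Nat.card W := by
      rw [hne, Set.compl_empty, Nat.card_coe_set_eq, Set.ncard_univ]
    rw [h3] at h2
    rw [h1] at hE'
    have h2' : (Nat.card (G.induce (bigC G g)ᶜ).edgeSet : ℤ) + 1 ≤ Nat.card W := by
      exact_mod_cast h2
    have hn' : (g : ℤ) + 2 ≤ 2 * Nat.card W := by exact_mod_cast hn
    have k1 : 4 * ((g : ℤ) - 2) * Nat.card G.edgeSet ≤ 4 * (g - 2) * (Nat.card W - 1) := by
      apply mul_le_mul_of_nonneg_left _ (by linarith)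
      push_cast at hE'
      linarith
    have k2 : (g : ℤ) * M.chi4 ≤ g * 8 := mul_le_mul_of_nonneg_left hchi (by linarith)
    nlinarith [k1, k2, hn']

/-- The Euler bound for graphs of girth at least `g ≥ 3`. -/
theorem girth_conn [Fintype Φ] (M : LMap G Φ) (hc : M.Conn) [Finite W] {g : ℕ} (hg3 : 3 ≤ g)
    (hg : GirthGe G g) (hn : g + 2 ≤ 2 * Nat.card W) :
    4 * ((g : ℤ) - 2) * Nat.card G.edgeSet ≤ 4 * g * Nat.card W - g * M.chi4 := by
  classical
  rcases Nat.lt_or_ge 3 g with h | h
  · exact M.girth_conn4 hc h hg hn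
  · have h3 : g = 3 := le_antisymm h hg3
    subst h3
    have := Fintype.ofFinite W
    rw [Nat.card_eq_fintype_card (α := W)] at hn ⊢
    have := M.full_conn hc (by omega)
    push_cast
    linarith

end LMap

end Pool.Agent.Lib_helper38.Adj
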