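import Mathlib

/-!
# A finite check for the complete graph on seven vertices
-/

namespace Pool.Agent.Lib_helper38.Adj.K7

/-- scalar product of two vectors over the field with two elements -/
def dt (a b c d : Bool) : Bool := xor (a && c) (b && d)

/-- the sum over three products -/
def s3 (a b c d a' b' c' d' a'' b'' c'' d'' : Bool) : Bool :=
  xor (dt a b c d) (xor (dt a' b' c' d') (dt a'' b'' c'' d''))

/-- product with a sum of three vectors -/
def p3 (a b c d c' d' c'' d'' : Bool) : Bool :=
  dt a b (xor c (xor c' c'')) (xor d (xor d' d''))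

/-- conjunction over all pairs of Boolean values -/
def all4 (f : Bool → Bool → Bool) : Bool :=
  f false false && (f false true && (f true false && f true true))

theorem all4_spec {f : Bool → Bool → Bool} (h : all4 f = true) (a b : Bool) : f a b = true := by
  unfold all4 at h
  rw [Bool.and_eq_true, Bool.and_eq_true, Bool.and_eq_true] at h
  cases a <;> cases b
  · exact h.1
  · exact h.2.1
  · exact h.2.2.1
  · exact h.2.2.2

/-- exhaustive search -/
def search : Bool :=
  all4 fun f01 g01 =>
  all4 fun f02 g02 =>
  all4 fun f12 g12 =>
  all4 fun f03 g03 =>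
  all4 fun f13 g13 =>
  all4 fun f23 g23 =>
  (!(s3 f01 g01 f23 g23 f02 g02 f13 g13 f03 g03 f12 g12)) || (
  all4 fun f04 g04 =>
  (p3 f04 g04 f12 g12 f13 g13 f23 g23) || (
  all4 fun f14 g14 =>
  (p3 f14 g14 f02 g02 f03 g03 f23 g23) || (
  (p3 f23 g23 f01 g01 f04 g04 f14 g14) || (
  all4 fun f24 g24 =>
  (!(s3 f01 g01 f24 g24 f02 g02 f14 g14 f04 g04 f12 g12)) || (
  (p3 f03 g03 f12 g12 f14 g14 f24 g24) || (
  (p3 f13 g13 f02 g02 f04 g04 f24 g24) || (
  (p3 f24 g24 f01 g01 f03 g03 f13 g13) || (
  all4 fun f34 g34 =>
  (!(s3 f01 g01 f34 g34 f03 g03 f14 g14 f04 g04 f13 g13)) || (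
  (!(s3 f02 g02 f34 g34 f03 g03 f24 g24 f04 g04 f23 g23)) || (
  (!(s3 f12 g12 f34 g34 f13 g13 f24 g24 f14 g14 f23 g23)) || (
  (p3 f01 g01 f23 g23 f24 g24 f34 g34) || (
  (p3 f02 g02 f13 g13 f14 g14 f34 g34) || (
  (p3 f12 g12 f03 g03 f04 g04 f34 g34) || (
  (p3 f34 g34 f01 g01 f02 g02 f12 g12) || (
  all4 fun f05 g05 =>
  (p3 f05 g05 f12 g12 f13 g13 f23 g23) || (
  (p3 f05 g05 f12 g12 f14 g14 f24 g24) || (
  (p3 f05 g05 f13 g13 f14 g14 f34 g34) || (
  (p3 f05 g05 f23 g23 f24 g24 f34 g34) || (
  all4 fun f15 g15 =>
  (p3 f15 g15 f02 g02 f03 g03 f23 g23) || (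
  (p3 f15 g15 f02 g02 f04 g04 f24 g24) || (
  (p3 f15 g15 f03 g03 f04 g04 f34 g34) || (
  (p3 f15 g15 f23 g23 f24 g24 f34 g34) || (
  (p3 f23 g23 f01 g01 f05 g05 f15 g15) || (
  (p3 f24 g24 f01 g01 f05 g05 f15 g15) || (
  (p3 f34 g34 f01 g01 f05 g05 f15 g15) || (
  all4 fun f25 g25 =>
  (!(s3 f01 g01 f25 g25 f02 g02 f15 g15 f05 g05 f12 g12)) || (
  (p3 f03 g03 f12 g12 f15 g15 f25 g25) || (
  (p3 f04 g04 f12 g12 f15 g15 f25 g25) || (
  (p3 f13 g13 f02 g02 f05 g05 f25 g25) || (
  (p3 f14 g14 f02 g02 f05 g05 f25 g25) || (
  (p3 f25 g25 f01 g01 f03 g03 f13 g13) || (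
  (p3 f25 g25 f01 g01 f04 g04 f14 g14) || (
  (p3 f25 g25 f03 g03 f04 g04 f34 g34) || (
  (p3 f25 g25 f13 g13 f14 g14 f34 g34) || (
  (p3 f34 g34 f02 g02 f05 g05 f25 g25) || (
  (p3 f34 g34 f12 g12 f15 g15 f25 g25) || (
  all4 fun f35 g35 =>
  (!(s3 f01 g01 f35 g35 f03 g03 f15 g15 f05 g05 f13 g13)) || (
  (!(s3 f02 g02 f35 g35 f03 g03 f25 g25 f05 g05 f23 g23)) || (
  (!(s3 f12 g12 f35 g35 f13 g13 f25 g25 f15 g15 f23 g23)) || (
  (p3 f01 g01 f23 g23 f25 g25 f35 g35) || (
  (p3 f02 g02 f13 g13 f15 g15 f35 g35) || (
  (p3 f04 g04 f13 g13 f15 g15 f35 g35) || (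
  (p3 f04 g04 f23 g23 f25 g25 f35 g35) || (
  (p3 f12 g12 f03 g03 f05 g05 f35 g35) || (
  (p3 f14 g14 f03 g03 f05 g05 f35 g35) || (
  (p3 f14 g14 f23 g23 f25 g25 f35 g35) || (
  (p3 f24 g24 f03 g03 f05 g05 f35 g35) || (
  (p3 f24 g24 f13 g13 f15 g15 f35 g35) || (
  (p3 f35 g35 f01 g01 f02 g02 f12 g12) || (
  (p3 f35 g35 f01 g01 f04 g04 f14 g14) || (
  (p3 f35 g35 f02 g02 f04 g04 f24 g24) || (
  (p3 f35 g35 f12 g12 f14 g14 f24 g24) || (
  all4 fun f45 g45 =>
  (!(s3 f01 g01 f45 g45 f04 g04 f15 g15 f05 g05 f14 g14)) || (
  (!(s3 f02 g02 f45 g45 f04 g04 f25 g25 f05 g05 f24 g24)) || (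
  (!(s3 f03 g03 f45 g45 f04 g04 f35 g35 f05 g05 f34 g34)) || (
  (!(s3 f12 g12 f45 g45 f14 g14 f25 g25 f15 g15 f24 g24)) || (
  (!(s3 f13 g13 f45 g45 f14 g14 f35 g35 f15 g15 f34 g34)) || (
  (!(s3 f23 g23 f45 g45 f24 g24 f35 g35 f25 g25 f34 g34)) || (
  (p3 f01 g01 f24 g24 f25 g25 f45 g45) || (
  (p3 f01 g01 f34 g34 f35 g35 f45 g45) || (
  (p3 f02 g02 f14 g14 f15 g15 f45 g45) || (
  (p3 f02 g02 f34 g34 f35 g35 f45 g45) || (
  (p3 f03 g03 f14 g14 f15 g15 f45 g45) || (
  (p3 f03 g03 f24 g24 f25 g25 f45 g45) || (
  (p3 f12 g12 f04 g04 f05 g05 f45 g45) || (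
  (p3 f12 g12 f34 g34 f35 g35 f45 g45) || (
  (p3 f13 g13 f04 g04 f05 g05 f45 g45) || (
  (p3 f13 g13 f24 g24 f25 g25 f45 g45) || (
  (p3 f23 g23 f04 g04 f05 g05 f45 g45) || (
  (p3 f23 g23 f14 g14 f15 g15 f45 g45) || (
  (p3 f45 g45 f01 g01 f02 g02 f12 g12) || (
  (p3 f45 g45 f01 g01 f03 g03 f13 g13) || (
  (p3 f45 g45 f02 g02 f03 g03 f23 g23) || (
  (p3 f45 g45 f12 g12 f13 g13 f23 g23) || (
  false)))))))))))))))))))))))))))))))))))))))))))))))))))))))))))))))))))))))))))


set_option maxRecDepth 100000 in
theorem search_eq : search = true := by decide +kernel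

theorem no_sol (f g : ℕ → ℕ → Bool)
    (h1 : ∀ a b c d, a < b → b < c → c < d → d < 6 → s3 (f a b) (g a b) (f c d) (g c d)
      (f a c) (g a c) (f b d) (g b d) (f a d) (g a d) (f b c) (g b c) = true)
    (h2 : ∀ a b c d e, a < b → b < 6 → c < d → d < e → e < 6 → a ≠ c → a ≠ d → a ≠ e → b ≠ c →
      b ≠ d → b ≠ e → p3 (f a b) (g a b) (f c d) (g c d) (f c e) (g c e) (f d e) (g d e) = false) :
    False := by
  have h := search_eq
  unfold search at h
  have h := all4_spec h (f 0 1) (g 0 1)
  beta_reduce at h
  have h := all4_spec h (f 0 2) (g 0 2)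
  beta_reduce at h
  have h := all4_spec h (f 1 2) (g 1 2)
  beta_reduce at h
  have h := all4_spec h (f 0 3) (g 0 3)
  beta_reduce at h
  have h := all4_spec h (f 1 3) (g 1 3)
  beta_reduce at h
  have h := all4_spec h (f 2 3) (g 2 3)
  beta_reduce at h
  rw [h1 0 1 2 3 (by decide) (by decide) (by decide) (by decide), Bool.not_true,
    Bool.false_or] at h
  have h := all4_spec h (f 0 4) (g 0 4)
  beta_reduce at h
  rw [h2 0 4 1 2 3 (by decide) (by decide) (by decide) (by decide) (by decide)
    (by decide) (by decide) (by decide) (by decide) (by decide) (by decide), Bool.false_or] at h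
  have h := all4_spec h (f 1 4) (g 1 4)
  beta_reduce at h
  rw [h2 1 4 0 2 3 (by decide) (by decide) (by decide) (by decide) (by decide)
    (by decide) (by decide) (by decide) (by decide) (by decide) (by decide), Bool.false_or] at h
  rw [h2 2 3 0 1 4 (by decide) (by decide) (by decide) (by decide) (by decide)
    (by decide) (by decide) (by decide) (by decide) (by decide) (by decide), Bool.false_or] at h
  have h := all4_spec h (f 2 4) (g 2 4)
  beta_reduce at h
  rw [h1 0 1 2 4 (by decide) (by decide) (by decide) (by decide), Bool.not_true,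
    Bool.false_or] at h
  rw [h2 0 3 1 2 4 (by decide) (by decide) (by decide) (by decide) (by decide)
    (by decide) (by decide) (by decide) (by decide) (by decide) (by decide), Bool.false_or] at h
  rw [h2 1 3 0 2 4 (by decide) (by decide) (by decide) (by decide) (by decide)
    (by decide) (by decide) (by decide) (by decide) (by decide) (by decide), Bool.false_or] at h
  rw [h2 2 4 0 1 3 (by decide) (by decide) (by decide) (by decide) (by decide)
    (by decide) (by decide) (by decide) (by decide) (by decide) (by decide), Bool.false_or] at h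
  have h := all4_spec h (f 3 4) (g 3 4)
  beta_reduce at h
  rw [h1 0 1 3 4 (by decide) (by decide) (by decide) (by decide), Bool.not_true,
    Bool.false_or] at h
  rw [h1 0 2 3 4 (by decide) (by decide) (by decide) (by decide), Bool.not_true,
    Bool.false_or] at h
  rw [h1 1 2 3 4 (by decide) (by decide) (by decide) (by decide), Bool.not_true,
    Bool.false_or] at h
  rw [h2 0 1 2 3 4 (by decide) (by decide) (by decide) (by decide) (by decide)
    (by decide) (by decide) (by decide) (by decide) (by decide) (by decide), Bool.false_or] at h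
  rw [h2 0 2 1 3 4 (by decide) (by decide) (by decide) (by decide) (by decide)
    (by decide) (by decide) (by decide) (by decide) (by decide) (by decide), Bool.false_or] at h
  rw [h2 1 2 0 3 4 (by decide) (by decide) (by decide) (by decide) (by decide)
    (by decide) (by decide) (by decide) (by decide) (by decide) (by decide), Bool.false_or] at h
  rw [h2 3 4 0 1 2 (by decide) (by decide) (by decide) (by decide) (by decide)
    (by decide) (by decide) (by decide) (by decide) (by decide) (by decide), Bool.false_or] at h
  have h := all4_spec h (f 0 5) (g 0 5)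
  beta_reduce at h
  rw [h2 0 5 1 2 3 (by decide) (by decide) (by decide) (by decide) (by decide)
    (by decide) (by decide) (by decide) (by decide) (by decide) (by decide), Bool.false_or] at h
  rw [h2 0 5 1 2 4 (by decide) (by decide) (by decide) (by decide) (by decide)
    (by decide) (by decide) (by decide) (by decide) (by decide) (by decide), Bool.false_or] at h
  rw [h2 0 5 1 3 4 (by decide) (by decide) (by decide) (by decide) (by decide)
    (by decide) (by decide) (by decide) (by decide) (by decide) (by decide), Bool.false_or] at h
  rw [h2 0 5 2 3 4 (by decide) (by decide) (by decide) (by decide) (by decide)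
    (by decide) (by decide) (by decide) (by decide) (by decide) (by decide), Bool.false_or] at h
  have h := all4_spec h (f 1 5) (g 1 5)
  beta_reduce at h
  rw [h2 1 5 0 2 3 (by decide) (by decide) (by decide) (by decide) (by decide)
    (by decide) (by decide) (by decide) (by decide) (by decide) (by decide), Bool.false_or] at h
  rw [h2 1 5 0 2 4 (by decide) (by decide) (by decide) (by decide) (by decide)
    (by decide) (by decide) (by decide) (by decide) (by decide) (by decide), Bool.false_or] at h
  rw [h2 1 5 0 3 4 (by decide) (by decide) (by decide) (by decide) (by decide)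
    (by decide) (by decide) (by decide) (by decide) (by decide) (by decide), Bool.false_or] at h
  rw [h2 1 5 2 3 4 (by decide) (by decide) (by decide) (by decide) (by decide)
    (by decide) (by decide) (by decide) (by decide) (by decide) (by decide), Bool.false_or] at h
  rw [h2 2 3 0 1 5 (by decide) (by decide) (by decide) (by decide) (by decide)
    (by decide) (by decide) (by decide) (by decide) (by decide) (by decide), Bool.false_or] at h
  rw [h2 2 4 0 1 5 (by decide) (by decide) (by decide) (by decide) (by decide)
    (by decide) (by decide) (by decide) (by decide) (by decide) (by decide), Bool.false_or] at h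
  rw [h2 3 4 0 1 5 (by decide) (by decide) (by decide) (by decide) (by decide)
    (by decide) (by decide) (by decide) (by decide) (by decide) (by decide), Bool.false_or] at h
  have h := all4_spec h (f 2 5) (g 2 5)
  beta_reduce at h
  rw [h1 0 1 2 5 (by decide) (by decide) (by decide) (by decide), Bool.not_true,
    Bool.false_or] at h
  rw [h2 0 3 1 2 5 (by decide) (by decide) (by decide) (by decide) (by decide)
    (by decide) (by decide) (by decide) (by decide) (by decide) (by decide), Bool.false_or] at h
  rw [h2 0 4 1 2 5 (by decide) (by decide) (by decide) (by decide) (by decide)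
    (by decide) (by decide) (by decide) (by decide) (by decide) (by decide), Bool.false_or] at h
  rw [h2 1 3 0 2 5 (by decide) (by decide) (by decide) (by decide) (by decide)
    (by decide) (by decide) (by decide) (by decide) (by decide) (by decide), Bool.false_or] at h
  rw [h2 1 4 0 2 5 (by decide) (by decide) (by decide) (by decide) (by decide)
    (by decide) (by decide) (by decide) (by decide) (by decide) (by decide), Bool.false_or] at h
  rw [h2 2 5 0 1 3 (by decide) (by decide) (by decide) (by decide) (by decide)
    (by decide) (by decide) (by decide) (by decide) (by decide) (by decide), Bool.false_or] at h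
  rw [h2 2 5 0 1 4 (by decide) (by decide) (by decide) (by decide) (by decide)
    (by decide) (by decide) (by decide) (by decide) (by decide) (by decide), Bool.false_or] at h
  rw [h2 2 5 0 3 4 (by decide) (by decide) (by decide) (by decide) (by decide)
    (by decide) (by decide) (by decide) (by decide) (by decide) (by decide), Bool.false_or] at h
  rw [h2 2 5 1 3 4 (by decide) (by decide) (by decide) (by decide) (by decide)
    (by decide) (by decide) (by decide) (by decide) (by decide) (by decide), Bool.false_or] at h
  rw [h2 3 4 0 2 5 (by decide) (by decide) (by decide) (by decide) (by decide)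
    (by decide) (by decide) (by decide) (by decide) (by decide) (by decide), Bool.false_or] at h
  rw [h2 3 4 1 2 5 (by decide) (by decide) (by decide) (by decide) (by decide)
    (by decide) (by decide) (by decide) (by decide) (by decide) (by decide), Bool.false_or] at h
  have h := all4_spec h (f 3 5) (g 3 5)
  beta_reduce at h
  rw [h1 0 1 3 5 (by decide) (by decide) (by decide) (by decide), Bool.not_true,
    Bool.false_or] at h
  rw [h1 0 2 3 5 (by decide) (by decide) (by decide) (by decide), Bool.not_true,
    Bool.false_or] at h
  rw [h1 1 2 3 5 (by decide) (by decide) (by decide) (by decide), Bool.not_true,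
    Bool.false_or] at h
  rw [h2 0 1 2 3 5 (by decide) (by decide) (by decide) (by decide) (by decide)
    (by decide) (by decide) (by decide) (by decide) (by decide) (by decide), Bool.false_or] at h
  rw [h2 0 2 1 3 5 (by decide) (by decide) (by decide) (by decide) (by decide)
    (by decide) (by decide) (by decide) (by decide) (by decide) (by decide), Bool.false_or] at h
  rw [h2 0 4 1 3 5 (by decide) (by decide) (by decide) (by decide) (by decide)
    (by decide) (by decide) (by decide) (by decide) (by decide) (by decide), Bool.false_or] at h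
  rw [h2 0 4 2 3 5 (by decide) (by decide) (by decide) (by decide) (by decide)
    (by decide) (by decide) (by decide) (by decide) (by decide) (by decide), Bool.false_or] at h
  rw [h2 1 2 0 3 5 (by decide) (by decide) (by decide) (by decide) (by decide)
    (by decide) (by decide) (by decide) (by decide) (by decide) (by decide), Bool.false_or] at h
  rw [h2 1 4 0 3 5 (by decide) (by decide) (by decide) (by decide) (by decide)
    (by decide) (by decide) (by decide) (by decide) (by decide) (by decide), Bool.false_or] at h
  rw [h2 1 4 2 3 5 (by decide) (by decide) (by decide) (by decide) (by decide)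
    (by decide) (by decide) (by decide) (by decide) (by decide) (by decide), Bool.false_or] at h
  rw [h2 2 4 0 3 5 (by decide) (by decide) (by decide) (by decide) (by decide)
    (by decide) (by decide) (by decide) (by decide) (by decide) (by decide), Bool.false_or] at h
  rw [h2 2 4 1 3 5 (by decide) (by decide) (by decide) (by decide) (by decide)
    (by decide) (by decide) (by decide) (by decide) (by decide) (by decide), Bool.false_or] at h
  rw [h2 3 5 0 1 2 (by decide) (by decide) (by decide) (by decide) (by decide)
    (by decide) (by decide) (by decide) (by decide) (by decide) (by decide), Bool.false_or] at h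
  rw [h2 3 5 0 1 4 (by decide) (by decide) (by decide) (by decide) (by decide)
    (by decide) (by decide) (by decide) (by decide) (by decide) (by decide), Bool.false_or] at h
  rw [h2 3 5 0 2 4 (by decide) (by decide) (by decide) (by decide) (by decide)
    (by decide) (by decide) (by decide) (by decide) (by decide) (by decide), Bool.false_or] at h
  rw [h2 3 5 1 2 4 (by decide) (by decide) (by decide) (by decide) (by decide)
    (by decide) (by decide) (by decide) (by decide) (by decide) (by decide), Bool.false_or] at h
  have h := all4_spec h (f 4 5) (g 4 5)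
  beta_reduce at h
  rw [h1 0 1 4 5 (by decide) (by decide) (by decide) (by decide), Bool.not_true,
    Bool.false_or] at h
  rw [h1 0 2 4 5 (by decide) (by decide) (by decide) (by decide), Bool.not_true,
    Bool.false_or] at h
  rw [h1 0 3 4 5 (by decide) (by decide) (by decide) (by decide), Bool.not_true,
    Bool.false_or] at h
  rw [h1 1 2 4 5 (by decide) (by decide) (by decide) (by decide), Bool.not_true,
    Bool.false_or] at h
  rw [h1 1 3 4 5 (by decide) (by decide) (by decide) (by decide), Bool.not_true,
    Bool.false_or] at h
  rw [h1 2 3 4 5 (by decide) (by decide) (by decide) (by decide), Bool.not_true,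
    Bool.false_or] at h
  rw [h2 0 1 2 4 5 (by decide) (by decide) (by decide) (by decide) (by decide)
    (by decide) (by decide) (by decide) (by decide) (by decide) (by decide), Bool.false_or] at h
  rw [h2 0 1 3 4 5 (by decide) (by decide) (by decide) (by decide) (by decide)
    (by decide) (by decide) (by decide) (by decide) (by decide) (by decide), Bool.false_or] at h
  rw [h2 0 2 1 4 5 (by decide) (by decide) (by decide) (by decide) (by decide)
    (by decide) (by decide) (by decide) (by decide) (by decide) (by decide), Bool.false_or] at h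
  rw [h2 0 2 3 4 5 (by decide) (by decide) (by decide) (by decide) (by decide)
    (by decide) (by decide) (by decide) (by decide) (by decide) (by decide), Bool.false_or] at h
  rw [h2 0 3 1 4 5 (by decide) (by decide) (by decide) (by decide) (by decide)
    (by decide) (by decide) (by decide) (by decide) (by decide) (by decide), Bool.false_or] at h
  rw [h2 0 3 2 4 5 (by decide) (by decide) (by decide) (by decide) (by decide)
    (by decide) (by decide) (by decide) (by decide) (by decide) (by decide), Bool.false_or] at h
  rw [h2 1 2 0 4 5 (by decide) (by decide) (by decide) (by decide) (by decide)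
    (by decide) (by decide) (by decide) (by decide) (by decide) (by decide), Bool.false_or] at h
  rw [h2 1 2 3 4 5 (by decide) (by decide) (by decide) (by decide) (by decide)
    (by decide) (by decide) (by decide) (by decide) (by decide) (by decide), Bool.false_or] at h
  rw [h2 1 3 0 4 5 (by decide) (by decide) (by decide) (by decide) (by decide)
    (by decide) (by decide) (by decide) (by decide) (by decide) (by decide), Bool.false_or] at h
  rw [h2 1 3 2 4 5 (by decide) (by decide) (by decide) (by decide) (by decide)
    (by decide) (by decide) (by decide) (by decide) (by decide) (by decide), Bool.false_or] at h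
  rw [h2 2 3 0 4 5 (by decide) (by decide) (by decide) (by decide) (by decide)
    (by decide) (by decide) (by decide) (by decide) (by decide) (by decide), Bool.false_or] at h
  rw [h2 2 3 1 4 5 (by decide) (by decide) (by decide) (by decide) (by decide)
    (by decide) (by decide) (by decide) (by decide) (by decide) (by decide), Bool.false_or] at h
  rw [h2 4 5 0 1 2 (by decide) (by decide) (by decide) (by decide) (by decide)
    (by decide) (by decide) (by decide) (by decide) (by decide) (by decide), Bool.false_or] at h
  rw [h2 4 5 0 1 3 (by decide) (by decide) (by decide) (by decide) (by decide)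
    (by decide) (by decide) (by decide) (by decide) (by decide) (by decide), Bool.false_or] at h
  rw [h2 4 5 0 2 3 (by decide) (by decide) (by decide) (by decide) (by decide)
    (by decide) (by decide) (by decide) (by decide) (by decide) (by decide), Bool.false_or] at h
  rw [h2 4 5 1 2 3 (by decide) (by decide) (by decide) (by decide) (by decide)
    (by decide) (by decide) (by decide) (by decide) (by decide) (by decide), Bool.false_or] at h
  exact absurd h (by decide)

end Pool.Agent.Lib_helper38.Adj.K7
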