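import Pool.Agent.Lib_helper38.Adj.Form3
import Pool.Agent.Lib_helper38.Adj.K7
import Pool.Agent.Lib_helper38.Adj.Drawing

/-!
# The complete graph on seven vertices
-/

namespace Pool.Agent.Lib_helper38.Adj

open Relation Function FMap

/-- truth value -/
def toB (x : ZMod 2) : Bool := decide (x = 1)

theorem toB_add (x y : ZMod 2) : toB (x + y) = xor (toB x) (toB y) := by
  revert x y; decide
theorem toB_mul (x y : ZMod 2) : toB (x * y) = (toB x && toB y) := by
  revert x y; decide

section

variable {Φ : Type} {M : FMap Φ} [Fintype Φ] [DecidableEq Φ]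

theorem sum_mul_pair (f : Φ → ZMod 2) (o u : Φ) :
    ∑ x, f x * ((Pi.single o 1 + Pi.single u 1 : Φ → ZMod 2) x) = f o + f u := by
  simp only [Pi.add_apply, mul_add, Finset.sum_add_distrib]
  congr 1
  · rw [Finset.sum_eq_single o]
    · rw [Pi.single_eq_same, mul_one]
    · intro b _ hb; rw [Pi.single_eq_of_ne hb, mul_zero]
    · intro h; exact absurd (Finset.mem_univ _) h
  · rw [Finset.sum_eq_single u]
    · rw [Pi.single_eq_same, mul_one]
    · intro b _ hb; rw [Pi.single_eq_of_ne hb, mul_zero]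
    · intro h; exact absurd (Finset.mem_univ _) h

/-- two chains with a common starting flag -/
theorem bil_pair {c c' : M.Ch} {o u u' : Φ} (hc : M.dd c = Pi.single o 1 + Pi.single u 1)
    (hc' : M.dd c' = Pi.single o 1 + Pi.single u' 1) (h1 : o ≠ u) (h2 : o ≠ u') (h3 : u ≠ u')
    (g1 : k1 c u' = 0) (g2 : k1 c' u = 0) :
    bil c c' + bil c' c = k1 c o + k1 c' o + 1 := by
  rw [bil_antisymm, hc, hc', Finset.sum_add_distrib, Finset.sum_add_distrib, sum_mul_pair,
    sum_mul_pair, g1]
  have e : ∑ x, (Pi.single o 1 + Pi.single u 1 : Φ → ZMod 2) x * k1 c' x = k1 c' o + k1 c' u := by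
    rw [← sum_mul_pair]
    apply Finset.sum_congr rfl
    intro x _; rw [mul_comm]
  rw [e, g2]
  simp only [Pi.add_apply, Pi.single_eq_same, Pi.single_eq_of_ne h1, Pi.single_eq_of_ne h2.symm,
    Pi.single_eq_of_ne h3.symm]
  ring

end

theorem K7_orientable {Φ : Type} [Finite Φ] (M : FMap Φ) (hM : M.Conn) (hχ : 0 ≤ M.chi)
    {W : Type*} (G : SimpleGraph W) (D : Drawing G M) (hD : D.indep = ∅) (v : Fin 7 → W)
    (hv : ∀ i j, i ≠ j → G.Adj (v i) (v j)) : M.Orientable := by
  classical
  have := Fintype.ofFinite Φ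
  set o : Fin 7 → Φ := fun i => (D.pt (v i)).out with ho
  have hmo : ∀ i, (Quotient.mk M.rV (o i) : M.Vert) = D.pt (v i) := fun i => Quotient.out_eq _
  have : Nonempty Φ := ⟨o 0⟩
  have hvinj : ∀ i j, i ≠ j → v i ≠ v j := fun i j h => (hv i j h).ne
  have hoinj : ∀ i j, i ≠ j → o i ≠ o j := by
    intro i j h h'
    have h1 := congrArg (fun x => (Quotient.mk M.rV x : M.Vert)) h'
    simp only [hmo] at h1
    exact hvinj i j h (D.pt_inj h1)
  -- the chains of the edges
  have hq : ∀ i j : Fin 7, ∃ c : M.Ch, i ≠ j → (M.dd c = Pi.single (o i) 1 + Pi.single (o j) 1 ∧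
      ∀ z, (∀ h : G.Adj (v i) (v j), (Quotient.mk M.rV z : M.Vert) ∉ (D.arc h).support) →
        k0 c z = 0 ∧ k1 c z = 0 ∧ k2 c z = 0) := by
    intro i j
    by_cases hij : i = j
    · exact ⟨0, fun h => absurd hij h⟩
    · have h := hv i j hij
      have hlk := Drawing.lk_of_walk M (fun z => (Quotient.mk M.rV z : M.Vert) ∈
        {p | p ∈ (D.arc h).support}) (D.arc h) (fun r hr x hx => by rw [hx]; exact hr)
        (o i) (o j) (hmo i) (hmo j)
      obtain ⟨c, hc1, hc2⟩ := exists_chain {p | p ∈ (D.arc h).support} (by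
        rw [hmo]; exact (D.arc h).start_mem_support) hlk
      exact ⟨c, fun _ => ⟨hc1, fun z hz => hc2 z (hz h)⟩⟩
  choose q hq using hq
  -- independent edges
  have hind : ∀ i j k l : Fin 7, i ≠ j → k ≠ l → i ≠ k → i ≠ l → j ≠ k → j ≠ l →
      bil (q i j) (q k l) = 0 := by
    intro i j k l hij hkl hik hil hjk hjl
    unfold bil
    apply Finset.sum_eq_zero
    intro x _
    by_cases h1 : (Quotient.mk M.rV x : M.Vert) ∈ (D.arc (hv i j hij)).support
    · have h2 : (Quotient.mk M.rV x : M.Vert) ∉ (D.arc (hv k l hkl)).support := by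
        intro h2
        have : (Quotient.mk M.rV x : M.Vert) ∈ D.indep :=
          ⟨_, _, _, _, hv i j hij, hv k l hkl, h1, h2, hvinj _ _ hik, hvinj _ _ hil,
            hvinj _ _ hjk, hvinj _ _ hjl⟩
        rw [hD] at this
        exact this
      rw [((hq k l hkl).2 x (fun _ => h2)).2.2, mul_zero]
    · rw [((hq i j hij).2 x (fun _ => h1)).1, zero_mul]
  -- edges at the vertex zero
  have hadj : ∀ i j : Fin 7, i ≠ 0 → j ≠ 0 → i ≠ j →
      bil (q 0 i) (q 0 j) + bil (q 0 j) (q 0 i) = k1 (q 0 i) (o 0) + k1 (q 0 j) (o 0) + 1 := by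
    intro i j hi hj hij
    have hend : ∀ i j : Fin 7, i ≠ 0 → j ≠ 0 → i ≠ j → k1 (q 0 i) (o j) = 0 := by
      intro i j hi hj hij
      refine ((hq 0 i hi.symm).2 (o j) (fun h hmem => ?_)).2.1
      rw [hmo] at hmem
      rcases D.arc_pt h _ hmem with h1 | h1
      · exact hvinj _ _ hj h1
      · exact hvinj _ _ hij.symm h1
    exact bil_pair (hq 0 i hi.symm).1 (hq 0 j hj.symm).1 (hoinj _ _ hi.symm) (hoinj _ _ hj.symm)
      (hoinj _ _ hij) (hend i j hi hj hij) (hend j i hj hi hij.symm)
  by_contra hno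
  obtain ⟨p, hp, hpp⟩ : ∃ p : M.Ch, M.dd p = 0 ∧ bil p p = 1 := by
    by_contra hall
    push Not at hall
    apply hno
    apply orientable_of_alt hM
    intro k hk
    have := hall k hk
    revert this
    generalize bil k k = a
    revert a; decide
  obtain ⟨r, hr, hdiag⟩ := exists_diag hM hχ hp hpp
  set c : ℕ → Fin 7 := fun a => Fin.ofNat 7 (a + 1) with hcdef
  have hc0 : ∀ a, a < 6 → c a ≠ 0 := by
    intro a ha h
    have := congrArg Fin.val h
    simp only [hcdef, Fin.ofNat, Fin.val_zero] at this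
    omega
  have hcne : ∀ a b, a < 6 → b < 6 → a ≠ b → c a ≠ c b := by
    intro a b ha hb hab h
    have := congrArg Fin.val h
    simp only [hcdef, Fin.ofNat] at this
    omega
  set y : ℕ → ℕ → M.Ch := fun a b => q 0 (c a) + q (c a) (c b) + q 0 (c b) with hy
  have hdy : ∀ a b, a < b → b < 6 → M.dd (y a b) = 0 := by
    intro a b hab hb
    have ha : a < 6 := by omega
    simp only [hy, map_add]
    rw [(hq 0 (c a) (hc0 a ha).symm).1, (hq (c a) (c b) (hcne a b ha hb (by omega))).1,
      (hq 0 (c b) (hc0 b hb).symm).1]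
    funext x
    simp only [Pi.add_apply, Pi.zero_apply]
    generalize (Pi.single (o 0) 1 : Φ → ZMod 2) x = s
    generalize (Pi.single (o (c a)) 1 : Φ → ZMod 2) x = s'
    generalize (Pi.single (o (c b)) 1 : Φ → ZMod 2) x = s''
    revert s s' s''; decide
  -- products of disjoint pairs
  have hprod : ∀ a b d e, a < 6 → b < 6 → d < 6 → e < 6 → a ≠ b → d ≠ e → a ≠ d → a ≠ e →
      b ≠ d → b ≠ e → bil (y a b) (y d e) = bil (q 0 (c a)) (q 0 (c d)) +
        bil (q 0 (c a)) (q 0 (c e)) + bil (q 0 (c b)) (q 0 (c d)) +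
        bil (q 0 (c b)) (q 0 (c e)) := by
    intro a b d e ha hb hd he hab hde had hae hbd hbe
    simp only [hy, bil_add_left, bil_add_right]
    rw [hind 0 (c a) (c d) (c e) (hc0 a ha).symm (hcne _ _ hd he hde) (hc0 d hd).symm
        (hc0 e he).symm (hcne _ _ ha hd had) (hcne _ _ ha he hae),
      hind 0 (c b) (c d) (c e) (hc0 b hb).symm (hcne _ _ hd he hde) (hc0 d hd).symm
        (hc0 e he).symm (hcne _ _ hb hd hbd) (hcne _ _ hb he hbe),
      hind (c a) (c b) 0 (c d) (hcne _ _ ha hb hab) (hc0 d hd).symm (hc0 a ha)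
        (hcne _ _ ha hd had) (hc0 b hb) (hcne _ _ hb hd hbd),
      hind (c a) (c b) 0 (c e) (hcne _ _ ha hb hab) (hc0 e he).symm (hc0 a ha)
        (hcne _ _ ha he hae) (hc0 b hb) (hcne _ _ hb he hbe),
      hind (c a) (c b) (c d) (c e) (hcne _ _ ha hb hab) (hcne _ _ hd he hde)
        (hcne _ _ ha hd had) (hcne _ _ ha he hae) (hcne _ _ hb hd hbd) (hcne _ _ hb he hbe)]
    ring
  -- first relation
  have hrel1 : ∀ a b d e, a < b → b < d → d < e → e < 6 →
      bil (y a b) (y d e) + (bil (y a d) (y b e) + bil (y a e) (y b d)) = 1 := by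
    intro a b d e hab hbd hde he
    rw [hprod a b d e (by omega) (by omega) (by omega) he (by omega) (by omega) (by omega)
        (by omega) (by omega) (by omega),
      hprod a d b e (by omega) (by omega) (by omega) he (by omega) (by omega) (by omega)
        (by omega) (by omega) (by omega),
      hprod a e b d (by omega) he (by omega) (by omega) (by omega) (by omega) (by omega)
        (by omega) (by omega) (by omega)]
    have e1 := hadj (c b) (c d) (hc0 b (by omega)) (hc0 d (by omega))
      (hcne b d (by omega) (by omega) (by omega))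
    have e2 := hadj (c b) (c e) (hc0 b (by omega)) (hc0 e he)
      (hcne b e (by omega) he (by omega))
    have e3 := hadj (c d) (c e) (hc0 d (by omega)) (hc0 e he)
      (hcne d e (by omega) he (by omega))
    revert e1 e2 e3
    generalize bil (q 0 (c a)) (q 0 (c d)) = x1
    generalize bil (q 0 (c a)) (q 0 (c e)) = x2
    generalize bil (q 0 (c b)) (q 0 (c d)) = x3
    generalize bil (q 0 (c b)) (q 0 (c e)) = x4
    generalize bil (q 0 (c a)) (q 0 (c b)) = x5
    generalize bil (q 0 (c d)) (q 0 (c b)) = x6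
    generalize bil (q 0 (c d)) (q 0 (c e)) = x7
    generalize bil (q 0 (c e)) (q 0 (c b)) = x8
    generalize bil (q 0 (c e)) (q 0 (c d)) = x9
    generalize k1 (q 0 (c b)) (o 0) = z1
    generalize k1 (q 0 (c d)) (o 0) = z2
    generalize k1 (q 0 (c e)) (o 0) = z3
    intro e1 e2 e3
    have t1 := add_self2 x1
    have t2 := add_self2 x2
    have t5 := add_self2 x5
    have u1 := add_self2 z1
    have u2 := add_self2 z2
    have u3 := add_self2 z3
    have u4 : (1 : ZMod 2) + 1 = 0 := by decide
    linear_combination e1 + e2 + e3 + t1 + t2 + t5 + u1 + u2 + u3 + u4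
  -- second relation
  have hrel2 : ∀ a b d e f, a < b → b < 6 → d < e → e < f → f < 6 → a ≠ d → a ≠ e → a ≠ f →
      b ≠ d → b ≠ e → b ≠ f → bil (y a b) (y d e) + (bil (y a b) (y d f) + bil (y a b) (y e f)) =
        0 := by
    intro a b d e f hab hb hde hef hf had hae haf hbd hbe hbf
    rw [hprod a b d e (by omega) hb (by omega) (by omega) (by omega) (by omega) had hae hbd hbe,
      hprod a b d f (by omega) hb (by omega) hf (by omega) (by omega) had haf hbd hbf,
      hprod a b e f (by omega) hb (by omega) hf (by omega) (by omega) hae haf hbe hbf]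
    generalize bil (q 0 (c a)) (q 0 (c d)) = x1
    generalize bil (q 0 (c a)) (q 0 (c e)) = x2
    generalize bil (q 0 (c a)) (q 0 (c f)) = x3
    generalize bil (q 0 (c b)) (q 0 (c d)) = x4
    generalize bil (q 0 (c b)) (q 0 (c e)) = x5
    generalize bil (q 0 (c b)) (q 0 (c f)) = x6
    have t1 := add_self2 x1
    have t2 := add_self2 x2
    have t3 := add_self2 x3
    have t4 := add_self2 x4
    have t5 := add_self2 x5
    have t6 := add_self2 x6
    linear_combination t1 + t2 + t3 + t4 + t5 + t6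
  refine K7.no_sol (fun a b => toB (bil p (y a b))) (fun a b => toB (bil r (y a b))) ?_ ?_
  · intro a b d e hab hbd hde he
    have h := hrel1 a b d e hab hbd hde he
    rw [hdiag _ _ (hdy a b hab (by omega)) (hdy d e hde he),
      hdiag _ _ (hdy a d (by omega) (by omega)) (hdy b e (by omega) he),
      hdiag _ _ (hdy a e (by omega) he) (hdy b d hbd (by omega))] at h
    have h' := congrArg toB h
    simp only [toB_add, toB_mul] at h'
    unfold K7.s3 K7.dt
    rw [h']; rfl
  · intro a b d e f hab hb hde hef hf had hae haf hbd hbe hbf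
    have h := hrel2 a b d e f hab hb hde hef hf had hae haf hbd hbe hbf
    rw [hdiag _ _ (hdy a b hab hb) (hdy d e hde (by omega)),
      hdiag _ _ (hdy a b hab hb) (hdy d f (by omega) hf),
      hdiag _ _ (hdy a b hab hb) (hdy e f hef hf)] at h
    have h2 : bil p (y a b) * (bil p (y d e) + (bil p (y d f) + bil p (y e f))) +
        bil r (y a b) * (bil r (y d e) + (bil r (y d f) + bil r (y e f))) = 0 := by
      rw [← h]; ring
    have h' := congrArg toB h2
    simp only [toB_add, toB_mul] at h'
    unfold K7.p3 K7.dt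
    rw [h']; rfl

end Pool.Agent.Lib_helper38.Adj
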