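import Pool.Agent.Lib_helper38.Adj.Sub

/-!
# Labelled maps
-/

namespace Pool.Agent.Lib_helper38.Adj

open Relation Function

variable {Φ : Type*}

namespace FMap

variable (M : FMap Φ)

open Classical in
/-- crossing an edge, if both of its ends satisfy `K` -/
noncomputable def cr (K : Φ → Prop) : Φ → Φ := fun x => if K x ∧ K (M.a0 x) then M.a0 x else x

theorem cr_pos {K : Φ → Prop} {x : Φ} (h : K x) (h' : K (M.a0 x)) : M.cr K x = M.a0 x := by
  unfold cr; rw [if_pos ⟨h, h'⟩]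

theorem cr_cases (K : Φ → Prop) (x : Φ) :
    (K x ∧ K (M.a0 x) ∧ M.cr K x = M.a0 x) ∨ M.cr K x = x := by
  unfold cr
  by_cases h : K x ∧ K (M.a0 x)
  · left; exact ⟨h.1, h.2, if_pos h⟩
  · right; exact if_neg h

theorem cr_inv (K : Φ → Prop) : Involutive (M.cr K) := by
  intro x
  rcases M.cr_cases K x with ⟨h, h', e⟩ | e
  · rw [e, M.cr_pos h' (by rwa [M.i0]), M.i0]
  · rw [e, e]

/-- connected by a path using only edges all of whose ends satisfy `K` -/
noncomputable def lk (K : Φ → Prop) : Setoid Φ := gen {M.a1, M.a2, M.cr K}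

theorem lk_a1 (K : Φ → Prop) (x : Φ) : M.lk K x (M.a1 x) := gen_step (Or.inl rfl) x
theorem lk_a2 (K : Φ → Prop) (x : Φ) : M.lk K x (M.a2 x) := gen_step (Or.inr (Or.inl rfl)) x
theorem lk_a0 {K : Φ → Prop} {x : Φ} (h : K x) (h' : K (M.a0 x)) : M.lk K x (M.a0 x) := by
  have := gen_step (F := {M.a1, M.a2, M.cr K}) (Or.inr (Or.inr rfl)) x
  rwa [M.cr_pos h h'] at this

theorem lk_rV {K : Φ → Prop} {x y : Φ} (h : M.rV x y) : M.lk K x y := by
  refine gen_le (r := M.lk K) ?_ h
  rintro f (rfl | rfl) x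
  · exact M.lk_a1 K x
  · exact M.lk_a2 K x

theorem lk_le {K : Φ → Prop} {r : Setoid Φ} (hV : ∀ x y, M.rV x y → r x y)
    (h0 : ∀ x, K x → K (M.a0 x) → r x (M.a0 x)) {x y : Φ} (h : M.lk K x y) : r x y := by
  refine gen_le (r := r) ?_ h
  rintro f (rfl | rfl | rfl) x
  · exact hV _ _ (M.rV_a1 x)
  · exact hV _ _ (M.rV_a2 x)
  · rcases M.cr_cases K x with ⟨h, h', e⟩ | e
    · rw [e]; exact h0 x h h'
    · rw [e]

theorem lk_mono {K K' : Φ → Prop} (h : ∀ x, K x → K' x) {x y : Φ} (hxy : M.lk K x y) :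
    M.lk K' x y :=
  M.lk_le (fun _ _ h' => M.lk_rV h') (fun x h1 h2 => M.lk_a0 (h x h1) (h _ h2)) hxy

theorem lk_closed {K P : Φ → Prop} (hV : ∀ x y, M.rV x y → P x → P y)
    (h0 : ∀ x, P x → K x → K (M.a0 x) → P (M.a0 x)) {x y : Φ} (h : M.lk K x y) (hx : P x) :
    P y := by
  refine gen_closed (F := {M.a1, M.a2, M.cr K}) ?_ ?_ h hx
  · rintro f (rfl | rfl | rfl)
    · exact M.i1
    · exact M.i2
    · exact M.cr_inv K
  · rintro f (rfl | rfl | rfl) x hx
    · exact hV _ _ (M.rV_a1 x) hx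
    · exact hV _ _ (M.rV_a2 x) hx
    · rcases M.cr_cases K x with ⟨h, h', e⟩ | e
      · rw [e]; exact h0 x hx h h'
      · rwa [e]

theorem rV_rC {x y : Φ} (h : M.rV x y) : M.rC x y := by
  refine gen_le (r := M.rC) ?_ h
  rintro f (rfl | rfl) x
  · exact M.rC_a1 x
  · exact M.rC_a2 x

theorem rF_rC {x y : Φ} (h : M.rF x y) : M.rC x y := by
  refine gen_le (r := M.rC) ?_ h
  rintro f (rfl | rfl) x
  · exact M.rC_a1 x
  · exact M.rC_a0 x

theorem lk_rC {K : Φ → Prop} {x y : Φ} (h : M.lk K x y) : M.rC x y :=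
  M.lk_le (fun _ _ h => M.rV_rC h) (fun x _ _ => M.rC_a0 x) h

theorem rV_a0a2 (x : Φ) : M.rV (M.a0 (M.a2 x)) (M.a0 x) := by
  rw [M.comm]; exact Setoid.symm' _ (M.rV_a2 _)

end FMap

/-- A map on a closed surface whose vertices are labelled by the vertices of `G`, one flag `s v`
chosen at a vertex with label `v` for each `v`, such that for each edge `v w` of `G` the
vertices of `s v` and `s w` are joined by a path through vertices with labels `v`, `w`; each
component contains some `s w`. -/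
structure LMap {W : Type*} (G : SimpleGraph W) (Φ : Type*) extends FMap Φ where
  lab : Φ → W
  lab1 : ∀ x, lab (a1 x) = lab x
  lab2 : ∀ x, lab (a2 x) = lab x
  s : W → Φ
  lab_s : ∀ w, lab (s w) = w
  comp : ∀ x, ∃ w, toFMap.rC x (s w)
  link : ∀ v w, G.Adj v w → toFMap.lk (fun x => lab x = v ∨ lab x = w) (s v) (s w)

namespace LMap

variable {W : Type*} {G : SimpleGraph W}

theorem link_rC (M : LMap G Φ) {v w : W} (h : G.Adj v w) : M.rC (M.s v) (M.s w) :=
  M.lk_rC (M.link v w h)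

theorem lab_rV (M : LMap G Φ) {x y : Φ} (h : M.rV x y) : M.lab x = M.lab y := by
  refine gen_eq ?_ h
  rintro f (rfl | rfl) x
  · exact M.lab1 x
  · exact M.lab2 x

section Merge

variable [DecidableEq Φ] [Fintype Φ] (M : LMap G Φ)

/-- Two vertices with the same label on a common face can be united. -/
theorem exists_merge' {x y : Φ} (hV : ¬ M.rV x y) (hF : M.rF x y) (hl : M.lab x = M.lab y) :
    ∃ N : LMap G Φ, N.chiE = M.chiE ∧ M.nV = N.nV + 1 := by
  obtain ⟨y', hy', h1, h2, h3, h4⟩ := M.toFMap.exists_merge hV hF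
  have hl' : M.lab x = M.lab y' := by
    rcases hy' with rfl | rfl
    · exact hl
    · rw [M.lab1]; exact hl
  have hV1 : ∀ p q, M.rV p q → (M.toFMap.repair x y').rV p q := fun p q h =>
    gen_rp_of_not M.i1 M.f1 h1 _ h2 h
  have hC1 : M.rC x y' := by
    have h5 : M.rC x y := M.rF_rC hF
    rcases hy' with rfl | rfl
    · exact h5
    · exact Setoid.trans' _ h5 (M.rC_a1 y)
  have hC2 : (M.toFMap.repair x y').nC = M.nC :=
    nc_rp_same M.i1 M.f1 h1 _ hC1 ((M.toFMap.repair x y').rV_rC h2)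
  refine ⟨{ toFMap := M.toFMap.repair x y', lab := M.lab, lab1 := ?_, lab2 := M.lab2, s := M.s,
            lab_s := M.lab_s, comp := ?_, link := ?_ }, ?_, h3⟩
  · intro z
    change M.lab (rp M.a1 x y' z) = M.lab z
    rcases rp_cases M.i1 M.f1 h1 z with ⟨h, e⟩ | ⟨h, e⟩ | ⟨h, e⟩ | ⟨h, e⟩ | ⟨-, -, -, -, e⟩
    · rw [e, h, M.lab1, hl']
    · rw [e, h, M.lab1, hl']
    · rw [e, h, M.lab1, hl']
    · rw [e, h, M.lab1, hl']
    · rw [e, M.lab1]
  · intro p
    obtain ⟨w, hw⟩ := M.comp p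
    exact ⟨w, gen_rp_of_not M.i1 M.f1 h1 _ ((M.toFMap.repair x y').rV_rC h2) hw⟩
  · intro v w hvw
    exact M.toFMap.lk_le (r := (M.toFMap.repair x y').lk _)
      (fun p q h => (M.toFMap.repair x y').lk_rV (hV1 p q h))
      (fun p h h' => (M.toFMap.repair x y').lk_a0 h h') (M.link v w hvw)
  · change 4 * ((M.toFMap.repair x y').nV : ℤ) + 4 * ((M.toFMap.repair x y').nF : ℤ) - _ -
      8 * ((M.toFMap.repair x y').nC : ℤ) + 8 =
      4 * (M.nV : ℤ) + 4 * (M.nF : ℤ) - _ - 8 * (M.nC : ℤ) + 8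
    rw [h4, h3, hC2]; push_cast; ring

end Merge

/-- `M` has the least number of vertices among all labelled maps with `chiE ≥ X`. -/
def IsMin (X : ℤ) {Φ : Type} [Fintype Φ] (M : LMap G Φ) : Prop :=
  X ≤ M.chiE ∧ ∀ (Ψ : Type) (_ : Fintype Ψ) (N : LMap G Ψ), X ≤ N.chiE → M.nV ≤ N.nV

section Min

variable {Φ : Type} [DecidableEq Φ] [Fintype Φ] {M : LMap G Φ} {X : ℤ}

/-- On a face the labels are injective. -/
theorem IsMin.face (hM : IsMin X M) {x y : Φ} (hF : M.rF x y) (hl : M.lab x = M.lab y) :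
    M.rV x y := by
  by_contra hV
  obtain ⟨N, h1, h2⟩ := M.exists_merge' hV hF hl
  have := hM.2 Φ _ N (by rw [h1]; exact hM.1)
  omega

/-- labels `v`, `w`, outside the vertex of `x0` -/
def KX (M : LMap G Φ) (x0 : Φ) (v w : W) (z : Φ) : Prop :=
  (M.lab z = v ∨ M.lab z = w) ∧ ¬ M.rV x0 z

theorem IsMin.sep_nbrs (hM : IsMin X M) {x0 : Φ} {w : W} (hx : ¬ M.rV x0 (M.s (M.lab x0)))
    (hvw : G.Adj (M.lab x0) w)
    (hsep : ¬ M.lk (M.KX x0 (M.lab x0) w) (M.s (M.lab x0)) (M.s w)) :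
    ∃ y1 y2, M.rV x0 y1 ∧ M.rV x0 y2 ∧ M.lab (M.a0 y1) = w ∧ M.lab (M.a0 y2) = w ∧
      ¬ M.rV (M.a0 y1) (M.a0 y2) := by
  set v := M.lab x0 with hv
  have hwX : ¬ M.rV x0 (M.s w) := fun h => by
    have h1 := M.lab_rV h
    rw [M.lab_s, ← hv] at h1
    exact hvw.ne h1
  -- a general step: from a base flag outside `X` whose class misses the other end
  have step : ∀ b b', ¬ M.rV x0 b → M.lk (fun x => M.lab x = v ∨ M.lab x = w) b b' →
      ¬ M.lk (M.KX x0 v w) b b' → ∃ y, M.rV x0 y ∧ M.lk (M.KX x0 v w) b (M.a0 y) ∧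
        M.lab (M.a0 y) = w := by
    intro b b' hb hbb' hnot
    have houts : ∀ z, M.lk (M.KX x0 v w) b z → ¬ M.rV x0 z := by
      intro z hz
      refine M.lk_closed (K := M.KX x0 v w) (P := fun z => ¬ M.rV x0 z) ?_ ?_ hz hb
      · intro p q hpq hp hq
        exact hp (Setoid.trans' _ hq (Setoid.symm' _ hpq))
      · intro p _ _ hp; exact hp.2
    by_contra hno
    push Not at hno
    apply hnot
    refine (M.lk_closed (K := fun x => M.lab x = v ∨ M.lab x = w)
      (P := fun z => M.lk (M.KX x0 v w) b z) ?_ ?_ hbb' (Setoid.refl' _ _))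
    · intro p q hpq hp
      exact Setoid.trans' _ hp (M.lk_rV hpq)
    · intro z hz hKz hKz'
      by_cases hXz : M.rV x0 (M.a0 z)
      · exfalso
        have h1 : M.lk (M.KX x0 v w) b (M.a0 (M.a0 z)) := by rw [M.i0]; exact hz
        have h2 := hno _ hXz h1
        rw [M.i0] at h2
        rcases hKz with h3 | h3
        · -- label v
          have h4 : M.lab (M.a0 z) = v := (M.lab_rV hXz).symm
          have h5 := hM.face (M.rF_a0 z) (h3.trans h4.symm)
          exact houts z hz (Setoid.trans' _ hXz (Setoid.symm' _ h5))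
        · exact h2 h3
      · exact Setoid.trans' _ hz (M.lk_a0 ⟨hKz, houts z hz⟩ ⟨hKz', hXz⟩)
  obtain ⟨y1, h1, h2, h3⟩ := step _ _ hx (M.link v w hvw) hsep
  obtain ⟨y2, h4, h5, h6⟩ := step _ _ hwX (Setoid.symm' _ (M.link v w hvw))
    (fun h => hsep (Setoid.symm' _ h))
  refine ⟨y1, y2, h1, h4, h3, h6, fun h => hsep ?_⟩
  exact Setoid.trans' _ h2 (Setoid.trans' _ (M.lk_rV h) (Setoid.symm' _ h5))

omit [DecidableEq Φ] [Fintype Φ] in
/-- Relabelling an extra vertex. -/
theorem exists_relabel (M : LMap G Φ) {x0 : Φ} (w : W) (hx : ¬ M.rV x0 (M.s (M.lab x0)))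
    (hsep : ∀ u, G.Adj (M.lab x0) u → u ≠ w →
      M.lk (M.KX x0 (M.lab x0) u) (M.s (M.lab x0)) (M.s u)) :
    ∃ N : LMap G Φ, N.toFMap = M.toFMap ∧ (∀ z, M.rV x0 z → N.lab z = w) ∧
      (∀ z, ¬ M.rV x0 z → N.lab z = M.lab z) := by
  classical
  set v := M.lab x0 with hv
  have hl : ∀ z z', M.rV z z' → (if M.rV x0 z' then w else M.lab z') =
      (if M.rV x0 z then w else M.lab z) := by
    intro z z' hzz'
    by_cases h : M.rV x0 z
    · rw [if_pos h, if_pos (Setoid.trans' _ h hzz')]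
    · rw [if_neg h, if_neg (fun h' => h (Setoid.trans' _ h' (Setoid.symm' _ hzz'))),
        M.lab_rV hzz']
  have hlabX : ∀ z, M.rV x0 z → M.lab z = v := fun z hz => (M.lab_rV hz).symm
  refine ⟨{ toFMap := M.toFMap, lab := fun z => if M.rV x0 z then w else M.lab z,
            lab1 := fun z => hl z _ (M.rV_a1 z), lab2 := fun z => hl z _ (M.rV_a2 z), s := M.s,
            lab_s := ?_, comp := M.comp, link := ?_ }, rfl, fun z hz => if_pos hz,
            fun z hz => if_neg hz⟩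
  · intro p
    rw [if_neg, M.lab_s]
    intro h
    have h1 := hlabX _ h
    rw [M.lab_s] at h1
    rw [h1] at h
    exact hx h
  · -- links
    have key : ∀ u, G.Adj v u → M.lk (fun z => (if M.rV x0 z then w else M.lab z) = v ∨
        (if M.rV x0 z then w else M.lab z) = u) (M.s v) (M.s u) := by
      intro u hu
      by_cases huw : u = w
      · subst huw
        refine M.lk_mono ?_ (M.link v u hu)
        intro z hz
        by_cases h : M.rV x0 z
        · right; rw [if_pos h]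
        · rw [if_neg h]; exact hz
      · refine M.lk_mono ?_ (hsep u hu huw)
        rintro z ⟨hz, h⟩
        rw [if_neg h]; exact hz
    intro p q hpq
    change M.lk (fun z => (if M.rV x0 z then w else M.lab z) = p ∨
        (if M.rV x0 z then w else M.lab z) = q) (M.s p) (M.s q)
    by_cases hp : p = v
    · subst hp; exact key q hpq
    by_cases hq : q = v
    · subst hq
      refine Setoid.symm' _ (M.lk_mono ?_ (key p hpq.symm))
      intro z hz; exact hz.symm
    · refine M.lk_mono ?_ (M.link p q hpq)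
      intro z hz
      have h : ¬ M.rV x0 z := by
        intro h
        rw [hlabX z h] at hz
        rcases hz with h' | h'
        · exact hp h'.symm
        · exact hq h'.symm
      rw [if_neg h]; exact hz

/-- Every extra vertex of a minimal labelled map separates for two labels. -/
theorem IsMin.two_sep (hM : IsMin X M) {x0 : Φ} (hx : ¬ M.rV x0 (M.s (M.lab x0))) :
    ∃ w u, w ≠ u ∧ G.Adj (M.lab x0) w ∧ G.Adj (M.lab x0) u ∧
      ¬ M.lk (M.KX x0 (M.lab x0) w) (M.s (M.lab x0)) (M.s w) ∧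
      ¬ M.lk (M.KX x0 (M.lab x0) u) (M.s (M.lab x0)) (M.s u) := by
  by_contra hno
  push Not at hno
  -- the label for relabelling
  obtain ⟨w, y, hy, hyw, hwv, hw⟩ : ∃ w y, M.rV x0 y ∧ M.lab (M.a0 y) = w ∧ w ≠ M.lab x0 ∧
      ∀ u, G.Adj (M.lab x0) u → u ≠ w →
        M.lk (M.KX x0 (M.lab x0) u) (M.s (M.lab x0)) (M.s u) := by
    by_cases h : ∃ w, G.Adj (M.lab x0) w ∧
        ¬ M.lk (M.KX x0 (M.lab x0) w) (M.s (M.lab x0)) (M.s w)
    · obtain ⟨w, hw1, hw2⟩ := h
      obtain ⟨y1, y2, h1, _, h3, _⟩ := hM.sep_nbrs hx hw1 hw2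
      exact ⟨w, y1, h1, h3, hw1.ne', fun u hu huw => hno w u (Ne.symm huw) hw1 hu hw2⟩
    · push Not at h
      obtain ⟨y, hy1, hy2⟩ : ∃ y, M.rV x0 y ∧ M.lab (M.a0 y) ≠ M.lab x0 := by
        by_contra hall
        push Not at hall
        apply hx
        obtain ⟨w, hw⟩ := M.comp x0
        suffices hcl : M.rV x0 (M.s w) by
          have h1 := M.lab_rV hcl
          rw [M.lab_s] at h1
          rw [h1]; exact hcl
        refine M.closedC (P := fun z => M.rV x0 z) ?_ ?_ ?_ hw (Setoid.refl' _ _)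
        · intro z hz
          have h1 := hall z hz
          have h2 := hM.face (M.rF_a0 z) ((M.lab_rV hz).symm.trans h1.symm)
          exact Setoid.trans' _ hz h2
        · intro z hz; exact Setoid.trans' _ hz (M.rV_a1 z)
        · intro z hz; exact Setoid.trans' _ hz (M.rV_a2 z)
      exact ⟨_, y, hy1, rfl, hy2, fun u hu _ => h u hu⟩
  obtain ⟨N, hN, hN1, hN2⟩ := M.exists_relabel w hx hw
  have hNmin : IsMin X N := by
    have e1 : N.chiE = M.chiE := by rw [hN]
    have e2 : N.nV = M.nV := by rw [hN]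
    exact ⟨by rw [e1]; exact hM.1, fun Ψ i1 N' h => by rw [e2]; exact hM.2 Ψ i1 N' h⟩
  have hy' : ¬ M.rV x0 (M.a0 y) := fun h => hwv (by rw [← hyw]; exact (M.lab_rV h).symm)
  have h3 : N.rV y (M.a0 y) := by
    have h4 : N.rF y (M.a0 y) := by rw [hN]; exact M.rF_a0 y
    refine hNmin.face h4 ?_
    rw [hN1 y hy, hN2 _ hy', hyw]
  rw [hN] at h3
  exact hy' (Setoid.trans' _ hy h3)

/-- The main vertices of a minimal labelled map see all neighbouring labels. -/
theorem IsMin.main_nbr (hM : IsMin X M) {v w : W} (hvw : G.Adj v w) :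
    ∃ y, M.rV (M.s v) y ∧ M.lab (M.a0 y) = w := by
  by_contra hno
  push Not at hno
  have h1 : M.rV (M.s v) (M.s w) := by
    refine M.lk_closed (P := fun z => M.rV (M.s v) z) ?_ ?_ (M.link v w hvw) (Setoid.refl' _ _)
    · intro p q hpq hp; exact Setoid.trans' _ hp hpq
    · intro z hz _ hz'
      rcases hz' with h | h
      · have h2 := M.lab_rV hz
        rw [M.lab_s] at h2
        have h3 := hM.face (M.rF_a0 z) (h2.symm.trans h.symm)
        exact Setoid.trans' _ hz h3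
      · exact absurd h (hno z hz)
  have h2 := M.lab_rV h1
  rw [M.lab_s, M.lab_s] at h2
  exact hvw.ne h2

end Min

end LMap

end Pool.Agent.Lib_helper38.Adj
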