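import Pool.Agent.Lib_helper38.Adj.Repair

/-!
# Maps on closed surfaces as systems of flags
-/

namespace Pool.Agent.Lib_helper38.Adj

open Relation Function

variable {Φ : Type*}

namespace FMap

variable (M : FMap Φ)

theorem rV_a1 (x : Φ) : M.rV x (M.a1 x) := gen_step (Set.mem_insert _ _) x
theorem rV_a2 (x : Φ) : M.rV x (M.a2 x) := gen_step (Or.inr rfl) x
theorem rF_a1 (x : Φ) : M.rF x (M.a1 x) := gen_step (Set.mem_insert _ _) x
theorem rF_a0 (x : Φ) : M.rF x (M.a0 x) := gen_step (Or.inr rfl) x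
theorem rC_a1 (x : Φ) : M.rC x (M.a1 x) := gen_step (Set.mem_insert _ _) x
theorem rC_a0 (x : Φ) : M.rC x (M.a0 x) := gen_step (Or.inr (Or.inl rfl)) x
theorem rC_a2 (x : Φ) : M.rC x (M.a2 x) := gen_step (Or.inr (Or.inr rfl)) x

theorem invV {f : Φ → Φ} (hf : f ∈ ({M.a1, M.a2} : Set (Φ → Φ))) : Involutive f := by
  rcases hf with rfl | rfl
  · exact M.i1
  · exact M.i2

theorem invF {f : Φ → Φ} (hf : f ∈ ({M.a1, M.a0} : Set (Φ → Φ))) : Involutive f := by
  rcases hf with rfl | rfl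
  · exact M.i1
  · exact M.i0

theorem invC {f : Φ → Φ} (hf : f ∈ ({M.a1, M.a0, M.a2} : Set (Φ → Φ))) : Involutive f := by
  rcases hf with rfl | rfl | rfl
  · exact M.i1
  · exact M.i0
  · exact M.i2

theorem closedV {P : Φ → Prop} (h1 : ∀ x, P x → P (M.a1 x)) (h2 : ∀ x, P x → P (M.a2 x))
    {x y : Φ} (h : M.rV x y) (hx : P x) : P y := by
  refine gen_closed (fun f hf => M.invV hf) ?_ h hx
  rintro f (rfl | rfl)
  · exact h1
  · exact h2

theorem closedF {P : Φ → Prop} (h1 : ∀ x, P x → P (M.a1 x)) (h2 : ∀ x, P x → P (M.a0 x))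
    {x y : Φ} (h : M.rF x y) (hx : P x) : P y := by
  refine gen_closed (fun f hf => M.invF hf) ?_ h hx
  rintro f (rfl | rfl)
  · exact h1
  · exact h2

theorem closedC {P : Φ → Prop} (h0 : ∀ x, P x → P (M.a0 x)) (h1 : ∀ x, P x → P (M.a1 x))
    (h2 : ∀ x, P x → P (M.a2 x)) {x y : Φ} (h : M.rC x y) (hx : P x) : P y := by
  refine gen_closed (fun f hf => M.invC hf) ?_ h hx
  rintro f (rfl | rfl | rfl)
  · exact h1
  · exact h0
  · exact h2

/-- number of components -/
noncomputable def nC : ℕ := nc M.rC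

/-- twice the number of components minus the numbers of vertices and faces -/
noncomputable def eps : ℤ := 2 * M.nC - M.nV - M.nF

/-- four times the Euler characteristic -/
noncomputable def chi4 [Fintype Φ] : ℤ := 4 * M.nV + 4 * M.nF - Fintype.card Φ

/-- four times the Euler characteristic, corrected for the number of components -/
noncomputable def chiE [Fintype Φ] : ℤ := M.chi4 - 8 * M.nC + 8

theorem nC_eq_one [Nonempty Φ] (h : M.Conn) : M.nC = 1 := by
  unfold nC nc
  rw [Nat.card_eq_one_iff_unique]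
  refine ⟨⟨fun p q => ?_⟩, ⟨Quotient.mk _ (Classical.arbitrary Φ)⟩⟩
  induction p using Quotient.inductionOn with | _ x => ?_
  induction q using Quotient.inductionOn with | _ y => ?_
  exact Quotient.sound (h x y)

variable [DecidableEq Φ]

/-- re-pairing of corners -/
def repair (x y : Φ) : FMap Φ where
  a0 := M.a0
  a1 := rp M.a1 x y
  a2 := M.a2
  i0 := M.i0
  i1 := rp_involutive M.i1
  i2 := M.i2
  f0 := M.f0
  f1 := rp_ne M.f1
  f2 := M.f2
  comm := M.comm
  f02 := M.f02

variable [Finite Φ] {x y : Φ}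

/-- A re-pairing that splits a vertex does not increase `eps`. -/
theorem eps_repair (hbx : y ≠ M.a1 x) (h1 : M.rV x y) (h2 : ¬ (M.repair x y).rV x y) :
    (M.repair x y).eps ≤ M.eps := by
  have hV : (M.repair x y).nV = M.nV + 1 := nc_rp_split M.i1 M.f1 hbx _ h1 h2
  have hC1 : M.rC x y := gen_mono (by
    rintro f (rfl | rfl)
    · exact Set.mem_insert _ _
    · exact Set.mem_insert_of_mem _ (Set.mem_insert_of_mem _ rfl)) h1
  have hCF : (M.repair x y).rF x y → (M.repair x y).rC x y := gen_mono (by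
    rintro f (rfl | rfl)
    · exact Set.mem_insert _ _
    · exact Set.mem_insert_of_mem _ (Set.mem_insert _ _))
  unfold eps
  by_cases hF : M.rF x y
  · by_cases hF' : (M.repair x y).rF x y
    · have e1 : (M.repair x y).nF = M.nF := nc_rp_same M.i1 M.f1 hbx _ hF hF'
      have e2 : (M.repair x y).nC = M.nC := nc_rp_same M.i1 M.f1 hbx _ hC1 (hCF hF')
      rw [e1, e2, hV]; push_cast; linarith
    · have e1 : (M.repair x y).nF = M.nF + 1 := nc_rp_split M.i1 M.f1 hbx _ hF hF'
      have e2 : (M.repair x y).nC ≤ M.nC + 1 := by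
        by_cases hC' : (M.repair x y).rC x y
        · exact (nc_rp_same M.i1 M.f1 hbx _ hC1 hC').le.trans (Nat.le_succ _)
        · exact (nc_rp_split M.i1 M.f1 hbx _ hC1 hC').le
      rw [e1, hV]; push_cast
      have : ((M.repair x y).nC : ℤ) ≤ M.nC + 1 := by exact_mod_cast e2
      linarith
  · have hF' : (M.repair x y).rF x y := rp_merge M.i0 M.f0 M.i1 M.f1 hF
    have e1 : M.nF = (M.repair x y).nF + 1 := nc_rp_merge M.i1 M.f1 hbx _ hF hF'
    have e2 : (M.repair x y).nC = M.nC := nc_rp_same M.i1 M.f1 hbx _ hC1 (hCF hF')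
    rw [e1, e2, hV]; push_cast; linarith

/-- Uniting two vertices within a face. -/
theorem exists_merge (hV : ¬ M.rV x y) (hF : M.rF x y) :
    ∃ y', (y' = y ∨ y' = M.a1 y) ∧ y' ≠ M.a1 x ∧ (M.repair x y').rV x y' ∧
      M.nV = (M.repair x y').nV + 1 ∧ (M.repair x y').nF = M.nF + 1 := by
  have hyx : y ≠ x := fun h => hV (h ▸ Setoid.refl' _ _)
  have hbx : y ≠ M.a1 x := fun h => hV (h ▸ M.rV_a1 x)
  obtain ⟨y', hy', h1, h2, h3⟩ := exists_split M.i0 M.f0 M.i1 M.f1 hyx hbx hF
  have hV' : ¬ M.rV x y' := by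
    rcases hy' with rfl | rfl
    · exact hV
    · exact fun h => hV (Setoid.trans' _ h (Setoid.symm' _ (M.rV_a1 y)))
  have hF' : M.rF x y' := by
    rcases hy' with rfl | rfl
    · exact hF
    · exact Setoid.trans' _ hF (M.rF_a1 y)
  have hm : (M.repair x y').rV x y' := rp_merge M.i2 M.f2 M.i1 M.f1 hV'
  exact ⟨y', hy', h2, hm, nc_rp_merge M.i1 M.f1 h2 _ hV' hm,
    nc_rp_split M.i1 M.f1 h2 _ hF' h3⟩

/-- Detaching the edge-ends in a set `B`. -/
theorem exists_detach (B : Set Φ) (hB : ∀ x ∈ B, M.a2 x ∈ B) :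
    ∃ N : FMap Φ, N.a0 = M.a0 ∧ N.a2 = M.a2 ∧ (∀ z ∈ B, N.a1 z = M.a2 z) ∧
      (∀ u w, u ∉ B → w ∉ B → (N.rV u w ↔ M.rV u w)) ∧ N.eps ≤ M.eps := by
  classical
  have := Fintype.ofFinite Φ
  suffices H : ∀ n : ℕ, ∀ M : FMap Φ, (∀ x ∈ B, M.a2 x ∈ B) →
      (Finset.univ.filter (fun z => z ∈ B ∧ M.a1 z ≠ M.a2 z)).card = n →
      ∃ N : FMap Φ, N.a0 = M.a0 ∧ N.a2 = M.a2 ∧ (∀ z ∈ B, N.a1 z = M.a2 z) ∧
      (∀ u w, u ∉ B → w ∉ B → (N.rV u w ↔ M.rV u w)) ∧ N.eps ≤ M.eps from H _ M hB rfl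
  intro n
  induction n using Nat.strong_induction_on with
  | _ n ih =>
  intro M hB hn
  by_cases hne : ∃ b ∈ B, M.a1 b ≠ M.a2 b
  · obtain ⟨b, hb, hb12⟩ := hne
    set y := M.a1 (M.a2 b) with hy
    have hyb : y ≠ b := fun h => hb12 (by
      have h' := congrArg M.a1 h
      rw [hy, M.i1] at h'
      exact h'.symm)
    have hyb' : y ≠ M.a1 b := fun h => M.f2 b (M.i1.injective h)
    have e1 : (M.repair b y).a1 b = M.a2 b := by
      change rp M.a1 b y b = _
      rw [rp_left M.i1 M.f1 hyb', hy, M.i1]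
    have e2 : (M.repair b y).a1 (M.a2 b) = b := by
      rw [← e1, (M.repair b y).i1]
    have hclass : ∀ z, (M.repair b y).rV b z → z = b ∨ z = M.a2 b := by
      intro z hz
      refine (M.repair b y).closedV (P := fun z => z = b ∨ z = M.a2 b) ?_ ?_ hz (Or.inl rfl)
      · rintro z (rfl | rfl)
        · right; exact e1
        · left; exact e2
      · rintro z (rfl | rfl)
        · right; rfl
        · left; exact M.i2 b
    have hnot : ¬ (M.repair b y).rV b y := by
      intro h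
      rcases hclass y h with h | h
      · exact hyb h
      · exact M.f1 _ h
    have hVby : M.rV b y := Setoid.trans' _ (M.rV_a2 b) (M.rV_a1 _)
    have heps := M.eps_repair hyb' hVby hnot
    have hB' : ∀ x ∈ B, (M.repair b y).a2 x ∈ B := hB
    obtain ⟨N, h0, h2, h3, h4, h5⟩ := ih
      (Finset.univ.filter (fun z => z ∈ B ∧ (M.repair b y).a1 z ≠ (M.repair b y).a2 z)).card (by
        rw [← hn]
        apply Finset.card_lt_card
        rw [Finset.ssubset_iff_of_subset]
        · refine ⟨b, ?_, ?_⟩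
          · simp only [Finset.mem_filter, Finset.mem_univ, true_and]
            exact ⟨hb, hb12⟩
          · simp only [Finset.mem_filter, Finset.mem_univ, true_and, not_and, not_not]
            intro _; exact e1
        · intro z hz
          simp only [Finset.mem_filter, Finset.mem_univ, true_and] at hz ⊢
          refine ⟨hz.1, ?_⟩
          have hz2 : (M.repair b y).a1 z ≠ M.a2 z := hz.2
          rcases rp_cases M.i1 M.f1 hyb' z with ⟨h, _⟩ | ⟨h, _⟩ | ⟨h, _⟩ | ⟨h, _⟩ | ⟨-, -, -, -, h⟩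
          · exact absurd (by rw [h]; exact e1) hz2
          · intro h'
            rw [h] at h'
            have : M.a1 y = M.a2 b := by rw [hy, M.i1]
            rw [this] at h'
            exact hyb (M.i2.injective h'.symm)
          · intro h'
            rw [h, M.i1] at h'
            exact hb12 (by rw [h', M.i2, ← h'])
          · have h' : M.a1 y = M.a2 b := by rw [hy, M.i1]
            rw [h'] at h
            exact absurd (by rw [h, e2, M.i2]) hz2
          · have h' : (M.repair b y).a1 z = M.a1 z := h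
            rwa [h'] at hz2) (M.repair b y) hB' rfl
    refine ⟨N, h0, h2, h3, ?_, h5.trans heps⟩
    intro u w hu hw
    rw [h4 u w hu hw]
    have hub : ¬ (M.repair b y).rV u b := by
      intro h
      rcases hclass u (Setoid.symm' _ h) with h | h
      · exact hu (h ▸ hb)
      · exact hu (h ▸ hB b hb)
    have hwb : ¬ (M.repair b y).rV w b := by
      intro h
      rcases hclass w (Setoid.symm' _ h) with h | h
      · exact hw (h ▸ hb)
      · exact hw (h ▸ hB b hb)
    constructor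
    · exact gen_of_rp M.i1 M.f1 hyb' _ hVby
    · intro h
      rcases gen_le_glue_rp M.i1 M.f1 hyb' _ h with h | ⟨h, _⟩ | ⟨_, h⟩
      · exact h
      · exact absurd h hub
      · exact absurd h hwb
  · push Not at hne
    exact ⟨M, rfl, rfl, hne, fun _ _ _ _ => Iff.rfl, le_refl _⟩

end FMap

/-! ### restriction -/

theorem gen_restrict {P : Φ → Prop} (F : Set (Φ → Φ)) (F' : Set (Subtype P → Subtype P))
    (h1 : ∀ f ∈ F, ∀ x, P x ↔ P (f x))
    (h2 : ∀ f ∈ F, ∃ f' ∈ F', ∀ x : Subtype P, (f' x).1 = f x.1)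
    (h3 : ∀ f' ∈ F', ∃ f ∈ F, ∀ x : Subtype P, (f' x).1 = f x.1) (u w : Subtype P) :
    gen F u.1 w.1 ↔ gen F' u w := by
  constructor
  · intro h
    let r : Setoid Φ :=
      { r := fun u w => (P u ↔ P w) ∧ ∀ (hu : P u) (hw : P w), gen F' ⟨u, hu⟩ ⟨w, hw⟩
        iseqv := by
          refine ⟨fun u => ⟨Iff.rfl, fun _ _ => Setoid.refl' _ _⟩, ?_, ?_⟩
          · rintro u w ⟨h1, h2⟩
            exact ⟨h1.symm, fun hu hw => Setoid.symm' _ (h2 hw hu)⟩
          · rintro u w z ⟨h1, h2⟩ ⟨h3, h4⟩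
            exact ⟨h1.trans h3, fun hu hz => Setoid.trans' _ (h2 hu (h1.1 hu)) (h4 (h1.1 hu) hz)⟩ }
    have hr : r u.1 w.1 := by
      refine gen_le (r := r) ?_ h
      intro f hf x
      refine ⟨h1 f hf x, fun hx hfx => ?_⟩
      obtain ⟨f', hf', h⟩ := h2 f hf
      have : (⟨f x, hfx⟩ : Subtype P) = f' ⟨x, hx⟩ := Subtype.ext (h ⟨x, hx⟩).symm
      rw [this]
      exact gen_step hf' _
    exact hr.2 u.2 w.2
  · intro h
    refine gen_le (r := (gen F).comap Subtype.val) ?_ h
    intro f' hf' x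
    obtain ⟨f, hf, h⟩ := h3 f' hf'
    change gen F x.1 (f' x).1
    rw [h]
    exact gen_step hf _

/-- restriction of an involution to an invariant subset -/
def resF (f : Φ → Φ) (P : Φ → Prop) (h : ∀ x, P x → P (f x)) : Subtype P → Subtype P :=
  fun x => ⟨f x.1, h x.1 x.2⟩

namespace FMap

variable (M : FMap Φ) {P : Φ → Prop} (h0 : ∀ x, P x → P (M.a0 x)) (h1 : ∀ x, P x → P (M.a1 x))
  (h2 : ∀ x, P x → P (M.a2 x))

/-- restriction to an invariant set of flags -/
def restr : FMap (Subtype P) where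
  a0 := resF M.a0 P h0
  a1 := resF M.a1 P h1
  a2 := resF M.a2 P h2
  i0 := fun x => Subtype.ext (M.i0 x.1)
  i1 := fun x => Subtype.ext (M.i1 x.1)
  i2 := fun x => Subtype.ext (M.i2 x.1)
  f0 := fun x h => M.f0 x.1 (congrArg Subtype.val h)
  f1 := fun x h => M.f1 x.1 (congrArg Subtype.val h)
  f2 := fun x h => M.f2 x.1 (congrArg Subtype.val h)
  comm := fun x => Subtype.ext (M.comm x.1)
  f02 := fun x h => M.f02 x.1 (congrArg Subtype.val h)

theorem iff_of_inv {f : Φ → Φ} (hf : Involutive f) (h : ∀ x, P x → P (f x)) (x : Φ) :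
    P x ↔ P (f x) := ⟨h x, fun h' => by have := h _ h'; rwa [hf x] at this⟩

theorem restr_rV (u w : Subtype P) : (M.restr h0 h1 h2).rV u w ↔ M.rV u.1 w.1 := by
  symm
  apply gen_restrict
  · rintro f (rfl | rfl) x
    · exact iff_of_inv M.i1 h1 x
    · exact iff_of_inv M.i2 h2 x
  · rintro f (rfl | rfl)
    · exact ⟨_, Set.mem_insert _ _, fun x => rfl⟩
    · exact ⟨_, Set.mem_insert_of_mem _ rfl, fun x => rfl⟩
  · rintro f (rfl | rfl)
    · exact ⟨_, Set.mem_insert _ _, fun x => rfl⟩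
    · exact ⟨_, Set.mem_insert_of_mem _ rfl, fun x => rfl⟩

theorem restr_rF (u w : Subtype P) : (M.restr h0 h1 h2).rF u w ↔ M.rF u.1 w.1 := by
  symm
  apply gen_restrict
  · rintro f (rfl | rfl) x
    · exact iff_of_inv M.i1 h1 x
    · exact iff_of_inv M.i0 h0 x
  · rintro f (rfl | rfl)
    · exact ⟨_, Set.mem_insert _ _, fun x => rfl⟩
    · exact ⟨_, Set.mem_insert_of_mem _ rfl, fun x => rfl⟩
  · rintro f (rfl | rfl)
    · exact ⟨_, Set.mem_insert _ _, fun x => rfl⟩
    · exact ⟨_, Set.mem_insert_of_mem _ rfl, fun x => rfl⟩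

theorem restr_rC (u w : Subtype P) : (M.restr h0 h1 h2).rC u w ↔ M.rC u.1 w.1 := by
  symm
  apply gen_restrict
  · rintro f (rfl | rfl | rfl) x
    · exact iff_of_inv M.i1 h1 x
    · exact iff_of_inv M.i0 h0 x
    · exact iff_of_inv M.i2 h2 x
  · rintro f (rfl | rfl | rfl)
    · exact ⟨_, Set.mem_insert _ _, fun x => rfl⟩
    · exact ⟨_, Set.mem_insert_of_mem _ (Set.mem_insert _ _), fun x => rfl⟩
    · exact ⟨_, Set.mem_insert_of_mem _ (Set.mem_insert_of_mem _ rfl), fun x => rfl⟩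
  · rintro f (rfl | rfl | rfl)
    · exact ⟨_, Set.mem_insert _ _, fun x => rfl⟩
    · exact ⟨_, Set.mem_insert_of_mem _ (Set.mem_insert _ _), fun x => rfl⟩
    · exact ⟨_, Set.mem_insert_of_mem _ (Set.mem_insert_of_mem _ rfl), fun x => rfl⟩

end FMap

end Pool.Agent.Lib_helper38.Adj
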