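import Pool.Agent.Lib_helper38.Adj.Min2

/-!
# The bound for triangle-free graphs
-/

namespace Pool.Agent.Lib_helper38.Adj

open Relation Function

section sizes

variable {Φ : Type*} [Finite Φ] (M : FMap Φ)

theorem size_face (x : Φ) (k : ℕ) (h : ∀ j, 0 < j → j < k → (M.a1 ∘ M.a0)^[j] x ≠ x) :
    2 * k ≤ Nat.card {y // M.rF x y} := by
  classical
  have hR : ∀ j, M.rF x ((M.a1 ∘ M.a0)^[j] x) := by
    intro j
    induction j with
    | zero => exact Setoid.refl' _ _
    | succ j ih =>
      rw [Function.iterate_succ_apply']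
      exact Setoid.trans' _ ih (Setoid.trans' _ (M.rF_a0 _) (M.rF_a1 _))
  have hinj : Function.Injective (M.a1 ∘ M.a0) := M.i1.injective.comp M.i0.injective
  have hne : ∀ i j, i < j → j < k → (M.a1 ∘ M.a0)^[i] x ≠ (M.a1 ∘ M.a0)^[j] x := by
    intro i j hij hjk he
    refine h (j - i) (by omega) (by omega) ?_
    rw [show j = i + (j - i) by omega, Function.iterate_add_apply] at he
    exact ((hinj.iterate i) he).symm
  let f : Fin k × Bool → {y // M.rF x y} := fun p =>
    if p.2 then ⟨M.a0 ((M.a1 ∘ M.a0)^[p.1] x), Setoid.trans' _ (hR _) (M.rF_a0 _)⟩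
    else ⟨(M.a1 ∘ M.a0)^[p.1] x, hR _⟩
  have hf : Function.Injective f := by
    rintro ⟨i, b⟩ ⟨j, c⟩ hij
    have hij' := congrArg Subtype.val hij
    cases b <;> cases c
    · simp only [f, Bool.false_eq_true, if_false] at hij'
      rcases lt_trichotomy i.1 j.1 with h1 | h1 | h1
      · exact absurd hij' (hne _ _ h1 j.2)
      · exact Prod.ext (Fin.ext h1) rfl
      · exact absurd hij'.symm (hne _ _ h1 i.2)
    · simp only [f, Bool.false_eq_true, if_false, if_true] at hij'
      exact absurd hij' (iterate_ne' M.i0 M.f0 M.i1 M.f1 i j x)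
    · simp only [f, Bool.false_eq_true, if_false, if_true] at hij'
      exact absurd hij'.symm (iterate_ne' M.i0 M.f0 M.i1 M.f1 j i x)
    · simp only [f, if_true] at hij'
      have hij'' := M.i0.injective hij'
      rcases lt_trichotomy i.1 j.1 with h1 | h1 | h1
      · exact absurd hij'' (hne _ _ h1 j.2)
      · exact Prod.ext (Fin.ext h1) rfl
      · exact absurd hij''.symm (hne _ _ h1 i.2)
  have := Nat.card_le_card_of_injective f hf
  rw [Nat.card_prod, Nat.card_eq_fintype_card, Fintype.card_fin, Nat.card_eq_fintype_card,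
    Fintype.card_bool] at this
  omega

theorem size_vertex (x : Φ) {ι : Type*} [Finite ι] (f : ι → Φ) (hf : ∀ i, M.rV x (f i))
    (hd : ∀ i j, i ≠ j → ¬ M.rV (M.a0 (f i)) (M.a0 (f j))) :
    2 * Nat.card ι ≤ Nat.card {y // M.rV x y} := by
  classical
  let g : ι × Bool → {y // M.rV x y} := fun p =>
    if p.2 then ⟨M.a2 (f p.1), Setoid.trans' _ (hf _) (M.rV_a2 _)⟩ else ⟨f p.1, hf _⟩
  have hg : Function.Injective g := by
    rintro ⟨i, b⟩ ⟨j, c⟩ hij
    have hij' := congrArg Subtype.val hij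
    by_cases h : i = j
    · subst h
      cases b <;> cases c
      · rfl
      · simp only [g, Bool.false_eq_true, if_false, if_true] at hij'
        exact absurd hij'.symm (M.f2 _)
      · simp only [g, Bool.false_eq_true, if_false, if_true] at hij'
        exact absurd hij' (M.f2 _)
      · rfl
    · exfalso
      apply hd i j h
      cases b <;> cases c
      · simp only [g, Bool.false_eq_true, if_false] at hij'
        rw [hij']
      · simp only [g, Bool.false_eq_true, if_false, if_true] at hij'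
        rw [hij']; exact M.rV_a0a2 _
      · simp only [g, Bool.false_eq_true, if_false, if_true] at hij'
        rw [← hij']; exact Setoid.symm' _ (M.rV_a0a2 _)
      · simp only [g, if_true] at hij'
        rw [M.i2.injective hij']
  have := Nat.card_le_card_of_injective g hg
  rw [Nat.card_prod, Nat.card_eq_fintype_card (α := Bool), Fintype.card_bool] at this
  omega

end sizes

namespace LMap

variable {W : Type*} {G : SimpleGraph W} {Φ : Type} [DecidableEq Φ] [Fintype Φ]
  {M : LMap G Φ} {X : ℤ}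

/-- Extra vertices of a minimal labelled map have at least four edge-ends. -/
theorem IsMin.extra_size (hM : IsMin X M) {x : Φ} (hx : ¬ M.rV x (M.s (M.lab x))) :
    8 ≤ Nat.card {y // M.rV x y} := by
  obtain ⟨w, u, hwu, hw, hu, hw', hu'⟩ := hM.two_sep hx
  obtain ⟨y1, y2, h1, h2, h3, h4, h5⟩ := hM.sep_nbrs hx hw hw'
  obtain ⟨y3, y4, h6, h7, h8, h9, h10⟩ := hM.sep_nbrs hx hu hu'
  have hl : ∀ a b, M.lab a = w → M.lab b = u → ¬ M.rV a b := fun a b ha hb h =>
    hwu (by rw [← ha, ← hb]; exact M.lab_rV h)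
  have := size_vertex M.toFMap x (ι := Fin 4) ![y1, y2, y3, y4] (by
    intro i; fin_cases i <;> assumption) (by
    intro i j hij
    fin_cases i <;> fin_cases j <;> first | exact absurd rfl hij | skip
    · exact h5
    · exact hl _ _ h3 h8
    · exact hl _ _ h3 h9
    · exact fun h => h5 (Setoid.symm' _ h)
    · exact hl _ _ h4 h8
    · exact hl _ _ h4 h9
    · exact fun h => hl _ _ h3 h8 (Setoid.symm' _ h)
    · exact fun h => hl _ _ h4 h8 (Setoid.symm' _ h)
    · exact h10
    · exact fun h => hl _ _ h3 h9 (Setoid.symm' _ h)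
    · exact fun h => hl _ _ h4 h9 (Setoid.symm' _ h)
    · exact fun h => h10 (Setoid.symm' _ h))
  rw [Nat.card_eq_fintype_card, Fintype.card_fin] at this
  omega

/-- Main vertices of a minimal labelled map have at least the degree of `G`. -/
theorem IsMin.main_size (hM : IsMin X M) [Finite W] (v : W) :
    2 * Nat.card (G.neighborSet v) ≤ Nat.card {y // M.rV (M.s v) y} := by
  have h : ∀ u : G.neighborSet v, ∃ y, M.rV (M.s v) y ∧ M.lab (M.a0 y) = u.1 :=
    fun u => hM.main_nbr u.2
  choose f hf1 hf2 using h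
  refine size_vertex M.toFMap (M.s v) f hf1 ?_
  intro i j hij hV
  apply hij
  apply Subtype.ext
  rw [← hf2 i, ← hf2 j]
  exact M.lab_rV hV

/-- The degree count. -/
theorem IsMin.degree_count (hM : IsMin X M) [Fintype W] :
    8 * M.nV + 4 * Nat.card G.edgeSet ≤ Fintype.card Φ + 8 * Fintype.card W := by
  classical
  let mk : Φ → Quotient M.rV := Quotient.mk M.rV
  have hsize : ∀ x : Φ, Nat.card {z // mk z = mk x} = Nat.card {y // M.rV x y} := by
    intro x
    apply Nat.card_congr
    refine Equiv.subtypeEquivRight fun y => ?_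
    constructor
    · intro h; exact Setoid.symm' _ (Quotient.exact h)
    · intro h; exact Quotient.sound (Setoid.symm' _ h)
  have h1 : Fintype.card Φ = ∑ q : Quotient M.rV, Nat.card {x // mk x = q} := by
    rw [← Nat.card_eq_fintype_card, ← Nat.card_congr (Equiv.sigmaFiberEquiv mk), Nat.card_sigma]
  let S : Finset (Quotient M.rV) := Finset.univ.image (fun w => mk (M.s w))
  have hinj : Function.Injective (fun w => mk (M.s w)) := by
    intro v w h
    have h2 := M.lab_rV (Quotient.exact h)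
    rwa [M.lab_s, M.lab_s] at h2
  have hS : S.card = Fintype.card W := by
    rw [Finset.card_image_of_injective _ hinj, Finset.card_univ]
  have h2 : ∑ q : Quotient M.rV, Nat.card {x // mk x = q} =
      (∑ q ∈ S, Nat.card {x // mk x = q}) + ∑ q ∈ Sᶜ, Nat.card {x // mk x = q} :=
    (Finset.sum_add_sum_compl S _).symm
  have h3 : ∑ w : W, 2 * Nat.card (G.neighborSet w) ≤ ∑ q ∈ S, Nat.card {x // mk x = q} := by
    rw [Finset.sum_image (fun v _ w _ h => hinj h)]
    apply Finset.sum_le_sum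
    intro w _
    rw [hsize]
    exact hM.main_size w
  have h4 : 8 * Sᶜ.card ≤ ∑ q ∈ Sᶜ, Nat.card {x // mk x = q} := by
    rw [mul_comm, ← smul_eq_mul, ← Finset.sum_const]
    apply Finset.sum_le_sum
    intro q hq
    induction q using Quotient.inductionOn with | _ x => ?_
    change 8 ≤ Nat.card {z // mk z = mk x}
    rw [hsize]
    apply hM.extra_size
    intro h
    rw [Finset.mem_compl] at hq
    apply hq
    rw [Finset.mem_image]
    exact ⟨M.lab x, Finset.mem_univ _, Quotient.sound (Setoid.symm' _ h)⟩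
  have h5 : M.nV = S.card + Sᶜ.card := by
    rw [Finset.card_add_card_compl]
    unfold FMap.nV nc
    rw [Nat.card_eq_fintype_card]
  have h6 : ∑ w : W, 2 * Nat.card (G.neighborSet w) = 4 * Nat.card G.edgeSet := by
    rw [← Finset.mul_sum]
    have h7 : ∑ w : W, Nat.card (G.neighborSet w) = 2 * Nat.card G.edgeSet := by
      have h8 := G.sum_degrees_eq_twice_card_edges
      rw [Nat.card_eq_fintype_card, ← SimpleGraph.edgeFinset_card, ← h8]
      apply Finset.sum_congr rfl
      intro w _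
      rw [Nat.card_eq_fintype_card, SimpleGraph.card_neighborSet_eq_degree]
    rw [h7]; ring
  omega

/-- small faces -/
theorem IsMin2.rho1 (hM : IsMin2 X M) (hG : ∀ w, ∃ u, G.Adj w u) (x : Φ) :
    M.a1 (M.a0 x) ≠ x := by
  intro h
  apply hM.no_loop hG x
  have := M.rV_a1 (M.a0 x)
  rw [h] at this
  exact Setoid.symm' _ this

theorem IsMin2.rho2 (hM : IsMin2 X M) (hG : ∀ w, ∃ u, G.Adj w u)
    (hK : ∀ w u, G.Adj w u → ∃ z, z ≠ w ∧ z ≠ u ∧ (G.Adj w z ∨ G.Adj u z))
    (x : Φ) : M.a1 (M.a0 (M.a1 (M.a0 x))) ≠ x := by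
  classical
  intro h
  have e1 : M.a1 (M.a0 x) = M.a0 (M.a1 x) := by
    have := congrArg (fun z => M.a0 (M.a1 z)) h
    simp only [M.i1 _, M.i0 _] at this
    exact this
  have h1 : M.rV x (M.a1 x) := M.rV_a1 x
  have h2 : M.rV (M.a0 x) (M.a0 (M.a1 x)) := by rw [← e1]; exact M.rV_a1 _
  rcases hM.no_par hG h1 h2 with h | h | h | h
  · exact M.f1 _ h
  · -- degree one at both ends
    have e2 : M.a1 (M.a0 x) = M.a2 (M.a0 x) := by rw [e1, h, M.comm]
    have hall : ∀ z, M.rC x z → M.Ed x z := by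
      intro z hz
      refine M.closedC (P := fun z => M.Ed x z) ?_ ?_ ?_ hz (Or.inl rfl)
      · intro z hz; exact Ed_a0 hz
      · rintro z (rfl | rfl | rfl | rfl)
        · rw [h]; exact Or.inr (Or.inl rfl)
        · rw [← h, M.i1]; exact Or.inl rfl
        · rw [e2, ← M.comm]; exact Or.inr (Or.inr (Or.inr rfl))
        · rw [M.comm, ← e2, M.i1]; exact Or.inr (Or.inr (Or.inl rfl))
      · intro z hz; exact Ed_a2 hz
    have hW : ∀ w : W, M.rC x (M.s w) → w = M.lab x ∨ w = M.lab (M.a0 x) := by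
      intro w hw
      rcases hall (M.s w) hw with h4 | h4 | h4 | h4
      · left; rw [← M.lab_s w, h4]
      · left; rw [← M.lab_s w, h4, M.lab2]
      · right; rw [← M.lab_s w, h4]
      · right; rw [← M.lab_s w, h4, M.comm, M.lab2]
    have h3 := hM.useful hG x
    have h4 : M.rC x (M.s (M.lab x)) := Setoid.symm' _ (M.lk_rC h3.2)
    have h5 : M.rC x (M.s (M.lab (M.a0 x))) := Setoid.trans' _ h4 (M.link_rC h3.1)
    obtain ⟨z, hz1, hz2, hz3⟩ := hK _ _ h3.1
    have h6 : M.rC x (M.s z) := by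
      rcases hz3 with hz3 | hz3
      · exact Setoid.trans' _ h4 (M.link_rC hz3)
      · exact Setoid.trans' _ h5 (M.link_rC hz3)
    rcases hW z h6 with h7 | h7
    · exact hz1 h7
    · exact hz2 h7
  · apply hM.no_loop hG x
    rw [← h]; exact h1
  · apply hM.no_loop hG x
    rw [h] at h1
    exact Setoid.trans' _ h1 (M.rV_a0a2 _)

omit [DecidableEq Φ] [Fintype Φ] in
/-- the labels along a face of length three -/
theorem rho3_labels {x : Φ} (h : M.a1 (M.a0 (M.a1 (M.a0 (M.a1 (M.a0 x))))) = x) :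
    M.lab (M.a0 (M.a1 (M.a0 (M.a1 (M.a0 x))))) = M.lab x := by
  rw [← M.lab1, h]

theorem IsMin2.rho3 (hM : IsMin2 X M) (hG : ∀ w, ∃ u, G.Adj w u)
    (hT : G.CliqueFree 3) (x : Φ) : M.a1 (M.a0 (M.a1 (M.a0 (M.a1 (M.a0 x))))) ≠ x := by
  classical
  intro h
  have h1 := (hM.useful hG x).1
  have h2 := (hM.useful hG (M.a1 (M.a0 x))).1
  have h3 := (hM.useful hG (M.a1 (M.a0 (M.a1 (M.a0 x))))).1
  rw [M.lab1] at h2 h3
  rw [rho3_labels h] at h3
  exact hT {M.lab x, M.lab (M.a0 x), M.lab (M.a0 (M.a1 (M.a0 x)))}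
    (SimpleGraph.is3Clique_triple_iff.2 ⟨h1, h3.symm, h2⟩)

omit [DecidableEq Φ] in
theorem chiE_le_chi4 (M : LMap G Φ) [Nonempty W] : M.chiE ≤ M.chi4 := by
  have h1 : 0 < M.nC := by
    obtain ⟨w⟩ := ‹Nonempty W›
    have : Nonempty (Quotient M.rC) := ⟨Quotient.mk _ (M.s w)⟩
    exact Nat.card_pos
  unfold FMap.chiE
  omega

omit [DecidableEq Φ] in
/-- The bound for triangle-free graphs: `4 |E| ≤ 8 |V| - 8 χ`. -/
theorem triFree (M : LMap G Φ) [Fintype W] [Nonempty W] (hG : ∀ w, ∃ u, G.Adj w u)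
    (hK : ∀ w u, G.Adj w u → ∃ z, z ≠ w ∧ z ≠ u ∧ (G.Adj w z ∨ G.Adj u z))
    (hT : G.CliqueFree 3) :
    4 * (Nat.card G.edgeSet : ℤ) ≤ 8 * Fintype.card W - 2 * M.chiE := by
  classical
  obtain ⟨Ψ, i, i', N, hN⟩ := M.exists_min2
  have h1 := hN.1.degree_count
  have h2 : 8 * N.nF ≤ Fintype.card Ψ := by
    apply mul_nc_le
    intro x
    refine size_face N.toFMap x 4 ?_
    intro j hj0 hj4
    have : j = 1 ∨ j = 2 ∨ j = 3 := by omega
    rcases this with rfl | rfl | rfl
    · exact hN.rho1 hG x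
    · exact hN.rho2 hG hK x
    · exact hN.rho3 hG hT x
  have h4 := hN.1.1.trans N.chiE_le_chi4
  unfold FMap.chi4 at h4
  have h1' : (8 : ℤ) * N.nV + 4 * Nat.card G.edgeSet ≤ Fintype.card Ψ + 8 * Fintype.card W := by
    exact_mod_cast h1
  have h2' : (8 : ℤ) * N.nF ≤ Fintype.card Ψ := by exact_mod_cast h2
  linarith

end LMap

end Pool.Agent.Lib_helper38.Adj
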