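import Pool.Agent.Lib_helper38.Adj.Chord
import Pool.Agent.Lib_helper38.Adj.TriFree

/-!
# Maximal labelled maps
-/

namespace Pool.Agent.Lib_helper38.Adj

open Relation Function

/-- no face of length two -/
def FMap.NoBigon {Φ : Type*} (M : FMap Φ) : Prop := ∀ x, M.a1 (M.a0 (M.a1 (M.a0 x))) ≠ x

/-- the face of `x` is a triangle -/
def FMap.Tri {Φ : Type*} (M : FMap Φ) (x : Φ) : Prop :=
  M.a1 (M.a0 (M.a1 (M.a0 (M.a1 (M.a0 x))))) = x

namespace LMap

variable {W : Type*} {G : SimpleGraph W}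

/-- every edge lies in the main component of the graph of its two labels -/
def Useful {Φ : Type*} (M : LMap G Φ) : Prop := ∀ x, G.Adj (M.lab x) (M.lab (M.a0 x)) ∧
  M.lk (fun z => M.lab z = M.lab x ∨ M.lab z = M.lab (M.a0 x)) (M.s (M.lab x)) x

theorem Useful.mono {Φ : Type*} {M : LMap G Φ} (hU : M.Useful) (x : Φ) : M.a1 (M.a0 x) ≠ x := by
  intro h
  apply (hU x).1.ne
  conv_lhs => rw [← h]
  rw [M.lab1]

theorem Useful.no_loop {Φ : Type*} {M : LMap G Φ} (hU : M.Useful) (x : Φ) :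
    ¬ M.rV x (M.a0 x) := fun h => (hU x).1.ne (M.lab_rV h)

variable {Φ : Type} [DecidableEq Φ]

theorem bigon_iff {Ψ : Type*} (M : FMap Ψ) (x : Ψ) :
    M.a1 (M.a0 (M.a1 (M.a0 x))) = x ↔ M.a1 (M.a0 x) = M.a0 (M.a1 x) := by
  constructor
  · intro h
    have := congrArg (fun z => M.a0 (M.a1 z)) h
    simpa only [M.i1 _, M.i0 _] using this
  · intro h
    rw [h, M.i0, M.i1]

section chord

variable (M : LMap G Φ) (hU : M.Useful) (hB : M.NoBigon) (x : Φ)

include hB in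
theorem chord_noBigon (htri : ¬ M.Tri x) (hm : M.a1 (M.a0 x) ≠ x)
    (hb : M.a0 (M.a1 x) ≠ M.a1 (M.a0 x)) : (M.toFMap.chord x).NoBigon := by
  set N := M.toFMap.chord x with hN
  have e0 : ∀ z, N.a0 (Sum.inl z) = Sum.inl (M.a0 z) := fun z => rfl
  have e0' : ∀ c, N.a0 (Sum.inr c) = Sum.inr (!c.1, c.2) := fun c => rfl
  -- injectivity
  have inj : ∀ z z' : Φ ⊕ Bool × Bool, N.a1 z = z' → z = N.a1 z' := by
    intro z z' h; rw [← h, N.i1]
  have key : ∀ z : Φ, N.a1 (N.a0 (Sum.inl z)) ≠ N.a0 (N.a1 (Sum.inl z)) := by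
    intro z h
    rw [e0] at h
    by_cases h1 : z = M.a0 x
    · rw [h1, M.toFMap.chord_p hb, e0', M.i0] at h
      have h2 := inj _ _ h
      rw [Bool.not_false, M.toFMap.chord_tf hb] at h2
      have h3 := congrArg M.a0 (Sum.inl.inj h2)
      rw [M.i0] at h3
      have h4 := congrArg M.a1 h3
      rw [M.i1] at h4
      exact hm h4
    by_cases h2 : z = M.a1 (M.a0 x)
    · rw [h2, M.toFMap.chord_p' hb, e0'] at h
      have h3 := inj _ _ h
      rw [Bool.not_false, M.toFMap.chord_tt hb] at h3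
      apply htri
      unfold FMap.Tri
      rw [Sum.inl.inj h3, M.i1, M.i0, M.i1]
    by_cases h3 : z = M.a0 (M.a1 x)
    · rw [h3, M.toFMap.chord_q hb, e0', M.i0] at h
      have h4 := inj _ _ h
      rw [Bool.not_true, M.toFMap.chord_ff hb] at h4
      have h5 := congrArg M.a1 (Sum.inl.inj h4)
      rw [M.i1] at h5
      exact hm h5.symm
    by_cases h4 : z = M.a1 (M.a0 (M.a1 x))
    · rw [h4, M.toFMap.chord_q' hb, e0'] at h
      have h5 := inj _ _ h
      rw [Bool.not_true, M.toFMap.chord_ft hb] at h5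
      apply htri
      unfold FMap.Tri
      have h6 : M.a0 (M.a1 (M.a0 x)) = M.a1 (M.a0 (M.a1 x)) := by
        rw [← Sum.inl.inj h5, M.i0]
      rw [h6, M.i1, M.i0, M.i1]
    · rw [M.toFMap.chord_z hb h1 h2 h3 h4, e0] at h
      -- the point `a0 z` is not special
      by_cases g1 : M.a0 z = M.a0 x
      · rw [g1, M.toFMap.chord_p hb] at h; exact absurd h (by simp)
      by_cases g2 : M.a0 z = M.a1 (M.a0 x)
      · rw [g2, M.toFMap.chord_p' hb] at h; exact absurd h (by simp)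
      by_cases g3 : M.a0 z = M.a0 (M.a1 x)
      · rw [g3, M.toFMap.chord_q hb] at h; exact absurd h (by simp)
      by_cases g4 : M.a0 z = M.a1 (M.a0 (M.a1 x))
      · rw [g4, M.toFMap.chord_q' hb] at h; exact absurd h (by simp)
      rw [M.toFMap.chord_z hb g1 g2 g3 g4] at h
      exact hB z ((bigon_iff M.toFMap z).2 (Sum.inl.inj h))
  intro t ht
  rw [bigon_iff] at ht
  rcases t with z | c
  · exact key z ht
  · -- move to the partner under `a1`
    have hu : N.a1 (N.a0 (N.a1 (Sum.inr c))) = N.a0 (N.a1 (N.a1 (Sum.inr c))) := by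
      rw [← ht, N.i1, N.i1]
    obtain ⟨⟨c1, c2⟩⟩ : Nonempty (Bool × Bool) := ⟨c⟩
    obtain ⟨c1, c2⟩ := c
    cases c1 <;> cases c2
    · rw [M.toFMap.chord_ff hb] at hu; exact key _ hu
    · rw [M.toFMap.chord_ft hb] at hu; exact key _ hu
    · rw [M.toFMap.chord_tf hb] at hu; exact key _ hu
    · rw [M.toFMap.chord_tt hb] at hu; exact key _ hu

variable [Fintype Φ]

include hU hB in
/-- Adding a useful chord. -/
theorem exists_chord (hadj : G.Adj (M.lab (M.a0 x)) (M.lab (M.a0 (M.a1 x))))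
    (hlk : M.lk (fun z => M.lab z = M.lab (M.a0 x) ∨ M.lab z = M.lab (M.a0 (M.a1 x)))
      (M.s (M.lab (M.a0 x))) (M.a0 x)) (htri : ¬ M.Tri x) :
    ∃ N : LMap G (Φ ⊕ Bool × Bool), N.Useful ∧ N.NoBigon ∧ N.chiE = M.chiE ∧ N.nV = M.nV := by
  have hm : M.a1 (M.a0 x) ≠ x := hU.mono x
  have hb : M.a0 (M.a1 x) ≠ M.a1 (M.a0 x) := fun h => hB x ((bigon_iff _ x).2 h.symm)
  set L : Φ ⊕ Bool × Bool → W := Sum.elim M.lab
    (fun c => if c.1 then M.lab (M.a0 (M.a1 x)) else M.lab (M.a0 x)) with hL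
  have L0 : ∀ z, L (Sum.inl z) = M.lab z := fun z => rfl
  have Lf : ∀ j, L (Sum.inr (false, j)) = M.lab (M.a0 x) := fun j => rfl
  have Lt : ∀ j, L (Sum.inr (true, j)) = M.lab (M.a0 (M.a1 x)) := fun j => rfl
  have hlink : ∀ (K : Φ → Prop) (K' : Φ ⊕ Bool × Bool → Prop), (∀ z, K z → K' (Sum.inl z)) →
      ∀ z z', M.lk K z z' → (M.toFMap.chord x).lk K' (Sum.inl z) (Sum.inl z') := by
    intro K K' hK z z' h
    refine M.lk_le (r := ((M.toFMap.chord x).lk K').comap Sum.inl) ?_ ?_ h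
    · intro p q hpq
      exact (M.toFMap.chord x).lk_rV (M.toFMap.chord_rV hb hpq)
    · intro p hp hp'
      exact (M.toFMap.chord x).lk_a0 (K := K') (x := Sum.inl p) (hK _ hp) (hK _ hp')
  let N : LMap G (Φ ⊕ Bool × Bool) :=
    { toFMap := M.toFMap.chord x
      lab := L
      lab1 := by
        rintro (z | ⟨c1, c2⟩)
        · by_cases h1 : z = M.a0 x
          · rw [h1, M.toFMap.chord_p hb, Lf, L0]
          by_cases h2 : z = M.a1 (M.a0 x)
          · rw [h2, M.toFMap.chord_p' hb, Lf, L0, M.lab1]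
          by_cases h3 : z = M.a0 (M.a1 x)
          · rw [h3, M.toFMap.chord_q hb, Lt, L0]
          by_cases h4 : z = M.a1 (M.a0 (M.a1 x))
          · rw [h4, M.toFMap.chord_q' hb, Lt, L0, M.lab1]
          rw [M.toFMap.chord_z hb h1 h2 h3 h4, L0, L0, M.lab1]
        · cases c1 <;> cases c2
          · rw [M.toFMap.chord_ff hb, Lf, L0]
          · rw [M.toFMap.chord_ft hb, Lf, L0, M.lab1]
          · rw [M.toFMap.chord_tf hb, Lt, L0]
          · rw [M.toFMap.chord_tt hb, Lt, L0, M.lab1]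
      lab2 := by
        rintro (z | ⟨c1, c2⟩)
        · exact M.lab2 z
        · cases c1
          · exact (Lf _).trans (Lf _).symm
          · exact (Lt _).trans (Lt _).symm
      s := fun w => Sum.inl (M.s w)
      lab_s := fun w => M.lab_s w
      comp := by
        intro t
        obtain ⟨w, hw⟩ := M.comp (M.toFMap.base x t)
        exact ⟨w, Setoid.trans' _ (M.toFMap.chord_rC_base hb t) (M.toFMap.chord_rC hb hw)⟩
      link := fun v w hvw => hlink _ _ (fun z hz => hz) _ _ (M.link v w hvw) }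
  have hrt : ∀ j, N.rV (Sum.inl (M.a0 (M.a1 x))) (Sum.inr (true, j)) := M.toFMap.chord_rV_t hb
  have hrf : ∀ j, N.rV (Sum.inl (M.a0 x)) (Sum.inr (false, j)) := M.toFMap.chord_rV_f hb
  have n0 : ∀ z, N.a0 (Sum.inl z) = Sum.inl (M.a0 z) := fun z => rfl
  have n0' : ∀ c, N.a0 (Sum.inr c) = Sum.inr (!c.1, c.2) := fun c => rfl
  have nl : ∀ z, N.lab (Sum.inl z) = M.lab z := fun z => rfl
  have nlf : ∀ j, N.lab (Sum.inr (false, j)) = M.lab (M.a0 x) := fun j => rfl
  have nlt : ∀ j, N.lab (Sum.inr (true, j)) = M.lab (M.a0 (M.a1 x)) := fun j => rfl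
  have ns : ∀ w, N.s w = Sum.inl (M.s w) := fun w => rfl
  refine ⟨N, ?_, M.chord_noBigon hB x htri hm hb, ?_, M.toFMap.chord_nV hb⟩
  · rintro (z | ⟨c1, c2⟩)
    · rw [n0, nl, nl, ns]
      refine ⟨(hU z).1, hlink _ _ ?_ _ _ (hU z).2⟩
      intro u hu; exact hu
    · have hbase : N.lk (fun z => N.lab z = M.lab (M.a0 x) ∨ N.lab z = M.lab (M.a0 (M.a1 x)))
          (N.s (M.lab (M.a0 x))) (Sum.inl (M.a0 x)) := hlink _ _ (fun z hz => hz) _ _ hlk
      cases c1
      · rw [n0', nlf, Bool.not_false, nlt]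
        exact ⟨hadj, Setoid.trans' _ hbase (N.lk_rV (hrf c2))⟩
      · rw [n0', nlt, Bool.not_true, nlf]
        refine ⟨hadj.symm, ?_⟩
        have h1 : N.lk (fun z => N.lab z = M.lab (M.a0 x) ∨ N.lab z = M.lab (M.a0 (M.a1 x)))
            (N.s (M.lab (M.a0 (M.a1 x)))) (Sum.inr (true, c2)) := by
          refine Setoid.trans' _ (Setoid.symm' _ (N.link _ _ hadj)) (Setoid.trans' _ hbase
            (Setoid.trans' _ (N.lk_rV (hrf c2)) ?_))
          exact N.lk_a0 (x := Sum.inr (false, c2)) (Or.inl rfl) (Or.inr rfl)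
        exact N.lk_mono (fun z hz => hz.symm) h1
  · change 4 * ((M.toFMap.chord x).nV : ℤ) + 4 * ((M.toFMap.chord x).nF : ℤ) - _ -
      8 * ((M.toFMap.chord x).nC : ℤ) + 8 =
      4 * (M.nV : ℤ) + 4 * (M.nF : ℤ) - _ - 8 * (M.nC : ℤ) + 8
    rw [M.toFMap.chord_nV hb, M.toFMap.chord_nF hm hb, M.toFMap.chord_nC hb]
    simp only [Fintype.card_sum, Fintype.card_prod, Fintype.card_bool]
    push_cast; ring

end chord

section max

variable [Fintype Φ]

/-- Minimal number of vertices, all edges useful, no bigons, and maximal number of edges. -/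
def IsMax (X : ℤ) (M : LMap G Φ) : Prop :=
  IsMin X M ∧ M.Useful ∧ M.NoBigon ∧ ∀ (Ψ : Type) (_ : Fintype Ψ) (N : LMap G Ψ),
    IsMin X N → N.Useful → N.NoBigon → Fintype.card Ψ ≤ Fintype.card Φ

omit [DecidableEq Φ] in
theorem card_bound {M : LMap G Φ} (hU : M.Useful) (hB : M.NoBigon) :
    6 * M.nF ≤ Fintype.card Φ := by
  apply mul_nc_le
  intro x
  refine size_face M.toFMap x 3 ?_
  intro j hj0 hj3
  have : j = 1 ∨ j = 2 := by omega
  rcases this with rfl | rfl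
  · exact hU.mono x
  · exact hB x

omit [DecidableEq Φ] in
theorem exists_max (M : LMap G Φ) (hG : ∀ w, ∃ u, G.Adj w u)
    (hK : ∀ w u, G.Adj w u → ∃ z, z ≠ w ∧ z ≠ u ∧ (G.Adj w z ∨ G.Adj u z)) :
    ∃ (Ψ : Type) (_ : Fintype Ψ) (_ : DecidableEq Ψ) (N : LMap G Ψ), IsMax M.chiE N := by
  classical
  obtain ⟨Ψ0, i0, i0', N0, hN0⟩ := M.exists_min2
  set X := M.chiE with hX
  let C : Set ℕ := {m | ∃ (Ψ : Type) (_ : Fintype Ψ) (N : LMap G Ψ), IsMin X N ∧ N.Useful ∧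
    N.NoBigon ∧ Fintype.card Ψ = m}
  have hne : C.Nonempty := ⟨_, Ψ0, i0, N0, hN0.1, fun x => hN0.useful hG x,
    fun x => hN0.rho2 hG hK x, rfl⟩
  have hbd : BddAbove C := by
    refine ⟨(12 * N0.nV + 24 - 3 * X).toNat, ?_⟩
    rintro m ⟨Ψ, i, N, h1, h2, h3, rfl⟩
    have h4 := card_bound h2 h3
    have h5 : N.nV ≤ N0.nV := h1.2 Ψ0 i0 N0 hN0.1.1
    have h6 := h1.1
    unfold FMap.chiE FMap.chi4 at h6
    omega
  obtain ⟨Ψ, i, N, h1, h2, h3, h4⟩ := Nat.sSup_mem hne hbd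
  refine ⟨Ψ, i, Classical.decEq _, N, h1, h2, h3, ?_⟩
  intro Ψ' i' N' h1' h2' h3'
  rw [h4]
  exact le_csSup hbd ⟨Ψ', i', N', h1', h2', h3', rfl⟩

variable {M : LMap G Φ} {X : ℤ}

/-- In a maximal labelled map, useful corners are triangles. -/
theorem IsMax.corner (hM : IsMax X M) {x : Φ}
    (hadj : G.Adj (M.lab (M.a0 x)) (M.lab (M.a0 (M.a1 x))))
    (hlk : M.lk (fun z => M.lab z = M.lab (M.a0 x) ∨ M.lab z = M.lab (M.a0 (M.a1 x)))
      (M.s (M.lab (M.a0 x))) (M.a0 x)) : M.Tri x := by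
  by_contra htri
  obtain ⟨N, h1, h2, h3, h4⟩ := M.exists_chord hM.2.1 hM.2.2.1 x hadj hlk htri
  have hmin : IsMin X N := ⟨by rw [h3]; exact hM.1.1, fun Ψ i N' h => by
    rw [h4]; exact hM.1.2 Ψ i N' h⟩
  have := hM.2.2.2 _ _ N hmin h1 h2
  simp only [Fintype.card_sum, Fintype.card_prod, Fintype.card_bool] at this
  omega

end max

end LMap

end Pool.Agent.Lib_helper38.Adj
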