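import Pool.Agent.Lib_helper38.Adj.LMap

/-!
# Labelled submaps and doubly minimal labelled maps
-/

namespace Pool.Agent.Lib_helper38.Adj

open Relation Function

namespace LMap

variable {W : Type*} {G : SimpleGraph W} {Φ : Type} [DecidableEq Φ] [Fintype Φ]

/-- The part of an `a0, a2`-invariant set of flags `P` that is reachable from the main flags
carries a labelled map, if all links persist within `P`. -/
theorem exists_subL (M : LMap G Φ) (hG : ∀ w, ∃ u, G.Adj w u) (P : Φ → Prop)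
    (hP0 : ∀ x, P x → P (M.a0 x)) (hP2 : ∀ x, P x → P (M.a2 x))
    (hlink : ∀ v w, G.Adj v w →
      M.lk (fun x => (M.lab x = v ∨ M.lab x = w) ∧ P x) (M.s v) (M.s w)) :
    ∃ (A : Φ → Prop) (N : LMap G (Subtype A)), (∀ x, A x → P x) ∧
      M.chiE ≤ 4 * N.nV + 4 * N.nF - Nat.card (Subtype A) - 8 * N.nC + 8 ∧ N.nV ≤ M.nV := by
  classical
  set A : Φ → Prop := fun x => P x ∧ ∃ w, M.lk P (M.s w) x with hA
  have hA0 : ∀ x, A x → A (M.a0 x) := by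
    rintro x ⟨hx, w, hw⟩
    exact ⟨hP0 _ hx, w, Setoid.trans' _ hw (M.lk_a0 hx (hP0 _ hx))⟩
  have hA2 : ∀ x, A x → A (M.a2 x) := by
    rintro x ⟨hx, w, hw⟩
    exact ⟨hP2 _ hx, w, Setoid.trans' _ hw (M.lk_a2 _ _)⟩
  -- each main vertex has a flag in `P`
  have hmain : ∀ w, ∃ z, M.rV (M.s w) z ∧ P z := by
    intro w
    obtain ⟨u, hu⟩ := hG w
    by_contra hno
    push Not at hno
    have h1 : M.rV (M.s w) (M.s u) := by
      refine M.lk_closed (P := fun z => M.rV (M.s w) z) ?_ ?_ (hlink w u hu) (Setoid.refl' _ _)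
      · intro p q hpq hp; exact Setoid.trans' _ hp hpq
      · intro z hz hKz _; exact absurd hKz.2 (hno z hz)
    have h2 := M.lab_rV h1
    rw [M.lab_s, M.lab_s] at h2
    exact hu.ne h2
  choose t ht1 ht2 using hmain
  have htA : ∀ w, A (t w) := fun w => ⟨ht2 w, w, M.lk_rV (ht1 w)⟩
  obtain ⟨N, e0, e2, hV, hchi⟩ := M.toFMap.exists_sub A hA0 hA2
  -- transfer of paths
  have transfer : ∀ (K : Φ → Prop), (∀ x y, M.rV x y → K x → K y) → ∀ (x : Subtype A) (z : Φ),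
      M.lk (fun u => K u ∧ P u) x.1 z → ∀ z' : Subtype A, M.rV z z'.1 →
      N.lk (fun u => K u.1) x z' := by
    intro K hK x z hz
    have := M.lk_closed (K := fun u => K u ∧ P u)
      (P := fun z => (∃ w, M.lk P (M.s w) z) ∧ ∀ z' : Subtype A, M.rV z z'.1 →
        N.lk (fun u => K u.1) x z') ?_ ?_ hz ?_
    · exact this.2
    · rintro p q hpq ⟨⟨w, hp⟩, hp'⟩
      exact ⟨⟨w, Setoid.trans' _ hp (M.lk_rV hpq)⟩,
        fun z' hz' => hp' z' (Setoid.trans' _ hpq hz')⟩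
    · rintro p ⟨⟨w, hp⟩, hp'⟩ hKp hKp'
      have hpA : A p := ⟨hKp.2, w, hp⟩
      have h1 := hp' ⟨p, hpA⟩ (Setoid.refl' _ _)
      refine ⟨⟨w, Setoid.trans' _ hp (M.lk_a0 hKp.2 hKp'.2)⟩, fun z' hz' => ?_⟩
      have e : (N.a0 ⟨p, hpA⟩).1 = M.a0 p := e0 _
      have h2 : N.lk (fun u => K u.1) ⟨p, hpA⟩ (N.a0 ⟨p, hpA⟩) :=
        N.lk_a0 (K := fun u => K u.1) hKp.1 (by rw [e]; exact hKp'.1)
      refine Setoid.trans' _ h1 (Setoid.trans' _ h2 (N.lk_rV ?_))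
      rw [hV, e]; exact hz'
    · exact ⟨x.2.2, fun z' hz' => N.lk_rV ((hV _ _).2 hz')⟩
  refine ⟨A, { toFMap := N, lab := fun x => M.lab x.1, lab1 := ?_, lab2 := ?_,
               s := fun w => ⟨t w, htA w⟩, lab_s := ?_, comp := ?_, link := ?_ },
    fun x hx => hx.1, hchi, ?_⟩
  · intro x
    have h1 : N.rV x (N.a1 x) := N.rV_a1 x
    rw [hV] at h1
    exact (M.lab_rV h1).symm
  · intro x
    rw [e2, M.lab2]
  · intro w
    change M.lab (t w) = w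
    rw [← M.lab_rV (ht1 w), M.lab_s]
  · intro x
    obtain ⟨w, hw⟩ := x.2.2
    refine ⟨w, ?_⟩
    have h1 : M.lk (fun u => True ∧ P u) x.1 (t w) := by
      have : (fun u => True ∧ P u) = P := by ext u; simp
      rw [this]
      exact Setoid.trans' _ (Setoid.symm' _ hw) (M.lk_rV (ht1 w))
    have h2 := transfer (fun _ => True) (fun _ _ _ _ => trivial) x (t w) h1 ⟨t w, htA w⟩
      (Setoid.refl' _ _)
    exact N.lk_rC h2
  · intro v w hvw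
    have hK : ∀ x y, M.rV x y → (M.lab x = v ∨ M.lab x = w) → (M.lab y = v ∨ M.lab y = w) := by
      intro x y h hx
      rwa [← M.lab_rV h]
    refine transfer (fun u => M.lab u = v ∨ M.lab u = w) hK ⟨t v, htA v⟩ (M.s w) ?_ ⟨t w, htA w⟩
      (ht1 w)
    exact Setoid.trans' _ (M.lk_rV (Setoid.symm' _ (ht1 v))) (hlink v w hvw)
  · exact nc_le_of_reflect M.rV N.rV Subtype.val hV

/-- Minimal number of vertices, and then minimal number of flags. -/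
def IsMin2 (X : ℤ) (M : LMap G Φ) : Prop :=
  IsMin X M ∧ ∀ (Ψ : Type) (_ : Fintype Ψ) (N : LMap G Ψ), X ≤ N.chiE → N.nV ≤ M.nV →
    Fintype.card Φ ≤ Fintype.card Ψ

variable {M : LMap G Φ} {X : ℤ}

/-- In a doubly minimal labelled map nothing can be removed. -/
theorem IsMin2.no_sub (hM : IsMin2 X M) (hG : ∀ w, ∃ u, G.Adj w u) (P : Φ → Prop)
    (hP0 : ∀ x, P x → P (M.a0 x)) (hP2 : ∀ x, P x → P (M.a2 x))
    (hlink : ∀ v w, G.Adj v w →
      M.lk (fun x => (M.lab x = v ∨ M.lab x = w) ∧ P x) (M.s v) (M.s w)) (x : Φ) : P x := by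
  classical
  by_contra hx
  obtain ⟨A, N, hAP, hchi, hnV⟩ := M.exists_subL hG P hP0 hP2 hlink
  have h1 : N.chiE = 4 * N.nV + 4 * N.nF - Nat.card (Subtype A) - 8 * N.nC + 8 := by
    rw [Nat.card_eq_fintype_card]; rfl
  have h2 := hM.2 (Subtype A) _ N (by rw [h1]; exact hM.1.1.trans hchi) hnV
  have h3 : Fintype.card (Subtype A) < Fintype.card Φ := by
    apply Fintype.card_subtype_lt (x := x)
    exact fun h => hx (hAP x h)
  omega

/-- the flags of the edge of `x` -/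
def Ed (M : LMap G Φ) (x z : Φ) : Prop := z = x ∨ z = M.a2 x ∨ z = M.a0 x ∨ z = M.a0 (M.a2 x)

omit [DecidableEq Φ] [Fintype Φ] in
theorem Ed_a0 {x z : Φ} (h : M.Ed x z) : M.Ed x (M.a0 z) := by
  rcases h with rfl | rfl | rfl | rfl
  · exact Or.inr (Or.inr (Or.inl rfl))
  · exact Or.inr (Or.inr (Or.inr rfl))
  · exact Or.inl (M.i0 _)
  · exact Or.inr (Or.inl (M.i0 _))

omit [DecidableEq Φ] [Fintype Φ] in
theorem Ed_a2 {x z : Φ} (h : M.Ed x z) : M.Ed x (M.a2 z) := by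
  rcases h with rfl | rfl | rfl | rfl
  · exact Or.inr (Or.inl rfl)
  · exact Or.inl (M.i2 _)
  · exact Or.inr (Or.inr (Or.inr (M.comm _).symm))
  · refine Or.inr (Or.inr (Or.inl ?_))
    rw [← M.comm, M.i2]

omit [DecidableEq Φ] [Fintype Φ] in
theorem not_Ed_a0 {x z : Φ} (h : ¬ M.Ed x z) : ¬ M.Ed x (M.a0 z) := fun h' => h (by
  have := Ed_a0 h'; rwa [M.i0] at this)

omit [DecidableEq Φ] [Fintype Φ] in
theorem not_Ed_a2 {x z : Φ} (h : ¬ M.Ed x z) : ¬ M.Ed x (M.a2 z) := fun h' => h (by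
  have := Ed_a2 h'; rwa [M.i2] at this)

omit [DecidableEq Φ] [Fintype Φ] in
/-- each flag of the edge of `x` is at the vertex of `x` or of `a0 x` -/
theorem Ed_rV {x z : Φ} (h : M.Ed x z) : (M.rV z x ∧ M.rV (M.a0 z) (M.a0 x)) ∨
    (M.rV z (M.a0 x) ∧ M.rV (M.a0 z) x) := by
  rcases h with rfl | rfl | rfl | rfl
  · exact Or.inl ⟨Setoid.refl' _ _, Setoid.refl' _ _⟩
  · exact Or.inl ⟨Setoid.symm' _ (M.rV_a2 _), M.rV_a0a2 _⟩
  · refine Or.inr ⟨Setoid.refl' _ _, ?_⟩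
    rw [M.i0]
  · refine Or.inr ⟨M.rV_a0a2 _, ?_⟩
    rw [M.i0]; exact Setoid.symm' _ (M.rV_a2 _)

/-- no loops -/
theorem IsMin2.no_loop (hM : IsMin2 X M) (hG : ∀ w, ∃ u, G.Adj w u) (x : Φ) :
    ¬ M.rV x (M.a0 x) := by
  intro h
  refine hM.no_sub hG (fun z => ¬ M.Ed x z) (fun z hz => not_Ed_a0 hz) (fun z hz => not_Ed_a2 hz)
    ?_ x (Or.inl rfl)
  intro v w hvw
  refine M.lk_le (r := M.lk _) (fun p q hpq => M.lk_rV hpq) ?_ (M.link v w hvw)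
  intro z hz hz'
  by_cases hE : M.Ed x z
  · apply M.lk_rV
    rcases Ed_rV hE with ⟨h1, h2⟩ | ⟨h1, h2⟩
    · exact Setoid.trans' _ h1 (Setoid.trans' _ h (Setoid.symm' _ h2))
    · exact Setoid.trans' _ h1 (Setoid.trans' _ (Setoid.symm' _ h) (Setoid.symm' _ h2))
  · exact M.lk_a0 ⟨hz, hE⟩ ⟨hz', not_Ed_a0 hE⟩

/-- no parallel edges -/
theorem IsMin2.no_par (hM : IsMin2 X M) (hG : ∀ w, ∃ u, G.Adj w u) {x y : Φ}
    (h : M.rV x y) (h' : M.rV (M.a0 x) (M.a0 y)) : M.Ed x y := by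
  by_contra hxy
  refine hM.no_sub hG (fun z => ¬ M.Ed x z) (fun z hz => not_Ed_a0 hz) (fun z hz => not_Ed_a2 hz)
    ?_ x (Or.inl rfl)
  intro v w hvw
  refine M.lk_le (r := M.lk _) (fun p q hpq => M.lk_rV hpq) ?_ (M.link v w hvw)
  intro z hz hz'
  by_cases hE : M.Ed x z
  · rcases Ed_rV hE with ⟨h1, h2⟩ | ⟨h1, h2⟩
    · have e1 : M.rV z y := Setoid.trans' _ h1 h
      have e2 : M.rV (M.a0 z) (M.a0 y) := Setoid.trans' _ h2 h'
      refine Setoid.trans' _ (M.lk_rV e1) (Setoid.trans' _ (M.lk_a0 ⟨?_, hxy⟩ ⟨?_, not_Ed_a0 hxy⟩)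
        (M.lk_rV (Setoid.symm' _ e2)))
      · rwa [← M.lab_rV e1]
      · rwa [← M.lab_rV e2]
    · have e1 : M.rV z (M.a0 y) := Setoid.trans' _ h1 h'
      have e2 : M.rV (M.a0 z) y := Setoid.trans' _ h2 h
      have h3 := M.lk_a0 (K := fun x_1 => (M.lab x_1 = v ∨ M.lab x_1 = w) ∧ ¬ M.Ed x x_1)
        (x := y) ⟨by rwa [← M.lab_rV e2], hxy⟩ ⟨by rwa [← M.lab_rV e1], not_Ed_a0 hxy⟩
      exact Setoid.trans' _ (M.lk_rV e1) (Setoid.trans' _ (Setoid.symm' _ h3)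
        (M.lk_rV (Setoid.symm' _ e2)))
  · exact M.lk_a0 ⟨hz, hE⟩ ⟨hz', not_Ed_a0 hE⟩

/-- every edge is used -/
theorem IsMin2.useful (hM : IsMin2 X M) (hG : ∀ w, ∃ u, G.Adj w u) (x : Φ) :
    G.Adj (M.lab x) (M.lab (M.a0 x)) ∧
      M.lk (fun z => M.lab z = M.lab x ∨ M.lab z = M.lab (M.a0 x)) (M.s (M.lab x)) x := by
  by_contra hno
  have hne : M.lab x ≠ M.lab (M.a0 x) := fun h =>
    hM.no_loop hG x (hM.1.face (M.rF_a0 x) h)
  refine hM.no_sub hG (fun z => ¬ M.Ed x z) (fun z hz => not_Ed_a0 hz) (fun z hz => not_Ed_a2 hz)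
    ?_ x (Or.inl rfl)
  intro v w hvw
  -- the class of `s v` avoids the edge of `x`
  have havoid : ∀ z, M.lk (fun x => M.lab x = v ∨ M.lab x = w) (M.s v) z →
      (M.lab z = v ∨ M.lab z = w) → (M.lab (M.a0 z) = v ∨ M.lab (M.a0 z) = w) → ¬ M.Ed x z := by
    intro z hz hKz hKz' hE
    -- both `x` and `a0 x` are in the class and have labels `v, w`
    have hx1 : M.lk (fun x => M.lab x = v ∨ M.lab x = w) (M.s v) x ∧
        (M.lab x = v ∨ M.lab x = w) ∧ (M.lab (M.a0 x) = v ∨ M.lab (M.a0 x) = w) := by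
      rcases Ed_rV hE with ⟨h1, h2⟩ | ⟨h1, h2⟩
      · exact ⟨Setoid.trans' _ hz (M.lk_rV h1), by rwa [← M.lab_rV h1], by rwa [← M.lab_rV h2]⟩
      · exact ⟨Setoid.trans' _ hz (Setoid.trans' _ (M.lk_a0 hKz hKz') (M.lk_rV h2)),
          by rwa [← M.lab_rV h2], by rwa [← M.lab_rV h1]⟩
    obtain ⟨hx1, hx2, hx3⟩ := hx1
    apply hno
    rcases hx2 with h2 | h2
    · rcases hx3 with h3 | h3
      · exact absurd (h2.trans h3.symm) hne
      · rw [h2, h3]; exact ⟨hvw, hx1⟩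
    · rcases hx3 with h3 | h3
      · rw [h2, h3]
        refine ⟨hvw.symm, ?_⟩
        have hx4 := Setoid.trans' _ (Setoid.symm' _ (M.link v w hvw)) hx1
        refine M.lk_mono ?_ hx4
        intro z hz; exact hz.symm
      · exact absurd (h2.trans h3.symm) hne
  have := M.lk_closed (K := fun x => M.lab x = v ∨ M.lab x = w)
    (P := fun z => M.lk (fun x => M.lab x = v ∨ M.lab x = w) (M.s v) z ∧
      M.lk (fun x_1 => (M.lab x_1 = v ∨ M.lab x_1 = w) ∧ ¬ M.Ed x x_1) (M.s v) z) ?_ ?_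
      (M.link v w hvw) ⟨Setoid.refl' _ _, Setoid.refl' _ _⟩
  · exact this.2
  · rintro p q hpq ⟨h1, h2⟩
    exact ⟨Setoid.trans' _ h1 (M.lk_rV hpq), Setoid.trans' _ h2 (M.lk_rV hpq)⟩
  · rintro p ⟨h1, h2⟩ hp hp'
    have h3 := havoid p h1 hp hp'
    exact ⟨Setoid.trans' _ h1 (M.lk_a0 hp hp'),
      Setoid.trans' _ h2 (M.lk_a0 ⟨hp, h3⟩ ⟨hp', not_Ed_a0 h3⟩)⟩

omit [DecidableEq Φ] in
/-- existence of a doubly minimal labelled map -/
theorem exists_min2 (M : LMap G Φ) : ∃ (Ψ : Type) (_ : Fintype Ψ) (_ : DecidableEq Ψ)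
    (N : LMap G Ψ), IsMin2 M.chiE N := by
  classical
  set X := M.chiE with hX
  have ex1 : ∃ n, ∃ (Ψ : Type) (_ : Fintype Ψ) (N : LMap G Ψ), X ≤ N.chiE ∧ N.nV = n :=
    ⟨_, Φ, _, M, le_refl _, rfl⟩
  obtain ⟨Ψ1, i1, N1, h1, h2⟩ := Nat.find_spec ex1
  have hmin1 : ∀ (Ψ : Type) (_ : Fintype Ψ) (N : LMap G Ψ), X ≤ N.chiE →
      Nat.find ex1 ≤ N.nV := fun Ψ i N h => Nat.find_min' ex1 ⟨Ψ, i, N, h, rfl⟩
  have ex2 : ∃ n, ∃ (Ψ : Type) (_ : Fintype Ψ) (N : LMap G Ψ), X ≤ N.chiE ∧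
      N.nV = Nat.find ex1 ∧ Fintype.card Ψ = n := ⟨_, Ψ1, i1, N1, h1, h2, rfl⟩
  obtain ⟨Ψ, i, N, h3, h4, h5⟩ := Nat.find_spec ex2
  refine ⟨Ψ, i, Classical.decEq _, N, ⟨h3, fun Ψ' i' N' h' => ?_⟩, fun Ψ' i' N' h' h'' => ?_⟩
  · rw [h4]; exact hmin1 Ψ' i' N' h'
  · rw [h5]
    refine Nat.find_min' ex2 ⟨Ψ', i', N', h', ?_, rfl⟩
    exact le_antisymm (h''.trans h4.le) (hmin1 Ψ' i' N' h')

end LMap

end Pool.Agent.Lib_helper38.Adj
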