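import Pool.Agent.Lib_helper38.Adj.Types

/-!
# The rank count
-/

namespace Pool.Agent.Lib_helper38.Adj

open Relation Function

/-- sums invariant under a fixed-point-free involution vanish mod two -/
theorem sum_invol {Φ : Type*} [Fintype Φ] (f : Φ → ZMod 2) (a : Φ → Φ) (ha : Involutive a)
    (ha' : ∀ z, a z ≠ z) (h : ∀ z, f (a z) = f z) : ∑ z, f z = 0 := by
  classical
  refine Finset.sum_involution (fun z _ => a z) ?_ ?_ (fun _ _ => Finset.mem_univ _)
    (fun z _ => ha z)
  · intro z _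
    rw [h]
    exact (by decide : ∀ a : ZMod 2, a + a = 0) _
  · intro z _ _
    exact ha' z

namespace FMap

variable {Φ : Type*} (M : FMap Φ)

theorem rE_a0 (x : Φ) : M.rE x (M.a0 x) := gen_step (Or.inl rfl) x
theorem rE_a2 (x : Φ) : M.rE x (M.a2 x) := gen_step (Or.inr rfl) x

theorem rE_iff (x y : Φ) : M.rE x y ↔ (y = x ∨ y = M.a2 x ∨ y = M.a0 x ∨ y = M.a0 (M.a2 x)) := by
  constructor
  · intro h
    refine gen_closed (F := {M.a0, M.a2}) (P := fun y =>
      y = x ∨ y = M.a2 x ∨ y = M.a0 x ∨ y = M.a0 (M.a2 x)) ?_ ?_ h (Or.inl rfl)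
    · rintro f (rfl | rfl)
      · exact M.i0
      · exact M.i2
    · rintro f (rfl | rfl) z (rfl | rfl | rfl | rfl)
      · simp
      · simp
      · simp [M.i0 _]
      · simp [M.i0 _]
      · simp
      · simp [M.i2 _]
      · simp [M.comm _]
      · simp [M.comm _, M.i2 _]
  · rintro (rfl | rfl | rfl | rfl)
    · exact Setoid.refl' _ _
    · exact M.rE_a2 _
    · exact M.rE_a0 _
    · exact Setoid.trans' _ (M.rE_a2 _) (M.rE_a0 _)

/-- the four flags of an edge -/
def edF [DecidableEq Φ] (x : Φ) : Finset Φ := {x, M.a2 x, M.a0 x, M.a0 (M.a2 x)}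

theorem sum_edF [DecidableEq Φ] {α : Type*} [AddCommMonoid α] (x : Φ) (f : Φ → α) :
    ∑ z ∈ M.edF x, f z = f x + (f (M.a2 x) + (f (M.a0 x) + f (M.a0 (M.a2 x)))) := by
  unfold edF
  rw [Finset.sum_insert, Finset.sum_insert, Finset.sum_pair]
  · exact fun h => M.f2 _ (M.i0.injective h).symm
  · rw [Finset.mem_insert, Finset.mem_singleton]
    rintro (h | h)
    · exact M.f02 _ h.symm
    · exact M.f0 _ h.symm
  · rw [Finset.mem_insert, Finset.mem_insert, Finset.mem_singleton]
    rintro (h | h | h)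
    · exact M.f2 _ h.symm
    · exact M.f0 _ h.symm
    · have h' := congrArg M.a0 h
      rw [M.i0] at h'
      exact M.f02 _ h'

theorem four_nE [Finite Φ] : 4 * M.nE = Nat.card Φ := by
  classical
  apply mul_nc_eq
  intro x
  have h1 : ∀ y, M.rE x y ↔ y ∈ M.edF x := by
    intro y
    rw [M.rE_iff]
    simp [edF]
  rw [Nat.card_congr (Equiv.subtypeEquivRight h1), Nat.card_eq_fintype_card, Fintype.card_coe,
    Finset.card_eq_sum_ones, M.sum_edF]
  rfl

end FMap

namespace LMap

variable {W : Type*} {G : SimpleGraph W} {Φ : Type} [DecidableEq Φ] [Fintype Φ]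
  {M : LMap G Φ} {X : ℤ}

omit [DecidableEq Φ] [Fintype Φ] in
theorem IsD.rV {x y : Φ} (h : M.IsD x) (hxy : M.rV x y) : M.IsD y := by
  obtain ⟨h1, w, u, h2, h3, ⟨z1, h4, h4'⟩, ⟨z2, h5, h5'⟩, h6⟩ := h
  refine ⟨?_, w, u, h2, fun z hz => h3 z (Setoid.trans' _ hxy hz),
    ⟨z1, Setoid.trans' _ (Setoid.symm' _ hxy) h4, h4'⟩,
    ⟨z2, Setoid.trans' _ (Setoid.symm' _ hxy) h5, h5'⟩,
    fun z hz => h6 z (Setoid.trans' _ hxy hz)⟩
  intro h
  rw [← M.lab_rV hxy] at h
  exact h1 (Setoid.trans' _ hxy h)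

/-- the class of a flag: its vertex -/
abbrev VT (M : LMap G Φ) : Type := Quotient M.rV
abbrev mV (M : LMap G Φ) (x : Φ) : M.VT := Quotient.mk M.rV x
abbrev ET (M : LMap G Φ) : Type := Quotient M.rE
abbrev mE (M : LMap G Φ) (x : Φ) : M.ET := Quotient.mk M.rE x

omit [DecidableEq Φ] [Fintype Φ] in
theorem mV_eq {x y : Φ} : M.mV x = M.mV y ↔ M.rV x y := Quotient.eq

/-- the index set -/
def PI (M : LMap G Φ) (ord : W → ℕ) (i : M.VT × W) : Prop :=
  (∃ x, M.mV x = i.1 ∧ M.lab (M.a0 x) = i.2) ∧ ¬ ∃ v, i.1 = M.mV (M.s v) ∧ ord v < ord i.2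

open Classical in
/-- incidence -/
noncomputable def inc (M : LMap G Φ) (e : M.ET) (i : M.VT × W) : ZMod 2 :=
  if ∃ x, M.mE x = e ∧ M.mV x = i.1 ∧ M.lab (M.a0 x) = i.2 then 1 else 0

open Classical in
omit [DecidableEq Φ] in
theorem inc_eq (hU : M.Useful) (x : Φ) (i : M.VT × W) :
    M.inc (M.mE x) i = (if i = (M.mV x, M.lab (M.a0 x)) then 1 else 0) +
      (if i = (M.mV (M.a0 x), M.lab x) then 1 else 0) := by
  have hne : M.mV x ≠ M.mV (M.a0 x) := fun h => hU.no_loop x (mV_eq.1 h)
  unfold inc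
  have key : (∃ z, M.mE z = M.mE x ∧ M.mV z = i.1 ∧ M.lab (M.a0 z) = i.2) ↔
      (i = (M.mV x, M.lab (M.a0 x)) ∨ i = (M.mV (M.a0 x), M.lab x)) := by
    constructor
    · rintro ⟨z, h1, h2, h3⟩
      have h4 : M.rE x z := Setoid.symm' _ (Quotient.exact h1)
      rw [M.rE_iff] at h4
      rcases h4 with rfl | rfl | rfl | rfl
      · left; exact Prod.ext h2.symm h3.symm
      · left
        refine Prod.ext ?_ ?_
        · rw [← h2]; exact mV_eq.2 (Setoid.symm' _ (M.rV_a2 _))
        · rw [← h3]; exact M.lab_rV (M.rV_a0a2 _)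
      · right
        refine Prod.ext h2.symm ?_
        rw [← h3, M.i0]
      · right
        refine Prod.ext ?_ ?_
        · rw [← h2]; exact mV_eq.2 (M.rV_a0a2 _)
        · rw [← h3, M.i0, M.lab2]
    · rintro (rfl | rfl)
      · exact ⟨x, rfl, rfl, rfl⟩
      · refine ⟨M.a0 x, ?_, rfl, ?_⟩
        · exact Quotient.sound (Setoid.symm' _ (M.rE_a0 x))
        · change M.lab (M.a0 (M.a0 x)) = M.lab x
          rw [M.i0]
  rw [if_congr key rfl rfl]
  by_cases h1 : i = (M.mV x, M.lab (M.a0 x))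
  · have h2 : ¬ i = (M.mV (M.a0 x), M.lab x) := by
      rw [h1]; intro h; exact hne (congrArg Prod.fst h)
    rw [if_pos (Or.inl h1), if_pos h1, if_neg h2, add_zero]
  · by_cases h2 : i = (M.mV (M.a0 x), M.lab x)
    · rw [if_pos (Or.inr h2), if_neg h1, if_pos h2, zero_add]
    · rw [if_neg (not_or.2 ⟨h1, h2⟩), if_neg h1, if_neg h2, add_zero]

section T

variable (M) (ord : W → ℕ)

open Classical in
/-- the boundary map -/
noncomputable def T : (M.ET → ZMod 2) →ₗ[ZMod 2] ({i // M.PI ord i} → ZMod 2) where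
  toFun h j := ∑ e, h e * M.inc e j.1
  map_add' h h' := by
    funext j
    simp only [Pi.add_apply, add_mul, Finset.sum_add_distrib]
  map_smul' c h := by
    funext j
    simp only [Pi.smul_apply, smul_eq_mul, RingHom.id_apply, Finset.mul_sum, mul_assoc]

open Classical in
/-- unit vectors (zero for indices outside the index set) -/
noncomputable def ev (i : M.VT × W) : {i // M.PI ord i} → ZMod 2 := fun j => if j.1 = i then 1 else 0

variable {M ord}

omit [DecidableEq Φ] in
theorem ev_add_mem (hU : M.Useful) (x : Φ) :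
    M.ev ord (M.mV x, M.lab (M.a0 x)) + M.ev ord (M.mV (M.a0 x), M.lab x) ∈
      LinearMap.range (M.T ord) := by
  classical
  refine ⟨Pi.single (M.mE x) 1, ?_⟩
  funext j
  change ∑ e, (Pi.single (M.mE x) (1 : ZMod 2) : M.ET → ZMod 2) e * M.inc e j.1 = _
  rw [Finset.sum_eq_single (M.mE x)]
  · rw [Pi.single_eq_same, one_mul, inc_eq hU]
    simp only [ev, Pi.add_apply]
  · intro e _ he
    rw [Pi.single_eq_of_ne he, zero_mul]
  · intro h; exact absurd (Finset.mem_univ _) h

omit [DecidableEq Φ] in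
theorem ev_mem (hU : M.Useful) {p q : W} (hpq : G.Adj p q) (ho : ord p < ord q) {z : Φ}
    (hz : M.lk (fun x => M.lab x = p ∨ M.lab x = q) (M.s p) z) :
    (M.lab z = p → M.ev ord (M.mV z, q) ∈ LinearMap.range (M.T ord)) ∧
    (M.lab z = q → M.ev ord (M.mV z, p) ∈ LinearMap.range (M.T ord)) := by
  classical
  refine M.lk_closed (K := fun x => M.lab x = p ∨ M.lab x = q)
    (P := fun z => (M.lab z = p → M.ev ord (M.mV z, q) ∈ LinearMap.range (M.T ord)) ∧
    (M.lab z = q → M.ev ord (M.mV z, p) ∈ LinearMap.range (M.T ord))) ?_ ?_ hz ?_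
  · intro x y hxy hx
    rw [← M.lab_rV hxy, ← mV_eq.2 hxy]
    exact hx
  · rintro x ⟨h1, h2⟩ hK hK'
    have hadd := ev_add_mem (ord := ord) hU x
    have hne : M.lab x ≠ M.lab (M.a0 x) := (hU x).1.ne
    constructor
    · intro h3
      have h4 : M.lab x = q := by
        rcases hK with k | k
        · exact absurd (k.trans h3.symm) hne
        · exact k
      have h5 := h2 h4
      rw [h3, h4] at hadd
      exact (Submodule.add_mem_iff_right _ h5).1 hadd
    · intro h3
      have h4 : M.lab x = p := by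
        rcases hK with k | k
        · exact k
        · exact absurd (k.trans h3.symm) hne
      have h5 := h1 h4
      rw [h3, h4] at hadd
      exact (Submodule.add_mem_iff_right _ h5).1 hadd
  · constructor
    · intro _
      have : M.ev ord (M.mV (M.s p), q) = 0 := by
        funext j
        unfold ev
        rw [if_neg]
        · rfl
        · intro h
          apply j.2.2
          rw [h]
          exact ⟨p, rfl, ho⟩
      rw [this]; exact Submodule.zero_mem _
    · intro h
      rw [M.lab_s] at h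
      exact absurd h hpq.ne

omit [DecidableEq Φ] in
theorem range_T (hU : M.Useful) [Finite W] (hord : Function.Injective ord) :
    LinearMap.range (M.T ord) = ⊤ := by
  classical
  have := Fintype.ofFinite W
  have hsingle : ∀ j : {i // M.PI ord i}, (Pi.single j 1 : {i // M.PI ord i} → ZMod 2) ∈
      LinearMap.range (M.T ord) := by
    intro j
    have h1 : (Pi.single j 1 : {i // M.PI ord i} → ZMod 2) = M.ev ord j.1 := by
      funext k
      unfold ev
      by_cases h : k = j
      · subst h; rw [Pi.single_eq_same, if_pos rfl]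
      · rw [Pi.single_eq_of_ne h, if_neg (fun h' => h (Subtype.ext h'))]
    rw [h1]
    obtain ⟨⟨y, q⟩, hj⟩ := j
    obtain ⟨⟨x, hx1, hx2⟩, -⟩ := id hj
    simp only at hx1 hx2 ⊢
    subst hx1 hx2
    have hus := hU x
    rcases lt_trichotomy (ord (M.lab x)) (ord (M.lab (M.a0 x))) with ho | ho | ho
    · exact (ev_mem hU hus.1 ho hus.2).1 rfl
    · exact absurd (hord ho) hus.1.ne
    · refine (ev_mem hU hus.1.symm ho ?_).2 rfl
      have h2 : M.lk (fun z => M.lab z = M.lab (M.a0 x) ∨ M.lab z = M.lab x)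
          (M.s (M.lab x)) x := M.lk_mono (fun z hz => hz.symm) hus.2
      exact Setoid.trans' _ (M.link _ _ hus.1.symm) h2
  rw [Submodule.eq_top_iff']
  intro f
  have : f = ∑ j, f j • (Pi.single j 1 : {i // M.PI ord i} → ZMod 2) := by
    funext k
    rw [Finset.sum_apply]
    simp only [Pi.smul_apply, smul_eq_mul, Pi.single_apply, mul_ite, mul_one, mul_zero]
    rw [Finset.sum_ite_eq]
    simp
  rw [this]
  exact Submodule.sum_mem _ (fun j _ => Submodule.smul_mem _ _ (hsingle j))

end T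

section kernel

open Classical in
/-- the chain of triangles at the vertex `c` -/
noncomputable def gF (M : LMap G Φ) (c : M.VT) (z : Φ) : ZMod 2 :=
  if M.Tri z ∧ (M.mV z = c ∨ M.mV (M.a0 z) = c ∨ M.mV (M.a0 (M.a1 z)) = c) then 1 else 0

omit [DecidableEq Φ] [Fintype Φ] in
theorem gF_a1 (c : M.VT) (z : Φ) : M.gF c (M.a1 z) = M.gF c z := by
  classical
  unfold gF
  have h1 : M.mV (M.a1 z) = M.mV z := mV_eq.2 (Setoid.symm' _ (M.rV_a1 z))
  rw [h1, M.i1, FMap.tri_a1_iff]
  refine if_congr ?_ rfl rfl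
  constructor
  · rintro ⟨h, h' | h' | h'⟩
    · exact ⟨h, Or.inl h'⟩
    · exact ⟨h, Or.inr (Or.inr h')⟩
    · exact ⟨h, Or.inr (Or.inl h')⟩
  · rintro ⟨h, h' | h' | h'⟩
    · exact ⟨h, Or.inl h'⟩
    · exact ⟨h, Or.inr (Or.inr h')⟩
    · exact ⟨h, Or.inr (Or.inl h')⟩

omit [DecidableEq Φ] [Fintype Φ] in
theorem gF_a0 (c : M.VT) (z : Φ) : M.gF c (M.a0 z) = M.gF c z := by
  classical
  unfold gF
  rw [M.i0, FMap.tri_a0_iff]
  refine if_congr ?_ rfl rfl
  constructor
  · rintro ⟨h, h' | h' | h'⟩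
    · exact ⟨h, Or.inr (Or.inl h')⟩
    · exact ⟨h, Or.inl h'⟩
    · rw [mV_eq.2 h.third] at h'
      exact ⟨h, Or.inr (Or.inr h')⟩
  · rintro ⟨h, h' | h' | h'⟩
    · exact ⟨h, Or.inr (Or.inl h')⟩
    · exact ⟨h, Or.inl h'⟩
    · rw [← mV_eq.2 h.third] at h'
      exact ⟨h, Or.inr (Or.inr h')⟩

/-- the boundary of the chain -/
noncomputable def bd (M : LMap G Φ) (c : M.VT) : M.ET → ZMod 2 :=
  Quotient.lift (fun x => M.gF c x + M.gF c (M.a2 x)) (by
    intro x y hxy
    have h : M.rE x y := hxy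
    rw [M.rE_iff] at h
    rcases h with rfl | rfl | rfl | rfl
    · rfl
    · rw [M.i2, add_comm]
    · rw [← M.comm, gF_a0, gF_a0]
    · rw [← M.comm, M.i2, gF_a0, gF_a0, add_comm])

open Classical in
omit [DecidableEq Φ] in
theorem sum_bd (hU : M.Useful) (c : M.VT) (i : M.VT × W) :
    ∑ e, M.bd c e * M.inc e i =
      ∑ z, if M.mV z = i.1 ∧ M.lab (M.a0 z) = i.2 then M.gF c z else 0 := by
  rw [← Finset.sum_fiberwise (s := Finset.univ) (g := M.mE)
    (f := fun z => if M.mV z = i.1 ∧ M.lab (M.a0 z) = i.2 then M.gF c z else 0)]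
  apply Finset.sum_congr rfl
  intro e _
  induction e using Quotient.inductionOn with | _ x => ?_
  have h1 : Finset.univ.filter (fun z => M.mE z = Quotient.mk M.rE x) = M.edF x := by
    ext z
    simp only [Finset.mem_filter, Finset.mem_univ, true_and]
    rw [Quotient.eq, Setoid.comm', M.rE_iff]
    simp [FMap.edF]
  rw [h1, M.sum_edF]
  have h2 : M.bd c (Quotient.mk M.rE x) = M.gF c x + M.gF c (M.a2 x) := rfl
  have e1 : M.mV (M.a2 x) = M.mV x := mV_eq.2 (Setoid.symm' _ (M.rV_a2 x))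
  have e2 : M.lab (M.a0 (M.a2 x)) = M.lab (M.a0 x) := M.lab_rV (M.rV_a0a2 x)
  have e3 : M.mV (M.a0 (M.a2 x)) = M.mV (M.a0 x) := mV_eq.2 (M.rV_a0a2 x)
  have h3 := inc_eq hU x i
  have h4 : M.inc (Quotient.mk M.rE x) i = M.inc (M.mE x) i := rfl
  rw [h2, h4, h3, e1, e2, e3, M.i0, M.i0, gF_a0, gF_a0, M.lab2]
  have k1 : (i = (M.mV x, M.lab (M.a0 x))) ↔ (M.mV x = i.1 ∧ M.lab (M.a0 x) = i.2) := by
    constructor
    · rintro rfl; exact ⟨rfl, rfl⟩
    · rintro ⟨h, h'⟩; exact Prod.ext h.symm h'.symm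
  have k2 : (i = (M.mV (M.a0 x), M.lab x)) ↔ (M.mV (M.a0 x) = i.1 ∧ M.lab x = i.2) := by
    constructor
    · rintro rfl; exact ⟨rfl, rfl⟩
    · rintro ⟨h, h'⟩; exact Prod.ext h.symm h'.symm
  rw [if_congr k1 rfl rfl, if_congr k2 rfl rfl]
  by_cases c1 : M.mV x = i.1 ∧ M.lab (M.a0 x) = i.2 <;>
  by_cases c2 : M.mV (M.a0 x) = i.1 ∧ M.lab x = i.2 <;>
  simp only [c1, c2, if_true, if_false, and_self] <;> ring

open Classical in
/-- the chains are cycles -/
theorem T_bd (hM : IsMax X M) (ord : W → ℕ) {x0 : Φ} (hD : M.IsD x0) :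
    M.T ord (M.bd (M.mV x0)) = 0 := by
  have hU := hM.2.1
  have hface : ∀ z, M.lab (M.a0 z) = M.lab (M.a0 (M.a1 z)) → M.mV (M.a0 z) = M.mV (M.a0 (M.a1 z)) :=
    fun z hl => mV_eq.2 (hM.1.face (FMap.rF_nbrs (M := M.toFMap) z) hl)
  have hV1 : ∀ z, M.mV (M.a1 z) = M.mV z := fun z => mV_eq.2 (Setoid.symm' _ (M.rV_a1 z))
  have hV2 : ∀ z, M.mV (M.a2 z) = M.mV z := fun z => mV_eq.2 (Setoid.symm' _ (M.rV_a2 z))
  have hV02 : ∀ z, M.mV (M.a0 (M.a2 z)) = M.mV (M.a0 z) := fun z => mV_eq.2 (M.rV_a0a2 z)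
  have hl02 : ∀ z, M.lab (M.a0 (M.a2 z)) = M.lab (M.a0 z) := fun z => M.lab_rV (M.rV_a0a2 z)
  obtain ⟨hx0, w, u, hwu, hall, -, -, htr⟩ := hD
  set c := M.mV x0 with hc
  have hcl : ∀ z, M.mV z = c → M.lab z = M.lab x0 := fun z hz => M.lab_rV (mV_eq.1 hz)
  have htr' : ∀ z, M.mV z = c → (M.Tri z ↔ M.lab (M.a0 z) ≠ M.lab (M.a0 (M.a1 z))) :=
    fun z hz => htr z (Setoid.symm' _ (mV_eq.1 hz))
  have hall' : ∀ z, M.mV z = c → M.lab (M.a0 z) = w ∨ M.lab (M.a0 z) = u :=
    fun z hz => hall z (Setoid.symm' _ (mV_eq.1 hz))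
  have hadj : ∀ z, M.lab (M.a0 z) ≠ M.lab z := fun z => (hU z).1.ne'
  funext j
  change ∑ e, M.bd c e * M.inc e j.1 = 0
  rw [sum_bd hU]
  obtain ⟨⟨y, q⟩, hj⟩ := j
  change ∑ z, (if M.mV z = y ∧ M.lab (M.a0 z) = q then M.gF c z else 0) = 0
  by_cases hyc : y = c
  · -- the vertex itself
    have e1 : ∀ z, (if M.mV z = y ∧ M.lab (M.a0 z) = q then M.gF c z else 0) =
        (if M.mV z = c ∧ M.lab (M.a0 z) = q then (1 : ZMod 2) else 0) +
        (if M.mV z = c ∧ M.lab (M.a0 z) = q ∧ M.lab (M.a0 (M.a1 z)) = q then (1 : ZMod 2) else 0) := by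
      intro z
      rw [hyc]
      by_cases h1 : M.mV z = c ∧ M.lab (M.a0 z) = q
      · rw [if_pos h1, if_pos h1]
        unfold gF
        by_cases h2 : M.lab (M.a0 (M.a1 z)) = q
        · rw [if_neg, if_pos ⟨h1.1, h1.2, h2⟩]
          · decide
          · rintro ⟨h3, -⟩
            exact (htr' z h1.1).1 h3 (h1.2.trans h2.symm)
        · rw [if_pos, if_neg, add_zero]
          · exact fun h => h2 h.2.2
          · exact ⟨(htr' z h1.1).2 (fun h => h2 (h.symm.trans h1.2)), Or.inl h1.1⟩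
      · rw [if_neg h1, if_neg h1, if_neg (fun h => h1 ⟨h.1, h.2.1⟩), add_zero]
    rw [Finset.sum_congr rfl (fun z _ => e1 z), Finset.sum_add_distrib,
      sum_invol _ M.a2 M.i2 M.f2, sum_invol _ M.a1 M.i1 M.f1, add_zero]
    · intro z
      rw [hV1, M.i1]
      refine if_congr ?_ rfl rfl
      tauto
    · intro z
      rw [hV2, hl02]
  · -- other vertices
    set r : Φ → ZMod 2 := fun z => if M.mV z = y ∧ M.mV (M.a0 z) = c ∧ M.Tri z then 1 else 0 with hr
    have hr0 : ∑ z, r z = 0 := by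
      have e0 : ∑ z, r z = ∑ z, r (M.a0 z) :=
        (Equiv.sum_comp (M.i0.toPerm) r).symm
      have e1 : ∀ z, r (M.a0 z) = (if M.mV z = c ∧ M.mV (M.a0 z) = y then (1 : ZMod 2) else 0) +
          (if M.mV z = c ∧ M.mV (M.a0 z) = y ∧ M.mV (M.a0 (M.a1 z)) = y then (1 : ZMod 2) else 0) := by
        intro z
        simp only [hr, M.i0 z, FMap.tri_a0_iff]
        by_cases h1 : M.mV z = c ∧ M.mV (M.a0 z) = y
        · rw [if_pos h1]
          by_cases h2 : M.mV (M.a0 (M.a1 z)) = y
          · rw [if_neg, if_pos ⟨h1.1, h1.2, h2⟩]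
            · decide
            · rintro ⟨-, -, h3⟩
              exact (htr' z h1.1).1 h3 (M.lab_rV (mV_eq.1 (h1.2.trans h2.symm)))
          · rw [if_pos, if_neg (fun h => h2 h.2.2), add_zero]
            refine ⟨h1.2, h1.1, (htr' z h1.1).2 fun h => h2 ?_⟩
            rw [← hface z h]; exact h1.2
        · rw [if_neg (fun h => h1 ⟨h.2.1, h.1⟩), if_neg h1, if_neg (fun h => h1 ⟨h.1, h.2.1⟩),
            add_zero]
      rw [e0, Finset.sum_congr rfl (fun z _ => e1 z), Finset.sum_add_distrib,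
        sum_invol _ M.a2 M.i2 M.f2, sum_invol _ M.a1 M.i1 M.f1, add_zero]
      · intro z
        rw [hV1, M.i1]
        refine if_congr ?_ rfl rfl
        tauto
      · intro z
        rw [hV2, hV02]
    by_cases hq : q = M.lab x0
    · -- label of `c`
      have e1 : ∀ z, (if M.mV z = y ∧ M.lab (M.a0 z) = q then M.gF c z else 0) = r z := by
        intro z
        simp only [hr, gF]
        by_cases h1 : M.mV z = y ∧ M.lab (M.a0 z) = q
        · rw [if_pos h1]
          refine if_congr ?_ rfl rfl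
          constructor
          · rintro ⟨h2, h3 | h3 | h3⟩
            · exact absurd (h1.1.symm.trans h3) hyc
            · exact ⟨h1.1, h3, h2⟩
            · exfalso
              have h4 := hcl _ h3
              exact (hU.tri_lab h2).ne (h1.2.trans (hq.trans h4.symm))
          · rintro ⟨-, h3, h2⟩
            exact ⟨h2, Or.inr (Or.inl h3)⟩
        · rw [if_neg h1, if_neg]
          rintro ⟨h2, h3, -⟩
          exact h1 ⟨h2, (hcl _ h3).trans hq.symm⟩
      rw [Finset.sum_congr rfl (fun z _ => e1 z), hr0]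
    · -- the third label
      have e0 : ∑ z, (if M.mV z = y ∧ M.lab (M.a0 z) = q then M.gF c z else 0) =
          ∑ z, (if M.mV z = y ∧ M.lab (M.a0 (M.a1 z)) = q then M.gF c z else 0) := by
        rw [← Equiv.sum_comp (M.i1.toPerm)]
        apply Finset.sum_congr rfl
        intro z _
        simp only [Function.Involutive.coe_toPerm, hV1, gF_a1]
      have e1 : ∀ z, (if M.mV z = y ∧ M.lab (M.a0 (M.a1 z)) = q then M.gF c z else 0) =
          (if M.lab (M.a0 (M.a1 z)) = q then r z else 0) := by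
        intro z
        simp only [hr, gF]
        by_cases h1 : M.lab (M.a0 (M.a1 z)) = q
        · by_cases h2 : M.mV z = y
          · rw [if_pos ⟨h2, h1⟩, if_pos h1]
            refine if_congr ?_ rfl rfl
            constructor
            · rintro ⟨h3, h4 | h4 | h4⟩
              · exact absurd (h2.symm.trans h4) hyc
              · exact ⟨h2, h4, h3⟩
              · exact absurd (h1.symm.trans (hcl _ h4)) hq
            · rintro ⟨-, h4, h3⟩; exact ⟨h3, Or.inr (Or.inl h4)⟩
          · rw [if_neg (fun h => h2 h.1), if_pos h1, if_neg (fun h => h2 h.1)]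
        · rw [if_neg (fun h => h1 h.2), if_neg h1]
      rw [e0, Finset.sum_congr rfl (fun z _ => e1 z)]
      -- the third label is determined by `y`
      by_cases hex : ∃ z, r z ≠ 0 ∧ M.lab (M.a0 (M.a1 z)) = q
      · obtain ⟨z0, hz0, hz0'⟩ := hex
        have hconst : ∀ z, r z ≠ 0 → M.lab (M.a0 (M.a1 z)) = q := by
          have hthird : ∀ z, r z ≠ 0 → (M.lab (M.a0 (M.a1 z)) = w ∨ M.lab (M.a0 (M.a1 z)) = u) ∧
              (M.lab z = w ∨ M.lab z = u) ∧ M.lab (M.a0 (M.a1 z)) ≠ M.lab z ∧ M.mV z = y := by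
            intro z hz
            have h1 : M.mV z = y ∧ M.mV (M.a0 z) = c ∧ M.Tri z := by
              by_contra h; exact hz (if_neg h)
            obtain ⟨h1, h2, h3⟩ := h1
            have h4 := hall' (M.a0 z) h2
            have h5 := hall' (M.a1 (M.a0 z)) (by rw [hV1]; exact h2)
            rw [M.i0] at h4
            rw [M.lab_rV h3.third] at h5
            refine ⟨h5, h4, ?_, h1⟩
            have h6 := hadj (M.a1 z)
            rwa [M.lab1] at h6
          intro z hz
          obtain ⟨a1, a2, a3, a4⟩ := hthird z hz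
          obtain ⟨b1, b2, b3, b4⟩ := hthird z0 hz0
          have hl : M.lab z = M.lab z0 := M.lab_rV (mV_eq.1 (a4.trans b4.symm))
          rw [← hz0']
          rcases a1 with a1 | a1 <;> rcases a2 with a2 | a2 <;> rcases b1 with b1 | b1
          · rw [a1, b1]
          · exact absurd (a1.trans a2.symm) a3
          · rw [a1, b1]
          · exact absurd (b1.trans (a2.symm.trans hl)) b3
          · exact absurd (b1.trans (a2.symm.trans hl)) b3
          · rw [a1, b1]
          · exact absurd (a1.trans a2.symm) a3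
          · rw [a1, b1]
        have e2 : ∀ z, (if M.lab (M.a0 (M.a1 z)) = q then r z else 0) = r z := by
          intro z
          by_cases hz : r z = 0
          · rw [hz]; simp
          · rw [if_pos (hconst z hz)]
        rw [Finset.sum_congr rfl (fun z _ => e2 z), hr0]
      · push Not at hex
        apply Finset.sum_eq_zero
        intro z _
        by_cases h1 : M.lab (M.a0 (M.a1 z)) = q
        · rw [if_pos h1]
          by_contra h2
          exact hex z h2 h1
        · rw [if_neg h1]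

/-- vertices of type `D` -/
def DV (M : LMap G Φ) (c : M.VT) : Prop := ∃ x, M.mV x = c ∧ M.IsD x

open Classical in
theorem bd_indep (hM : IsMax X M) :
    LinearIndependent (ZMod 2) (fun c : {c // M.DV c} => M.bd c.1) := by
  have hU := hM.2.1
  rw [Fintype.linearIndependent_iff]
  intro cf hcf
  set h : Φ → ZMod 2 := fun z => if hz : M.DV (M.mV z) then cf ⟨M.mV z, hz⟩ else 0 with hh
  set g : Φ → ZMod 2 := fun z => ∑ c : {c // M.DV c}, cf c * M.gF c.1 z with hg
  have hV : ∀ x y, M.rV x y → h x = h y := by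
    intro x y hxy
    simp only [hh]
    have : M.mV x = M.mV y := mV_eq.2 hxy
    by_cases h1 : M.DV (M.mV x)
    · have h2 : M.DV (M.mV y) := this ▸ h1
      rw [dif_pos h1, dif_pos h2]
      congr 1
      exact Subtype.ext this
    · have h2 : ¬ M.DV (M.mV y) := this ▸ h1
      rw [dif_neg h1, dif_neg h2]
  have hD : ∀ x, h x ≠ 0 → M.IsD x := by
    intro x hx
    have h1 : M.DV (M.mV x) := by
      by_contra h2; exact hx (dif_neg h2)
    obtain ⟨y, hy, hy'⟩ := h1
    exact hy'.rV (mV_eq.1 hy)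
  -- `g` is constant
  have g0 : ∀ z, g (M.a0 z) = g z := fun z => by simp only [hg, gF_a0]
  have g1 : ∀ z, g (M.a1 z) = g z := fun z => by simp only [hg, gF_a1]
  have g2 : ∀ z, g (M.a2 z) = g z := by
    intro z
    have h1 := congrFun hcf (M.mE z)
    simp only [Finset.sum_apply, Pi.smul_apply, smul_eq_mul, Pi.zero_apply] at h1
    have h2 : ∀ c : {c // M.DV c}, cf c * M.bd c.1 (M.mE z) =
        cf c * M.gF c.1 z + cf c * M.gF c.1 (M.a2 z) := by
      intro c
      have : M.bd c.1 (M.mE z) = M.gF c.1 z + M.gF c.1 (M.a2 z) := rfl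
      rw [this, mul_add]
    rw [Finset.sum_congr rfl (fun c _ => h2 c), Finset.sum_add_distrib] at h1
    have h3 : g z + g (M.a2 z) = 0 := h1
    revert h3
    generalize g z = a
    generalize g (M.a2 z) = b
    revert a b; decide
  have gconst : ∀ z z', M.rC z z' → g z = g z' := by
    intro z z' hzz'
    refine gen_eq ?_ hzz'
    rintro f (rfl | rfl | rfl) x
    · exact g1 x
    · exact g0 x
    · exact g2 x
  have hsel : ∀ v : M.VT, ∀ z, M.mV z = v →
      ∑ c : {c // M.DV c}, cf c * (if c.1 = v then 1 else 0) = h z := by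
    rintro v z rfl
    simp only [hh]
    by_cases h1 : M.DV (M.mV z)
    · rw [dif_pos h1, Finset.sum_eq_single ⟨M.mV z, h1⟩]
      · simp
      · intro c _ hc
        rw [if_neg (fun h => hc (Subtype.ext h)), mul_zero]
      · intro h; exact absurd (Finset.mem_univ _) h
    · rw [dif_neg h1]
      apply Finset.sum_eq_zero
      intro c _
      rw [if_neg, mul_zero]
      intro h2
      exact h1 (h2 ▸ c.2)
  have htri : ∀ z, M.Tri z → h z + h (M.a0 z) + h (M.a0 (M.a1 z)) = g z := by
    intro z hz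
    rw [← hsel _ z rfl, ← hsel _ (M.a0 z) rfl, ← hsel _ (M.a0 (M.a1 z)) rfl,
      ← Finset.sum_add_distrib, ← Finset.sum_add_distrib]
    apply Finset.sum_congr rfl
    intro c _
    rw [← mul_add, ← mul_add]
    congr 1
    unfold gF
    have n1 : M.mV z ≠ M.mV (M.a0 z) := fun h => hU.no_loop z (mV_eq.1 h)
    have n2 : M.mV z ≠ M.mV (M.a0 (M.a1 z)) := fun h =>
      hU.no_loop (M.a1 z) (Setoid.trans' _ (Setoid.symm' _ (M.rV_a1 z)) (mV_eq.1 h))
    have n3 : M.mV (M.a0 z) ≠ M.mV (M.a0 (M.a1 z)) := fun h =>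
      (hU.tri_lab hz).ne (M.lab_rV (mV_eq.1 h))
    by_cases c1 : c.1 = M.mV z
    · rw [if_pos c1, if_neg (fun h => n1 (c1.symm.trans h)), if_neg (fun h => n2 (c1.symm.trans h)),
        if_pos ⟨hz, Or.inl c1.symm⟩]
      rfl
    · by_cases c2 : c.1 = M.mV (M.a0 z)
      · rw [if_neg c1, if_pos c2, if_neg (fun h => n3 (c2.symm.trans h)),
          if_pos ⟨hz, Or.inr (Or.inl c2.symm)⟩]
        rfl
      · by_cases c3 : c.1 = M.mV (M.a0 (M.a1 z))
        · rw [if_neg c1, if_neg c2, if_pos c3, if_pos ⟨hz, Or.inr (Or.inr c3.symm)⟩]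
          rfl
        · rw [if_neg c1, if_neg c2, if_neg c3, if_neg]
          · rfl
          · rintro ⟨-, h | h | h⟩
            · exact c1 h.symm
            · exact c2 h.symm
            · exact c3 h.symm
  have hntri : ∀ z, ¬ M.Tri z → g z = 0 := by
    intro z hz
    simp only [hg]
    apply Finset.sum_eq_zero
    intro c _
    unfold gF
    rw [if_neg (fun h => hz h.1), mul_zero]
  have hzero := hM.indep h hV hD g gconst htri hntri
  rintro ⟨c, hc⟩
  induction c using Quotient.inductionOn with | _ x => ?_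
  have h1 := hzero x
  simp only [hh] at h1
  rw [dif_pos hc] at h1
  exact h1

open Classical in
/-- The rank count. -/
theorem IsMax.rank_count (hM : IsMax X M) [Finite W] (ord : W → ℕ)
    (hord : Function.Injective ord) :
    Nat.card {i // M.PI ord i} + Nat.card {c // M.DV c} ≤ M.nE := by
  have := Fintype.ofFinite W
  have h1 := LinearMap.finrank_range_add_finrank_ker (M.T ord)
  rw [range_T hM.2.1 hord, finrank_top, Module.finrank_fintype_fun_eq_card,
    Module.finrank_fintype_fun_eq_card] at h1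
  have h2 : Fintype.card {c // M.DV c} ≤ Module.finrank (ZMod 2) (LinearMap.ker (M.T ord)) := by
    let v : {c // M.DV c} → LinearMap.ker (M.T ord) := fun c => ⟨M.bd c.1, by
      obtain ⟨x, hx, hD⟩ := c.2
      rw [LinearMap.mem_ker, ← hx]
      exact T_bd hM ord hD⟩
    have hv : LinearIndependent (ZMod 2) v :=
      LinearIndependent.of_comp (LinearMap.ker (M.T ord)).subtype (bd_indep hM)
    exact hv.fintype_card_le_finrank
  have h3 : M.nE = Fintype.card M.ET := by
    unfold FMap.nE nc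
    rw [Nat.card_eq_fintype_card]
  rw [h3, Nat.card_eq_fintype_card, Nat.card_eq_fintype_card]
  omega

end kernel

end LMap

end Pool.Agent.Lib_helper38.Adj
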