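import Pool.Agent.Lib_helper38.Adj.Count

/-!
# Orbits of two involutions and re-pairing
-/

namespace Pool.Agent.Lib_helper38.Adj

open Relation Function

variable {Φ : Type*}

theorem gen_step {F : Set (Φ → Φ)} {f : Φ → Φ} (hf : f ∈ F) (x : Φ) : gen F x (f x) :=
  Relation.EqvGen.rel _ _ ⟨f, hf, rfl⟩

theorem gen_le {F : Set (Φ → Φ)} {r : Setoid Φ} (h : ∀ f ∈ F, ∀ x, r x (f x)) {x y : Φ}
    (hxy : gen F x y) : r x y := by
  have h' : Relation.EqvGen (fun x y => ∃ f ∈ F, y = f x) x y := hxy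
  induction h' with
  | rel x y h1 => obtain ⟨f, hf, rfl⟩ := h1; exact h f hf x
  | refl x => exact r.refl' x
  | symm x y _ ih => exact r.symm' (ih ‹_›)
  | trans x y z _ _ ih1 ih2 => exact r.trans' (ih1 ‹_›) (ih2 ‹_›)

theorem gen_mono {F G : Set (Φ → Φ)} (h : F ⊆ G) {x y : Φ} (hxy : gen F x y) : gen G x y :=
  gen_le (fun _ hf x => gen_step (h hf) x) hxy

/-- invariance of a predicate along orbits -/
theorem gen_iff {F : Set (Φ → Φ)} {P : Φ → Prop} (h : ∀ f ∈ F, ∀ x, P x ↔ P (f x)) {x y : Φ}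
    (hxy : gen F x y) : P x ↔ P y :=
  gen_le (r := { r := fun x y => P x ↔ P y
                 iseqv := ⟨fun _ => Iff.rfl, fun h => h.symm, fun h1 h2 => h1.trans h2⟩ }) h hxy

/-- closed sets, for involutions -/
theorem gen_closed {F : Set (Φ → Φ)} (hF : ∀ f ∈ F, Involutive f) {P : Φ → Prop}
    (h : ∀ f ∈ F, ∀ x, P x → P (f x)) {x y : Φ} (hxy : gen F x y) (hx : P x) : P y := by
  refine (gen_iff (P := P) ?_ hxy).1 hx
  intro f hf x
  refine ⟨h f hf x, fun h1 => ?_⟩
  have := h f hf _ h1
  rwa [hF f hf x] at this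

/-- value preserved along orbits -/
theorem gen_eq {F : Set (Φ → Φ)} {α : Type*} {g : Φ → α} (h : ∀ f ∈ F, ∀ x, g (f x) = g x)
    {x y : Φ} (hxy : gen F x y) : g x = g y :=
  gen_le (r := Setoid.ker g) (fun f hf x => (h f hf x).symm) hxy

variable [DecidableEq Φ]

/-- re-pairing of the involution `b` at the points `x` and `y`: `x` becomes the partner of `b y`
and `y` the partner of `b x`. -/
def rp (b : Φ → Φ) (x y : Φ) : Φ → Φ := fun z => Equiv.swap x y (b (Equiv.swap x y z))

section rp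

variable {b : Φ → Φ} (hb : Involutive b) (hb' : ∀ z, b z ≠ z) {x y : Φ} (hxy : y ≠ x)
  (hbx : y ≠ b x)

include hb in
theorem rp_involutive : Involutive (rp b x y) := by
  intro z
  simp only [rp, Equiv.swap_apply_self, hb _]

include hb' in
theorem rp_ne (z : Φ) : rp b x y z ≠ z := by
  intro h
  unfold rp at h
  have h2 : b (Equiv.swap x y z) = Equiv.swap x y z := by
    have := congrArg (Equiv.swap x y) h
    rwa [Equiv.swap_apply_self] at this
  exact hb' _ h2

include hb hb' hbx in
theorem rp_left : rp b x y x = b y := by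
  unfold rp
  rw [Equiv.swap_apply_left, Equiv.swap_apply_of_ne_of_ne]
  · intro h; exact hbx (by rw [← h, hb])
  · exact hb' y

omit hb in
include hb' hbx in
theorem rp_right : rp b x y y = b x := by
  unfold rp
  rw [Equiv.swap_apply_right, Equiv.swap_apply_of_ne_of_ne]
  · exact hb' x
  · exact fun h => hbx h.symm

include hb hb' hbx in
theorem rp_b_left : rp b x y (b x) = y := by
  have := rp_right hb' hbx
  rw [← this, rp_involutive hb]

include hb hb' hbx in
theorem rp_b_right : rp b x y (b y) = x := by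
  have := rp_left hb hb' hbx
  rw [← this, rp_involutive hb]

include hb in
theorem rp_other {z : Φ} (h1 : z ≠ x) (h2 : z ≠ y) (h3 : z ≠ b x) (h4 : z ≠ b y) :
    rp b x y z = b z := by
  unfold rp
  rw [Equiv.swap_apply_of_ne_of_ne h1 h2, Equiv.swap_apply_of_ne_of_ne]
  · intro h; exact h3 (by rw [← h, hb])
  · intro h; exact h4 (by rw [← h, hb])

include hb hb' hbx in
/-- case distinction for the values of `rp` -/
theorem rp_cases (z : Φ) : (z = x ∧ rp b x y z = b y) ∨ (z = y ∧ rp b x y z = b x) ∨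
    (z = b x ∧ rp b x y z = y) ∨ (z = b y ∧ rp b x y z = x) ∨
    (z ≠ x ∧ z ≠ y ∧ z ≠ b x ∧ z ≠ b y ∧ rp b x y z = b z) := by
  by_cases h1 : z = x
  · left; exact ⟨h1, by rw [h1]; exact rp_left hb hb' hbx⟩
  by_cases h2 : z = y
  · right; left; exact ⟨h2, by rw [h2]; exact rp_right hb' hbx⟩
  by_cases h3 : z = b x
  · right; right; left; exact ⟨h3, by rw [h3]; exact rp_b_left hb hb' hbx⟩
  by_cases h4 : z = b y
  · right; right; right; left; exact ⟨h4, by rw [h4]; exact rp_b_right hb hb' hbx⟩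
  · right; right; right; right; exact ⟨h1, h2, h3, h4, rp_other hb h1 h2 h3 h4⟩

end rp

/-! ### gluing -/

section glue

variable {b : Φ → Φ} (hb : Involutive b) (hb' : ∀ z, b z ≠ z) {x y : Φ}
  (hbx : y ≠ b x) (F : Set (Φ → Φ))

include hb hb' hbx in
/-- After gluing `x` and `y` the orbits do not see the re-pairing. -/
theorem gen_rp_le_glue {u w : Φ} (h : gen (insert (rp b x y) F) u w) :
    glue (gen (insert b F)) x y u w := by
  have hB : b ∈ insert b F := Set.mem_insert _ _
  have hG : ∀ p q, gen (insert b F) p q → glue (gen (insert b F)) x y p q := fun p q h => Or.inl h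
  refine gen_le (r := glue (gen (insert b F)) x y) ?_ h
  intro f hf z
  rcases hf with rfl | hf
  · rcases rp_cases hb hb' hbx z with ⟨h1, h2⟩ | ⟨h1, h2⟩ | ⟨h1, h2⟩ | ⟨h1, h2⟩ | ⟨-, -, -, -, h2⟩
    · rw [h2, h1]
      exact Or.inr (Or.inl ⟨Setoid.refl' _ _, Setoid.symm' _ (gen_step hB y)⟩)
    · rw [h2, h1]
      exact Or.inr (Or.inr ⟨Setoid.refl' _ _, Setoid.symm' _ (gen_step hB x)⟩)
    · rw [h2, h1]
      exact Or.inr (Or.inl ⟨Setoid.symm' _ (gen_step hB x), Setoid.refl' _ _⟩)
    · rw [h2, h1]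
      exact Or.inr (Or.inr ⟨Setoid.symm' _ (gen_step hB y), Setoid.refl' _ _⟩)
    · rw [h2]
      exact hG _ _ (gen_step hB z)
  · exact hG _ _ (gen_step (Set.mem_insert_of_mem _ hf) z)

include hb hb' hbx in
theorem gen_le_glue_rp {u w : Φ} (h : gen (insert b F) u w) :
    glue (gen (insert (rp b x y) F)) x y u w := by
  have hB : rp b x y ∈ insert (rp b x y) F := Set.mem_insert _ _
  refine gen_le (r := glue (gen (insert (rp b x y) F)) x y) ?_ h
  intro f hf z
  rcases hf with rfl | hf
  · rename_i f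
    rcases rp_cases hb hb' hbx z with ⟨h1, h2⟩ | ⟨h1, h2⟩ | ⟨h1, h2⟩ | ⟨h1, h2⟩ | ⟨-, -, -, -, h2⟩
    · -- z = x : b x ~ y
      rw [h1]
      refine Or.inr (Or.inl ⟨Setoid.refl' _ _, ?_⟩)
      have := gen_step hB (f x)
      rwa [rp_b_left hb hb' hbx] at this
    · rw [h1]
      refine Or.inr (Or.inr ⟨Setoid.refl' _ _, ?_⟩)
      have := gen_step hB (f y)
      rwa [rp_b_right hb hb' hbx] at this
    · rw [h1, hb]
      refine Or.inr (Or.inr ⟨?_, Setoid.refl' _ _⟩)
      have := gen_step hB (f x)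
      rwa [rp_b_left hb hb' hbx] at this
    · rw [h1, hb]
      refine Or.inr (Or.inl ⟨?_, Setoid.refl' _ _⟩)
      have := gen_step hB (f y)
      rwa [rp_b_right hb hb' hbx] at this
    · rw [← h2]
      exact Or.inl (gen_step hB z)
  · exact Or.inl (gen_step (Set.mem_insert_of_mem _ hf) z)

include hb hb' hbx in
/-- same orbit before and different after: one more class -/
theorem nc_rp_split [Finite Φ] (h1 : gen (insert b F) x y) (h2 : ¬ gen (insert (rp b x y) F) x y) :
    nc (gen (insert (rp b x y) F)) = nc (gen (insert b F)) + 1 := by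
  refine nc_glue h2 fun u w => ⟨fun h => gen_le_glue_rp hb hb' hbx F h, fun h => ?_⟩
  have key : ∀ p q, gen (insert (rp b x y) F) p q → gen (insert b F) p q := by
    intro p q hpq
    rcases gen_rp_le_glue hb hb' hbx F hpq with h | ⟨h3, h4⟩ | ⟨h3, h4⟩
    · exact h
    · exact Setoid.trans' _ h3 (Setoid.trans' _ h1 (Setoid.symm' _ h4))
    · exact Setoid.trans' _ h3 (Setoid.trans' _ (Setoid.symm' _ h1) (Setoid.symm' _ h4))
  rcases h with h | ⟨h3, h4⟩ | ⟨h3, h4⟩
  · exact key _ _ h
  · exact Setoid.trans' _ (key _ _ h3) (Setoid.trans' _ h1 (Setoid.symm' _ (key _ _ h4)))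
  · exact Setoid.trans' _ (key _ _ h3)
      (Setoid.trans' _ (Setoid.symm' _ h1) (Setoid.symm' _ (key _ _ h4)))

include hb hb' hbx in
theorem gen_rp_of_not {p q : Φ} (h2 : gen (insert (rp b x y) F) x y)
    (h : gen (insert b F) p q) : gen (insert (rp b x y) F) p q := by
  rcases gen_le_glue_rp hb hb' hbx F h with h | ⟨h3, h4⟩ | ⟨h3, h4⟩
  · exact h
  · exact Setoid.trans' _ h3 (Setoid.trans' _ h2 (Setoid.symm' _ h4))
  · exact Setoid.trans' _ h3 (Setoid.trans' _ (Setoid.symm' _ h2) (Setoid.symm' _ h4))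

include hb hb' hbx in
theorem gen_of_rp {p q : Φ} (h1 : gen (insert b F) x y)
    (h : gen (insert (rp b x y) F) p q) : gen (insert b F) p q := by
  rcases gen_rp_le_glue hb hb' hbx F h with h | ⟨h3, h4⟩ | ⟨h3, h4⟩
  · exact h
  · exact Setoid.trans' _ h3 (Setoid.trans' _ h1 (Setoid.symm' _ h4))
  · exact Setoid.trans' _ h3 (Setoid.trans' _ (Setoid.symm' _ h1) (Setoid.symm' _ h4))

include hb hb' hbx in
/-- different orbits before and same after: one class less -/
theorem nc_rp_merge [Finite Φ] (h1 : ¬ gen (insert b F) x y) (h2 : gen (insert (rp b x y) F) x y) :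
    nc (gen (insert b F)) = nc (gen (insert (rp b x y) F)) + 1 := by
  refine nc_glue h1 fun u w => ⟨fun h => gen_rp_le_glue hb hb' hbx F h, fun h => ?_⟩
  rcases h with h | ⟨h3, h4⟩ | ⟨h3, h4⟩
  · exact gen_rp_of_not hb hb' hbx F h2 h
  · exact Setoid.trans' _ (gen_rp_of_not hb hb' hbx F h2 h3)
      (Setoid.trans' _ h2 (Setoid.symm' _ (gen_rp_of_not hb hb' hbx F h2 h4)))
  · exact Setoid.trans' _ (gen_rp_of_not hb hb' hbx F h2 h3)
      (Setoid.trans' _ (Setoid.symm' _ h2) (Setoid.symm' _ (gen_rp_of_not hb hb' hbx F h2 h4)))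

include hb hb' hbx in
theorem nc_rp_same (h1 : gen (insert b F) x y) (h2 : gen (insert (rp b x y) F) x y) :
    nc (gen (insert (rp b x y) F)) = nc (gen (insert b F)) := by
  have : gen (insert (rp b x y) F) = gen (insert b F) := by
    ext p q
    exact ⟨gen_of_rp hb hb' hbx F h1, gen_rp_of_not hb hb' hbx F h2⟩
  rw [this]

end glue

/-! ### two involutions -/

section two

variable {a b : Φ → Φ} (ha : Involutive a) (ha' : ∀ z, a z ≠ z) (hb : Involutive b)
  (hb' : ∀ z, b z ≠ z)

omit [DecidableEq Φ] in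
include ha ha' hb hb' in
/-- An element and its partner lie in different orbits of the product. -/
theorem iterate_ne (k : ℕ) (x : Φ) : (b ∘ a)^[k] x ≠ a x := by
  induction k using Nat.twoStepInduction generalizing x with
  | zero => exact fun h => ha' x h.symm
  | one => exact fun h => hb' (a x) h
  | more k ih _ =>
    intro h
    have h1 : (b ∘ a)^[k + 1] x = a ((b ∘ a) x) := by
      have e1 : (b ∘ a) ((b ∘ a)^[k + 1] x) = (b ∘ a) (a ((b ∘ a) x)) := by
        rw [← Function.iterate_succ_apply' (b ∘ a) (k + 1) x, h]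
        simp only [comp_apply, ha _, hb _]
      have hinj : Function.Injective (b ∘ a) := hb.injective.comp ha.injective
      exact hinj e1
    rw [Function.iterate_succ_apply] at h1
    exact ih _ h1

omit [DecidableEq Φ] in
include ha ha' hb hb' in
theorem iterate_ne' (i j : ℕ) (x : Φ) : (b ∘ a)^[i] x ≠ a ((b ∘ a)^[j] x) := by
  intro h
  rcases le_total j i with hij | hij
  · obtain ⟨k, rfl⟩ := Nat.exists_eq_add_of_le' hij
    rw [Function.iterate_add_apply] at h
    exact iterate_ne ha ha' hb hb' k _ h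
  · obtain ⟨k, rfl⟩ := Nat.exists_eq_add_of_le' hij
    rw [Function.iterate_add_apply] at h
    have h2 := congrArg a h
    rw [ha] at h2
    exact iterate_ne ha ha' hb hb' k _ h2.symm

omit [DecidableEq Φ] in
include ha hb in
/-- description of the orbits -/
theorem gen_two [Finite Φ] {x y : Φ} (h : gen {b, a} x y) :
    (∃ k : ℕ, (b ∘ a)^[k] x = y) ∨ (∃ k : ℕ, (b ∘ a)^[k] x = a y) := by
  have hinj : Function.Injective (b ∘ a) := hb.injective.comp ha.injective
  refine gen_closed (F := {b, a}) ?_ (P := fun y => (∃ k : ℕ, (b ∘ a)^[k] x = y) ∨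
    (∃ k : ℕ, (b ∘ a)^[k] x = a y)) ?_ h (Or.inl ⟨0, rfl⟩)
  · rintro f (rfl | rfl)
    · exact hb
    · exact ha
  · -- backwards step
    have back : ∀ z, (∃ k : ℕ, (b ∘ a)^[k] x = z) → ∃ k : ℕ, (b ∘ a)^[k] x = a (b z) := by
      rintro z ⟨k, rfl⟩
      rcases k with _ | k
      · obtain ⟨n, hn, h1⟩ : ∃ n > 0, (b ∘ a)^[n] x = x := by
          have := hinj.mem_periodicPts x
          obtain ⟨n, hn, h1⟩ := this
          exact ⟨n, hn, h1⟩
        obtain ⟨m, rfl⟩ : ∃ m, n = m + 1 := ⟨n - 1, by omega⟩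
        refine ⟨m, ?_⟩
        rw [Function.iterate_succ_apply'] at h1
        have : b (a ((b ∘ a)^[m] x)) = x := h1
        simp only [Function.iterate_zero, id]
        rw [← this, hb, ha, this]
      · refine ⟨k, ?_⟩
        rw [Function.iterate_succ_apply']
        simp only [comp_apply, hb _, ha _]
    rintro f (rfl | rfl) z (⟨k, hk⟩ | ⟨k, hk⟩)
    · right
      obtain ⟨m, hm⟩ := back z ⟨k, hk⟩
      exact ⟨m, hm⟩
    · left
      refine ⟨k + 1, ?_⟩
      rw [Function.iterate_succ_apply', hk]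
      simp only [comp_apply, ha _]
    · right; exact ⟨k, by rw [hk, ha]⟩
    · left; exact ⟨k, hk⟩

include ha ha' hb hb' in
/-- Lemma M: re-pairing at points of different orbits unites them. -/
theorem rp_merge [Finite Φ] {x y : Φ} (hxy : ¬ gen {b, a} x y) : gen {rp b x y, a} x y := by
  have hinj : Function.Injective (b ∘ a) := hb.injective.comp ha.injective
  have hbm : b ∈ ({b, a} : Set (Φ → Φ)) := Set.mem_insert _ _
  have ham : a ∈ ({b, a} : Set (Φ → Φ)) := Set.mem_insert_of_mem _ rfl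
  have hbx : y ≠ b x := fun h => hxy (h ▸ gen_step hbm x)
  have hper : ∃ n, 0 < n ∧ (b ∘ a)^[n] x = x := by
    obtain ⟨n, hn, h1⟩ := hinj.mem_periodicPts x
    exact ⟨n, hn, h1⟩
  classical
  obtain ⟨n, ⟨hn, h1⟩, hmin⟩ : ∃ n, (0 < n ∧ (b ∘ a)^[n] x = x) ∧
      ∀ m < n, ¬ (0 < m ∧ (b ∘ a)^[m] x = x) :=
    ⟨Nat.find hper, Nat.find_spec hper, fun m hm => Nat.find_min hper hm⟩
  have hR : ∀ k, gen {b, a} x ((b ∘ a)^[k] x) := by
    intro k
    induction k with
    | zero => exact Setoid.refl' _ _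
    | succ k ih =>
      rw [Function.iterate_succ_apply']
      exact Setoid.trans' _ ih (Setoid.trans' _ (gen_step ham _) (gen_step hbm _))
  have hbm' : rp b x y ∈ ({rp b x y, a} : Set (Φ → Φ)) := Set.mem_insert _ _
  have ham' : a ∈ ({rp b x y, a} : Set (Φ → Φ)) := Set.mem_insert_of_mem _ rfl
  have key : ∀ k < n, gen {rp b x y, a} x ((b ∘ a)^[k] x) := by
    intro k
    induction k with
    | zero => intro _; exact Setoid.refl' _ _
    | succ k ih =>
      intro hk
      refine Setoid.trans' _ (ih (by omega)) (Setoid.trans' _ (gen_step ham' _) ?_)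
      have h3 : rp b x y (a ((b ∘ a)^[k] x)) = (b ∘ a)^[k + 1] x := by
        rw [Function.iterate_succ_apply']
        refine rp_other hb ?_ ?_ ?_ ?_
        · intro h
          exact iterate_ne' ha ha' hb hb' 0 k x h.symm
        · intro h
          exact hxy (h ▸ Setoid.trans' _ (hR k) (gen_step ham _))
        · intro h
          refine hmin (k + 1) hk ⟨Nat.succ_pos _, ?_⟩
          rw [Function.iterate_succ_apply']
          simp only [comp_apply, h, hb _]
        · intro h
          have : gen {b, a} x (b y) := h ▸ Setoid.trans' _ (hR k) (gen_step ham _)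
          have h4 := Setoid.trans' _ this (gen_step hbm (b y))
          rw [hb] at h4
          exact hxy h4
      rw [← h3]
      exact gen_step hbm' _
  obtain ⟨m, rfl⟩ : ∃ m, n = m + 1 := ⟨n - 1, by omega⟩
  have h2 : a ((b ∘ a)^[m] x) = b x := by
    rw [Function.iterate_succ_apply'] at h1
    have : b (a ((b ∘ a)^[m] x)) = x := h1
    rw [← this, hb, this]
  have h3 : gen {rp b x y, a} x (b x) := by
    rw [← h2]
    exact Setoid.trans' _ (key m (Nat.lt_succ_self m)) (gen_step ham' _)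
  refine Setoid.trans' _ h3 ?_
  have h4 := gen_step hbm' (b x)
  rwa [rp_b_left hb hb' hbx] at h4

include ha ha' hb hb' in
/-- Lemma S: re-pairing at points of the same orbit of `b ∘ a` splits it. -/
theorem rp_split [Finite Φ] {x y : Φ} (hyx : y ≠ x) (h : ∃ k : ℕ, (b ∘ a)^[k] x = y) :
    y ≠ b x ∧ ¬ gen {rp b x y, a} x y := by
  classical
  obtain ⟨k, hk, hmin⟩ : ∃ k, (b ∘ a)^[k] x = y ∧ ∀ m < k, (b ∘ a)^[m] x ≠ y :=
    ⟨Nat.find h, Nat.find_spec h, fun m hm => Nat.find_min h hm⟩
  have hk0 : 0 < k := by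
    rcases Nat.eq_zero_or_pos k with rfl | h0
    · exact absurd hk.symm hyx
    · exact h0
  have hbx : y ≠ b x := by
    rw [← hk]
    obtain ⟨m, rfl⟩ : ∃ m, k = m + 1 := ⟨k - 1, by omega⟩
    rw [Function.iterate_succ_apply']
    intro h1
    have h2 : a ((b ∘ a)^[m] x) = x := hb.injective h1
    exact iterate_ne' ha ha' hb hb' 0 m x h2.symm
  refine ⟨hbx, ?_⟩
  have hret : ∀ j, 0 < j → j < k → (b ∘ a)^[j] x ≠ x := by
    intro j hj0 hjk h1
    refine hmin (k - j) (by omega) ?_
    rw [← hk]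
    conv_rhs => rw [show k = (k - j) + j by omega, Function.iterate_add_apply, h1]
  have hby : a ((b ∘ a)^[k - 1] x) = b y := by
    rw [← hk]
    conv_rhs => rw [show k = (k - 1) + 1 by omega, Function.iterate_succ_apply']
    simp only [comp_apply, hb _]
  intro hR
  have := gen_closed (F := {rp b x y, a}) (P := fun z => ∃ j < k, (b ∘ a)^[j] x = z ∨
    a ((b ∘ a)^[j] x) = z) ?_ ?_ hR ⟨0, hk0, Or.inl rfl⟩
  · obtain ⟨j, hj, h1 | h1⟩ := this
    · exact hmin j hj h1
    · rw [← hk] at h1
      exact iterate_ne' ha ha' hb hb' k j x h1.symm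
  · rintro f (rfl | rfl)
    · exact rp_involutive hb
    · exact ha
  · rintro f (rfl | rfl) z ⟨j, hj, h1 | h1⟩
    · -- z = ρ^j x
      rcases Nat.eq_zero_or_pos j with rfl | hj0
      · simp only [Function.iterate_zero, id] at h1
        subst h1
        rw [rp_left hb hb' hbx]
        exact ⟨k - 1, by omega, Or.inr hby⟩
      · refine ⟨j - 1, by omega, Or.inr ?_⟩
        have h2 : b z = a ((b ∘ a)^[j - 1] x) := by
          rw [← h1]
          conv_lhs => rw [show j = (j - 1) + 1 by omega, Function.iterate_succ_apply']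
          simp only [comp_apply, hb _]
        rw [rp_other hb, h2]
        · rw [← h1]; exact hret j hj0 hj
        · rw [← h1]; exact hmin j hj
        · intro h3
          have h4 : b z = x := by rw [h3, hb]
          rw [h2] at h4
          exact iterate_ne' ha ha' hb hb' 0 (j - 1) x h4.symm
        · rw [← hby, ← h1]
          exact iterate_ne' ha ha' hb hb' j (k - 1) x
    · -- z = a ρ^j x
      have h2 : b z = (b ∘ a)^[j + 1] x := by
        rw [← h1, Function.iterate_succ_apply']; rfl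
      by_cases hjk : j + 1 = k
      · have h3 : z = b y := by rw [← h1, ← hby, ← hjk]; rfl
        rw [h3, rp_b_right hb hb' hbx]
        exact ⟨0, hk0, Or.inl rfl⟩
      · refine ⟨j + 1, by omega, Or.inl ?_⟩
        rw [← h2, rp_other hb]
        · rw [← h1]; exact fun h => iterate_ne' ha ha' hb hb' 0 j x h.symm
        · rw [← h1, ← hk]; exact fun h => iterate_ne' ha ha' hb hb' k j x h.symm
        · intro h3
          have h4 : b z = x := by rw [h3, hb]
          rw [h2] at h4
          exact hret (j + 1) (Nat.succ_pos _) (by omega) h4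
        · intro h3
          have h4 : b z = y := by rw [h3, hb]
          rw [h2] at h4
          exact hmin (j + 1) (by omega) h4
    · exact ⟨j, hj, Or.inr (by rw [h1])⟩
    · exact ⟨j, hj, Or.inl (by rw [← h1, ha])⟩

include ha ha' hb hb' in
/-- Choice of the splitting re-pairing. -/
theorem exists_split [Finite Φ] {x y : Φ} (hyx : y ≠ x) (hbx : y ≠ b x) (h : gen {b, a} x y) :
    ∃ y', (y' = y ∨ y' = b y) ∧ y' ≠ x ∧ y' ≠ b x ∧ ¬ gen {rp b x y', a} x y' := by
  rcases gen_two ha hb h with h1 | ⟨k, hk⟩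
  · have := rp_split ha ha' hb hb' hyx h1
    exact ⟨y, Or.inl rfl, hyx, this.1, this.2⟩
  · have h2 : b y ≠ x := fun h => hbx (by rw [← h, hb])
    have h1 : ∃ k : ℕ, (b ∘ a)^[k] x = b y := by
      refine ⟨k + 1, ?_⟩
      rw [Function.iterate_succ_apply', hk]
      simp only [comp_apply, ha _]
    have := rp_split ha ha' hb hb' h2 h1
    exact ⟨b y, Or.inr rfl, h2, this.1, this.2⟩

end two

end Pool.Agent.Lib_helper38.Adj
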