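import Pool.Agent.Lib_helper38.Adj.Map

/-!
# Submaps
-/

namespace Pool.Agent.Lib_helper38.Adj

open Relation Function

variable {Φ : Type*}

theorem card_class {Q : Φ → Prop} (r : Setoid Φ) (x : {y // Q y}) (S : Finset Φ)
    (hS : ∀ y, r x.1 y ↔ y ∈ S) (hQ : ∀ y ∈ S, Q y) :
    Nat.card {y : {y // Q y} // (r.comap Subtype.val) x y} = S.card := by
  let e : {y : {y // Q y} // (r.comap Subtype.val) x y} ≃ S :=
    { toFun := fun y => ⟨y.1.1, (hS _).1 y.2⟩
      invFun := fun y => ⟨⟨y.1, hQ _ y.2⟩, (hS _).2 y.2⟩
      left_inv := fun y => rfl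
      right_inv := fun y => rfl }
  rw [Nat.card_congr e, Nat.card_eq_fintype_card, Fintype.card_coe]

namespace FMap

variable [DecidableEq Φ] [Fintype Φ] (M : FMap Φ)

/-- The submap spanned by an `a0, a2`-invariant set of flags: its vertices are those of `M`, and
the (corrected) Euler characteristic does not decrease. -/
theorem exists_sub (P : Φ → Prop) (hP0 : ∀ x, P x → P (M.a0 x))
    (hP2 : ∀ x, P x → P (M.a2 x)) :
    ∃ N : FMap (Subtype P), (∀ x, (N.a0 x).1 = M.a0 x.1) ∧ (∀ x, (N.a2 x).1 = M.a2 x.1) ∧
      (∀ u w, N.rV u w ↔ M.rV u.1 w.1) ∧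
      M.chiE ≤ 4 * N.nV + 4 * N.nF - Nat.card (Subtype P) - 8 * N.nC + 8 := by
  classical
  have hB0 : ∀ x, ¬ P x → ¬ P (M.a0 x) := fun x hx h => hx (by
    have := hP0 _ h; rwa [M.i0] at this)
  have hB2 : ∀ x, ¬ P x → ¬ P (M.a2 x) := fun x hx h => hx (by
    have := hP2 _ h; rwa [M.i2] at this)
  obtain ⟨N0, e0, e2, h1, h2, h3⟩ := M.exists_detach {x | ¬ P x} hB2
  have hN1 : ∀ x, P x → P (N0.a1 x) := by
    intro x hx
    by_contra h
    have h4 := h1 _ h
    rw [N0.i1] at h4
    exact (hB2 _ h) (h4 ▸ hx)
  have hN0 : ∀ x, P x → P (N0.a0 x) := by rw [e0]; exact hP0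
  have hN2 : ∀ x, P x → P (N0.a2 x) := by rw [e2]; exact hP2
  refine ⟨N0.restr hN0 hN1 hN2, fun x => by rw [← e0]; rfl, fun x => by rw [← e2]; rfl, ?_, ?_⟩
  · intro u w
    rw [restr_rV]
    exact h2 u.1 w.1 (fun h => h u.2) (fun h => h w.2)
  · set N := N0.restr hN0 hN1 hN2 with hN
    set p : ℕ := Nat.card {x // ¬ P x} with hp
    -- vertices
    have cV : 2 * N0.nV = 2 * N.nV + p := by
      have hs : N0.nV = N.nV + nc (N0.rV.comap (Subtype.val : {x // ¬ P x} → Φ)) := by
        unfold nV
        rw [nc_split N0.rV P (fun x y hxy => ?_)]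
        · congr 2
          ext u w
          exact (N0.restr_rV hN0 hN1 hN2 u w).symm
        · refine gen_iff ?_ hxy
          rintro f (rfl | rfl) x
          · exact iff_of_inv N0.i1 hN1 x
          · exact iff_of_inv N0.i2 hN2 x
      have hm := mul_nc_eq (N0.rV.comap (Subtype.val : {x // ¬ P x} → Φ)) 2 (by
        intro x
        have := card_class (Q := fun x => ¬ P x) N0.rV x {x.1, M.a2 x.1} (by
          intro y
          rw [Finset.mem_insert, Finset.mem_singleton]
          constructor
          · intro h
            refine N0.closedV (P := fun y => y = x.1 ∨ y = M.a2 x.1) ?_ ?_ h (Or.inl rfl)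
            · rintro z (rfl | rfl)
              · right; exact h1 _ x.2
              · left; rw [h1 _ (hB2 _ x.2), M.i2]
            · rw [e2]
              rintro z (rfl | rfl)
              · right; rfl
              · left; exact M.i2 _
          · rintro (rfl | rfl)
            · exact Setoid.refl' _ _
            · have := N0.rV_a2 x.1
              rwa [e2] at this) (by
          intro y hy
          rw [Finset.mem_insert, Finset.mem_singleton] at hy
          rcases hy with rfl | rfl
          · exact x.2
          · exact hB2 _ x.2)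
        rw [this, Finset.card_pair (M.f2 _).symm])
      omega
    have h4 : ∀ x : {x // ¬ P x}, ({x.1, M.a2 x.1, M.a0 x.1, M.a0 (M.a2 x.1)} : Finset Φ).card = 4 := by
      intro x
      rw [Finset.card_insert_of_notMem, Finset.card_insert_of_notMem, Finset.card_pair]
      · exact fun h => M.f2 _ (M.i0.injective h).symm
      · rw [Finset.mem_insert, Finset.mem_singleton]
        rintro (h | h)
        · exact M.f02 _ h.symm
        · exact M.f0 _ h.symm
      · rw [Finset.mem_insert, Finset.mem_insert, Finset.mem_singleton]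
        rintro (h | h | h)
        · exact M.f2 _ h.symm
        · exact M.f0 _ h.symm
        · have h' := congrArg M.a0 h
          rw [M.i0] at h'
          exact M.f02 _ h'
    have h5 : ∀ x : {x // ¬ P x}, ∀ y ∈ ({x.1, M.a2 x.1, M.a0 x.1, M.a0 (M.a2 x.1)} : Finset Φ),
        ¬ P y := by
      intro x y hy
      simp only [Finset.mem_insert, Finset.mem_singleton] at hy
      rcases hy with rfl | rfl | rfl | rfl
      · exact x.2
      · exact hB2 _ x.2
      · exact hB0 _ x.2
      · exact hB0 _ (hB2 _ x.2)
    have h6 : ∀ x : {x // ¬ P x}, ∀ y, y ∈ ({x.1, M.a2 x.1, M.a0 x.1, M.a0 (M.a2 x.1)} : Finset Φ) →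
        (N0.a0 y ∈ ({x.1, M.a2 x.1, M.a0 x.1, M.a0 (M.a2 x.1)} : Finset Φ)) ∧
        (N0.a1 y ∈ ({x.1, M.a2 x.1, M.a0 x.1, M.a0 (M.a2 x.1)} : Finset Φ)) ∧
        (N0.a2 y ∈ ({x.1, M.a2 x.1, M.a0 x.1, M.a0 (M.a2 x.1)} : Finset Φ)) := by
      intro x y hy
      have h7 : N0.a1 y = M.a2 y := h1 y (h5 x y hy)
      rw [h7, e0, e2]
      simp only [Finset.mem_insert, Finset.mem_singleton] at hy ⊢
      have c := M.comm x.1
      rcases hy with rfl | rfl | rfl | rfl
      · simp
      · simp [M.i2 _]
      · simp [M.i0 _, c]
      · have c' : M.a2 (M.a0 (M.a2 x.1)) = M.a0 x.1 := by rw [c, M.i2]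
        exact ⟨Or.inr (Or.inl (M.i0 _)), Or.inr (Or.inr (Or.inl c')), Or.inr (Or.inr (Or.inl c'))⟩
    have cF : 4 * N0.nF = 4 * N.nF + p := by
      have hs : N0.nF = N.nF + nc (N0.rF.comap (Subtype.val : {x // ¬ P x} → Φ)) := by
        unfold nF
        rw [nc_split N0.rF P (fun x y hxy => ?_)]
        · congr 2
          ext u w
          exact (N0.restr_rF hN0 hN1 hN2 u w).symm
        · refine gen_iff ?_ hxy
          rintro f (rfl | rfl) x
          · exact iff_of_inv N0.i1 hN1 x
          · exact iff_of_inv N0.i0 hN0 x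
      have hm := mul_nc_eq (N0.rF.comap (Subtype.val : {x // ¬ P x} → Φ)) 4 (by
        intro x
        have := card_class (Q := fun x => ¬ P x) N0.rF x
          {x.1, M.a2 x.1, M.a0 x.1, M.a0 (M.a2 x.1)} (by
          intro y
          constructor
          · intro h
            refine N0.closedF (P := fun y => y ∈
              ({x.1, M.a2 x.1, M.a0 x.1, M.a0 (M.a2 x.1)} : Finset Φ)) ?_ ?_ h (by simp)
            · intro z hz; exact (h6 x z hz).2.1
            · intro z hz; exact (h6 x z hz).1
          · intro hy
            have s1 : N0.rF x.1 (M.a2 x.1) := by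
              have := N0.rF_a1 x.1
              rwa [h1 _ x.2] at this
            simp only [Finset.mem_insert, Finset.mem_singleton] at hy
            rcases hy with rfl | rfl | rfl | rfl
            · exact Setoid.refl' _ _
            · exact s1
            · have := N0.rF_a0 x.1
              rwa [e0] at this
            · have := N0.rF_a0 (M.a2 x.1)
              rw [e0] at this
              exact Setoid.trans' _ s1 this) (h5 x)
        rw [this, h4])
      omega
    have cC : 4 * N0.nC = 4 * N.nC + p := by
      have hs : N0.nC = N.nC + nc (N0.rC.comap (Subtype.val : {x // ¬ P x} → Φ)) := by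
        unfold nC
        rw [nc_split N0.rC P (fun x y hxy => ?_)]
        · congr 2
          ext u w
          exact (N0.restr_rC hN0 hN1 hN2 u w).symm
        · refine gen_iff ?_ hxy
          rintro f (rfl | rfl | rfl) x
          · exact iff_of_inv N0.i1 hN1 x
          · exact iff_of_inv N0.i0 hN0 x
          · exact iff_of_inv N0.i2 hN2 x
      have hm := mul_nc_eq (N0.rC.comap (Subtype.val : {x // ¬ P x} → Φ)) 4 (by
        intro x
        have := card_class (Q := fun x => ¬ P x) N0.rC x
          {x.1, M.a2 x.1, M.a0 x.1, M.a0 (M.a2 x.1)} (by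
          intro y
          constructor
          · intro h
            refine N0.closedC (P := fun y => y ∈
              ({x.1, M.a2 x.1, M.a0 x.1, M.a0 (M.a2 x.1)} : Finset Φ)) ?_ ?_ ?_ h (by simp)
            · intro z hz; exact (h6 x z hz).1
            · intro z hz; exact (h6 x z hz).2.1
            · intro z hz; exact (h6 x z hz).2.2
          · intro hy
            have s1 : N0.rC x.1 (M.a2 x.1) := by
              have := N0.rC_a2 x.1
              rwa [e2] at this
            simp only [Finset.mem_insert, Finset.mem_singleton] at hy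
            rcases hy with rfl | rfl | rfl | rfl
            · exact Setoid.refl' _ _
            · exact s1
            · have := N0.rC_a0 x.1
              rwa [e0] at this
            · have := N0.rC_a0 (M.a2 x.1)
              rw [e0] at this
              exact Setoid.trans' _ s1 this) (h5 x)
        rw [this, h4])
      omega
    have hcard : Fintype.card Φ = Nat.card (Subtype P) + p := by
      rw [hp, ← Nat.card_sum, ← Nat.card_eq_fintype_card]
      exact Nat.card_congr (Equiv.sumCompl P).symm
    unfold chiE chi4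
    unfold eps at h3
    rw [hcard]
    push_cast
    have cV' : (2 : ℤ) * N0.nV = 2 * N.nV + p := by exact_mod_cast cV
    have cF' : (4 : ℤ) * N0.nF = 4 * N.nF + p := by exact_mod_cast cF
    have cC' : (4 : ℤ) * N0.nC = 4 * N.nC + p := by exact_mod_cast cC
    linarith

end FMap

end Pool.Agent.Lib_helper38.Adj
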