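import Pool.Agent.Lib_helper38.Adj.Max

/-!
# Types of extra vertices in a maximal labelled map
-/

namespace Pool.Agent.Lib_helper38.Adj

open Relation Function

section tri

variable {Φ : Type*} {M : FMap Φ} {x : Φ}

theorem FMap.Tri.eq (h : M.Tri x) : M.a0 (M.a1 x) = M.a1 (M.a0 (M.a1 (M.a0 x))) := by
  unfold FMap.Tri at h
  have := congrArg (fun z => M.a0 (M.a1 z)) h
  simp only [M.i1 _, M.i0 _] at this
  exact this.symm

theorem FMap.tri_of_eq (h : M.a0 (M.a1 x) = M.a1 (M.a0 (M.a1 (M.a0 x)))) : M.Tri x := by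
  unfold FMap.Tri
  rw [← h, M.i0, M.i1]

theorem FMap.Tri.a1 (h : M.Tri x) : M.Tri (M.a1 x) := by
  apply FMap.tri_of_eq
  have := h.eq
  rw [M.i1]
  rw [this, M.i1, M.i0, M.i1]

theorem FMap.Tri.a0 (h : M.Tri x) : M.Tri (M.a0 x) := by
  apply FMap.tri_of_eq
  rw [M.i0]
  have h1 := h.eq
  have h2 : M.a1 (M.a0 (M.a1 x)) = M.a0 (M.a1 (M.a0 x)) := by rw [h1, M.i1]
  exact h2.symm

theorem FMap.tri_a1_iff : M.Tri (M.a1 x) ↔ M.Tri x :=
  ⟨fun h => by have := h.a1; rwa [M.i1] at this, fun h => h.a1⟩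

theorem FMap.tri_a0_iff : M.Tri (M.a0 x) ↔ M.Tri x :=
  ⟨fun h => by have := h.a0; rwa [M.i0] at this, fun h => h.a0⟩

theorem FMap.tri_rF {x y : Φ} (h : M.rF x y) : M.Tri x ↔ M.Tri y := by
  refine gen_iff (P := M.Tri) ?_ h
  rintro f (rfl | rfl) x
  · exact FMap.tri_a1_iff.symm
  · exact FMap.tri_a0_iff.symm

/-- the vertices of a triangular face -/
theorem FMap.Tri.vertices (h : M.Tri x) {y : Φ} (hy : M.rF x y) :
    M.rV y x ∨ M.rV y (M.a0 x) ∨ M.rV y (M.a0 (M.a1 x)) := by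
  have h1 := h.eq
  have := M.closedF (P := fun y => y = x ∨ y = M.a1 x ∨ y = M.a0 x ∨ y = M.a1 (M.a0 x) ∨
    y = M.a0 (M.a1 x) ∨ y = M.a1 (M.a0 (M.a1 x))) ?_ ?_ hy (Or.inl rfl)
  · rcases this with rfl | rfl | rfl | rfl | rfl | rfl
    · exact Or.inl (Setoid.refl' _ _)
    · exact Or.inl (Setoid.symm' _ (M.rV_a1 _))
    · exact Or.inr (Or.inl (Setoid.refl' _ _))
    · exact Or.inr (Or.inl (Setoid.symm' _ (M.rV_a1 _)))
    · exact Or.inr (Or.inr (Setoid.refl' _ _))
    · exact Or.inr (Or.inr (Setoid.symm' _ (M.rV_a1 _)))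
  · rintro z (rfl | rfl | rfl | rfl | rfl | rfl) <;> simp [M.i1 _]
  · rintro z (rfl | rfl | rfl | rfl | rfl | rfl)
    · simp
    · simp
    · simp [M.i0 _]
    · have : M.a0 (M.a1 (M.a0 x)) = M.a1 (M.a0 (M.a1 x)) := by rw [h1, M.i1]
      simp [this]
    · simp [M.i0 _]
    · have : M.a0 (M.a1 (M.a0 (M.a1 x))) = M.a1 (M.a0 x) := by rw [h1, M.i1, M.i0]
      simp [this]

/-- the two other vertices of a triangular face are adjacent -/
theorem FMap.Tri.third (h : M.Tri x) :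
    M.rV (M.a0 (M.a1 (M.a0 x))) (M.a0 (M.a1 x)) := by
  rw [h.eq]; exact M.rV_a1 _

theorem FMap.rF_nbrs (x : Φ) : M.rF (M.a0 x) (M.a0 (M.a1 x)) :=
  Setoid.trans' _ (Setoid.symm' _ (M.rF_a0 x)) (Setoid.trans' _ (M.rF_a1 x) (M.rF_a0 _))

end tri

namespace LMap

variable {W : Type*} {G : SimpleGraph W} {Φ : Type} [DecidableEq Φ] [Fintype Φ]
  {M : LMap G Φ} {X : ℤ}

omit [DecidableEq Φ] [Fintype Φ] in
/-- at a triangular corner the two neighbours have different labels -/
theorem Useful.tri_lab (hU : M.Useful) {x : Φ} (h : M.Tri x) :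
    G.Adj (M.lab (M.a0 x)) (M.lab (M.a0 (M.a1 x))) := by
  have h1 := (hU (M.a1 (M.a0 x))).1
  rw [M.lab1, M.lab_rV h.third] at h1
  exact h1

/-- a vertex all of whose corners with different labels are triangles, with two labels -/
def IsD (M : LMap G Φ) (x : Φ) : Prop :=
  ¬ M.rV x (M.s (M.lab x)) ∧ ∃ w u, w ≠ u ∧
    (∀ z, M.rV x z → M.lab (M.a0 z) = w ∨ M.lab (M.a0 z) = u) ∧
    (∃ z, M.rV x z ∧ M.lab (M.a0 z) = w) ∧ (∃ z, M.rV x z ∧ M.lab (M.a0 z) = u) ∧
    (∀ z, M.rV x z → (M.Tri z ↔ M.lab (M.a0 z) ≠ M.lab (M.a0 (M.a1 z))))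

/-- an extra vertex without triangles -/
def IsS (M : LMap G Φ) (x : Φ) : Prop :=
  ¬ M.rV x (M.s (M.lab x)) ∧ ∀ z, M.rV x z → ¬ M.Tri z

/-- a vertex with three neighbouring labels -/
def Is3 (M : LMap G Φ) (x : Φ) : Prop :=
  ∃ z1 z2 z3, M.rV x z1 ∧ M.rV x z2 ∧ M.rV x z3 ∧ M.lab (M.a0 z1) ≠ M.lab (M.a0 z2) ∧
    M.lab (M.a0 z1) ≠ M.lab (M.a0 z3) ∧ M.lab (M.a0 z2) ≠ M.lab (M.a0 z3)

theorem IsMax.types (hM : IsMax X M) {x : Φ} (hx : ¬ M.rV x (M.s (M.lab x))) :
    M.Is3 x ∨ M.IsD x ∨ M.IsS x := by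
  obtain ⟨w, u, hwu, hw, hu, hw', hu'⟩ := hM.1.two_sep hx
  obtain ⟨y1, -, h1, -, h3, -, -⟩ := hM.1.sep_nbrs hx hw hw'
  obtain ⟨y3, -, h6, -, h8, -, -⟩ := hM.1.sep_nbrs hx hu hu'
  by_cases hall : ∀ z, M.rV x z → M.lab (M.a0 z) = w ∨ M.lab (M.a0 z) = u
  swap
  · left
    push Not at hall
    obtain ⟨z, hz, hz1, hz2⟩ := hall
    exact ⟨y1, y3, z, h1, h6, hz, by rw [h3, h8]; exact hwu, by rw [h3]; exact hz1.symm,
      by rw [h8]; exact hz2.symm⟩
  right
  have hU := hM.2.1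
  have swapK : ∀ {K K' : Φ → Prop}, (∀ z, K z ↔ K' z) → ∀ {a b}, M.lk K a b → M.lk K' a b :=
    fun h _ _ => M.lk_mono (fun z hz => (h z).1 hz)
  -- useful corners are triangles, in the form needed here
  have hcorner : ∀ z, M.rV x z → G.Adj w u →
      M.lk (fun z => M.lab z = w ∨ M.lab z = u) (M.s w) (M.a0 z) →
      M.lab (M.a0 z) ≠ M.lab (M.a0 (M.a1 z)) → M.Tri z := by
    intro z hz hadj hlk hne
    have hz' : M.rV x (M.a1 z) := Setoid.trans' _ hz (M.rV_a1 z)
    rcases hall z hz with e1 | e1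
    · rcases hall _ hz' with e2 | e2
      · exact absurd (e1.trans e2.symm) hne
      · apply hM.corner
        · rw [e1, e2]; exact hadj
        · rw [e1, e2]; exact hlk
    · rcases hall _ hz' with e2 | e2
      · apply hM.corner
        · rw [e1, e2]; exact hadj.symm
        · rw [e1, e2]
          refine swapK (K := fun z => M.lab z = w ∨ M.lab z = u) (fun z => or_comm) ?_
          exact Setoid.trans' _ (Setoid.symm' _ (M.link w u hadj)) hlk
      · exact absurd (e1.trans e2.symm) hne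
  -- from a triangular corner to membership in the main component
  have htri : ∀ z, M.rV x z → M.Tri z → G.Adj w u ∧
      M.lk (fun z => M.lab z = w ∨ M.lab z = u) (M.s w) (M.a0 z) := by
    intro z hz ht
    have hz' : M.rV x (M.a1 z) := Setoid.trans' _ hz (M.rV_a1 z)
    have hadj := hU.tri_lab ht
    have h2 := (hU (M.a1 (M.a0 z))).2
    rw [M.lab1, M.lab_rV ht.third] at h2
    have h2' := Setoid.trans' _ h2 (M.lk_rV (Setoid.symm' _ (M.rV_a1 (M.a0 z))))
    rcases hall z hz with e1 | e1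
    · rcases hall _ hz' with e2 | e2
      · exact absurd (e1.trans e2.symm) hadj.ne
      · rw [e1, e2] at hadj h2'
        exact ⟨hadj, h2'⟩
    · rcases hall _ hz' with e2 | e2
      · rw [e1, e2] at hadj h2'
        refine ⟨hadj.symm, ?_⟩
        exact Setoid.trans' _ (M.link w u hadj.symm) (swapK (fun z => or_comm) h2')
      · exact absurd (e1.trans e2.symm) hadj.ne
  by_cases hP : ∃ z0, M.rV x z0 ∧ G.Adj w u ∧
      M.lk (fun z => M.lab z = w ∨ M.lab z = u) (M.s w) (M.a0 z0)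
  · left
    obtain ⟨z0, hz0, hadj, hz0'⟩ := hP
    have hall2 : ∀ z, M.rV x z →
        M.lk (fun z => M.lab z = w ∨ M.lab z = u) (M.s w) (M.a0 z) := by
      intro z hz
      have := M.closedV (P := fun z => M.rV x z ∧
        M.lk (fun z => M.lab z = w ∨ M.lab z = u) (M.s w) (M.a0 z)) ?_ ?_
        (Setoid.trans' _ (Setoid.symm' _ hz0) hz) ⟨hz0, hz0'⟩
      · exact this.2
      · rintro z ⟨hz, h⟩
        have hz' : M.rV x (M.a1 z) := Setoid.trans' _ hz (M.rV_a1 z)
        refine ⟨hz', ?_⟩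
        by_cases hl : M.lab (M.a0 z) = M.lab (M.a0 (M.a1 z))
        · have h3 := hM.1.face (FMap.rF_nbrs (M := M.toFMap) z) hl
          exact Setoid.trans' _ h (M.lk_rV h3)
        · have ht := hcorner z hz hadj h hl
          have k1 : M.lab (M.a1 (M.a0 z)) = w ∨ M.lab (M.a1 (M.a0 z)) = u := by
            rw [M.lab1]; exact hall z hz
          have k2 : M.lab (M.a0 (M.a1 (M.a0 z))) = w ∨ M.lab (M.a0 (M.a1 (M.a0 z))) = u := by
            rw [M.lab_rV ht.third]; exact hall _ hz'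
          exact Setoid.trans' _ h (Setoid.trans' _ (M.lk_a1 _ _) (Setoid.trans' _
            (M.lk_a0 (K := fun z => M.lab z = w ∨ M.lab z = u) k1 k2) (M.lk_rV ht.third)))
      · rintro z ⟨hz, h⟩
        exact ⟨Setoid.trans' _ hz (M.rV_a2 z),
          Setoid.trans' _ h (M.lk_rV (Setoid.symm' _ (M.rV_a0a2 z)))⟩
    refine ⟨hx, w, u, hwu, hall, ⟨y1, h1, h3⟩, ⟨y3, h6, h8⟩, ?_⟩
    intro z hz
    exact ⟨fun ht => (hU.tri_lab ht).ne, fun hne => hcorner z hz hadj (hall2 z hz) hne⟩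
  · right
    refine ⟨hx, fun z hz ht => hP ⟨z, hz, htri z hz ht⟩⟩

/-- Main lemma on independence. -/
theorem IsMax.indep (hM : IsMax X M) (h : Φ → ZMod 2) (hV : ∀ x y, M.rV x y → h x = h y)
    (hD : ∀ x, h x ≠ 0 → M.IsD x) (κ : Φ → ZMod 2) (hκC : ∀ x y, M.rC x y → κ x = κ y)
    (ht : ∀ z, M.Tri z → h z + h (M.a0 z) + h (M.a0 (M.a1 z)) = κ z)
    (hn : ∀ z, ¬ M.Tri z → κ z = 0) (x : Φ) : h x = 0 := by
  have hU := hM.2.1
  have h01 : ∀ a : ZMod 2, a ≠ 0 → a = 1 := by decide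
  have hs : ∀ v, h (M.s v) = 0 := by
    intro v
    by_contra h1
    have h2 := (hD _ h1).1
    rw [M.lab_s] at h2
    exact h2 (Setoid.refl' _ _)
  have hface : ∀ z, M.lab (M.a0 z) = M.lab (M.a0 (M.a1 z)) → h (M.a0 z) = h (M.a0 (M.a1 z)) :=
    fun z hl => hV _ _ (hM.1.face (FMap.rF_nbrs (M := M.toFMap) z) hl)
  have hne : ∀ z, M.lab (M.a0 z) ≠ M.lab z := fun z => (hU z).1.ne'
  have hκ : κ x = 0 ∨ κ x = 1 := (by decide : ∀ a : ZMod 2, a = 0 ∨ a = 1) (κ x)
  by_contra hx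
  rcases hκ with hκ | hκ
  · -- alternating labels
    have ht0 : ∀ z, M.rC x z → M.Tri z → h z + h (M.a0 z) + h (M.a0 (M.a1 z)) = 0 :=
      fun z hz hz' => by rw [ht z hz', ← hκC x z hz, hκ]
    have claimA : ∀ x1, M.rC x x1 → h x1 = 1 → ∀ z z', M.rV x1 z → M.rV x1 z' →
        M.lab (M.a0 z) = M.lab (M.a0 z') → h (M.a0 z) = h (M.a0 z') := by
      intro x1 hCx1 hx1 z z' hz hz' hl
      obtain ⟨-, w1, u1, hwu, hall, -, -, htr⟩ := hD x1 (by rw [hx1]; decide)
      have := M.closedV (P := fun z' => M.rV x1 z' ∧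
        (M.lab (M.a0 z') = M.lab (M.a0 z) → h (M.a0 z') = h (M.a0 z)) ∧
        (M.lab (M.a0 z') ≠ M.lab (M.a0 z) → h (M.a0 z') = h (M.a0 z) + 1)) ?_ ?_
        (Setoid.trans' _ (Setoid.symm' _ hz) hz') ⟨hz, fun _ => rfl, fun h => absurd rfl h⟩
      · exact (this.2.1 hl.symm).symm
      · rintro y ⟨hy, hy1, hy2⟩
        have hy' : M.rV x1 (M.a1 y) := Setoid.trans' _ hy (M.rV_a1 y)
        refine ⟨hy', ?_⟩
        by_cases hl' : M.lab (M.a0 y) = M.lab (M.a0 (M.a1 y))
        · rw [← hface y hl', ← hl']; exact ⟨hy1, hy2⟩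
        · have h1 := ht0 y (Setoid.trans' _ hCx1 (M.rV_rC hy)) ((htr y hy).2 hl')
          have h2 : h y = 1 := by rw [← hV _ _ hy, hx1]
          rw [h2] at h1
          have h3 : h (M.a0 (M.a1 y)) = h (M.a0 y) + 1 := by
            revert h1; generalize h (M.a0 (M.a1 y)) = a; generalize h (M.a0 y) = b
            revert a b; decide
          have e1 := hall y hy
          have e2 := hall _ hy'
          have e3 := hall z hz
          by_cases hl3 : M.lab (M.a0 y) = M.lab (M.a0 z)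
          · have h4 := hy1 hl3
            refine ⟨fun h5 => absurd (hl3.trans h5.symm) hl', fun _ => by rw [h3, h4]⟩
          · have h4 := hy2 hl3
            refine ⟨fun _ => ?_, fun h5 => ?_⟩
            · rw [h3, h4, add_assoc]
              have : (1 : ZMod 2) + 1 = 0 := by decide
              rw [this, add_zero]
            · exfalso
              rcases e1 with e1 | e1 <;> rcases e2 with e2 | e2 <;> rcases e3 with e3 | e3
              · exact hl3 (e1.trans e3.symm)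
              · exact hl' (e1.trans e2.symm)
              · exact hl3 (e1.trans e3.symm)
              · exact h5 (e2.trans e3.symm)
              · exact h5 (e2.trans e3.symm)
              · exact hl3 (e1.trans e3.symm)
              · exact hl' (e1.trans e2.symm)
              · exact hl3 (e1.trans e3.symm)
      · rintro y ⟨hy, hy1⟩
        refine ⟨Setoid.trans' _ hy (M.rV_a2 y), ?_⟩
        rw [hV _ _ (M.rV_a0a2 y), M.lab_rV (M.rV_a0a2 y)]
        exact hy1
    have hx1 : h x = 1 := h01 _ hx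
    -- a neighbour in the support
    obtain ⟨z1, hz1, hz1'⟩ : ∃ z1, M.rV x z1 ∧ h (M.a0 z1) = 1 := by
      obtain ⟨-, w1, u1, hwu, hall, ⟨y1, hy1, hl1⟩, ⟨y2, hy2, hl2⟩, htr⟩ := hD x hx
      by_contra hno
      push Not at hno
      have h0 : ∀ z, M.rV x z → h (M.a0 z) = 0 := by
        intro z hz
        by_contra h1
        exact hno z hz (h01 _ h1)
      -- then all corners have equal labels
      have := M.closedV (P := fun z => M.rV x z ∧ M.lab (M.a0 z) = w1) ?_ ?_
        (Setoid.trans' _ (Setoid.symm' _ hy1) hy2) ⟨hy1, hl1⟩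
      · rw [hl2] at this; exact hwu this.2.symm
      · rintro z ⟨hz, hzl⟩
        have hz' : M.rV x (M.a1 z) := Setoid.trans' _ hz (M.rV_a1 z)
        refine ⟨hz', ?_⟩
        by_contra hl
        have h1 := ht0 z (M.rV_rC hz) ((htr z hz).2 (by rw [hzl]; exact fun h => hl h.symm))
        rw [h0 z hz, h0 _ hz', ← hV _ _ hz, hx1] at h1
        exact absurd h1 (by decide)
      · rintro z ⟨hz, hzl⟩
        refine ⟨Setoid.trans' _ hz (M.rV_a2 z), ?_⟩
        rw [M.lab_rV (M.rV_a0a2 z)]; exact hzl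
    have hlx : M.lab z1 = M.lab x := (M.lab_rV hz1).symm
    have hus := (hU z1).2
    have hP := M.lk_closed (K := fun z => M.lab z = M.lab z1 ∨ M.lab z = M.lab (M.a0 z1))
      (P := fun z => M.rC x z ∧ h z = 1 ∧ ∀ z', M.rV z z' →
        (M.lab (M.a0 z') = M.lab z1 ∨ M.lab (M.a0 z') = M.lab (M.a0 z1)) → h (M.a0 z') = 1)
      ?_ ?_ (Setoid.symm' _ hus) ⟨M.rV_rC hz1, ?_, ?_⟩
    · have := hP.2.1
      rw [hs] at this
      exact absurd this (by decide)
    · rintro p q hpq ⟨hpC, hp1, hp2⟩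
      exact ⟨Setoid.trans' _ hpC (M.rV_rC hpq), by rw [← hV _ _ hpq]; exact hp1,
        fun z' hz' => hp2 z' (Setoid.trans' _ hpq hz')⟩
    · rintro p ⟨hpC, hp1, hp2⟩ hK hK'
      have hp3 : h (M.a0 p) = 1 := hp2 p (Setoid.refl' _ _) hK'
      have hpC' : M.rC x (M.a0 p) := Setoid.trans' _ hpC (M.rC_a0 p)
      refine ⟨hpC', hp3, fun z' hz' hKz' => ?_⟩
      have e1 : M.lab (M.a0 z') = M.lab p := by
        have n1 := hne z'
        rw [← M.lab_rV hz'] at n1
        have n2 := hne p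
        rcases hK with k1 | k1 <;> rcases hK' with k2 | k2 <;> rcases hKz' with k3 | k3
        · rw [k1, k3]
        · exact absurd (k2.trans k1.symm) n2
        · rw [k1, k3]
        · exact absurd (k3.trans k2.symm) n1
        · exact absurd (k3.trans k2.symm) n1
        · rw [k1, k3]
        · exact absurd (k2.trans k1.symm) n2
        · rw [k1, k3]
      have e2 := claimA (M.a0 p) hpC' hp3 (M.a0 p) z' (Setoid.refl' _ _) hz'
        (by rw [M.i0]; exact e1.symm)
      rw [M.i0] at e2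
      rw [← e2, hp1]
    · rw [← hV _ _ hz1, hx1]
    · intro z' hz' hK
      have n1 := hne z'
      rw [← M.lab_rV hz'] at n1
      rcases hK with k | k
      · exact absurd k n1
      · have := claimA x (Setoid.refl' _ _) hx1 z1 z' hz1 (Setoid.trans' _ hz1 hz') k.symm
        rw [← this, hz1']
  · -- all faces are triangles
    have htall : ∀ z, M.rC x z → M.Tri z := by
      intro z hz
      by_contra h1
      have h2 := hn z h1
      rw [← hκC x z hz, hκ] at h2
      exact absurd h2 (by decide)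
    have hsum : ∀ z, M.rC x z → h z + h (M.a0 z) + h (M.a0 (M.a1 z)) = 1 := fun z hz => by
      rw [ht z (htall z hz), ← hκC x z hz, hκ]
    have hrot : ∀ z, M.rC x z → h z = 1 → ∀ z', M.rV z z' → h (M.a0 z') = h (M.a0 z) := by
      intro z hCz hz z' hz'
      have := M.closedV (P := fun z' => M.rV z z' ∧ h (M.a0 z') = h (M.a0 z)) ?_ ?_ hz'
        ⟨Setoid.refl' _ _, rfl⟩
      · exact this.2
      · rintro y ⟨hy, hy'⟩
        refine ⟨Setoid.trans' _ hy (M.rV_a1 y), ?_⟩
        have h1 := hsum y (Setoid.trans' _ hCz (M.rV_rC hy))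
        rw [← hV _ _ hy, hz] at h1
        rw [← hy']
        revert h1; generalize h (M.a0 (M.a1 y)) = a; generalize h (M.a0 y) = b
        revert a b; decide
      · rintro y ⟨hy, hy'⟩
        refine ⟨Setoid.trans' _ hy (M.rV_a2 y), ?_⟩
        rw [hV _ _ (M.rV_a0a2 y)]; exact hy'
    -- no two adjacent vertices in the support
    have hstep2 : ∀ z, M.rC x z → h z = 1 → h (M.a0 z) = 0 := by
      intro z hCz hz
      by_contra h1
      have h2 := h01 _ h1
      obtain ⟨w0, hw0⟩ := M.comp z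
      have := M.closedC (P := fun z => M.rC x z ∧ h z = 1 ∧ h (M.a0 z) = 1) ?_ ?_ ?_
        hw0 ⟨hCz, hz, h2⟩
      · rw [hs] at this
        exact absurd this.2.1 (by decide)
      · rintro y ⟨hyC, hy1, hy2⟩
        exact ⟨Setoid.trans' _ hyC (M.rC_a0 y), hy2, by rw [M.i0]; exact hy1⟩
      · rintro y ⟨hyC, hy1, hy2⟩
        exact ⟨Setoid.trans' _ hyC (M.rC_a1 y), by rw [← hV _ _ (M.rV_a1 y)]; exact hy1, by
          rw [hrot y hyC hy1 _ (M.rV_a1 y)]; exact hy2⟩
      · rintro y ⟨hyC, hy1, hy2⟩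
        exact ⟨Setoid.trans' _ hyC (M.rC_a2 y), by rw [← hV _ _ (M.rV_a2 y)]; exact hy1, by
          rw [hrot y hyC hy1 _ (M.rV_a2 y)]; exact hy2⟩
    have hx1 : h x = 1 := h01 _ hx
    have hus := (hU x).2
    have hvw : M.lab x ≠ M.lab (M.a0 x) := (hU x).1.ne
    have hP := M.lk_closed (K := fun z => M.lab z = M.lab x ∨ M.lab z = M.lab (M.a0 x))
      (P := fun z => M.rC x z ∧ ((M.lab z = M.lab x ∧ h z = 1) ∨
        (M.lab z = M.lab (M.a0 x) ∧ h z = 0 ∧
        ∃ z', M.rV z z' ∧ M.lab (M.a0 z') = M.lab x ∧ h (M.a0 z') = 1)))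
      ?_ ?_ (Setoid.symm' _ hus) ⟨Setoid.refl' _ _, Or.inl ⟨rfl, hx1⟩⟩
    · rcases hP.2 with ⟨_, h1⟩ | ⟨h1, _⟩
      · rw [hs] at h1; exact absurd h1 (by decide)
      · rw [M.lab_s] at h1; exact hvw h1
    · rintro p q hpq ⟨hpC, (⟨h1, h2⟩ | ⟨h1, h2, z', h3, h4⟩)⟩
      · exact ⟨Setoid.trans' _ hpC (M.rV_rC hpq),
          Or.inl ⟨by rw [← M.lab_rV hpq]; exact h1, by rw [← hV _ _ hpq]; exact h2⟩⟩
      · exact ⟨Setoid.trans' _ hpC (M.rV_rC hpq),
          Or.inr ⟨by rw [← M.lab_rV hpq]; exact h1, by rw [← hV _ _ hpq]; exact h2, z',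
          Setoid.trans' _ (Setoid.symm' _ hpq) h3, h4⟩⟩
    · rintro p ⟨hpC, hp⟩ hK hK'
      refine ⟨Setoid.trans' _ hpC (M.rC_a0 p), ?_⟩
      rcases hp with (⟨h1, h2⟩ | ⟨h1, h2, z', h3, h4, h5⟩)
      · right
        refine ⟨?_, hstep2 p hpC h2, M.a0 p, Setoid.refl' _ _, by rw [M.i0]; exact h1,
          by rw [M.i0]; exact h2⟩
        rcases hK' with k | k
        · exact absurd (k.trans h1.symm) (hne p)
        · exact k
      · left
        have hl0 : M.lab (M.a0 p) = M.lab x := by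
          rcases hK' with k | k
          · exact k
          · exact absurd (k.trans h1.symm) (hne p)
        refine ⟨hl0, ?_⟩
        -- labels around the support vertex `a0 z'`
        obtain ⟨u', hu'x, hu'w, hall'⟩ : ∃ u', u' ≠ M.lab x ∧ u' ≠ M.lab p ∧
            ∀ t, M.rV (M.a0 z') t → M.lab (M.a0 t) = M.lab p ∨ M.lab (M.a0 t) = u' := by
          obtain ⟨-, w1, u1, hwu, hall, ⟨y1, hy1, hl1⟩, ⟨y2, hy2, hl2⟩, -⟩ :=
            hD (M.a0 z') (by rw [h5]; decide)
          have e0 := hall (M.a0 z') (Setoid.refl' _ _)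
          rw [M.i0, ← M.lab_rV h3] at e0
          have n1 : w1 ≠ M.lab x := by
            rw [← hl1, ← h4, M.lab_rV hy1]; exact hne y1
          have n2 : u1 ≠ M.lab x := by
            rw [← hl2, ← h4, M.lab_rV hy2]; exact hne y2
          rcases e0 with e0 | e0
          · exact ⟨u1, n2, by rw [e0]; exact hwu.symm, fun t ht => by rw [e0]; exact hall t ht⟩
          · exact ⟨w1, n1, by rw [e0]; exact hwu, fun t ht => by rw [e0]; exact (hall t ht).symm⟩
        have hQ := M.closedV (P := fun z1 => M.rV p z1 ∧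
          ((h (M.a0 z1) = 1 ∧ ∀ t, M.rV (M.a0 z1) t →
            (M.lab (M.a0 t) = M.lab p ∨ M.lab (M.a0 t) = u')) ∨
            (h (M.a0 z1) = 0 ∧ M.lab (M.a0 z1) = u'))) ?_ ?_
          (Setoid.symm' _ h3) ⟨h3, Or.inl ⟨h5, hall'⟩⟩
        · rcases hQ.2 with ⟨h6, _⟩ | ⟨_, h6⟩
          · exact h6
          · exact absurd (h6.symm.trans hl0) hu'x
        · rintro z1 ⟨hz1, hz1'⟩
          have hz2 : M.rV p (M.a1 z1) := Setoid.trans' _ hz1 (M.rV_a1 z1)
          refine ⟨hz2, ?_⟩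
          have hCz1 : M.rC x z1 := Setoid.trans' _ hpC (M.rV_rC hz1)
          have hs1 := hsum z1 hCz1
          rw [← hV _ _ hz1, h2, zero_add] at hs1
          have hnb : M.lab (M.a0 (M.a1 z1)) ≠ M.lab p := by
            have := hne (M.a1 z1)
            rwa [← M.lab_rV hz2] at this
          rcases hz1' with ⟨k1, k2⟩ | ⟨k1, k2⟩
          · right
            rw [k1] at hs1
            refine ⟨?_, ?_⟩
            · revert hs1; generalize h (M.a0 (M.a1 z1)) = a; revert a; decide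
            · have h6 := k2 (M.a1 (M.a0 z1)) (M.rV_a1 _)
              rw [M.lab_rV (htall z1 hCz1).third] at h6
              exact h6.resolve_left hnb
          · left
            rw [k1, zero_add] at hs1
            refine ⟨hs1, ?_⟩
            obtain ⟨-, w2, u2, hwu2, hall2, -, -, -⟩ := hD (M.a0 (M.a1 z1)) (by rw [hs1]; decide)
            have f1 := hall2 _ (Setoid.refl' _ _)
            rw [M.i0, ← M.lab_rV hz2] at f1
            have f2 := hall2 _ (M.rV_a1 _)
            have ht2 := (htall z1 hCz1).a1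
            rw [M.lab_rV ht2.third, M.i1, k2] at f2
            intro t ht'
            have f3 := hall2 t ht'
            rcases f1 with f1 | f1 <;> rcases f2 with f2 | f2 <;> rcases f3 with f3 | f3
            · left; rw [f3, f1]
            · exact absurd (f2.trans f1.symm) hu'w
            · left; rw [f3, f1]
            · right; rw [f3, f2]
            · right; rw [f3, f2]
            · left; rw [f3, f1]
            · exact absurd (f2.trans f1.symm) hu'w
            · left; rw [f3, f1]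
        · rintro z1 ⟨hz1, hz1'⟩
          refine ⟨Setoid.trans' _ hz1 (M.rV_a2 z1), ?_⟩
          rw [hV _ _ (M.rV_a0a2 z1), M.lab_rV (M.rV_a0a2 z1)]
          rcases hz1' with ⟨k1, k2⟩ | k
          · exact Or.inl ⟨k1, fun t ht' => k2 t
              (Setoid.trans' _ (Setoid.symm' _ (M.rV_a0a2 z1)) ht')⟩
          · exact Or.inr k

end LMap

end Pool.Agent.Lib_helper38.Adj
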